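import Mathlib

/-!
Essential dimension of `PGL_n`, in terms of central simple algebras of degree `n`.
-/

namespace helper53.ED

open scoped TensorProduct

universe u

/-- `A` is a central simple `K`-algebra of degree `n`: it is central, simple and of dimension
`n ^ 2` over `K`. -/
structure IsCSA (n : ℕ) (K A : Type u) [Field K] [Ring A] [Algebra K A] : Prop where
  central : Algebra.IsCentral K A
  simple : IsSimpleRing A
  finrank : Module.finrank K A = n ^ 2

/-- The `K`-algebra `A` is defined over the intermediate field `L` of `K / F`: there is a central
simple `L`-algebra `A₀` of degree `n` with `A ≃ K ⊗[L] A₀`. -/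
def DefinedOver (n : ℕ) {F K : Type u} [Field F] [Field K] [Algebra F K]
    (L : IntermediateField F K) (A : Type u) [Ring A] [Algebra K A] : Prop :=
  ∃ (A₀ : Type u) (_ : Ring A₀) (_ : Algebra L A₀),
    IsCSA n L A₀ ∧ Nonempty (K ⊗[L] A₀ ≃ₐ[K] A)

/-- The essential dimension over `F` of a central simple `K`-algebra `A` of degree `n`: the least
transcendence degree over `F` of an intermediate field over which `A` is defined. -/
noncomputable def edAlg (n : ℕ) (F K A : Type u) [Field F] [Field K] [Algebra F K] [Ring A]
    [Algebra K A] : ℕ∞ :=
  ⨅ (L : IntermediateField F K) (_ : DefinedOver n L A), Cardinal.toENat (Algebra.trdeg F L)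

/-- The essential dimension of `PGL_n` over `F`: the supremum of the essential dimensions of the
central simple algebras of degree `n` over the extension fields of `F`. -/
noncomputable def edPGL (n : ℕ) (F : Type u) [Field F] : ℕ∞ :=
  ⨆ (K : Type u) (_ : Field K) (_ : Algebra F K) (A : Type u) (_ : Ring A) (_ : Algebra K A)
    (_ : IsCSA n K A), edAlg n F K A

end helper53.ED
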