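import Mathlib

namespace helper53.ED

open Module MvPolynomial
open scoped Pointwise

/-- Exponents bounded by `n`. -/
def Bx (n : ℕ) : Set (Fin 3 →₀ ℕ) := {e | ∀ i, e i ≤ n}

noncomputable def bxEquiv (n : ℕ) : Bx n ≃ (Fin 3 → Fin (n + 1)) where
  toFun e := fun i => ⟨e.1 i, Nat.lt_succ_of_le (e.2 i)⟩
  invFun f := ⟨Finsupp.equivFunOnFinite.symm (fun i => (f i).val), fun i => by
    simpa using Nat.lt_succ_iff.1 (f i).isLt⟩
  left_inv e := by
    ext i
    simp
  right_inv f := by
    ext i
    simp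

noncomputable instance (n : ℕ) : Fintype (Bx n) := Fintype.ofEquiv _ (bxEquiv n).symm

theorem card_Bx (n : ℕ) : Fintype.card (Bx n) = (n + 1) ^ 3 := by
  rw [Fintype.card_congr (bxEquiv n)]
  simp

variable {F E : Type*} [Field F] [Field E] [Algebra F E]

instance finP (n : ℕ) : FiniteDimensional F (restrictSupport F (Bx n)) :=
  Module.Basis.finiteDimensional_of_finite (basisRestrictSupport F (Bx n))

theorem finrank_P (n : ℕ) : finrank F (restrictSupport F (Bx n)) = (n + 1) ^ 3 := by
  rw [Module.finrank_eq_card_basis (basisRestrictSupport F (Bx n)), card_Bx]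

theorem mul_mem_P {a b : ℕ} {p q : MvPolynomial (Fin 3) F} (hp : p ∈ restrictSupport F (Bx a))
    (hq : q ∈ restrictSupport F (Bx b)) : p * q ∈ restrictSupport F (Bx (a + b)) := by
  have h1 : p * q ∈ restrictSupport F (Bx a + Bx b) := by
    rw [restrictSupport_add]
    exact Submodule.mul_mem_mul hp hq
  refine restrictSupport_mono (R := F) ?_ h1
  rintro _ ⟨e, he, f, hf, rfl⟩ i
  exact add_le_add (he i) (hf i)

/-- The dimension of a space of Laurent monomials in three algebraically dependent elements. -/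
theorem algdep_bound {u v w : E} (hu : u ≠ 0) (hv : v ≠ 0) (hw : w ≠ 0)
    (h : ¬ AlgebraicIndependent F ![u, v, w]) :
    ∃ K : ℕ, ∀ M : ℕ, ∀ S : Set E, (∀ x ∈ S, ∃ p q r : ℤ, |p| ≤ M ∧ |q| ≤ M ∧ |r| ≤ M ∧
      x = u ^ p * v ^ q * w ^ r) →
      FiniteDimensional F (Submodule.span F S) ∧
        finrank F (Submodule.span F S) ≤ K * (M + 1) ^ 2 := by
  rw [algebraicIndependent_iff] at h
  push Not at h
  obtain ⟨R, hR, hR0⟩ := h
  -- degree bound
  obtain ⟨D, hD⟩ : ∃ D, R ∈ restrictSupport F (Bx D) := by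
    refine ⟨R.totalDegree, ?_⟩
    rw [mem_restrictSupport_iff]
    intro e he i
    have h1 : e i ≤ e.sum fun _ n => n := by
      by_cases hi : i ∈ e.support
      · exact Finset.single_le_sum (f := fun i => e i) (fun _ _ => Nat.zero_le _) hi
      · rw [Finsupp.notMem_support_iff.1 hi]; exact Nat.zero_le _
    exact h1.trans (le_totalDegree he)
  refine ⟨12 * (D + 1), fun M S hS => ?_⟩
  set n := 2 * M with hn
  let ψ : MvPolynomial (Fin 3) F →ₗ[F] E := (aeval ![u, v, w]).toLinearMap
  let P := restrictSupport F (Bx n)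
  have hP : FiniteDimensional F P := finP n
  have hrange : finrank F (P.map ψ) ≤ (n + 1) ^ 3 - (n + 1 - D) ^ 3 := by
    have h1 := LinearMap.finrank_range_add_finrank_ker (ψ.domRestrict P)
    rw [finrank_P] at h1
    have h2 : LinearMap.range (ψ.domRestrict P) = P.map ψ := by
      rw [LinearMap.range_domRestrict]
    rw [h2] at h1
    by_cases hDn : D ≤ n
    · have h3 : (n + 1 - D) ^ 3 ≤ finrank F (LinearMap.ker (ψ.domRestrict P)) := by
        have h4 : n + 1 - D = (n - D) + 1 := by omega
        rw [h4, ← finrank_P (F := F) (n - D)]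
        have hmem : ∀ p : restrictSupport F (Bx (n - D)), R * p.1 ∈ P := by
          intro p
          have := mul_mem_P hD p.2
          rwa [show D + (n - D) = n by omega] at this
        let f : restrictSupport F (Bx (n - D)) →ₗ[F] LinearMap.ker (ψ.domRestrict P) :=
          { toFun := fun p => ⟨⟨R * p.1, hmem p⟩, by
              rw [LinearMap.mem_ker]
              show aeval ![u, v, w] (R * p.1) = 0
              rw [map_mul, hR, zero_mul]⟩
            map_add' := fun p q => by
              ext1; ext1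
              simp [mul_add]
            map_smul' := fun c p => by
              ext1; ext1
              simp }
        apply LinearMap.finrank_le_finrank_of_injective (f := f)
        intro p q hpq
        have : R * p.1 = R * q.1 := congrArg (fun x => x.1.1) hpq
        exact Subtype.ext (mul_left_cancel₀ hR0 this)
      omega
    · have : n + 1 - D = 0 ∨ n + 1 - D = 1 := by omega
      have h5 : (n + 1 - D) = 0 := by omega
      rw [h5]
      simp only [ne_eq, OfNat.ofNat_ne_zero, not_false_eq_true, zero_pow, tsub_zero]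
      omega
  -- S is contained in a multiple of the image
  set c : E := (u * v * w) ^ (-(M : ℤ)) with hc
  have hc0 : c ≠ 0 := zpow_ne_zero _ (mul_ne_zero (mul_ne_zero hu hv) hw)
  have hsub : Submodule.span F S ≤ (P.map ψ).map (LinearMap.mulLeft F c) := by
    rw [Submodule.span_le]
    intro x hx
    obtain ⟨p, q, r, hp, hq, hr, rfl⟩ := hS x hx
    rw [abs_le] at hp hq hr
    obtain ⟨p', hp'⟩ := Int.eq_ofNat_of_zero_le (by linarith : 0 ≤ p + M)
    obtain ⟨q', hq'⟩ := Int.eq_ofNat_of_zero_le (by linarith : 0 ≤ q + M)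
    obtain ⟨r', hr'⟩ := Int.eq_ofNat_of_zero_le (by linarith : 0 ≤ r + M)
    refine ⟨u ^ p' * v ^ q' * w ^ r', ⟨X 0 ^ p' * X 1 ^ q' * X 2 ^ r', ?_, ?_⟩, ?_⟩
    · have : (X 0 ^ p' * X 1 ^ q' * X 2 ^ r' : MvPolynomial (Fin 3) F) =
          monomial (Finsupp.single 0 p' + Finsupp.single 1 q' + Finsupp.single 2 r') 1 := by
        rw [X_pow_eq_monomial, X_pow_eq_monomial, X_pow_eq_monomial, monomial_mul, monomial_mul]
        simp
      show _ ∈ P
      rw [this, monomial_mem_restrictSupport]
      left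
      intro i
      fin_cases i
      · simp; omega
      · simp; omega
      · simp; omega
    · show aeval ![u, v, w] _ = _
      simp
    · show c * _ = _
      rw [hc]
      have e1 : p = (p' : ℤ) - M := by linarith
      have e2 : q = (q' : ℤ) - M := by linarith
      have e3 : r = (r' : ℤ) - M := by linarith
      rw [e1, e2, e3, zpow_sub₀ hu, zpow_sub₀ hv, zpow_sub₀ hw, mul_zpow, mul_zpow]
      simp only [zpow_natCast, zpow_neg]
      field_simp
  have hfin : FiniteDimensional F ((P.map ψ).map (LinearMap.mulLeft F c)) := inferInstance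
  refine ⟨Submodule.finiteDimensional_of_le hsub, ?_⟩
  refine (Submodule.finrank_mono hsub).trans ?_
  refine (Submodule.finrank_map_le _ _).trans ?_
  refine hrange.trans ?_
  rw [tsub_le_iff_right]
  rcases le_or_gt D (n + 1) with hle | hlt
  · obtain ⟨m, hm⟩ := Nat.exists_eq_add_of_le hle
    have : n + 1 - D = m := by omega
    rw [this, hm]
    have hM : 2 * (M + 1) ≥ n + 1 := by omega
    have h1 : (D + m) ^ 2 ≤ (2 * (M + 1)) ^ 2 := Nat.pow_le_pow_left (by omega) 2
    have h2 : (D + m) ^ 3 ≤ 3 * D * (D + m) ^ 2 + m ^ 3 := by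
      nlinarith [Nat.zero_le (D * m), Nat.zero_le (D * D * m), Nat.zero_le (D * m * m),
        Nat.zero_le (D * D * D)]
    calc (D + m) ^ 3 ≤ 3 * D * (D + m) ^ 2 + m ^ 3 := h2
      _ ≤ 3 * D * (2 * (M + 1)) ^ 2 + m ^ 3 := by gcongr
      _ ≤ 12 * (D + 1) * (M + 1) ^ 2 + m ^ 3 := by nlinarith [Nat.zero_le ((M + 1) ^ 2)]
  · have : n + 1 - D = 0 := by omega
    rw [this]
    have h1 : n + 1 ≤ 2 * (M + 1) := by omega
    have h2 : (n + 1) ^ 2 ≤ (2 * (M + 1)) ^ 2 := Nat.pow_le_pow_left h1 2
    calc (n + 1) ^ 3 = (n + 1) * (n + 1) ^ 2 := by ring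
      _ ≤ D * (2 * (M + 1)) ^ 2 := Nat.mul_le_mul hlt.le h2
      _ ≤ _ := by nlinarith [Nat.zero_le ((M + 1) ^ 2), Nat.zero_le (D * (M + 1) ^ 2)]

end helper53.ED
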