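import Mathlib

namespace helper53.ED

/-- Coefficients of the `a`-th difference. -/
def wt (a j : Fin 4) : ℤ := (-1) ^ (a.val + j.val) * (a.val.choose j.val : ℤ)

theorem c2 (n : ℕ) : (2 : ℤ) * (n.choose 2 : ℤ) = n * (n - 1) := by
  rcases n with _ | n
  · simp
  · have h := Nat.descFactorial_eq_factorial_mul_choose (n + 1) 2
    have h2 : (n + 1).descFactorial 2 = (n + 1) * n := by
      simp [Nat.descFactorial]; ring
    rw [h2] at h
    have : (((n + 1) * n : ℕ) : ℤ) = ((Nat.factorial 2 * (n + 1).choose 2 : ℕ) : ℤ) := by rw [h]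
    push_cast [Nat.factorial] at this ⊢
    linarith

theorem c3 (n : ℕ) : (6 : ℤ) * (n.choose 3 : ℤ) = n * (n - 1) * (n - 2) := by
  rcases n with _ | _ | n
  · simp
  · simp
  · have h := Nat.descFactorial_eq_factorial_mul_choose (n + 2) 3
    have h2 : (n + 2).descFactorial 3 = (n + 2) * (n + 1) * n := by
      simp [Nat.descFactorial]; ring
    rw [h2] at h
    have : (((n + 2) * (n + 1) * n : ℕ) : ℤ) = ((Nat.factorial 3 * (n + 2).choose 3 : ℕ) : ℤ) := by
      rw [h]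
    push_cast [Nat.factorial] at this ⊢
    linarith

theorem wt_lt (a b : Fin 4) (B : ℕ) (h : b < a) :
    ∑ j : Fin 4, wt a j * ((B * j.val).choose b.val : ℤ) = 0 := by
  have h2 := c2 (B * 1)
  have h2' := c2 (B * 2)
  have h2'' := c2 (B * 3)
  push_cast at h2 h2' h2''
  fin_cases a <;> fin_cases b <;> (simp_all [Fin.sum_univ_four, wt]; try ring_nf at *; try linarith)

theorem wt_eq (a : Fin 4) (B : ℕ) :
    ∑ j : Fin 4, wt a j * ((B * j.val).choose a.val : ℤ) = (B : ℤ) ^ a.val := by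
  have h2 := c2 (B * 1)
  have h2' := c2 (B * 2)
  have h2'' := c2 (B * 3)
  have h3 := c3 (B * 1)
  have h3' := c3 (B * 2)
  have h3'' := c3 (B * 3)
  push_cast at h2 h2' h2'' h3 h3' h3''
  fin_cases a <;> (simp_all [Fin.sum_univ_four, wt] <;> (ring_nf at *; try linarith))

/-- `f` is the polynomial function with binomial coefficients `q`, of degree at most three in
each variable. -/
def QP (f : (Fin 4 → ℕ) → ℤ) (q : (Fin 4 → Fin 4) → ℤ) : Prop :=
  ∀ i, f i = ∑ a, q a * ∏ l, ((i l).choose (a l).val : ℤ)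

/-- Mixed difference of order `a` with step `B`. -/
def DD (a : Fin 4 → Fin 4) (B : ℕ) (f : (Fin 4 → ℕ) → ℤ) : ℤ :=
  ∑ j : Fin 4 → Fin 4, (∏ l, wt (a l) (j l)) * f (fun l => B * (j l).val)

theorem DD_QP {f q} (hf : QP f q) (a : Fin 4 → Fin 4) (B : ℕ) :
    DD a B f = ∑ b, q b * ∏ l, ∑ j : Fin 4, wt (a l) j * ((B * j.val).choose (b l).val : ℤ) := by
  unfold DD
  simp_rw [hf _, Finset.mul_sum]
  rw [Finset.sum_comm]
  refine Finset.sum_congr rfl fun b _ => ?_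
  have : ∏ l, ∑ j : Fin 4, wt (a l) j * ((B * j.val).choose (b l).val : ℤ)
      = ∑ j : Fin 4 → Fin 4, ∏ l, (wt (a l) (j l) * ((B * (j l).val).choose (b l).val : ℤ)) := by
    rw [Finset.prod_univ_sum]
    simp
  rw [this, Finset.mul_sum]
  refine Finset.sum_congr rfl fun j _ => ?_
  rw [Finset.prod_mul_distrib]
  ring

theorem DD_top {f q} (hf : QP f q) (a : Fin 4 → Fin 4) (B : ℕ)
    (h : ∀ b : Fin 4 → Fin 4, (∀ l, a l ≤ b l) → b ≠ a → q b = 0) :
    DD a B f = q a * (B : ℤ) ^ (∑ l, (a l).val) := by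
  rw [DD_QP hf, Finset.sum_eq_single a]
  · congr 1
    rw [← Finset.prod_pow_eq_pow_sum]
    exact Finset.prod_congr rfl fun l _ => wt_eq (a l) B
  · intro b _ hb
    by_cases hle : ∀ l, a l ≤ b l
    · rw [h b hle hb, zero_mul]
    · push Not at hle
      obtain ⟨l, hl⟩ := hle
      rw [Finset.prod_eq_zero (Finset.mem_univ l) (wt_lt _ _ B hl), mul_zero]
  · simp

theorem wt_abs (a j : Fin 4) : |wt a j| ≤ 3 := by
  fin_cases a <;> fin_cases j <;> simp [wt, Nat.choose]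

theorem prod_wt_abs (a j : Fin 4 → Fin 4) : |∏ l, wt (a l) (j l)| ≤ 81 := by
  rw [Finset.abs_prod]
  calc ∏ l, |wt (a l) (j l)| ≤ ∏ _l : Fin 4, (3 : ℤ) :=
        Finset.prod_le_prod (fun _ _ => abs_nonneg _) (fun l _ => wt_abs _ _)
    _ = 81 := by simp

theorem DD_bound (a : Fin 4 → Fin 4) (B : ℕ) (f : (Fin 4 → ℕ) → ℤ) (M : ℤ)
    (h : ∀ j : Fin 4 → Fin 4, (∀ l, j l ≤ a l) → |f (fun l => B * (j l).val)| ≤ M) :
    |DD a B f| ≤ 81 * 256 * M := by
  have hM : 0 ≤ M := le_trans (abs_nonneg _) (h 0 (fun l => Fin.zero_le _))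
  unfold DD
  refine (Finset.abs_sum_le_sum_abs _ _).trans ?_
  have : ∀ j ∈ (Finset.univ : Finset (Fin 4 → Fin 4)),
      |(∏ l, wt (a l) (j l)) * f (fun l => B * (j l).val)| ≤ 81 * M := by
    intro j _
    by_cases hj : ∀ l, j l ≤ a l
    · rw [abs_mul]
      exact mul_le_mul (prod_wt_abs a j) (h j hj) (abs_nonneg _) (by norm_num)
    · push Not at hj
      obtain ⟨l, hl⟩ := hj
      have : wt (a l) (j l) = 0 := by
        unfold wt
        rw [Nat.choose_eq_zero_of_lt hl]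
        simp
      rw [Finset.prod_eq_zero (Finset.mem_univ l) this]
      simp
      exact hM
  refine (Finset.sum_le_card_nsmul _ _ _ this).trans ?_
  simp
  linarith

theorem zero_of_growth (x C : ℤ) (d e : ℕ) (hde : e < d)
    (h : ∀ B : ℕ, |x| * (B : ℤ) ^ d ≤ C * ((B : ℤ) + 1) ^ e) : x = 0 := by
  have hC : 0 ≤ C := by
    have := h 0
    simp at this
    have h0 : 0 ≤ |x| * (0 : ℤ) ^ d := by positivity
    linarith
  by_contra hx
  have hx1 : 1 ≤ |x| := Int.one_le_abs hx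
  obtain ⟨C', rfl⟩ := Int.eq_ofNat_of_zero_le hC
  set B : ℕ := C' * 2 ^ e + 1 with hB
  have h1 := h B
  have hB1 : (1 : ℤ) ≤ (B : ℤ) := by rw [hB]; exact_mod_cast Nat.le_add_left 1 _
  have h2 : ((B : ℤ) + 1) ^ e ≤ (2 * (B : ℤ)) ^ e := by
    apply pow_le_pow_left₀ (by positivity)
    linarith
  have h3 : (B : ℤ) ^ (e + 1) ≤ (B : ℤ) ^ d := pow_le_pow_right₀ hB1 hde
  have h4 : (B : ℤ) ^ (e + 1) ≤ (C' : ℤ) * (2 ^ e * (B : ℤ) ^ e) := by
    calc (B : ℤ) ^ (e + 1) ≤ (B : ℤ) ^ d := h3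
      _ ≤ |x| * (B : ℤ) ^ d := by
          nlinarith [pow_pos (lt_of_lt_of_le zero_lt_one hB1) d]
      _ ≤ C' * ((B : ℤ) + 1) ^ e := h1
      _ ≤ C' * (2 * (B : ℤ)) ^ e := by
          apply mul_le_mul_of_nonneg_left h2 (by positivity)
      _ = (C' : ℤ) * (2 ^ e * (B : ℤ) ^ e) := by rw [mul_pow]
  have hpos : (0 : ℤ) < (B : ℤ) ^ e := pow_pos (lt_of_lt_of_le zero_lt_one hB1) e
  have h5 : (B : ℤ) ≤ C' * 2 ^ e := by
    have : (B : ℤ) * (B : ℤ) ^ e ≤ (C' * 2 ^ e) * (B : ℤ) ^ e := by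
      calc (B : ℤ) * (B : ℤ) ^ e = (B : ℤ) ^ (e + 1) := by ring
        _ ≤ _ := h4
        _ = _ := by ring
    exact le_of_mul_le_mul_right this hpos
  rw [hB] at h5
  push_cast at h5
  linarith

theorem sum4 {M : Type*} [AddCommMonoid M] (G : (Fin 4 → Fin 4) → M) :
    ∑ b, G b = ∑ x, ∑ y, ∑ z, ∑ u, G ![x, y, z, u] := by
  let e : (Fin 4 × Fin 4 × Fin 4 × Fin 4) ≃ (Fin 4 → Fin 4) :=
    { toFun := fun p => ![p.1, p.2.1, p.2.2.1, p.2.2.2]
      invFun := fun b => (b 0, b 1, b 2, b 3)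
      left_inv := fun p => rfl
      right_inv := fun b => by ext l; fin_cases l <;> rfl }
  rw [← Equiv.sum_comp e]
  simp only [Fintype.sum_prod_type]
  rfl

/-- The two-variable parity lemma. -/
theorem parity2 (Q : Fin 4 → Fin 4 → ℤ) (hQ : ∀ a b : Fin 4, 3 < a.val + b.val → Q a b = 0)
    (h : ∀ i k : ℕ, Odd (i + k) →
      (4 : ℤ) ∣ ∑ a : Fin 4, ∑ b : Fin 4, Q a b * ((i.choose a.val : ℤ) * (k.choose b.val : ℤ))) :
    (2 : ℤ) ∣ Q 3 0 - Q 0 3 := by
  have e1 := h 1 0 (by decide)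
  have e2 := h 0 1 (by decide)
  have e3 := h 3 0 (by decide)
  have e4 := h 0 3 (by decide)
  have e5 := h 2 1 (by decide)
  have e6 := h 1 2 (by decide)
  have e7 := h 3 2 (by decide)
  simp [Fin.sum_univ_four, Nat.choose] at e1 e2 e3 e4 e5 e6 e7
  have z1 := hQ 1 3 (by decide)
  have z2 := hQ 2 2 (by decide)
  have z3 := hQ 2 3 (by decide)
  have z4 := hQ 3 1 (by decide)
  have z5 := hQ 3 2 (by decide)
  have z6 := hQ 3 3 (by decide)
  rw [z2, z4, z5] at e7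
  omega


theorem choose_cube (n : ℕ) : ((n + 3).choose 3 : ℤ) * 6 = (n + 1) * (n + 2) * (n + 3) := by
  have := c3 (n + 3)
  push_cast at this
  linarith

theorem choose_le_cube (n : ℕ) : ((n + 3).choose 3 : ℤ) ≤ (n + 1) ^ 3 := by
  have h := choose_cube n
  have hn : (0 : ℤ) ≤ n := by positivity
  nlinarith [mul_nonneg hn hn, mul_nonneg (mul_nonneg hn hn) hn]

theorem cube_diff (x y B E : ℤ) (hx0 : 0 ≤ x) (hy0 : 0 ≤ y) (hB0 : 0 ≤ B) (hE3 : 3 ≤ E)
    (hxz : x ≤ 3 * B) (hyz : y ≤ 3 * B) :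
    (x + E) ^ 3 * (y + E) ^ 3 - x ^ 3 * y ^ 3 ≤ 2 * (27 * (E + 3) ^ 6) * 100 * (B + 1) ^ 5 := by
  have hE0 : 0 < E := by linarith
  have g : ∀ u : ℤ, 0 ≤ u → u ≤ 3 * B → (u + E) ^ 3 - u ^ 3 ≤ 27 * E ^ 3 * (B + 1) ^ 2 := by
    intro u hu0 huB
    have e1 : (u + E) ^ 3 - u ^ 3 = 3 * u ^ 2 * E + 3 * u * E ^ 2 + E ^ 3 := by ring
    rw [e1]
    have e2 : u ^ 2 ≤ 9 * (B + 1) ^ 2 := by nlinarith
    have e3 : u ≤ 3 * (B + 1) ^ 2 := by nlinarith
    have e4 : (1 : ℤ) ≤ (B + 1) ^ 2 := by nlinarith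
    have hE2 : 9 ≤ E ^ 2 := by nlinarith
    have e6 : 9 * E ≤ E ^ 3 := by
      calc 9 * E ≤ E ^ 2 * E := mul_le_mul_of_nonneg_right hE2 hE0.le
        _ = E ^ 3 := by ring
    have e7 : 3 * E ^ 2 ≤ E ^ 3 := by
      calc 3 * E ^ 2 ≤ E * E ^ 2 := mul_le_mul_of_nonneg_right hE3 (by positivity)
        _ = E ^ 3 := by ring
    have P : (0 : ℤ) ≤ (B + 1) ^ 2 := by positivity
    have E3 : 0 ≤ E ^ 3 := by positivity
    calc 3 * u ^ 2 * E + 3 * u * E ^ 2 + E ^ 3
        ≤ 3 * (9 * (B + 1) ^ 2) * E + 3 * (3 * (B + 1) ^ 2) * E ^ 2 +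
          E ^ 3 * (B + 1) ^ 2 := by
          have a1 : 3 * u ^ 2 * E ≤ 3 * (9 * (B + 1) ^ 2) * E := by gcongr
          have a2 : 3 * u * E ^ 2 ≤ 3 * (3 * (B + 1) ^ 2) * E ^ 2 := by gcongr
          have a3 : E ^ 3 * 1 ≤ E ^ 3 * (B + 1) ^ 2 := by gcongr
          linarith
      _ = (3 * (9 * E) + 3 * (3 * E ^ 2) + E ^ 3) * (B + 1) ^ 2 := by ring
      _ ≤ (27 * E ^ 3) * (B + 1) ^ 2 := by
          apply mul_le_mul_of_nonneg_right _ P
          linarith
  have g2 : ∀ u : ℤ, 0 ≤ u → u ≤ 3 * B → (u + E) ^ 3 ≤ (E + 3) ^ 3 * (B + 1) ^ 3 := by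
    intro u hu0 huB
    rw [← mul_pow]
    apply pow_le_pow_left₀ (by positivity)
    nlinarith
  have g3 : x ^ 3 ≤ (E + 3) ^ 3 * (B + 1) ^ 3 := by
    refine le_trans ?_ (g2 x hx0 hxz)
    apply pow_le_pow_left₀ hx0
    linarith
  have e1 := g x hx0 hxz
  have e2 := g y hy0 hyz
  have e3 := g2 y hy0 hyz
  have e4 : (0 : ℤ) ≤ (x + E) ^ 3 - x ^ 3 := by
    have : x ^ 3 ≤ (x + E) ^ 3 := pow_le_pow_left₀ hx0 (by linarith) 3
    linarith
  have e5 : (0 : ℤ) ≤ (y + E) ^ 3 - y ^ 3 := by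
    have : y ^ 3 ≤ (y + E) ^ 3 := pow_le_pow_left₀ hy0 (by linarith) 3
    linarith
  have e6 : E ^ 3 ≤ (E + 3) ^ 3 := pow_le_pow_left₀ (by positivity) (by linarith) 3
  have P3 : (0 : ℤ) ≤ (E + 3) ^ 3 := by positivity
  have P5 : (0 : ℤ) ≤ (B + 1) ^ 5 := by positivity
  have s1 : ((x + E) ^ 3 - x ^ 3) * (y + E) ^ 3 ≤
      (27 * E ^ 3 * (B + 1) ^ 2) * ((E + 3) ^ 3 * (B + 1) ^ 3) :=
    mul_le_mul e1 e3 (by positivity) (by positivity)
  have s2 : x ^ 3 * ((y + E) ^ 3 - y ^ 3) ≤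
      ((E + 3) ^ 3 * (B + 1) ^ 3) * (27 * E ^ 3 * (B + 1) ^ 2) :=
    mul_le_mul g3 e2 e5 (by positivity)
  have s3 : E ^ 3 * (E + 3) ^ 3 ≤ (E + 3) ^ 3 * (E + 3) ^ 3 :=
    mul_le_mul_of_nonneg_right e6 P3
  calc (x + E) ^ 3 * (y + E) ^ 3 - x ^ 3 * y ^ 3
      = ((x + E) ^ 3 - x ^ 3) * (y + E) ^ 3 + x ^ 3 * ((y + E) ^ 3 - y ^ 3) := by ring
    _ ≤ (27 * E ^ 3 * (B + 1) ^ 2) * ((E + 3) ^ 3 * (B + 1) ^ 3) +
        ((E + 3) ^ 3 * (B + 1) ^ 3) * (27 * E ^ 3 * (B + 1) ^ 2) := add_le_add s1 s2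
    _ = 54 * (E ^ 3 * (E + 3) ^ 3) * (B + 1) ^ 5 := by ring
    _ ≤ 54 * ((E + 3) ^ 3 * (E + 3) ^ 3) * (B + 1) ^ 5 := by gcongr
    _ ≤ 5400 * ((E + 3) ^ 3 * (E + 3) ^ 3) * (B + 1) ^ 5 := by gcongr; norm_num
    _ = _ := by ring

section core

variable (h : (Fin 4 → ℕ) → ℕ) (N : Fin 4 → ℕ) (q : (Fin 4 → Fin 4) → ℤ)
  (hq : QP (fun i => (h (N + i) : ℤ)) q) (d K : ℕ)
  (hdiv : ∀ n, (Odd (n 0 + n 2) ∨ Odd (n 1 + n 3)) → 4 ∣ h n)
  (hU : ∀ n, h n ≤ ((n 0 + n 2 + 4 * (d * (n 2 + n 3))) + 3).choose 3 *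
    ((n 1 + n 3 + 4 * (d * (n 2 + n 3))) + 3).choose 3)
  (hL : ∀ n, (n 0 + 3).choose 3 * (n 1 + 3).choose 3 ≤ h n)
  (hU2 : ∀ n, h n ≤ ((n 0 + 3).choose 3 * (n 1 + 3).choose 3) * (K * (n 2 + n 3 + 1) ^ 5))
  (hN : Even (N 0 + N 2)) (hN' : Even (N 1 + N 3))

include hq hU in
theorem q_high (a : Fin 4 → Fin 4) (ha : 6 < ∑ l, (a l).val) : q a = 0 := by
  -- growth bound
  have key : ∃ C : ℤ, 0 ≤ C ∧ ∀ (B : ℕ) (j : Fin 4 → Fin 4),
      |((h (N + fun l => B * (j l).val) : ℕ) : ℤ)| ≤ C * ((B : ℤ) + 1) ^ 6 := by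
    set M : ℕ := (N 0 + N 1 + N 2 + N 3 + 12) * (1 + 8 * d + 8) + 10 with hM
    refine ⟨(M : ℤ) ^ 6, by positivity, fun B j => ?_⟩
    rw [abs_of_nonneg (by positivity)]
    have hj : ∀ l, (j l).val ≤ 3 := fun l => by have := (j l).isLt; omega
    have hjB : ∀ l, B * (j l).val ≤ 3 * B := fun l => by nlinarith [hj l]
    have h1 := hU (N + fun l => B * (j l).val)
    simp only [Pi.add_apply] at h1
    have bound : ∀ x : ℕ, x ≤ N 0 + N 1 + N 2 + N 3 + 6 * B + 4 * (d * (N 2 + N 3 + 6 * B)) →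
        ((x + 3).choose 3 : ℤ) ≤ ((M : ℤ) * (B + 1)) ^ 3 := by
      intro x hx
      refine (choose_le_cube x).trans ?_
      apply pow_le_pow_left₀ (by positivity)
      have : x + 1 ≤ M * (B + 1) := by
        rw [hM]
        have hx' : x + 1 ≤ (N 0 + N 1 + N 2 + N 3 + 6 * B) + 4 * (d * (N 2 + N 3 + 6 * B)) + 1 := by
          omega
        refine hx'.trans ?_
        nlinarith [Nat.zero_le (N 0), Nat.zero_le (N 1), Nat.zero_le (N 2), Nat.zero_le (N 3),
          Nat.zero_le B, Nat.zero_le d, Nat.zero_le (N 0 * B), Nat.zero_le (N 1 * B),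
          Nat.zero_le (N 2 * B), Nat.zero_le (N 3 * B), Nat.zero_le (d * B),
          Nat.zero_le (d * N 0), Nat.zero_le (d * N 1), Nat.zero_le (d * N 2),
          Nat.zero_le (d * N 3), Nat.zero_le (d * N 0 * B), Nat.zero_le (d * N 1 * B),
          Nat.zero_le (d * N 2 * B), Nat.zero_le (d * N 3 * B)]
      exact_mod_cast this
    have hd1 : d * (N 2 + B * (j 2).val + (N 3 + B * (j 3).val)) ≤ d * (N 2 + N 3 + 6 * B) := by
      apply Nat.mul_le_mul_left
      have := hjB 2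
      have := hjB 3
      omega
    have b1 := bound (N 0 + B * (j 0).val + (N 2 + B * (j 2).val) +
      4 * (d * (N 2 + B * (j 2).val + (N 3 + B * (j 3).val)))) (by
        have := hjB 0
        have := hjB 2
        omega)
    have b2 := bound (N 1 + B * (j 1).val + (N 3 + B * (j 3).val) +
      4 * (d * (N 2 + B * (j 2).val + (N 3 + B * (j 3).val)))) (by
        have := hjB 1
        have := hjB 3
        omega)
    have h1' := (Nat.cast_le (α := ℤ)).2 h1
    refine h1'.trans ?_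
    push_cast
    calc _ ≤ ((M : ℤ) * (B + 1)) ^ 3 * ((M : ℤ) * (B + 1)) ^ 3 :=
          mul_le_mul b1 b2 (by positivity) (by positivity)
      _ = _ := by ring
  obtain ⟨C, hC, hbound⟩ := key
  -- downward induction
  have main : ∀ m : ℕ, ∀ a : Fin 4 → Fin 4, 12 - m = ∑ l, (a l).val → m ≤ 5 → q a = 0 := by
    intro m
    induction m using Nat.strong_induction_on with
    | _ m ih =>
      intro a ha hm
      have htop : ∀ b : Fin 4 → Fin 4, (∀ l, a l ≤ b l) → b ≠ a → q b = 0 := by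
        intro b hle hne
        have hlt : ∑ l, (a l).val < ∑ l, (b l).val := by
          apply Finset.sum_lt_sum
          · exact fun l _ => hle l
          · by_contra hcon
            push Not at hcon
            apply hne
            funext l
            exact le_antisymm (hcon l (Finset.mem_univ l)) (hle l)
        have hb12 : ∑ l, (b l).val ≤ 12 := by
          have : ∀ l ∈ (Finset.univ : Finset (Fin 4)), (b l).val ≤ 3 := fun l _ => by
            have := (b l).isLt; omega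
          simpa using Finset.sum_le_card_nsmul _ _ _ this
        refine ih (12 - ∑ l, (b l).val) (by omega) b (by omega) (by omega)
      refine zero_of_growth (q a) (81 * 256 * C) (∑ l, (a l).val) 6 (by omega) fun B => ?_
      have e1 := DD_top hq a B htop
      have e2 := DD_bound a B (fun i => (h (N + i) : ℤ)) (C * ((B : ℤ) + 1) ^ 6)
        (fun j _ => hbound B j)
      rw [e1, abs_mul, abs_of_nonneg (by positivity : (0 : ℤ) ≤ (B : ℤ) ^ _)] at e2
      linarith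
  have ha12 : ∑ l, (a l).val ≤ 12 := by
    have : ∀ l ∈ (Finset.univ : Finset (Fin 4)), (a l).val ≤ 3 := fun l _ => by
      have := (a l).isLt; omega
    simpa using Finset.sum_le_card_nsmul _ _ _ this
  exact main (12 - ∑ l, (a l).val) a (by omega) (by omega)

theorem top_of_six (q : (Fin 4 → Fin 4) → ℤ)
    (hz : ∀ a : Fin 4 → Fin 4, 6 < ∑ l, (a l).val → q a = 0) (a : Fin 4 → Fin 4)
    (ha : ∑ l, (a l).val = 6) (b : Fin 4 → Fin 4) (hle : ∀ l, a l ≤ b l) (hne : b ≠ a) :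
    q b = 0 := by
  apply hz
  rw [← ha]
  apply Finset.sum_lt_sum
  · exact fun l _ => hle l
  · by_contra hcon
    push Not at hcon
    apply hne
    funext l
    exact le_antisymm (hcon l (Finset.mem_univ l)) (hle l)

include hq hU hU2 in
theorem q_low : q ![0, 0, 3, 3] = 0 := by
  have hz := q_high h N q hq d hU
  have htop := top_of_six q hz ![0, 0, 3, 3] (by decide)
  set C : ℕ := ((N 0 + 3).choose 3 * (N 1 + 3).choose 3) * (K * (N 2 + N 3 + 7) ^ 5) with hC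
  refine zero_of_growth (q _) (81 * 256 * C) 6 5 (by norm_num) fun B => ?_
  have e1 := DD_top hq ![0, 0, 3, 3] B htop
  have e2 := DD_bound ![0, 0, 3, 3] B (fun i => (h (N + i) : ℤ)) (C * ((B : ℤ) + 1) ^ 5) (by
    intro j hj
    have j0 : (j 0).val = 0 := by
      have := hj 0
      simpa using this
    have j1 : (j 1).val = 0 := by
      have := hj 1
      simpa using this
    have h1 := hU2 (N + fun l => B * (j l).val)
    simp only [Pi.add_apply, j0, j1, mul_zero, add_zero] at h1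
    have j2 : (j 2).val ≤ 3 := by have := (j 2).isLt; omega
    have j3 : (j 3).val ≤ 3 := by have := (j 3).isLt; omega
    have h2 : (N 2 + B * (j 2).val + (N 3 + B * (j 3).val) + 1) ≤ (N 2 + N 3 + 7) * (B + 1) := by
      have : B * (j 2).val ≤ B * 3 := Nat.mul_le_mul_left _ j2
      have : B * (j 3).val ≤ B * 3 := Nat.mul_le_mul_left _ j3
      nlinarith [Nat.zero_le (N 2 * B), Nat.zero_le (N 3 * B)]
    have h3 := Nat.pow_le_pow_left h2 5
    have h4 : h (N + fun l => B * (j l).val) ≤ C * (B + 1) ^ 5 := by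
      refine h1.trans ?_
      rw [hC]
      calc _ ≤ ((N 0 + 3).choose 3 * (N 1 + 3).choose 3) *
            (K * ((N 2 + N 3 + 7) * (B + 1)) ^ 5) := by gcongr
        _ = _ := by ring
    show |((h (N + fun l => B * (j l).val) : ℕ) : ℤ)| ≤ _
    rw [abs_of_nonneg (by positivity)]
    exact_mod_cast h4)
  rw [e1, abs_mul, abs_of_nonneg (by positivity : (0 : ℤ) ≤ (B : ℤ) ^ _)] at e2
  have h6 : ∑ l, ((![0, 0, 3, 3] : Fin 4 → Fin 4) l).val = 6 := by decide
  rw [h6] at e2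
  linarith

include hq hU hL in
theorem q_one : q ![3, 3, 0, 0] = 1 := by
  have hz := q_high h N q hq d hU
  have htop := top_of_six q hz ![3, 3, 0, 0] (by decide)
  set E : ℕ := N 0 + N 1 + N 2 + N 3 + 4 * (d * (N 2 + N 3)) + 3 with hE
  set C : ℤ := 2 * (27 * (E + 3) ^ 6) * 100 with hC
  have key : ∀ (B : ℕ) (j : Fin 4 → Fin 4), (∀ l, j l ≤ (![3, 3, 0, 0] : Fin 4 → Fin 4) l) →
      |36 * ((h (N + fun l => B * (j l).val) : ℕ) : ℤ) -
        ((B * (j 0).val : ℕ) : ℤ) ^ 3 * ((B * (j 1).val : ℕ) : ℤ) ^ 3| ≤ C * ((B : ℤ) + 1) ^ 5 := by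
    intro B j hj
    have j2 : (j 2).val = 0 := by
      have := hj 2
      simpa using this
    have j3 : (j 3).val = 0 := by
      have := hj 3
      simpa using this
    have j0 : (j 0).val ≤ 3 := by have := (j 0).isLt; omega
    have j1 : (j 1).val ≤ 3 := by have := (j 1).isLt; omega
    have hu := hU (N + fun l => B * (j l).val)
    have hl := hL (N + fun l => B * (j l).val)
    simp only [Pi.add_apply, j2, j3, mul_zero, add_zero] at hu hl
    set x : ℕ := B * (j 0).val with hx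
    set y : ℕ := B * (j 1).val with hy
    have hxB : x ≤ 3 * B := by rw [hx]; nlinarith
    have hyB : y ≤ 3 * B := by rw [hy]; nlinarith
    -- upper bound
    have up : (36 : ℤ) * ((h (N + fun l => B * (j l).val) : ℕ) : ℤ) ≤
        ((x : ℤ) + E) ^ 3 * ((y : ℤ) + E) ^ 3 := by
      have h1 := (Nat.cast_le (α := ℤ)).2 hu
      rw [Nat.cast_mul] at h1
      have t1 : ((N 0 + x + N 2 + 4 * (d * (N 2 + N 3)) + 3).choose 3 : ℤ) * 6 ≤
          ((x : ℤ) + E) ^ 3 := by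
        rw [choose_cube]
        have : ((N 0 + x + N 2 + 4 * (d * (N 2 + N 3)) : ℕ) : ℤ) + 3 ≤ (x : ℤ) + E := by
          rw [hE]; push_cast; linarith [(Nat.cast_nonneg (N 1) : (0 : ℤ) ≤ _),
            (Nat.cast_nonneg (N 3) : (0 : ℤ) ≤ _)]
        set m : ℤ := ((N 0 + x + N 2 + 4 * (d * (N 2 + N 3)) : ℕ) : ℤ) with hm
        have hm0 : 0 ≤ m := by rw [hm]; positivity
        calc (m + 1) * (m + 2) * (m + 3) ≤ (m + 3) * (m + 3) * (m + 3) := by gcongr <;> linarith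
          _ = (m + 3) ^ 3 := by ring
          _ ≤ _ := pow_le_pow_left₀ (by linarith) this 3
      have t2 : ((N 1 + y + N 3 + 4 * (d * (N 2 + N 3)) + 3).choose 3 : ℤ) * 6 ≤
          ((y : ℤ) + E) ^ 3 := by
        rw [choose_cube]
        have : ((N 1 + y + N 3 + 4 * (d * (N 2 + N 3)) : ℕ) : ℤ) + 3 ≤ (y : ℤ) + E := by
          rw [hE]; push_cast; linarith [(Nat.cast_nonneg (N 0) : (0 : ℤ) ≤ _),
            (Nat.cast_nonneg (N 2) : (0 : ℤ) ≤ _)]
        set m : ℤ := ((N 1 + y + N 3 + 4 * (d * (N 2 + N 3)) : ℕ) : ℤ) with hm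
        have hm0 : 0 ≤ m := by rw [hm]; positivity
        calc (m + 1) * (m + 2) * (m + 3) ≤ (m + 3) * (m + 3) * (m + 3) := by gcongr <;> linarith
          _ = (m + 3) ^ 3 := by ring
          _ ≤ _ := pow_le_pow_left₀ (by linarith) this 3
      calc _ ≤ (36 : ℤ) * (_ * _) := mul_le_mul_of_nonneg_left h1 (by norm_num)
        _ = (((N 0 + x + N 2 + 4 * (d * (N 2 + N 3)) + 3).choose 3 : ℤ) * 6) *
            (((N 1 + y + N 3 + 4 * (d * (N 2 + N 3)) + 3).choose 3 : ℤ) * 6) := by ring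
        _ ≤ _ := mul_le_mul t1 t2 (by positivity) (by positivity)
    have low : (x : ℤ) ^ 3 * (y : ℤ) ^ 3 ≤
        (36 : ℤ) * ((h (N + fun l => B * (j l).val) : ℕ) : ℤ) := by
      have h1 := (Nat.cast_le (α := ℤ)).2 hl
      rw [Nat.cast_mul] at h1
      have t1 : (x : ℤ) ^ 3 ≤ ((N 0 + x + 3).choose 3 : ℤ) * 6 := by
        rw [choose_cube]
        push_cast
        have h0 : (0 : ℤ) ≤ x := by positivity
        have h0' : (0 : ℤ) ≤ N 0 := by positivity
        calc (x : ℤ) ^ 3 = x * x * x := by ring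
          _ ≤ _ := by gcongr <;> linarith
      have t2 : (y : ℤ) ^ 3 ≤ ((N 1 + y + 3).choose 3 : ℤ) * 6 := by
        rw [choose_cube]
        push_cast
        have h0 : (0 : ℤ) ≤ y := by positivity
        have h0' : (0 : ℤ) ≤ N 1 := by positivity
        calc (y : ℤ) ^ 3 = y * y * y := by ring
          _ ≤ _ := by gcongr <;> linarith
      calc _ ≤ (((N 0 + x + 3).choose 3 : ℤ) * 6) * (((N 1 + y + 3).choose 3 : ℤ) * 6) :=
            mul_le_mul t1 t2 (by positivity) (by positivity)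
        _ = (36 : ℤ) * (_ * _) := by ring
        _ ≤ _ := mul_le_mul_of_nonneg_left h1 (by norm_num)
    have hxz : (x : ℤ) ≤ 3 * B := by exact_mod_cast hxB
    have hyz : (y : ℤ) ≤ 3 * B := by exact_mod_cast hyB
    have hx0 : (0 : ℤ) ≤ x := by positivity
    have hy0 : (0 : ℤ) ≤ y := by positivity
    have hB0 : (0 : ℤ) ≤ B := by positivity
    have hE3 : (3 : ℤ) ≤ E := by rw [hE]; exact_mod_cast Nat.le_add_left 3 _
    have diff : ((x : ℤ) + E) ^ 3 * ((y : ℤ) + E) ^ 3 - (x : ℤ) ^ 3 * (y : ℤ) ^ 3 ≤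
        C * ((B : ℤ) + 1) ^ 5 := by
      rw [hC]
      exact cube_diff x y B E hx0 hy0 hB0 hE3 hxz hyz
    rw [abs_le]
    constructor
    · have : (0 : ℤ) ≤ C * ((B : ℤ) + 1) ^ 5 := by positivity
      linarith
    · linarith
  have hfin : ∀ B : ℕ, |q ![3, 3, 0, 0] - 1| * (B : ℤ) ^ 6 ≤
      (81 * 256 * C) * ((B : ℤ) + 1) ^ 5 := by
    intro B
    have e1 := DD_top hq ![3, 3, 0, 0] B htop
    have h6 : ∑ l, ((![3, 3, 0, 0] : Fin 4 → Fin 4) l).val = 6 := by decide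
    rw [h6] at e1
    have e2 : DD ![3, 3, 0, 0] B (fun i => ((i 0 : ℕ) : ℤ) ^ 3 * ((i 1 : ℕ) : ℤ) ^ 3) =
        36 * (B : ℤ) ^ 6 := by
      unfold DD
      rw [sum4]
      simp [Fin.sum_univ_four, Fin.prod_univ_four, wt, Nat.choose]
      ring
    have e3 := DD_bound ![3, 3, 0, 0] B
      (fun i => 36 * (h (N + i) : ℤ) - ((i 0 : ℕ) : ℤ) ^ 3 * ((i 1 : ℕ) : ℤ) ^ 3)
      (C * ((B : ℤ) + 1) ^ 5) (fun j hj => key B j hj)
    have e4 : DD ![3, 3, 0, 0] B
        (fun i => 36 * (h (N + i) : ℤ) - ((i 0 : ℕ) : ℤ) ^ 3 * ((i 1 : ℕ) : ℤ) ^ 3) =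
        36 * ((q ![3, 3, 0, 0] - 1) * (B : ℤ) ^ 6) := by
      have : DD ![3, 3, 0, 0] B
        (fun i => 36 * (h (N + i) : ℤ) - ((i 0 : ℕ) : ℤ) ^ 3 * ((i 1 : ℕ) : ℤ) ^ 3) =
        36 * DD ![3, 3, 0, 0] B (fun i => (h (N + i) : ℤ)) -
        DD ![3, 3, 0, 0] B (fun i => ((i 0 : ℕ) : ℤ) ^ 3 * ((i 1 : ℕ) : ℤ) ^ 3) := by
        unfold DD
        rw [Finset.mul_sum, ← Finset.sum_sub_distrib]
        refine Finset.sum_congr rfl fun j _ => ?_
        ring
      rw [this, e1, e2]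
      ring
    rw [e4, abs_mul, abs_mul, abs_of_nonneg (by positivity : (0 : ℤ) ≤ (B : ℤ) ^ _),
      abs_of_nonneg (by norm_num : (0 : ℤ) ≤ 36)] at e3
    have : 0 ≤ |q ![3, 3, 0, 0] - 1| * (B : ℤ) ^ 6 := by positivity
    linarith
  have := zero_of_growth _ _ 6 5 (by norm_num) hfin
  linarith

end core

theorem wt3 (y : Fin 4) : ∑ j : Fin 4, wt 3 j * ((j.val).choose y.val : ℤ) =
    if y = 3 then 1 else 0 := by
  by_cases h : y = 3
  · subst h
    have := wt_eq 3 1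
    simpa using this
  · have hlt : y < 3 := by
      have := y.isLt
      have h3 : y.val ≠ 3 := fun h' => h (Fin.ext h')
      exact Fin.lt_def.2 (by show y.val < 3; omega)
    have := wt_lt 3 y 1 hlt
    simpa [h] using this

theorem slice1 {f q} (hq : QP f q) (i k : ℕ) :
    ∑ j : Fin 4, wt 3 j * f ![i, j.val, k, 0] =
      ∑ x : Fin 4, ∑ z : Fin 4, q ![x, 3, z, 0] * ((i.choose x.val : ℤ) * (k.choose z.val : ℤ)) := by
  have A : ∀ j : Fin 4, f ![i, j.val, k, 0] = ∑ x : Fin 4, ∑ z : Fin 4, ∑ y : Fin 4,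
      q ![x, y, z, 0] * ((i.choose x.val : ℤ) * (k.choose z.val : ℤ)) *
        ((j.val).choose y.val : ℤ) := by
    intro j
    rw [hq, sum4]
    refine Finset.sum_congr rfl fun x _ => ?_
    rw [Finset.sum_comm]
    refine Finset.sum_congr rfl fun z _ => ?_
    refine Finset.sum_congr rfl fun y _ => ?_
    rw [Finset.sum_eq_single 0]
    · simp [Fin.prod_univ_four]
      ring
    · intro u _ hu
      have : (0 : ℕ).choose u.val = 0 := by
        apply Nat.choose_eq_zero_of_lt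
        exact Nat.pos_of_ne_zero fun h => hu (Fin.ext h)
      simp [Fin.prod_univ_four, this]
    · simp
  simp_rw [A, Finset.mul_sum]
  rw [Finset.sum_comm]
  refine Finset.sum_congr rfl fun x _ => ?_
  rw [Finset.sum_comm]
  refine Finset.sum_congr rfl fun z _ => ?_
  rw [Finset.sum_comm, Finset.sum_eq_single 3]
  · have : ∀ j : Fin 4, wt 3 j * (q ![x, 3, z, 0] * ((i.choose x.val : ℤ) * (k.choose z.val : ℤ)) *
        ((j.val).choose (3 : Fin 4).val : ℤ)) =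
        (q ![x, 3, z, 0] * ((i.choose x.val : ℤ) * (k.choose z.val : ℤ))) *
        (wt 3 j * ((j.val).choose (3 : Fin 4).val : ℤ)) := fun j => by ring
    rw [Finset.sum_congr rfl fun j _ => this j, ← Finset.mul_sum, wt3]
    simp
  · intro y _ hy
    have : ∀ j : Fin 4, wt 3 j * (q ![x, y, z, 0] * ((i.choose x.val : ℤ) * (k.choose z.val : ℤ)) *
        ((j.val).choose y.val : ℤ)) =
        (q ![x, y, z, 0] * ((i.choose x.val : ℤ) * (k.choose z.val : ℤ))) *
        (wt 3 j * ((j.val).choose y.val : ℤ)) := fun j => by ring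
    rw [Finset.sum_congr rfl fun j _ => this j, ← Finset.mul_sum, wt3]
    simp [hy]
  · simp

theorem slice2 {f q} (hq : QP f q) (i k : ℕ) :
    ∑ j : Fin 4, wt 3 j * f ![0, i, j.val, k] =
      ∑ x : Fin 4, ∑ z : Fin 4, q ![0, x, 3, z] * ((i.choose x.val : ℤ) * (k.choose z.val : ℤ)) := by
  have A : ∀ j : Fin 4, f ![0, i, j.val, k] = ∑ x : Fin 4, ∑ z : Fin 4, ∑ y : Fin 4,
      q ![0, x, y, z] * ((i.choose x.val : ℤ) * (k.choose z.val : ℤ)) *
        ((j.val).choose y.val : ℤ) := by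
    intro j
    rw [hq, sum4, Finset.sum_eq_single 0]
    · refine Finset.sum_congr rfl fun x _ => ?_
      rw [Finset.sum_comm]
      refine Finset.sum_congr rfl fun z _ => ?_
      refine Finset.sum_congr rfl fun y _ => ?_
      simp [Fin.prod_univ_four]
      ring
    · intro u _ hu
      have : (0 : ℕ).choose u.val = 0 := by
        apply Nat.choose_eq_zero_of_lt
        exact Nat.pos_of_ne_zero fun h => hu (Fin.ext h)
      simp [Fin.prod_univ_four, this]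
    · simp
  simp_rw [A, Finset.mul_sum]
  rw [Finset.sum_comm]
  refine Finset.sum_congr rfl fun x _ => ?_
  rw [Finset.sum_comm]
  refine Finset.sum_congr rfl fun z _ => ?_
  rw [Finset.sum_comm, Finset.sum_eq_single 3]
  · have : ∀ j : Fin 4, wt 3 j * (q ![0, x, 3, z] * ((i.choose x.val : ℤ) * (k.choose z.val : ℤ)) *
        ((j.val).choose (3 : Fin 4).val : ℤ)) =
        (q ![0, x, 3, z] * ((i.choose x.val : ℤ) * (k.choose z.val : ℤ))) *
        (wt 3 j * ((j.val).choose (3 : Fin 4).val : ℤ)) := fun j => by ring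
    rw [Finset.sum_congr rfl fun j _ => this j, ← Finset.mul_sum, wt3]
    simp
  · intro y _ hy
    have : ∀ j : Fin 4, wt 3 j * (q ![0, x, y, z] * ((i.choose x.val : ℤ) * (k.choose z.val : ℤ)) *
        ((j.val).choose y.val : ℤ)) =
        (q ![0, x, y, z] * ((i.choose x.val : ℤ) * (k.choose z.val : ℤ))) *
        (wt 3 j * ((j.val).choose y.val : ℤ)) := fun j => by ring
    rw [Finset.sum_congr rfl fun j _ => this j, ← Finset.mul_sum, wt3]
    simp [hy]
  · simp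

/-- The parity argument: a counting function with these properties does not exist. -/
theorem parity_core (h : (Fin 4 → ℕ) → ℕ) (N : Fin 4 → ℕ) (q : (Fin 4 → Fin 4) → ℤ)
    (hq : QP (fun i => (h (N + i) : ℤ)) q) (d K : ℕ)
    (hdiv : ∀ n, (Odd (n 0 + n 2) ∨ Odd (n 1 + n 3)) → 4 ∣ h n)
    (hU : ∀ n, h n ≤ ((n 0 + n 2 + 4 * (d * (n 2 + n 3))) + 3).choose 3 *
      ((n 1 + n 3 + 4 * (d * (n 2 + n 3))) + 3).choose 3)
    (hL : ∀ n, (n 0 + 3).choose 3 * (n 1 + 3).choose 3 ≤ h n)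
    (hU2 : ∀ n, h n ≤ ((n 0 + 3).choose 3 * (n 1 + 3).choose 3) * (K * (n 2 + n 3 + 1) ^ 5))
    (hN : Even (N 0 + N 2)) (hN' : Even (N 1 + N 3)) : False := by
  have hz := q_high h N q hq d hU
  have h1 := q_one h N q hq d hU hL
  have h0 := q_low h N q hq d K hU hU2
  have p1 := parity2 (fun a b => q ![a, 3, b, 0]) (by
    intro a b hab
    apply hz
    simp [Fin.sum_univ_four]
    omega) (by
    intro i k hik
    rw [← slice1 hq i k]
    refine Finset.dvd_sum fun j _ => Dvd.dvd.mul_left ?_ _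
    have : 4 ∣ h (N + ![i, j.val, k, 0]) := by
      apply hdiv
      left
      simp
      rw [show N 0 + i + (N 2 + k) = (N 0 + N 2) + (i + k) by ring]
      exact Even.add_odd hN hik
    exact_mod_cast this)
  have p2 := parity2 (fun a b => q ![0, a, 3, b]) (by
    intro a b hab
    apply hz
    simp [Fin.sum_univ_four]
    omega) (by
    intro i k hik
    rw [← slice2 hq i k]
    refine Finset.dvd_sum fun j _ => Dvd.dvd.mul_left ?_ _
    have : 4 ∣ h (N + ![0, i, j.val, k]) := by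
      apply hdiv
      right
      simp
      rw [show N 1 + i + (N 3 + k) = (N 1 + N 3) + (i + k) by ring]
      exact Even.add_odd hN' hik
    exact_mod_cast this)
  have p1' : (2 : ℤ) ∣ q ![3, 3, 0, 0] - q ![0, 3, 3, 0] := p1
  have p2' : (2 : ℤ) ∣ q ![0, 3, 3, 0] - q ![0, 0, 3, 3] := p2
  rw [h1] at p1'
  rw [h0] at p2'
  omega

end helper53.ED
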