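import Mathlib
import Pool.Agent.helper53.ED.Parity

namespace helper53.ED

open Finset

/-- Exponents: four types of generators, four generators of each type. -/
abbrev Ex := Fin 4 → Fin 4 → ℕ

/-- All exponents of multidegree `n`. -/
def Mon (n : Fin 4 → ℕ) : Finset Ex :=
  Fintype.piFinset fun l => Finset.piAntidiag (Finset.univ : Finset (Fin 4)) (n l)

theorem mem_Mon {n : Fin 4 → ℕ} {α : Ex} : α ∈ Mon n ↔ ∀ l, ∑ g, α l g = n l := by
  simp [Mon]

theorem card_pA (n : ℕ) :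
    (Finset.piAntidiag (Finset.univ : Finset (Fin 4)) n).card = (n + 3).choose 3 := by
  rw [← Finset.map_sym_eq_piAntidiag, Finset.card_map, Finset.sym_univ, Finset.card_univ,
    Sym.card_sym_eq_choose]
  simp
  rw [add_comm 3 n, Nat.choose_symm_add]

theorem card_Mon (n : Fin 4 → ℕ) : (Mon n).card = ∏ l, (n l + 3).choose 3 := by
  simp [Mon, card_pA]

open scoped Classical in
theorem card_Mon_ge (n : Fin 4 → ℕ) (μ : Ex) (h : ∀ l, ∑ g, μ l g ≤ n l) :
    ((Mon n).filter (μ ≤ ·)).card = ∏ l, (n l - ∑ g, μ l g + 3).choose 3 := by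
  rw [← card_Mon (fun l => n l - ∑ g, μ l g)]
  symm
  refine Finset.card_bij (fun α _ => α + μ) ?_ ?_ ?_
  · intro α hα
    rw [mem_Mon] at hα
    rw [Finset.mem_filter, mem_Mon]
    refine ⟨fun l => ?_, ?_⟩
    · simp only [Pi.add_apply, Finset.sum_add_distrib, hα l]
      have := h l
      omega
    · exact le_add_of_nonneg_left (by intro i j; simp)
  · intro α _ β _ hab
    exact add_right_cancel hab
  · intro β hβ
    rw [Finset.mem_filter, mem_Mon] at hβ
    have h2 : β - μ + μ = β := by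
      funext l g
      have : μ l g ≤ β l g := hβ.2 l g
      simp only [Pi.add_apply, Pi.sub_apply]
      omega
    refine ⟨β - μ, ?_, h2⟩
    rw [mem_Mon]
    intro l
    have h3 := hβ.1 l
    conv_lhs at h3 => rw [← h2]
    simp only [Pi.add_apply, Finset.sum_add_distrib] at h3
    omega

theorem QP_sum {ι : Type*} (s : Finset ι) (c : ι → ℤ) (f : ι → (Fin 4 → ℕ) → ℤ)
    (q : ι → (Fin 4 → Fin 4) → ℤ) (h : ∀ t ∈ s, QP (f t) (q t)) :
    QP (fun i => ∑ t ∈ s, c t * f t i) (fun a => ∑ t ∈ s, c t * q t a) := by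
  intro i
  simp only
  rw [Finset.sum_congr rfl fun t ht => by rw [h t ht i]]
  simp_rw [Finset.mul_sum, Finset.sum_mul]
  rw [Finset.sum_comm]
  refine Finset.sum_congr rfl fun a _ => Finset.sum_congr rfl fun t _ => ?_
  ring

theorem vander (e i : ℕ) : ((e + i).choose 3 : ℤ) =
    ∑ a : Fin 4, (e.choose (3 - a.val) : ℤ) * (i.choose a.val : ℤ) := by
  rw [add_comm, Nat.add_choose_eq]
  simp [Finset.Nat.antidiagonal_succ, Fin.sum_univ_four]
  ring

theorem QP_prod (e : Fin 4 → ℕ) :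
    QP (fun i => ∏ l, ((e l + i l).choose 3 : ℤ))
      (fun a => ∏ l, ((e l).choose (3 - (a l).val) : ℤ)) := by
  intro i
  simp only
  rw [Finset.prod_congr rfl fun l _ => vander (e l) (i l), Finset.prod_univ_sum]
  simp [Finset.prod_mul_distrib]

theorem upset_basis (U : Set Ex) (hU : ∀ α ∈ U, ∀ β, α ≤ β → β ∈ U) :
    ∃ M : Finset Ex, ∀ α, α ∈ U ↔ ∃ m ∈ M, m ≤ α := by
  have hwf : WellFoundedLT Ex := inferInstance
  have hfin : {m : Ex | Minimal (· ∈ U) m}.Finite := by
    apply WellQuasiOrderedLE.finite_of_isAntichain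
    exact setOfPred_minimal_antichain _
  refine ⟨hfin.toFinset, fun α => ⟨fun hα => ?_, ?_⟩⟩
  · obtain ⟨m, hm, hmin⟩ := exists_minimal_le_of_wellFoundedLT (· ∈ U) α hα
    exact ⟨m, by simpa using hmin, hm⟩
  · rintro ⟨m, hm, hle⟩
    rw [Set.Finite.mem_toFinset] at hm
    exact hU m hm.prop α hle

open scoped Classical in
/-- The number of exponents of multidegree `n` outside `U`. -/
noncomputable def cnt (U : Set Ex) (n : Fin 4 → ℕ) : ℕ := ((Mon n).filter (· ∉ U)).card

theorem QP_upset (U : Set Ex) (hU : ∀ α ∈ U, ∀ β, α ≤ β → β ∈ U) :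
    ∃ N0 : Fin 4 → ℕ, ∀ N, N0 ≤ N → ∃ q, QP (fun i => (cnt U (N + i) : ℤ)) q := by
  classical
  obtain ⟨M, hM⟩ := upset_basis U hU
  refine ⟨fun l => ∑ g, (M.sup id) l g, fun N hN => ?_⟩
  refine ⟨fun a => ∑ t ∈ M.powerset, (-1) ^ t.card *
    ∏ l, ((N l - ∑ g, (t.sup id) l g + 3).choose (3 - (a l).val) : ℤ), ?_⟩
  have key := QP_sum M.powerset (fun t => (-1) ^ t.card)
    (fun t i => ∏ l, ((N l - ∑ g, (t.sup id) l g + 3 + i l).choose 3 : ℤ))
    (fun t a => ∏ l, ((N l - ∑ g, (t.sup id) l g + 3).choose (3 - (a l).val) : ℤ))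
    (fun t _ => QP_prod _)
  intro i
  rw [← key i]
  have e1 : (cnt U (N + i) : ℤ) =
      ∑ α ∈ Mon (N + i), ∏ m ∈ M, (-(if m ≤ α then 1 else 0) + 1 : ℤ) := by
    unfold cnt
    rw [Finset.card_filter]
    push_cast
    refine Finset.sum_congr rfl fun α _ => ?_
    by_cases hα : α ∈ U
    · obtain ⟨m, hm, hle⟩ := (hM α).1 hα
      rw [Finset.prod_eq_zero hm (by simp [hle])]
      simp [hα]
    · have : ∀ m ∈ M, ¬ m ≤ α := fun m hm hle => hα ((hM α).2 ⟨m, hm, hle⟩)
      rw [Finset.prod_eq_one fun m hm => by simp [this m hm]]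
      simp [hα]
  have e2 : ∀ α : Ex, ∏ m ∈ M, (-(if m ≤ α then 1 else 0) + 1 : ℤ) =
      ∑ t ∈ M.powerset, (-1) ^ t.card * (if t.sup id ≤ α then 1 else 0) := by
    intro α
    rw [Finset.prod_add]
    refine Finset.sum_congr rfl fun t _ => ?_
    rw [Finset.prod_const_one, mul_one]
    by_cases ht : t.sup id ≤ α
    · rw [if_pos ht]
      rw [Finset.sup_le_iff] at ht
      have ht' : ∀ m ∈ t, (-(if m ≤ α then 1 else 0) : ℤ) = -1 := fun m hm => by
        rw [if_pos (show m ≤ α from ht m hm)]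
      rw [Finset.prod_congr rfl ht']
      simp
    · rw [if_neg ht, mul_zero]
      rw [Finset.sup_le_iff] at ht
      push Not at ht
      obtain ⟨m, hm, hle⟩ := ht
      exact Finset.prod_eq_zero hm (by simp at hle; simp [hle])
  simp only
  rw [e1, Finset.sum_congr rfl fun α _ => e2 α, Finset.sum_comm]
  refine Finset.sum_congr rfl fun t ht => ?_
  rw [← Finset.mul_sum]
  congr 1
  rw [Finset.mem_powerset] at ht
  have hdeg : ∀ l, ∑ g, (t.sup id) l g ≤ N l := fun l =>
    (Finset.sum_le_sum fun g _ => (Finset.sup_mono ht : t.sup id ≤ M.sup id) l g).trans (hN l)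
  have e3 := card_Mon_ge (N + i) (t.sup id) (fun l => (hdeg l).trans (by simp))
  have e4 : (∑ α ∈ Mon (N + i), (if t.sup id ≤ α then 1 else 0 : ℤ)) =
      (((Mon (N + i)).filter (t.sup id ≤ ·)).card : ℤ) := by
    rw [Finset.card_filter]
    push_cast
    rfl
  rw [e4, e3]
  push_cast
  refine Finset.prod_congr rfl fun l _ => ?_
  have := hdeg l
  rw [show ((N + i) l - ∑ g, (t.sup id) l g + 3) = N l - ∑ g, (t.sup id) l g + 3 + i l by
    simp only [Pi.add_apply]; omega]

end helper53.ED
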