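import Mathlib

namespace helper53.ED

open Module

section std

variable {F E : Type*} [Field F] [AddCommGroup E] [Module F E]

theorem fin_span_image {A : Type*} (f : A → E) (M : Finset A) :
    FiniteDimensional F (Submodule.span F (f '' (M : Set A))) :=
  FiniteDimensional.span_of_finite F (M.finite_toSet.image f)

theorem finrank_sup_singleton (p : Submodule F E) [FiniteDimensional F p] (v : E) (hv : v ∉ p) :
    finrank F ↥(p ⊔ Submodule.span F {v}) = finrank F p + 1 := by
  have h := Submodule.finrank_sup_add_finrank_inf_eq p (Submodule.span F {v})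
  have h0 : v ≠ 0 := fun h => hv (h ▸ p.zero_mem)
  have h1 : p ⊓ Submodule.span F {v} = ⊥ := by
    rw [eq_bot_iff]
    rintro x ⟨hx, hx'⟩
    obtain ⟨c, rfl⟩ := Submodule.mem_span_singleton.1 hx'
    by_cases hc : c = 0
    · simp [hc]
    · exact absurd ((p.smul_mem_iff hc).1 hx) hv
  rw [h1, finrank_bot, finrank_span_singleton h0] at h
  simpa using h

open scoped Classical in
/-- The number of elements of `M` whose value is not in the span of the earlier values is the
dimension of the span. -/
theorem std_card {A Λ : Type*} [LinearOrder Λ] (κ : A → Λ) (hκ : Function.Injective κ)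
    (f : A → E) (M : Finset A) :
    (M.filter (fun α => f α ∉ Submodule.span F (f '' {β | β ∈ M ∧ κ β < κ α}))).card =
      finrank F (Submodule.span F (f '' (M : Set A))) := by
  induction M using Finset.induction_on_max_value κ with
  | empty =>
    rw [Finset.coe_empty, Set.image_empty, Submodule.span_empty, finrank_bot]
    simp
  | insert a s ha hmax ih =>
    have hlt : ∀ x ∈ s, κ x < κ a := fun x hx =>
      lt_of_le_of_ne (hmax x hx) fun h => ha (hκ h ▸ hx)
    have hs : ∀ x ∈ s, {β | β ∈ insert a s ∧ κ β < κ x} = {β | β ∈ s ∧ κ β < κ x} := by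
      intro x hx
      ext β
      simp only [Finset.mem_insert, Set.mem_ofPred_eq]
      constructor
      · rintro ⟨rfl | h, h'⟩
        · exact absurd h' (not_lt.2 (hmax x hx))
        · exact ⟨h, h'⟩
      · rintro ⟨h, h'⟩
        exact ⟨Or.inr h, h'⟩
    have ha' : {β | β ∈ insert a s ∧ κ β < κ a} = (s : Set A) := by
      ext β
      simp only [Finset.mem_insert, Set.mem_ofPred_eq, Finset.mem_coe]
      constructor
      · rintro ⟨rfl | h, h'⟩
        · exact absurd h' (lt_irrefl _)
        · exact h
      · intro h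
        exact ⟨Or.inr h, hlt β h⟩
    have hfs : s.filter (fun α => f α ∉ Submodule.span F (f '' {β | β ∈ insert a s ∧ κ β < κ α}))
        = s.filter (fun α => f α ∉ Submodule.span F (f '' {β | β ∈ s ∧ κ β < κ α})) := by
      apply Finset.filter_congr
      intro x hx
      rw [hs x hx]
    rw [Finset.filter_insert, ha', hfs, Finset.coe_insert, Set.image_insert_eq,
      Submodule.span_insert, sup_comm]
    have := fin_span_image (F := F) f s
    by_cases hfa : f a ∈ Submodule.span F (f '' (s : Set A))
    · rw [if_neg (by simpa using hfa), ih, sup_eq_left.2]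
      rwa [Submodule.span_singleton_le_iff_mem]
    · rw [if_pos hfa, finrank_sup_singleton _ _ hfa, Finset.card_insert_of_notMem, ih]
      simp [ha]

end std

/-- A function invariant under a free action of the four-group has sum divisible by four. -/
theorem four_dvd_sum {X : Type*} (Ω : Finset X) (s t : X → X) (d : X → ℕ)
    (hs : ∀ x, s (s x) = x) (ht : ∀ x, t (t x) = x) (hst : ∀ x, s (t x) = t (s x))
    (hsΩ : ∀ x ∈ Ω, s x ∈ Ω) (htΩ : ∀ x ∈ Ω, t x ∈ Ω)
    (fs : ∀ x ∈ Ω, s x ≠ x) (ft : ∀ x ∈ Ω, t x ≠ x) (fst : ∀ x ∈ Ω, s (t x) ≠ x)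
    (ds : ∀ x ∈ Ω, d (s x) = d x) (dt : ∀ x ∈ Ω, d (t x) = d x) : 4 ∣ ∑ x ∈ Ω, d x := by
  classical
  let orb : X → Finset X := fun x => {x, s x, t x, s (t x)}
  have horb : ∀ x, ∀ y ∈ orb x, orb y = orb x := by
    intro x y hy
    simp only [orb, Finset.mem_insert, Finset.mem_singleton] at hy ⊢
    ext u
    simp only [Finset.mem_insert, Finset.mem_singleton]
    rcases hy with rfl | rfl | rfl | rfl
    · rfl
    · rw [hs, ← hst x, hs (t x)]; tauto
    · rw [ht]; tauto
    · rw [hs (t x), ← hst (t x), ht x, hs x]; tauto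
  have hself : ∀ x, x ∈ orb x := fun x => by simp [orb]
  rw [← Finset.sum_fiberwise_of_maps_to (t := Ω.image orb) (g := orb)
    (fun x hx => Finset.mem_image_of_mem _ hx)]
  apply Finset.dvd_sum
  intro o ho
  obtain ⟨x, hx, rfl⟩ := Finset.mem_image.1 ho
  have hfib : Ω.filter (fun y => orb y = orb x) = orb x := by
    ext y
    rw [Finset.mem_filter]
    constructor
    · rintro ⟨_, h⟩
      rw [← h]
      exact hself y
    · intro hy
      refine ⟨?_, horb x y hy⟩
      simp only [orb, Finset.mem_insert, Finset.mem_singleton] at hy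
      rcases hy with rfl | rfl | rfl | rfl
      · exact hx
      · exact hsΩ _ hx
      · exact htΩ _ hx
      · exact hsΩ _ (htΩ _ hx)
  rw [hfib]
  have e1 : x ≠ s x := (fs x hx).symm
  have e2 : x ≠ t x := (ft x hx).symm
  have e3 : x ≠ s (t x) := (fst x hx).symm
  have e4 : s x ≠ t x := by
    intro h
    apply fst x hx
    rw [← h, hs]
  have e5 : s x ≠ s (t x) := by
    intro h
    apply e2
    have := congrArg s h
    rwa [hs, hs] at this
  have e6 : t x ≠ s (t x) := (fs _ (htΩ x hx)).symm
  have hd1 := ds x hx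
  have hd2 := dt x hx
  have hd3 := ds _ (htΩ x hx)
  simp only [orb]
  rw [Finset.sum_insert (by simp [e1, e2, e3]), Finset.sum_insert (by simp [e4, e5]),
    Finset.sum_insert (by simp [e6]), Finset.sum_singleton, hd3, hd1, hd2]
  exact ⟨d x, by ring⟩

end helper53.ED
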