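import Mathlib
import Pool.Agent.helper53.ED.Count
import Pool.Agent.helper53.ED.Lin
import Pool.Agent.helper53.ED.AlgDep

namespace helper53.ED

open Module

/-- Laurent monomials. -/
def mo {E : Type*} [Field E] (z1 z2 z3 : E) (p : ℤ × ℤ × ℤ) : E :=
  z1 ^ p.1 * z2 ^ p.2.1 * z3 ^ p.2.2

/-- A field with an action of the four-group and a generic element of norm one. -/
structure TD (F E : Type*) [Field F] [Field E] [Algebra F E] where
  s : E ≃ₐ[F] E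
  t : E ≃ₐ[F] E
  hs : ∀ x, s (s x) = x
  ht : ∀ x, t (t x) = x
  hst : ∀ x, s (t x) = t (s x)
  z1 : E
  z2 : E
  z3 : E
  h1 : z1 ≠ 0
  h2 : z2 ≠ 0
  h3 : z3 ≠ 0
  s1 : s z1 = z2
  t1 : t z1 = z3
  s3 : s z3 = z1⁻¹ * z2⁻¹ * z3⁻¹
  li : LinearIndependent F (mo z1 z2 z3)
  gen : ∀ x : E, ∃ A ∈ Submodule.span F (Set.range (mo z1 z2 z3)),
    ∃ B ∈ Submodule.span F (Set.range (mo z1 z2 z3)), B ≠ 0 ∧ x * B = A

/-- Swap of indices by the first involution. -/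
def sp : Fin 4 → Fin 4 := ![1, 0, 3, 2]
/-- Swap of indices by the second involution. -/
def tp : Fin 4 → Fin 4 := ![2, 3, 0, 1]

def sEx (α : Ex) : Ex := fun l g => α l (sp g)
def tEx (α : Ex) : Ex := fun l g => α l (tp g)

/-- exponent of the monomial part -/
def ee (α : Ex) : ℤ × ℤ × ℤ :=
  (-((α 0 2 : ℤ) + α 2 2) - ((α 1 2 : ℤ) + α 3 2), -((α 0 3 : ℤ) + α 2 3), -((α 1 2 : ℤ) + α 3 2))

/-- torus weight -/
def ww (α : Ex) : Fin 4 → ℤ :=
  ![((α 0 1 : ℤ) + α 2 1) - ((α 0 0 : ℤ) + α 2 0) + ((α 1 2 : ℤ) + α 3 2) - ((α 1 0 : ℤ) + α 3 0),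
    ((α 0 0 : ℤ) + α 2 0) - ((α 0 1 : ℤ) + α 2 1) + ((α 1 3 : ℤ) + α 3 3) - ((α 1 1 : ℤ) + α 3 1),
    ((α 0 3 : ℤ) + α 2 3) - ((α 0 2 : ℤ) + α 2 2) + ((α 1 0 : ℤ) + α 3 0) - ((α 1 2 : ℤ) + α 3 2),
    ((α 0 2 : ℤ) + α 2 2) - ((α 0 3 : ℤ) + α 2 3) + ((α 1 1 : ℤ) + α 3 1) - ((α 1 3 : ℤ) + α 3 3)]

def dg (α : Ex) : Fin 4 → ℕ := fun l => ∑ g, α l g

theorem ww_add (α β : Ex) : ww (α + β) = ww α + ww β := by
  funext i
  fin_cases i <;> simp [ww] <;> ring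

theorem ee_add (α β : Ex) : ee (α + β) = ee α + ee β := by
  simp [ee, Prod.ext_iff]
  refine ⟨?_, ?_, ?_⟩ <;> ring

theorem dg_add (α β : Ex) : dg (α + β) = dg α + dg β := by
  funext l
  simp [dg, Finset.sum_add_distrib]

theorem mem_Mon' {n : Fin 4 → ℕ} {α : Ex} : α ∈ Mon n ↔ dg α = n := by
  rw [mem_Mon]
  exact ⟨fun h => funext h, fun h l => congrFun h l⟩

theorem dg_sEx (α : Ex) : dg (sEx α) = dg α := by
  funext l
  simp [dg, sEx, sp, Fin.sum_univ_four]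
  ring

theorem dg_tEx (α : Ex) : dg (tEx α) = dg α := by
  funext l
  simp [dg, tEx, tp, Fin.sum_univ_four]
  ring

theorem sEx_sEx (α : Ex) : sEx (sEx α) = α := by
  funext l g
  fin_cases g <;> rfl

theorem tEx_tEx (α : Ex) : tEx (tEx α) = α := by
  funext l g
  fin_cases g <;> rfl

theorem ww_sEx (α : Ex) : ww (sEx α) = ww α ∘ sp := by
  funext i
  fin_cases i <;> simp [ww, sEx, sp]

theorem ww_tEx (α : Ex) : ww (tEx α) = ww α ∘ tp := by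
  funext i
  fin_cases i <;> simp [ww, tEx, tp]

namespace TD

variable {F E : Type*} [Field F] [Field E] [Algebra F E] (T : TD F E)

/-- the monomials -/
def m (p : ℤ × ℤ × ℤ) : E := mo T.z1 T.z2 T.z3 p

theorem m_add (p q : ℤ × ℤ × ℤ) : T.m (p + q) = T.m p * T.m q := by
  simp only [m, mo, Prod.fst_add, Prod.snd_add]
  rw [zpow_add₀ T.h1, zpow_add₀ T.h2, zpow_add₀ T.h3]
  ring

theorem m_zero : T.m 0 = 1 := by simp [m, mo]

theorem m_ne (p) : T.m p ≠ 0 :=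
  mul_ne_zero (mul_ne_zero (zpow_ne_zero _ T.h1) (zpow_ne_zero _ T.h2)) (zpow_ne_zero _ T.h3)

theorem s2 : T.s T.z2 = T.z1 := by rw [← T.s1, T.hs]
theorem t3 : T.t T.z3 = T.z1 := by rw [← T.t1, T.ht]
theorem t2 : T.t T.z2 = T.z1⁻¹ * T.z2⁻¹ * T.z3⁻¹ := by
  rw [← T.s1, ← T.hst, T.t1, T.s3, T.s1]

theorem s_m (a b c : ℤ) : T.s (T.m (a, b, c)) = T.m (b - c, a - c, -c) := by
  simp only [m, mo, map_mul, map_zpow₀, T.s1, T.s2, T.s3]
  rw [mul_zpow, mul_zpow, zpow_sub₀ T.h1, zpow_sub₀ T.h2]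
  simp only [inv_zpow, zpow_neg]
  field_simp

theorem t_m (a b c : ℤ) : T.t (T.m (a, b, c)) = T.m (c - b, -b, a - b) := by
  simp only [m, mo, map_mul, map_zpow₀, T.t1, T.t2, T.t3]
  rw [mul_zpow, mul_zpow, zpow_sub₀ T.h1, zpow_sub₀ T.h3]
  simp only [inv_zpow, zpow_neg]
  field_simp

def act (g : Fin 4) : E ≃ₐ[F] E := ![AlgEquiv.refl, T.s, T.t, T.t.trans T.s] g

section phi

variable (φ1 φ2 : E)

def Phi (α : Ex) : E := (∏ g, (T.act g φ1) ^ (α 2 g)) * ∏ g, (T.act g φ2) ^ (α 3 g)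

def ev (α : Ex) : E := T.m (ee α) * T.Phi φ1 φ2 α

theorem Phi_add (α β : Ex) : T.Phi φ1 φ2 (α + β) = T.Phi φ1 φ2 α * T.Phi φ1 φ2 β := by
  simp only [Phi, Pi.add_apply, pow_add, Finset.prod_mul_distrib]
  ring

theorem ev_add (α β : Ex) : T.ev φ1 φ2 (α + β) = T.ev φ1 φ2 α * T.ev φ1 φ2 β := by
  simp only [ev, ee_add, m_add, Phi_add]
  ring

theorem Phi_sEx (α : Ex) : T.Phi φ1 φ2 (sEx α) = T.s (T.Phi φ1 φ2 α) := by
  simp [Phi, Fin.prod_univ_four, sEx, sp, act, T.hs]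
  ring

theorem Phi_tEx (α : Ex) : T.Phi φ1 φ2 (tEx α) = T.t (T.Phi φ1 φ2 α) := by
  simp [Phi, Fin.prod_univ_four, tEx, tp, act, T.ht, T.hst]
  ring

theorem ee_s {α β : Ex} (hd : dg α = dg β) (hw : ww α = ww β) :
    T.m (ee (sEx α)) * T.s (T.m (ee β)) = T.m (ee (sEx β)) * T.s (T.m (ee α)) := by
  have d0 := congrFun hd 0
  have d1 := congrFun hd 1
  have d2 := congrFun hd 2
  have d3 := congrFun hd 3
  have w0 := congrFun hw 0
  have w1 := congrFun hw 1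
  have w2 := congrFun hw 2
  have w3 := congrFun hw 3
  simp only [dg, Fin.sum_univ_four] at d0 d1 d2 d3
  simp [ww] at w0 w1 w2 w3
  have e1 : ee β = ((ee β).1, (ee β).2.1, (ee β).2.2) := rfl
  have e2 : ee α = ((ee α).1, (ee α).2.1, (ee α).2.2) := rfl
  rw [e1, e2, s_m, s_m, ← m_add, ← m_add]
  congr 1
  simp only [ee, sEx, sp, Prod.ext_iff, Prod.fst_add, Prod.snd_add]
  simp
  omega

theorem ee_t {α β : Ex} (hd : dg α = dg β) (hw : ww α = ww β) :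
    T.m (ee (tEx α)) * T.t (T.m (ee β)) = T.m (ee (tEx β)) * T.t (T.m (ee α)) := by
  have d0 := congrFun hd 0
  have d1 := congrFun hd 1
  have d2 := congrFun hd 2
  have d3 := congrFun hd 3
  have w0 := congrFun hw 0
  have w1 := congrFun hw 1
  have w2 := congrFun hw 2
  have w3 := congrFun hw 3
  simp only [dg, Fin.sum_univ_four] at d0 d1 d2 d3
  simp [ww] at w0 w1 w2 w3
  have e1 : ee β = ((ee β).1, (ee β).2.1, (ee β).2.2) := rfl
  have e2 : ee α = ((ee α).1, (ee α).2.1, (ee α).2.2) := rfl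
  rw [e1, e2, t_m, t_m, ← m_add, ← m_add]
  congr 1
  simp only [ee, tEx, tp, Prod.ext_iff, Prod.fst_add, Prod.snd_add]
  simp
  omega

theorem ev_s {α β : Ex} (hd : dg α = dg β) (hw : ww α = ww β) :
    T.ev φ1 φ2 (sEx α) * T.s (T.ev φ1 φ2 β) = T.ev φ1 φ2 (sEx β) * T.s (T.ev φ1 φ2 α) := by
  have h := T.ee_s hd hw
  simp only [ev, map_mul, Phi_sEx]
  linear_combination (T.s (T.Phi φ1 φ2 α) * T.s (T.Phi φ1 φ2 β)) * h

theorem ev_t {α β : Ex} (hd : dg α = dg β) (hw : ww α = ww β) :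
    T.ev φ1 φ2 (tEx α) * T.t (T.ev φ1 φ2 β) = T.ev φ1 φ2 (tEx β) * T.t (T.ev φ1 φ2 α) := by
  have h := T.ee_t hd hw
  simp only [ev, map_mul, Phi_tEx]
  linear_combination (T.t (T.Phi φ1 φ2 α) * T.t (T.Phi φ1 φ2 β)) * h

/-- exponents of multidegree `n` and weight `ω` -/
def cls (n : Fin 4 → ℕ) (ω : Fin 4 → ℤ) : Finset Ex := (Mon n).filter (fun α => ww α = ω)

theorem mem_cls {n : Fin 4 → ℕ} {ω : Fin 4 → ℤ} {α : Ex} :
    α ∈ cls n ω ↔ dg α = n ∧ ww α = ω := by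
  rw [cls, Finset.mem_filter, mem_Mon']

/-- the dimension of a weight space -/
noncomputable def dd (n : Fin 4 → ℕ) (ω : Fin 4 → ℤ) : ℕ :=
  finrank F (Submodule.span F (T.ev φ1 φ2 '' (cls n ω : Set Ex)))

/-- a key for a monomial order -/
def key (α : Ex) : Lex (Fin 4 → Lex (Fin 4 → ℕ)) := toLex (fun l => toLex (α l))

theorem key_inj : Function.Injective key := by
  intro α β h
  funext l g
  have := congrFun (toLex.injective h) l
  exact congrFun (toLex.injective this) g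

theorem key_add (α β : Ex) : key (α + β) = key α + key β := rfl

/-- nonstandard exponents -/
def UU : Set Ex := {α | T.ev φ1 φ2 α ∈ Submodule.span F
  (T.ev φ1 φ2 '' {β | β ∈ cls (dg α) (ww α) ∧ key β < key α})}

theorem UU_up (α : Ex) (hα : α ∈ T.UU φ1 φ2) (β : Ex) (hβ : α ≤ β) : β ∈ T.UU φ1 φ2 := by
  obtain ⟨γ, rfl⟩ : ∃ γ, β = α + γ := ⟨β - α, by
    funext l g
    have : α l g ≤ β l g := hβ l g
    simp only [Pi.add_apply, Pi.sub_apply]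
    omega⟩
  show T.ev φ1 φ2 (α + γ) ∈ Submodule.span F
    (T.ev φ1 φ2 '' {β | β ∈ cls (dg (α + γ)) (ww (α + γ)) ∧ key β < key (α + γ)})
  have h1 : T.ev φ1 φ2 (α + γ) ∈ (Submodule.span F
      (T.ev φ1 φ2 '' {β | β ∈ cls (dg α) (ww α) ∧ key β < key α})).map
        (LinearMap.mulRight F (T.ev φ1 φ2 γ)) := by
    refine ⟨_, hα, ?_⟩
    simp [ev_add]
  rw [Submodule.map_span] at h1
  refine Submodule.span_mono ?_ h1
  rintro _ ⟨_, ⟨β, ⟨hβ1, hβ2⟩, rfl⟩, rfl⟩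
  refine ⟨β + γ, ⟨?_, ?_⟩, ?_⟩
  · rw [mem_cls] at hβ1 ⊢
    rw [dg_add, dg_add, ww_add, ww_add, hβ1.1, hβ1.2]
    exact ⟨rfl, rfl⟩
  · rw [key_add, key_add]
    exact add_lt_add_left hβ2 _
  · simp [ev_add]

theorem cnt_eq (n : Fin 4 → ℕ) :
    cnt (T.UU φ1 φ2) n = ∑ ω ∈ (Mon n).image ww, T.dd φ1 φ2 n ω := by
  classical
  unfold cnt
  rw [Finset.card_eq_sum_card_fiberwise (f := ww) (t := (Mon n).image ww) (by
    intro α hα
    exact Finset.mem_coe.2 (Finset.mem_image_of_mem _ (Finset.mem_filter.1 hα).1))]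
  refine Finset.sum_congr rfl fun ω _ => ?_
  unfold dd
  rw [← std_card key key_inj]
  congr 1
  ext α
  simp only [Finset.mem_filter, mem_cls, UU, mem_Mon', Set.mem_ofPred_eq]
  constructor
  · rintro ⟨⟨h1, h2⟩, rfl⟩
    subst h1
    exact ⟨⟨rfl, rfl⟩, h2⟩
  · rintro ⟨⟨rfl, rfl⟩, h2⟩
    exact ⟨⟨rfl, h2⟩, rfl⟩

theorem ev_ne (h1 : φ1 ≠ 0) (h2 : φ2 ≠ 0) (α : Ex) : T.ev φ1 φ2 α ≠ 0 := by
  refine mul_ne_zero (T.m_ne _) (mul_ne_zero ?_ ?_)
  · exact Finset.prod_ne_zero_iff.2 fun g _ => pow_ne_zero _ (by simpa using h1)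
  · exact Finset.prod_ne_zero_iff.2 fun g _ => pow_ne_zero _ (by simpa using h2)

theorem dd_s_le (h1 : φ1 ≠ 0) (h2 : φ2 ≠ 0) (n : Fin 4 → ℕ) (ω : Fin 4 → ℤ) :
    T.dd φ1 φ2 n (ω ∘ sp) ≤ T.dd φ1 φ2 n ω := by
  unfold dd
  rcases (cls n (ω ∘ sp)).eq_empty_or_nonempty with he | ⟨β0, hβ0⟩
  · rw [he, Finset.coe_empty, Set.image_empty, Submodule.span_empty, finrank_bot]
    exact Nat.zero_le _
  have hcl : ∀ β ∈ cls n (ω ∘ sp), sEx β ∈ cls n ω := by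
    intro β hβ
    rw [mem_cls] at hβ ⊢
    rw [dg_sEx, ww_sEx, hβ.1, hβ.2]
    refine ⟨rfl, ?_⟩
    funext i
    fin_cases i <;> rfl
  have hα0 := hcl β0 hβ0
  set α0 := sEx β0 with hα0def
  have hne := T.ev_ne φ1 φ2 h1 h2 α0
  let c : E := T.ev φ1 φ2 β0 * (T.s (T.ev φ1 φ2 α0))⁻¹
  let L : E →ₗ[F] E := (LinearMap.mulLeft F c).comp T.s.toLinearMap
  have hfd := fin_span_image (F := F) (T.ev φ1 φ2) (cls n ω)
  have hsub : Submodule.span F (T.ev φ1 φ2 '' (cls n (ω ∘ sp) : Set Ex)) ≤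
      (Submodule.span F (T.ev φ1 φ2 '' (cls n ω : Set Ex))).map L := by
    rw [Submodule.span_le]
    rintro _ ⟨β, hβ, rfl⟩
    refine ⟨T.ev φ1 φ2 (sEx β), Submodule.subset_span ⟨sEx β, hcl β hβ, rfl⟩, ?_⟩
    show c * T.s (T.ev φ1 φ2 (sEx β)) = _
    have e1 := mem_cls.1 (hcl β hβ)
    have e2 := mem_cls.1 hα0
    have e3 := T.ev_s φ1 φ2 (α := sEx β) (β := α0) (e1.1.trans e2.1.symm) (e1.2.trans e2.2.symm)
    rw [sEx_sEx, hα0def, sEx_sEx] at e3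
    have hne' : T.s (T.ev φ1 φ2 α0) ≠ 0 := by simpa using hne
    simp only [c]
    rw [← hα0def] at e3
    field_simp
    linear_combination (-1) * e3
  exact (Submodule.finrank_mono hsub).trans (Submodule.finrank_map_le _ _)

theorem dd_t_le (h1 : φ1 ≠ 0) (h2 : φ2 ≠ 0) (n : Fin 4 → ℕ) (ω : Fin 4 → ℤ) :
    T.dd φ1 φ2 n (ω ∘ tp) ≤ T.dd φ1 φ2 n ω := by
  unfold dd
  rcases (cls n (ω ∘ tp)).eq_empty_or_nonempty with he | ⟨β0, hβ0⟩
  · rw [he, Finset.coe_empty, Set.image_empty, Submodule.span_empty, finrank_bot]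
    exact Nat.zero_le _
  have hcl : ∀ β ∈ cls n (ω ∘ tp), tEx β ∈ cls n ω := by
    intro β hβ
    rw [mem_cls] at hβ ⊢
    rw [dg_tEx, ww_tEx, hβ.1, hβ.2]
    refine ⟨rfl, ?_⟩
    funext i
    fin_cases i <;> rfl
  have hα0 := hcl β0 hβ0
  set α0 := tEx β0 with hα0def
  have hne := T.ev_ne φ1 φ2 h1 h2 α0
  let c : E := T.ev φ1 φ2 β0 * (T.t (T.ev φ1 φ2 α0))⁻¹
  let L : E →ₗ[F] E := (LinearMap.mulLeft F c).comp T.t.toLinearMap
  have hfd := fin_span_image (F := F) (T.ev φ1 φ2) (cls n ω)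
  have hsub : Submodule.span F (T.ev φ1 φ2 '' (cls n (ω ∘ tp) : Set Ex)) ≤
      (Submodule.span F (T.ev φ1 φ2 '' (cls n ω : Set Ex))).map L := by
    rw [Submodule.span_le]
    rintro _ ⟨β, hβ, rfl⟩
    refine ⟨T.ev φ1 φ2 (tEx β), Submodule.subset_span ⟨tEx β, hcl β hβ, rfl⟩, ?_⟩
    show c * T.t (T.ev φ1 φ2 (tEx β)) = _
    have e1 := mem_cls.1 (hcl β hβ)
    have e2 := mem_cls.1 hα0
    have e3 := T.ev_t φ1 φ2 (α := tEx β) (β := α0) (e1.1.trans e2.1.symm) (e1.2.trans e2.2.symm)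
    rw [tEx_tEx, hα0def, tEx_tEx] at e3
    have hne' : T.t (T.ev φ1 φ2 α0) ≠ 0 := by simpa using hne
    simp only [c]
    rw [← hα0def] at e3
    field_simp
    linear_combination (-1) * e3
  exact (Submodule.finrank_mono hsub).trans (Submodule.finrank_map_le _ _)

theorem sp_sp (ω : Fin 4 → ℤ) : (ω ∘ sp) ∘ sp = ω := by
  funext i
  fin_cases i <;> rfl

theorem tp_tp (ω : Fin 4 → ℤ) : (ω ∘ tp) ∘ tp = ω := by
  funext i
  fin_cases i <;> rfl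

theorem sp_tp (ω : Fin 4 → ℤ) : (ω ∘ tp) ∘ sp = (ω ∘ sp) ∘ tp := by
  funext i
  fin_cases i <;> rfl

theorem dd_s (h1 : φ1 ≠ 0) (h2 : φ2 ≠ 0) (n : Fin 4 → ℕ) (ω : Fin 4 → ℤ) :
    T.dd φ1 φ2 n (ω ∘ sp) = T.dd φ1 φ2 n ω := by
  apply le_antisymm (T.dd_s_le φ1 φ2 h1 h2 n ω)
  have := T.dd_s_le φ1 φ2 h1 h2 n (ω ∘ sp)
  rwa [sp_sp] at this

theorem dd_t (h1 : φ1 ≠ 0) (h2 : φ2 ≠ 0) (n : Fin 4 → ℕ) (ω : Fin 4 → ℤ) :
    T.dd φ1 φ2 n (ω ∘ tp) = T.dd φ1 φ2 n ω := by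
  apply le_antisymm (T.dd_t_le φ1 φ2 h1 h2 n ω)
  have := T.dd_t_le φ1 φ2 h1 h2 n (ω ∘ tp)
  rwa [tp_tp] at this

theorem four_dvd_cnt (h1 : φ1 ≠ 0) (h2 : φ2 ≠ 0) (n : Fin 4 → ℕ)
    (hn : Odd (n 0 + n 2) ∨ Odd (n 1 + n 3)) : 4 ∣ cnt (T.UU φ1 φ2) n := by
  rw [cnt_eq]
  have hfree : ∀ α ∈ Mon n, ww (sEx α) ≠ ww α ∧ ww (tEx α) ≠ ww α ∧ ww (sEx (tEx α)) ≠ ww α := by
    intro α hα
    rw [mem_Mon] at hα
    have d0 := hα 0
    have d1 := hα 1
    have d2 := hα 2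
    have d3 := hα 3
    simp only [Fin.sum_univ_four] at d0 d1 d2 d3
    simp only [Nat.odd_iff] at hn
    refine ⟨fun h => ?_, fun h => ?_, fun h => ?_⟩
    · have w0 := congrFun h 0
      have w2 := congrFun h 2
      simp [ww, sEx, sp] at w0 w2
      omega
    · have w0 := congrFun h 0
      have w1 := congrFun h 1
      simp [ww, tEx, tp] at w0 w1
      omega
    · have w0 := congrFun h 0
      have w1 := congrFun h 1
      simp [ww, sEx, sp, tEx, tp] at w0 w1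
      omega
  refine four_dvd_sum _ (fun ω => ω ∘ sp) (fun ω => ω ∘ tp) _ sp_sp tp_tp sp_tp ?_ ?_ ?_ ?_ ?_ ?_ ?_
  · intro ω hω
    obtain ⟨α, hα, rfl⟩ := Finset.mem_image.1 hω
    rw [← ww_sEx]
    apply Finset.mem_image_of_mem
    rw [mem_Mon'] at hα ⊢
    rw [dg_sEx, hα]
  · intro ω hω
    obtain ⟨α, hα, rfl⟩ := Finset.mem_image.1 hω
    rw [← ww_tEx]
    apply Finset.mem_image_of_mem
    rw [mem_Mon'] at hα ⊢
    rw [dg_tEx, hα]
  · intro ω hω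
    obtain ⟨α, hα, rfl⟩ := Finset.mem_image.1 hω
    rw [← ww_sEx]
    exact (hfree α hα).1
  · intro ω hω
    obtain ⟨α, hα, rfl⟩ := Finset.mem_image.1 hω
    rw [← ww_tEx]
    exact (hfree α hα).2.1
  · intro ω hω
    obtain ⟨α, hα, rfl⟩ := Finset.mem_image.1 hω
    rw [← ww_tEx, ← ww_sEx]
    exact (hfree α hα).2.2
  · intro ω _
    exact T.dd_s φ1 φ2 h1 h2 n ω
  · intro ω _
    exact T.dd_t φ1 φ2 h1 h2 n ω

/-! ### lower bound -/

def PL (n : Fin 4 → ℕ) : Finset Ex :=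
  Fintype.piFinset ![Finset.piAntidiag Finset.univ (n 0), Finset.piAntidiag Finset.univ (n 1),
    {![n 2, 0, 0, 0]}, {![n 3, 0, 0, 0]}]

theorem mem_PL {n : Fin 4 → ℕ} {α : Ex} : α ∈ PL n ↔ (∑ g, α 0 g = n 0) ∧ (∑ g, α 1 g = n 1) ∧
    α 2 = ![n 2, 0, 0, 0] ∧ α 3 = ![n 3, 0, 0, 0] := by
  rw [PL, Fintype.mem_piFinset]
  constructor
  · intro h
    refine ⟨?_, ?_, ?_, ?_⟩
    · simpa using h 0
    · simpa using h 1
    · simpa using h 2
    · simpa using h 3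
  · rintro ⟨h0, h1, h2, h3⟩ l
    fin_cases l
    · simpa using h0
    · simpa using h1
    · simpa using h2
    · simpa using h3

theorem card_PL (n : Fin 4 → ℕ) : (PL n).card = (n 0 + 3).choose 3 * (n 1 + 3).choose 3 := by
  rw [PL, Fintype.card_piFinset, Fin.prod_univ_four]
  simp [card_pA]

theorem cnt_lower (h1 : φ1 ≠ 0) (h2 : φ2 ≠ 0) (n : Fin 4 → ℕ) :
    (n 0 + 3).choose 3 * (n 1 + 3).choose 3 ≤ cnt (T.UU φ1 φ2) n := by
  classical
  rw [cnt_eq, ← card_PL]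
  have hsub : ∀ α ∈ PL n, α ∈ Mon n := by
    intro α hα
    rw [mem_PL] at hα
    rw [mem_Mon]
    obtain ⟨e0, e1, e2, e3⟩ := hα
    intro l
    fin_cases l
    · exact e0
    · exact e1
    · show ∑ g, α 2 g = n 2
      rw [e2]; simp [Fin.sum_univ_four]
    · show ∑ g, α 3 g = n 3
      rw [e3]; simp [Fin.sum_univ_four]
  rw [Finset.card_eq_sum_card_fiberwise (f := ww) (t := (Mon n).image ww) (by
    intro α hα
    exact Finset.mem_coe.2 (Finset.mem_image_of_mem _ (hsub α hα)))]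
  refine Finset.sum_le_sum fun ω _ => ?_
  set P := (PL n).filter (fun α => ww α = ω) with hP
  have hPcls : ∀ α ∈ P, α ∈ cls n ω := by
    intro α hα
    rw [hP, Finset.mem_filter] at hα
    rw [mem_cls, ← mem_Mon']
    exact ⟨hsub α hα.1, hα.2⟩
  let Φ0 : E := T.Phi φ1 φ2 (fun l => if l = 2 then ![n 2, 0, 0, 0] else
    if l = 3 then ![n 3, 0, 0, 0] else 0)
  have hev : ∀ α ∈ P, T.ev φ1 φ2 α = T.m (ee α) * Φ0 := by
    intro α hα
    have := (mem_PL.1 (Finset.mem_filter.1 hα).1).2.2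
    simp only [ev, Φ0, Phi, this.1, this.2]
    simp
  have hΦ0 : P.Nonempty → Φ0 ≠ 0 := by
    rintro ⟨α, hα⟩ h0
    have := hev α hα
    rw [h0, mul_zero] at this
    exact T.ev_ne φ1 φ2 h1 h2 α this
  have hinj : Function.Injective (fun α : P => ee α.1) := by
    rintro ⟨α, hα⟩ ⟨β, hβ⟩ hab
    simp only at hab
    have a1 := Finset.mem_filter.1 hα
    have b1 := Finset.mem_filter.1 hβ
    obtain ⟨a0, a1', a2, a3⟩ := mem_PL.1 a1.1
    obtain ⟨b0, b1', b2, b3⟩ := mem_PL.1 b1.1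
    have hw : ww α = ww β := a1.2.trans b1.2.symm
    have w0 := congrFun hw 0
    have w1 := congrFun hw 1
    have w2 := congrFun hw 2
    have w3 := congrFun hw 3
    simp only [ee, Prod.ext_iff] at hab
    simp only [Fin.sum_univ_four] at a0 a1' b0 b1'
    simp [ww, a2, b2, a3, b3] at w0 w1 w2 w3 hab
    obtain ⟨e1, e2, e3⟩ := hab
    apply Subtype.ext
    funext l g
    fin_cases l
    · fin_cases g <;> simp <;> omega
    · fin_cases g <;> simp <;> omega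
    · show α 2 g = β 2 g
      rw [a2, b2]
    · show α 3 g = β 3 g
      rw [a3, b3]
  rcases P.eq_empty_or_nonempty with he | hne
  · rw [he]; simp
  have hli : LinearIndependent F (fun α : P => T.ev φ1 φ2 α.1) := by
    have h3 : LinearIndependent F (fun α : P => T.m (ee α.1)) := T.li.comp _ hinj
    have h4 := h3.map' (LinearMap.mulRight F Φ0) (by
      rw [LinearMap.ker_eq_bot]
      intro x y hxy
      exact mul_right_cancel₀ (hΦ0 hne) hxy)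
    have heq : (fun α : P => T.ev φ1 φ2 α.1) =
        (LinearMap.mulRight F Φ0) ∘ fun α : P => T.m (ee α.1) := by
      funext α
      simp [hev α.1 α.2]
    rw [heq]
    exact h4
  have h5 := finrank_span_eq_card hli
  rw [Fintype.card_coe] at h5
  rw [← h5]
  unfold dd
  have := fin_span_image (F := F) (T.ev φ1 φ2) (cls n ω)
  apply Submodule.finrank_mono
  apply Submodule.span_mono
  rintro _ ⟨α, rfl⟩
  exact ⟨α.1, hPcls α.1 α.2, rfl⟩

/-! ### upper bound -/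

def Lsp (d : ℕ) : Submodule F E :=
  Submodule.span F (T.m '' {p | |p.1| ≤ d ∧ |p.2.1| ≤ d ∧ |p.2.2| ≤ d})

theorem Lsp_mono {d e : ℕ} (h : d ≤ e) : T.Lsp d ≤ T.Lsp e := by
  apply Submodule.span_mono
  apply Set.image_mono
  rintro p ⟨h1, h2, h3⟩
  have : (d : ℤ) ≤ e := by exact_mod_cast h
  exact ⟨h1.trans this, h2.trans this, h3.trans this⟩

theorem Lsp_mul {d e : ℕ} {A B : E} (hA : A ∈ T.Lsp d) (hB : B ∈ T.Lsp e) :
    A * B ∈ T.Lsp (d + e) := by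
  have h : A * B ∈ T.Lsp d * T.Lsp e := Submodule.mul_mem_mul hA hB
  unfold Lsp at h
  rw [Submodule.span_mul_span] at h
  refine Submodule.span_mono ?_ h
  rintro _ ⟨_, ⟨p, ⟨p1, p2, p3⟩, rfl⟩, _, ⟨q, ⟨q1, q2, q3⟩, rfl⟩, rfl⟩
  refine ⟨p + q, ⟨?_, ?_, ?_⟩, T.m_add p q⟩
  · push_cast; exact (abs_add_le _ _).trans (add_le_add p1 q1)
  · push_cast; exact (abs_add_le _ _).trans (add_le_add p2 q2)
  · push_cast; exact (abs_add_le _ _).trans (add_le_add p3 q3)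

theorem one_mem_Lsp (d : ℕ) : (1 : E) ∈ T.Lsp d := by
  apply Submodule.subset_span
  exact ⟨0, ⟨by simp, by simp, by simp⟩, T.m_zero⟩

theorem Lsp_pow {d : ℕ} {A : E} (hA : A ∈ T.Lsp d) (k : ℕ) : A ^ k ∈ T.Lsp (d * k) := by
  induction k with
  | zero => simpa using T.one_mem_Lsp 0
  | succ k ih => rw [pow_succ, Nat.mul_succ]; exact T.Lsp_mul ih hA

theorem exists_Lsp {A : E} (hA : A ∈ Submodule.span F (Set.range (mo T.z1 T.z2 T.z3))) :
    ∃ d, A ∈ T.Lsp d := by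
  induction hA using Submodule.span_induction with
  | mem x hx =>
    obtain ⟨p, rfl⟩ := hx
    have n1 := abs_nonneg p.1
    have n2 := abs_nonneg p.2.1
    have n3 := abs_nonneg p.2.2
    refine ⟨p.1.natAbs + p.2.1.natAbs + p.2.2.natAbs, Submodule.subset_span ⟨p, ⟨?_, ?_, ?_⟩, rfl⟩⟩
    · push_cast; omega
    · push_cast; omega
    · push_cast; omega
  | zero => exact ⟨0, Submodule.zero_mem _⟩
  | add x y _ _ hx hy =>
    obtain ⟨d, hd⟩ := hx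
    obtain ⟨e, he⟩ := hy
    exact ⟨d + e, Submodule.add_mem _ (T.Lsp_mono (Nat.le_add_right _ _) hd)
      (T.Lsp_mono (Nat.le_add_left _ _) he)⟩
  | smul c x _ hx =>
    obtain ⟨d, hd⟩ := hx
    exact ⟨d, Submodule.smul_mem _ c hd⟩

theorem s_Lsp {d : ℕ} {A : E} (hA : A ∈ T.Lsp d) : T.s A ∈ T.Lsp (2 * d) := by
  have h : T.s A ∈ (T.Lsp d).map T.s.toLinearMap := ⟨A, hA, rfl⟩
  unfold Lsp at h
  rw [Submodule.map_span] at h
  refine Submodule.span_mono ?_ h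
  rintro _ ⟨_, ⟨⟨a, b, c⟩, ⟨h1, h2, h3⟩, rfl⟩, rfl⟩
  refine ⟨(b - c, a - c, -c), ?_, (T.s_m a b c).symm⟩
  simp only [abs_le] at h1 h2 h3
  simp only [Set.mem_ofPred_eq, abs_le]
  push_cast
  omega

theorem t_Lsp {d : ℕ} {A : E} (hA : A ∈ T.Lsp d) : T.t A ∈ T.Lsp (2 * d) := by
  have h : T.t A ∈ (T.Lsp d).map T.t.toLinearMap := ⟨A, hA, rfl⟩
  unfold Lsp at h
  rw [Submodule.map_span] at h
  refine Submodule.span_mono ?_ h
  rintro _ ⟨_, ⟨⟨a, b, c⟩, ⟨h1, h2, h3⟩, rfl⟩, rfl⟩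
  refine ⟨(c - b, -b, a - b), ?_, (T.t_m a b c).symm⟩
  simp only [abs_le] at h1 h2 h3
  simp only [Set.mem_ofPred_eq, abs_le]
  push_cast
  omega

theorem act_Lsp (g : Fin 4) {d : ℕ} {A : E} (hA : A ∈ T.Lsp d) : T.act g A ∈ T.Lsp (4 * d) := by
  fin_cases g
  · exact T.Lsp_mono (by omega) hA
  · exact T.Lsp_mono (by omega) (T.s_Lsp hA)
  · exact T.Lsp_mono (by omega) (T.t_Lsp hA)
  · have := T.s_Lsp (T.t_Lsp hA)
    rw [← mul_assoc] at this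
    exact this

theorem denom : ∃ (d : ℕ) (B : E), B ≠ 0 ∧ ∀ g, T.act g φ1 * B ∈ T.Lsp d ∧
    T.act g φ2 * B ∈ T.Lsp d := by
  obtain ⟨A1, hA1, B1, hB1, hB10, e1⟩ := T.gen φ1
  obtain ⟨A2, hA2, B2, hB2, hB20, e2⟩ := T.gen φ2
  obtain ⟨a1, ha1⟩ := T.exists_Lsp hA1
  obtain ⟨a2, ha2⟩ := T.exists_Lsp hA2
  obtain ⟨b1, hb1⟩ := T.exists_Lsp hB1
  obtain ⟨b2, hb2⟩ := T.exists_Lsp hB2
  set d := a1 + a2 + b1 + b2 with hd
  replace ha1 := T.Lsp_mono (show a1 ≤ d by omega) ha1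
  replace ha2 := T.Lsp_mono (show a2 ≤ d by omega) ha2
  replace hb1 := T.Lsp_mono (show b1 ≤ d by omega) hb1
  replace hb2 := T.Lsp_mono (show b2 ≤ d by omega) hb2
  have hB : B1 * B2 ∈ T.Lsp (d + d) := T.Lsp_mul hb1 hb2
  have f1 : φ1 * (B1 * B2) ∈ T.Lsp (d + d) := by
    rw [← mul_assoc, e1]; exact T.Lsp_mul ha1 hb2
  have f2 : φ2 * (B1 * B2) ∈ T.Lsp (d + d) := by
    rw [mul_comm B1, ← mul_assoc, e2]; exact T.Lsp_mul ha2 hb1
  have hprod : ∀ s : Finset (Fin 4), ∏ g ∈ s, T.act g (B1 * B2) ∈ T.Lsp (4 * (d + d) * s.card) := by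
    intro s
    induction s using Finset.induction_on with
    | empty => simpa using T.one_mem_Lsp 0
    | insert a s ha ih =>
      rw [Finset.prod_insert ha, Finset.card_insert_of_notMem ha]
      exact T.Lsp_mono (le_of_eq (by ring)) (T.Lsp_mul (T.act_Lsp a hB) ih)
  refine ⟨4 * (d + d) + 4 * (d + d) * 4, ∏ g, T.act g (B1 * B2), ?_, fun g => ⟨?_, ?_⟩⟩
  · exact Finset.prod_ne_zero_iff.2 fun g _ => by simpa using ⟨hB10, hB20⟩
  · rw [← Finset.mul_prod_erase Finset.univ _ (Finset.mem_univ g), ← mul_assoc, ← map_mul]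
    refine T.Lsp_mul (T.act_Lsp g f1) ?_
    refine T.Lsp_mono ?_ (hprod _)
    apply Nat.mul_le_mul_left
    exact (Finset.card_le_univ _).trans (by simp)
  · rw [← Finset.mul_prod_erase Finset.univ _ (Finset.mem_univ g), ← mul_assoc, ← map_mul]
    refine T.Lsp_mul (T.act_Lsp g f2) ?_
    refine T.Lsp_mono ?_ (hprod _)
    apply Nat.mul_le_mul_left
    exact (Finset.card_le_univ _).trans (by simp)

theorem prod_Lsp {d : ℕ} (f : Fin 4 → E) (hf : ∀ g, f g ∈ T.Lsp d) (k : Fin 4 → ℕ) :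
    ∏ g, (f g) ^ (k g) ∈ T.Lsp (d * ∑ g, k g) := by
  rw [Fin.prod_univ_four, Fin.sum_univ_four]
  have := T.Lsp_mul (T.Lsp_mul (T.Lsp_mul (T.Lsp_pow (hf 0) (k 0)) (T.Lsp_pow (hf 1) (k 1)))
    (T.Lsp_pow (hf 2) (k 2))) (T.Lsp_pow (hf 3) (k 3))
  rw [← mul_add, ← mul_add, ← mul_add] at this
  exact this

theorem Phi_Lsp {d : ℕ} {B : E} (hB : ∀ g, T.act g φ1 * B ∈ T.Lsp d ∧ T.act g φ2 * B ∈ T.Lsp d)
    (α : Ex) : T.Phi φ1 φ2 α * B ^ (dg α 2 + dg α 3) ∈ T.Lsp (d * (dg α 2 + dg α 3)) := by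
  have h1 := T.prod_Lsp (fun g => T.act g φ1 * B) (fun g => (hB g).1) (α 2)
  have h2 := T.prod_Lsp (fun g => T.act g φ2 * B) (fun g => (hB g).2) (α 3)
  have h3 := T.Lsp_mul h1 h2
  rw [← mul_add] at h3
  have e1 : ∏ g, ((T.act g) φ1 * B) ^ α 2 g =
      (∏ g, (T.act g φ1) ^ α 2 g) * B ^ (∑ g, α 2 g) := by
    rw [← Finset.prod_pow_eq_pow_sum, ← Finset.prod_mul_distrib]
    exact Finset.prod_congr rfl fun g _ => mul_pow _ _ _
  have e2 : ∏ g, ((T.act g) φ2 * B) ^ α 3 g =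
      (∏ g, (T.act g φ2) ^ α 3 g) * B ^ (∑ g, α 3 g) := by
    rw [← Finset.prod_pow_eq_pow_sum, ← Finset.prod_mul_distrib]
    exact Finset.prod_congr rfl fun g _ => mul_pow _ _ _
  simp only [e1, e2] at h3
  have e3 : T.Phi φ1 φ2 α * B ^ (dg α 2 + dg α 3) =
      (∏ g, (T.act g φ1) ^ α 2 g) * B ^ (∑ g, α 2 g) *
        ((∏ g, (T.act g φ2) ^ α 3 g) * B ^ (∑ g, α 3 g)) := by
    simp only [Phi, dg, pow_add]
    ring
  rw [e3]
  exact h3

/-- the shifted exponent -/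
def shEx (α : Ex) (p : ℤ × ℤ × ℤ) (c : ℕ) : Ex :=
  ![![((α 0 0 : ℤ) + α 2 0 + (p.1 - p.2.2) + c).toNat, ((α 0 1 : ℤ) + α 2 1 + p.2.1 + c).toNat,
      ((α 0 2 : ℤ) + α 2 2 + (p.2.2 - p.1) + c).toNat, ((α 0 3 : ℤ) + α 2 3 - p.2.1 + c).toNat],
    ![((α 1 0 : ℤ) + α 3 0 + (p.2.1 - p.1) + c).toNat,
      ((α 1 1 : ℤ) + α 3 1 + (p.1 - p.2.1) + c).toNat,
      ((α 1 2 : ℤ) + α 3 2 - p.2.2 + c).toNat, ((α 1 3 : ℤ) + α 3 3 + p.2.2 + c).toNat],
    0, 0]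

theorem shEx_spec (α : Ex) (p : ℤ × ℤ × ℤ) (D : ℕ) (h1 : |p.1| ≤ D) (h2 : |p.2.1| ≤ D)
    (h3 : |p.2.2| ≤ D) :
    dg (shEx α p (2 * D)) = ![dg α 0 + dg α 2 + 4 * (2 * D), dg α 1 + dg α 3 + 4 * (2 * D), 0, 0] ∧
    ww (shEx α p (2 * D)) = ww α ∧
    ee (shEx α p (2 * D)) = ee α + p + (-2 * ((2 * D : ℕ) : ℤ), -((2 * D : ℕ) : ℤ),
      -((2 * D : ℕ) : ℤ)) := by
  rw [abs_le] at h1 h2 h3
  refine ⟨?_, ?_, ?_⟩
  · funext l
    fin_cases l
    · simp [dg, shEx, Fin.sum_univ_four]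
      omega
    · simp [dg, shEx, Fin.sum_univ_four]
      omega
    · simp [dg, shEx]
    · simp [dg, shEx]
  · funext i
    fin_cases i <;> (simp [ww, shEx]; omega)
  · simp only [ee, shEx, Prod.ext_iff, Prod.fst_add, Prod.snd_add]
    simp
    omega

theorem cnt_upper : ∃ d : ℕ, ∀ n : Fin 4 → ℕ,
    cnt (T.UU φ1 φ2) n ≤ ((n 0 + n 2 + 4 * (d * (n 2 + n 3))) + 3).choose 3 *
      ((n 1 + n 3 + 4 * (d * (n 2 + n 3))) + 3).choose 3 := by
  classical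
  obtain ⟨d, B, hB0, hB⟩ := T.denom φ1 φ2
  refine ⟨2 * d, fun n => ?_⟩
  set D : ℕ := d * (n 2 + n 3) with hD
  set n' : Fin 4 → ℕ := ![n 0 + n 2 + 4 * (2 * D), n 1 + n 3 + 4 * (2 * D), 0, 0] with hn'
  have hcard : (Mon n').card = ((n 0 + n 2 + 4 * (2 * d * (n 2 + n 3))) + 3).choose 3 *
      ((n 1 + n 3 + 4 * (2 * d * (n 2 + n 3))) + 3).choose 3 := by
    rw [card_Mon, Fin.prod_univ_four]
    simp [hn', hD, mul_assoc]
  rw [← hcard, cnt_eq]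
  have hdd : ∀ ω, T.dd φ1 φ2 n ω ≤ (cls n' ω).card := by
    intro ω
    set G : E := B ^ (n 2 + n 3) * T.m (-2 * ((2 * D : ℕ) : ℤ), -((2 * D : ℕ) : ℤ),
      -((2 * D : ℕ) : ℤ)) with hG
    have hG0 : G ≠ 0 := mul_ne_zero (pow_ne_zero _ hB0) (T.m_ne _)
    have hmem : ∀ α ∈ cls n ω, G * T.ev φ1 φ2 α ∈
        Submodule.span F (T.ev φ1 φ2 '' (cls n' ω : Set Ex)) := by
      intro α hα
      rw [mem_cls] at hα
      have h3 := T.Phi_Lsp φ1 φ2 hB α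
      rw [hα.1] at h3
      have h4 : G * T.ev φ1 φ2 α ∈ (T.Lsp (d * (n 2 + n 3))).map (LinearMap.mulLeft F
          (T.m (ee α) * T.m (-2 * ((2 * D : ℕ) : ℤ), -((2 * D : ℕ) : ℤ),
            -((2 * D : ℕ) : ℤ)))) := by
        refine ⟨_, h3, ?_⟩
        simp only [LinearMap.mulLeft_apply, hG, ev]
        ring
      unfold Lsp at h4
      rw [Submodule.map_span] at h4
      refine Submodule.span_mono ?_ h4
      rintro _ ⟨_, ⟨p, ⟨p1, p2, p3⟩, rfl⟩, rfl⟩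
      obtain ⟨s1, s2, s3⟩ := shEx_spec α p D p1 p2 p3
      refine ⟨shEx α p (2 * D), ?_, ?_⟩
      · rw [Finset.mem_coe, mem_cls]
        refine ⟨?_, s2.trans hα.2⟩
        rw [s1, hα.1]
      · have hPhi : T.Phi φ1 φ2 (shEx α p (2 * D)) = 1 := by
          simp [Phi, shEx]
        rw [ev, hPhi, mul_one, s3, m_add, m_add]
        simp only [LinearMap.mulLeft_apply]
        ring
    unfold dd
    have hfd := fin_span_image (F := F) (T.ev φ1 φ2) (cls n' ω)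
    have hsub : (Submodule.span F (T.ev φ1 φ2 '' (cls n ω : Set Ex))).map
        (LinearMap.mulLeft F G) ≤ Submodule.span F (T.ev φ1 φ2 '' (cls n' ω : Set Ex)) := by
      rw [Submodule.map_span, Submodule.span_le]
      rintro _ ⟨_, ⟨α, hα, rfl⟩, rfl⟩
      exact hmem α hα
    have hinj : Function.Injective (LinearMap.mulLeft F G) := fun x y hxy =>
      mul_left_cancel₀ hG0 hxy
    have e1 : finrank F ((Submodule.span F (T.ev φ1 φ2 '' (cls n ω : Set Ex))).map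
        (LinearMap.mulLeft F G)) = finrank F (Submodule.span F (T.ev φ1 φ2 '' (cls n ω : Set Ex))) :=
      (LinearEquiv.finrank_eq (Submodule.equivMapOfInjective _ hinj _)).symm
    rw [← e1]
    refine (Submodule.finrank_mono hsub).trans ?_
    rw [← Finset.coe_image]
    exact (finrank_span_finset_le_card _).trans Finset.card_image_le
  calc ∑ ω ∈ (Mon n).image ww, T.dd φ1 φ2 n ω ≤ ∑ ω ∈ (Mon n).image ww, (cls n' ω).card :=
        Finset.sum_le_sum fun ω _ => hdd ω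
    _ ≤ (Mon n').card := by
        have hbi : (((Mon n).image ww).biUnion (fun ω => cls n' ω)).card =
            ∑ ω ∈ (Mon n).image ww, (cls n' ω).card := by
          apply Finset.card_biUnion
          intro ω _ ω' _ hne
          rw [Function.onFun, Finset.disjoint_left]
          intro α hα hα'
          rw [mem_cls] at hα hα'
          exact hne (hα.2.symm.trans hα'.2)
        rw [← hbi]
        apply Finset.card_le_card
        intro α hα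
        rw [Finset.mem_biUnion] at hα
        obtain ⟨ω, _, h⟩ := hα
        exact mem_Mon'.2 (mem_cls.1 h).1

/-! ### separation of the two kinds of generators -/

def lowE (α : Ex) : Ex := ![α 0, α 1, 0, 0]
def highE (α : Ex) : Ex := ![0, 0, α 2, α 3]

theorem cnt_split (n : Fin 4 → ℕ) : cnt (T.UU φ1 φ2) n ≤
    ((n 0 + 3).choose 3 * (n 1 + 3).choose 3) * cnt (T.UU φ1 φ2) ![0, 0, n 2, n 3] := by
  classical
  have hcard : (Mon ![n 0, n 1, 0, 0]).card = (n 0 + 3).choose 3 * (n 1 + 3).choose 3 := by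
    rw [card_Mon, Fin.prod_univ_four]
    simp
  rw [← hcard]
  unfold cnt
  rw [← Finset.card_product]
  apply Finset.card_le_card_of_injOn (fun α => (lowE α, highE α))
  · intro α hα
    rw [Finset.mem_coe, Finset.mem_filter, mem_Mon] at hα
    rw [Finset.mem_coe, Finset.mem_product, Finset.mem_filter, mem_Mon, mem_Mon]
    refine ⟨?_, ?_, ?_⟩
    · intro l
      fin_cases l
      · exact hα.1 0
      · exact hα.1 1
      · simp [lowE]
      · simp [lowE]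
    · intro l
      fin_cases l
      · simp [highE]
      · simp [highE]
      · exact hα.1 2
      · exact hα.1 3
    · intro hU
      apply hα.2
      refine T.UU_up φ1 φ2 _ hU α ?_
      intro l
      fin_cases l
      · simp [highE]
      · simp [highE]
      · exact le_rfl
      · exact le_rfl
  · intro α _ β _ hab
    simp only [Prod.mk.injEq] at hab
    obtain ⟨h1, h2⟩ := hab
    funext l
    fin_cases l
    · exact congrFun h1 0
    · exact congrFun h1 1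
    · exact congrFun h2 2
    · exact congrFun h2 3

/-- the twisted element -/
def zz : E := T.z1 * φ1 * (T.t φ1)⁻¹ * (T.s φ2 * φ2⁻¹)

theorem ratio (h1 : φ1 ≠ 0) (h2 : φ2 ≠ 0) {α β : Ex} (ha0 : α 0 = 0) (ha1 : α 1 = 0)
    (hb0 : β 0 = 0) (hb1 : β 1 = 0) (hd : dg α = dg β) (hw : ww α = ww β) (M : ℕ)
    (hM : dg α 2 + dg α 3 ≤ M) :
    ∃ p q r : ℤ, |p| ≤ M ∧ |q| ≤ M ∧ |r| ≤ M ∧ T.ev φ1 φ2 α = T.ev φ1 φ2 β *
      (T.zz φ1 φ2 ^ p * T.s (T.zz φ1 φ2) ^ q * T.t (T.zz φ1 φ2) ^ r) := by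
  have d2 := congrFun hd 2
  have d3 := congrFun hd 3
  have w0 := congrFun hw 0
  have w1 := congrFun hw 1
  have w2 := congrFun hw 2
  have w3 := congrFun hw 3
  simp only [dg, Fin.sum_univ_four] at d2 d3 hM
  simp [ww, ha0, ha1, hb0, hb1] at w0 w1 w2 w3
  obtain ⟨r, hr⟩ : ∃ r : ℤ, r = -((α 3 2 : ℤ) - β 3 2) := ⟨_, rfl⟩
  obtain ⟨q, hq⟩ : ∃ q : ℤ, q = -((α 2 3 : ℤ) - β 2 3) := ⟨_, rfl⟩
  obtain ⟨p, hp⟩ : ∃ p : ℤ, p = r - ((α 2 2 : ℤ) - β 2 2) := ⟨_, rfl⟩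
  refine ⟨p, q, r, by rw [abs_le]; omega, by rw [abs_le]; omega, by rw [abs_le]; omega, ?_⟩
  have a0 : (α 2 0 : ℤ) = β 2 0 + (p - r) := by omega
  have a1 : (α 2 1 : ℤ) = β 2 1 + q := by omega
  have a2 : (α 2 2 : ℤ) = β 2 2 + (r - p) := by omega
  have a3 : (α 2 3 : ℤ) = β 2 3 + (-q) := by omega
  have b0 : (α 3 0 : ℤ) = β 3 0 + (q - p) := by omega
  have b1 : (α 3 1 : ℤ) = β 3 1 + (p - q) := by omega
  have b2 : (α 3 2 : ℤ) = β 3 2 + (-r) := by omega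
  have b3 : (α 3 3 : ℤ) = β 3 3 + r := by omega
  have hee : ee α = ee β + (p, q, r) := by
    simp only [ee, ha0, ha1, hb0, hb1, Prod.ext_iff, Prod.fst_add, Prod.snd_add]
    simp
    omega
  have hs1 : T.s φ1 ≠ 0 := by simpa using h1
  have ht1 : T.t φ1 ≠ 0 := by simpa using h1
  have hst1 : T.s (T.t φ1) ≠ 0 := by simpa using h1
  have hs2 : T.s φ2 ≠ 0 := by simpa using h2
  have ht2 : T.t φ2 ≠ 0 := by simpa using h2
  have hst2 : T.s (T.t φ2) ≠ 0 := by simpa using h2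
  have hmp : T.m (p, q, r) = T.z1 ^ p * T.z2 ^ q * T.z3 ^ r := rfl
  simp only [ev, hee, m_add, hmp, Phi, act, Fin.prod_univ_four, zz, map_mul, map_inv₀, T.hs, T.ht,
    T.s1, T.t1, ← T.hst]
  simp only [Matrix.cons_val_zero, Matrix.cons_val_one, Matrix.cons_val, AlgEquiv.coe_refl, id_eq,
    AlgEquiv.trans_apply]
  simp only [← zpow_natCast, a0, a1, a2, a3, b0, b1, b2, b3]
  simp only [zpow_add₀ h1, zpow_add₀ h2, zpow_add₀ hs1, zpow_add₀ ht1, zpow_add₀ hst1,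
    zpow_add₀ hs2, zpow_add₀ ht2, zpow_add₀ hst2, zpow_sub₀ h1, zpow_sub₀ h2,
    zpow_sub₀ ht1, zpow_sub₀ hs2, mul_zpow, inv_zpow, zpow_neg]
  field_simp

theorem ww_sum (α : Ex) : ww α 0 + ww α 1 + ww α 2 + ww α 3 = 0 := by
  simp [ww]
  ring

theorem card_weights (m k : ℕ) :
    ((Mon ![0, 0, m, k]).image ww).card ≤ (2 * (m + k) + 1) ^ 3 := by
  classical
  set I : Finset ℤ := Finset.Icc (-((m + k : ℕ) : ℤ)) ((m + k : ℕ) : ℤ) with hI
  have hIc : I.card = 2 * (m + k) + 1 := by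
    rw [hI, Int.card_Icc]
    omega
  have : (I ×ˢ I ×ˢ I).card = (2 * (m + k) + 1) ^ 3 := by
    rw [Finset.card_product, Finset.card_product, hIc]
    ring
  rw [← this]
  apply Finset.card_le_card_of_injOn (fun ω => (ω 0, ω 1, ω 2))
  · intro ω hω
    obtain ⟨α, hα, rfl⟩ := Finset.mem_image.1 (Finset.mem_coe.1 hω)
    rw [mem_Mon] at hα
    have d0 := hα 0
    have d1 := hα 1
    have d2 := hα 2
    have d3 := hα 3
    simp [Fin.sum_univ_four] at d0 d1 d2 d3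
    simp only [Finset.coe_product, Set.mem_prod, Finset.mem_coe, hI, Finset.mem_Icc]
    simp [ww]
    omega
  · intro ω hω ω' hω' h
    obtain ⟨α, hα, rfl⟩ := Finset.mem_image.1 (Finset.mem_coe.1 hω)
    obtain ⟨β, hβ, rfl⟩ := Finset.mem_image.1 (Finset.mem_coe.1 hω')
    simp only [Prod.mk.injEq] at h
    have s1 := ww_sum α
    have s2 := ww_sum β
    funext i
    fin_cases i
    · exact h.1
    · exact h.2.1
    · exact h.2.2
    · show ww α 3 = ww β 3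
      linarith [h.1, h.2.1, h.2.2]

theorem cnt_dep (h1 : φ1 ≠ 0) (h2 : φ2 ≠ 0)
    (hdep : ¬ AlgebraicIndependent F ![T.zz φ1 φ2, T.s (T.zz φ1 φ2), T.t (T.zz φ1 φ2)]) :
    ∃ K : ℕ, ∀ m k : ℕ, cnt (T.UU φ1 φ2) ![0, 0, m, k] ≤ K * (m + k + 1) ^ 5 := by
  classical
  have hz : T.zz φ1 φ2 ≠ 0 := by
    have ht1 : T.t φ1 ≠ 0 := by simpa using h1
    have hs2 : T.s φ2 ≠ 0 := by simpa using h2
    exact mul_ne_zero (mul_ne_zero (mul_ne_zero T.h1 h1) (inv_ne_zero ht1))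
      (mul_ne_zero hs2 (inv_ne_zero h2))
  have hsz : T.s (T.zz φ1 φ2) ≠ 0 := by simpa using hz
  have htz : T.t (T.zz φ1 φ2) ≠ 0 := by simpa using hz
  obtain ⟨K, hK⟩ := algdep_bound hz hsz htz hdep
  refine ⟨8 * K, fun m k => ?_⟩
  rw [cnt_eq]
  have hdd : ∀ ω ∈ (Mon ![0, 0, m, k]).image ww, T.dd φ1 φ2 ![0, 0, m, k] ω ≤
      K * (m + k + 1) ^ 2 := by
    intro ω hω
    obtain ⟨β, hβ, rfl⟩ := Finset.mem_image.1 hω
    rw [mem_Mon'] at hβ
    have hz0 : ∀ α : Ex, dg α = ![0, 0, m, k] → α 0 = 0 ∧ α 1 = 0 := by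
      intro α hα
      have d0 := congrFun hα 0
      have d1 := congrFun hα 1
      simp only [dg] at d0 d1
      constructor
      · funext g
        have := Finset.sum_eq_zero_iff.1 (show ∑ g, α 0 g = 0 from d0) g (Finset.mem_univ g)
        simpa using this
      · funext g
        have := Finset.sum_eq_zero_iff.1 (show ∑ g, α 1 g = 0 from d1) g (Finset.mem_univ g)
        simpa using this
    have hβne := T.ev_ne φ1 φ2 h1 h2 β
    set S : Set E := {x | ∃ α ∈ cls ![0, 0, m, k] (ww β),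
      x = T.ev φ1 φ2 α * (T.ev φ1 φ2 β)⁻¹} with hS
    obtain ⟨hfd, hle⟩ := hK (m + k) S (by
      rintro x ⟨α, hα, rfl⟩
      rw [mem_cls] at hα
      obtain ⟨p, q, r, hp, hq, hr, e⟩ := T.ratio φ1 φ2 h1 h2 (hz0 α hα.1).1 (hz0 α hα.1).2
        (hz0 β hβ).1 (hz0 β hβ).2 (hα.1.trans hβ.symm) hα.2 (m + k) (by
          rw [hα.1]; simp)
      refine ⟨p, q, r, hp, hq, hr, ?_⟩
      rw [e]
      field_simp)
    have hsub : Submodule.span F (T.ev φ1 φ2 '' (cls ![0, 0, m, k] (ww β) : Set Ex)) ≤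
        (Submodule.span F S).map (LinearMap.mulLeft F (T.ev φ1 φ2 β)) := by
      rw [Submodule.span_le]
      rintro _ ⟨α, hα, rfl⟩
      refine ⟨T.ev φ1 φ2 α * (T.ev φ1 φ2 β)⁻¹, Submodule.subset_span ⟨α, hα, rfl⟩, ?_⟩
      simp only [LinearMap.mulLeft_apply]
      field_simp
    unfold dd
    exact ((Submodule.finrank_mono hsub).trans (Submodule.finrank_map_le _ _)).trans hle
  refine (Finset.sum_le_card_nsmul _ _ _ hdd).trans ?_
  have hc := card_weights m k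
  have h3 : (2 * (m + k) + 1) ^ 3 ≤ (2 * (m + k + 1)) ^ 3 := Nat.pow_le_pow_left (by omega) 3
  calc _ ≤ (2 * (m + k + 1)) ^ 3 * (K * (m + k + 1) ^ 2) :=
        Nat.mul_le_mul (hc.trans h3) le_rfl
    _ = _ := by ring

/-- **Claim B**: the conjugates of a twist of the generic norm-one element are algebraically
independent. -/
theorem claimB (h1 : φ1 ≠ 0) (h2 : φ2 ≠ 0) :
    AlgebraicIndependent F ![T.zz φ1 φ2, T.s (T.zz φ1 φ2), T.t (T.zz φ1 φ2)] := by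
  by_contra hdep
  obtain ⟨K, hK⟩ := T.cnt_dep φ1 φ2 h1 h2 hdep
  obtain ⟨d, hd⟩ := T.cnt_upper φ1 φ2
  obtain ⟨N0, hN0⟩ := QP_upset (T.UU φ1 φ2) (fun α hα β hβ => T.UU_up φ1 φ2 α hα β hβ)
  obtain ⟨q, hq⟩ := hN0 (fun l => 2 * N0 l) (fun l => by show N0 l ≤ 2 * N0 l; omega)
  refine parity_core (cnt (T.UU φ1 φ2)) (fun l => 2 * N0 l) q hq d K
    (T.four_dvd_cnt φ1 φ2 h1 h2) hd (T.cnt_lower φ1 φ2 h1 h2) ?_ ?_ ?_
  · intro n
    refine (T.cnt_split φ1 φ2 n).trans ?_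
    exact Nat.mul_le_mul le_rfl (hK (n 2) (n 3))
  · exact ⟨N0 0 + N0 2, by ring⟩
  · exact ⟨N0 1 + N0 3, by ring⟩

end phi

end TD

end helper53.ED
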