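import Mathlib
import Pool.Agent.helper53.ED.ClaimB

namespace helper53.ED

open Module

/-- The four-group. -/
abbrev VV := ZMod 2 × ZMod 2

theorem VV_cases {P : VV → Prop} (h0 : P (0, 0)) (h1 : P (1, 0)) (h2 : P (0, 1)) (h3 : P (1, 1)) :
    ∀ g, P g := by
  rintro ⟨a, b⟩
  have ha : a = 0 ∨ a = 1 := by revert a; decide
  have hb : b = 0 ∨ b = 1 := by revert b; decide
  rcases ha with rfl | rfl <;> rcases hb with rfl | rfl <;> assumption

theorem VV_sum {M : Type*} [AddCommMonoid M] (f : VV → M) :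
    ∑ g, f g = f (0, 0) + f (1, 0) + f (0, 1) + f (1, 1) := by
  rw [Fintype.sum_prod_type]
  rw [show (Finset.univ : Finset (ZMod 2)) = {0, 1} from rfl]
  simp
  abel

namespace TD

variable {F E : Type*} [Field F] [Field E] [Algebra F E] (T : TD F E)

/-- The action of the four-group. -/
def ac (g : VV) : E ≃ₐ[F] E :=
  if g.1 = 0 then (if g.2 = 0 then AlgEquiv.refl else T.t)
  else (if g.2 = 0 then T.s else T.t.trans T.s)

@[simp] theorem ac00 (x : E) : T.ac (0, 0) x = x := by simp [ac]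
@[simp] theorem ac0 (x : E) : T.ac 0 x = x := T.ac00 x
@[simp] theorem ac10 (x : E) : T.ac (1, 0) x = T.s x := by simp [ac]
@[simp] theorem ac01 (x : E) : T.ac (0, 1) x = T.t x := by simp [ac]
@[simp] theorem ac11 (x : E) : T.ac (1, 1) x = T.s (T.t x) := by simp [ac]

theorem ac_add (g h : VV) (x : E) : T.ac (g + h) x = T.ac g (T.ac h x) := by
  revert g h
  have e : (1 : ZMod 2) + 1 = 0 := by decide
  refine VV_cases ?_ ?_ ?_ ?_ <;> refine VV_cases ?_ ?_ ?_ ?_ <;>
    simp [e, T.hs, T.ht, T.hst]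

/-- the square of the first generator -/
def U0 : E := 1 + T.z1 * T.z2
/-- the square of the second generator -/
def W0 : E := 1 + T.z1⁻¹ * T.z3⁻¹

theorem s_U0 : T.s T.U0 = T.U0 := by simp [U0, T.s1, T.s2, mul_comm]
theorem t_U0 : T.t T.U0 = T.U0 * (T.z1⁻¹ * T.z2⁻¹) := by
  have := T.h1; have := T.h2; have := T.h3
  simp only [U0, map_add, map_one, map_mul, T.t1, T.t2]; field_simp; ring
theorem t_W0 : T.t T.W0 = T.W0 := by
  simp [W0, T.t1, T.t3, mul_comm]
theorem s_W0 : T.s T.W0 = T.W0 * (T.z1 * T.z3) := by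
  have := T.h1; have := T.h2; have := T.h3
  simp only [W0, map_add, map_one, map_mul, map_inv₀, T.s1, T.s3]; field_simp; ring

/-- the reduced cocycle -/
def kap (g h : VV) : E :=
  (if g.2 = 1 ∧ h.1 = 1 then T.ac (g.1, 0) T.z1⁻¹ else 1) *
    (if g.1 = 1 ∧ h.1 = 1 then T.U0 else 1) *
    (if g.2 = 1 ∧ h.2 = 1 then T.ac (g.1 + h.1, 0) T.W0 else 1)

theorem kap_coc (g h l : VV) :
    T.kap g h * T.kap (g + h) l = T.ac g (T.kap h l) * T.kap g (h + l) := by
  have := T.h1; have := T.h2; have := T.h3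
  have e : (1 : ZMod 2) + 1 = 0 := by decide
  have e2 : (0 : ZMod 2) ≠ 1 := by decide
  revert g h l
  refine VV_cases ?_ ?_ ?_ ?_ <;> refine VV_cases ?_ ?_ ?_ ?_ <;>
    refine VV_cases ?_ ?_ ?_ ?_ <;>
    simp [kap, e, e2, T.s_U0, T.t_U0, T.s_W0, T.t_W0, T.s1, T.s2, T.s3, T.t1, T.t2, T.t3] <;>
    field_simp

@[simp] theorem kap_0l (g : VV) : T.kap 0 g = 1 := by
  simp [kap]
@[simp] theorem kap_0r (g : VV) : T.kap g 0 = 1 := by
  simp [kap]
@[simp] theorem kap_0l' (g : VV) : T.kap (0, 0) g = 1 := T.kap_0l g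
@[simp] theorem kap_0r' (g : VV) : T.kap g (0, 0) = 1 := T.kap_0r g

theorem one_add_m_ne {p : ℤ × ℤ × ℤ} (hp : p ≠ 0) : 1 + T.m p ≠ 0 := by
  intro h
  have h1 := T.li
  have h2 := h1.comp ![(0 : ℤ × ℤ × ℤ), p] (by
        intro a b hab
        fin_cases a <;> fin_cases b <;> simp_all)
  rw [Fintype.linearIndependent_iff] at h2
  have h3 := h2 (fun _ => 1) (by
    rw [Fin.sum_univ_two]
    simp only [one_smul, Function.comp_apply, Matrix.cons_val_zero, Matrix.cons_val_one]
    have : mo T.z1 T.z2 T.z3 0 = 1 := T.m_zero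
    rw [this]
    exact h) 0
  exact one_ne_zero h3

theorem U0_ne : T.U0 ≠ 0 := by
  have h := T.one_add_m_ne (p := (1, 1, 0)) (by simp)
  simpa [m, mo, U0] using h

theorem W0_ne : T.W0 ≠ 0 := by
  have h := T.one_add_m_ne (p := (-1, 0, -1)) (by simp)
  simpa [m, mo, W0] using h

theorem kap_ne (g h : VV) : T.kap g h ≠ 0 := by
  have := T.h1; have := T.U0_ne; have := T.W0_ne
  unfold kap
  refine mul_ne_zero (mul_ne_zero ?_ ?_) ?_
  · split_ifs
    · rw [map_inv₀]; exact inv_ne_zero (by simpa using T.h1)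
    · exact one_ne_zero
  · split_ifs
    · exact T.U0_ne
    · exact one_ne_zero
  · split_ifs
    · simpa using T.W0_ne
    · exact one_ne_zero

theorem trz_ne : ∑ g, T.ac g T.z1 ≠ 0 := by
  intro h
  have h1 := T.li
  rw [VV_sum] at h
  simp only [ac00, ac10, ac01, ac11, T.s1, T.t1, T.s3] at h
  have h2 := h1.comp ![((1 : ℤ), (0 : ℤ), (0 : ℤ)), (0, 1, 0), (0, 0, 1), (-1, -1, -1)] (by
        intro a b hab
        fin_cases a <;> fin_cases b <;> simp_all [Prod.ext_iff])
  rw [Fintype.linearIndependent_iff] at h2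
  have := h2 (fun _ => 1) (by
    simp [Fin.sum_univ_four, mo]
    simpa using h) 0
  exact one_ne_zero this

/-- an element of trace one -/
noncomputable def theta : E := T.z1 * (∑ g, T.ac g T.z1)⁻¹

theorem ac_sum (h : VV) (x : E) : T.ac h (∑ g, T.ac g x) = ∑ g, T.ac g x := by
  rw [map_sum]
  simp_rw [← T.ac_add]
  exact Fintype.sum_equiv (Equiv.addLeft h) _ _ (fun g => rfl)

theorem tr_theta : ∑ g, T.ac g T.theta = 1 := by
  unfold theta
  simp_rw [map_mul, map_inv₀, T.ac_sum]
  rw [← Finset.sum_mul]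
  exact mul_inv_cancel₀ T.trz_ne

theorem tr_theta_mul {e : E} (he : ∀ g, T.ac g e = e) : ∑ g, T.ac g (T.theta * e) = e := by
  simp_rw [map_mul, he]
  rw [← Finset.sum_mul, T.tr_theta, one_mul]

theorem not_mul_eq_one {a b c : E} (h : AlgebraicIndependent F ![a, b, c]) (i j : Fin 3)
    : ![a, b, c] i * ![a, b, c] j ≠ 1 := by
  intro h1
  have h2 : MvPolynomial.aeval ![a, b, c]
      (MvPolynomial.X i * MvPolynomial.X j - 1 : MvPolynomial (Fin 3) F) = 0 := by
    simp [h1]
  have h3 := h.eq_zero_of_aeval_eq_zero _ h2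
  have h4 : MvPolynomial.constantCoeff (MvPolynomial.X i * MvPolynomial.X j - 1 :
      MvPolynomial (Fin 3) F) = 0 := by rw [h3, map_zero]
  simp at h4

/-- Norm obstruction. -/
theorem nt {g : VV} (hg : g ≠ 0) {e : E} (he : e ≠ 0)
    (h : ∀ l, T.ac l (e * T.ac g e * T.kap g g) = e * T.ac g e * T.kap g g) : False := by
  have z1 := T.h1; have z2 := T.h2; have z3 := T.h3
  have hs0 : T.s e ≠ 0 := by simpa using he
  have ht0 : T.t e ≠ 0 := by simpa using he
  have hst0 : T.s (T.t e) ≠ 0 := by simpa using he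
  have hst1 : T.t (T.s e) = T.s (T.t e) := (T.hst e).symm
  have hU := T.U0_ne
  have hW := T.W0_ne
  have e2 : (1 : ZMod 2) + 1 = 0 := by decide
  revert g
  suffices H : ∀ g : VV, g ≠ 0 → (∀ l, T.ac l (e * T.ac g e * T.kap g g) =
      e * T.ac g e * T.kap g g) → False from fun {g} => H g
  refine VV_cases ?_ ?_ ?_ ?_
  · intro h0; exact absurd rfl h0
  · intro _ h
    have h1 := h (0, 1)
    simp [kap, T.t_U0] at h1
    have hB := T.claimB e 1 he one_ne_zero
    refine not_mul_eq_one hB 0 1 ?_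
    simp only [zz, Matrix.cons_val_zero, Matrix.cons_val_one, map_mul, map_inv₀, map_one, inv_one,
      mul_one, T.s1]
    rw [hst1] at h1
    have h2 : T.t e * T.s (T.t e) = e * T.s e * (T.z1 * T.z2) := by
      field_simp at h1 ⊢
      linear_combination h1
    field_simp
    linear_combination -h2
  · intro _ h
    have h1 := h (1, 0)
    simp [kap, T.s_W0] at h1
    have hB := T.claimB 1 e one_ne_zero he
    refine not_mul_eq_one hB 0 2 ?_
    simp only [zz, Matrix.cons_val_zero, Matrix.cons_val_two, Matrix.tail_cons,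
      Matrix.head_cons, map_mul, map_inv₀, map_one, inv_one,
      mul_one, T.t1]
    have h2 : T.s e * T.s (T.t e) * (T.z1 * T.z3) = e * T.t e := by
      field_simp at h1 ⊢
      linear_combination h1
    rw [hst1]
    field_simp
    linear_combination h2
  · intro _ h
    have h1 := h (1, 0)
    simp [kap, T.s_W0, T.s_U0, T.s1, T.s2, e2, T.hs] at h1
    have hB := T.claimB 1 (T.s e) one_ne_zero hs0
    refine not_mul_eq_one hB 1 2 ?_
    simp only [zz, Matrix.cons_val_zero, Matrix.cons_val_one, Matrix.cons_val_two, Matrix.tail_cons,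
      Matrix.head_cons, map_mul, map_inv₀, map_one, inv_one,
      mul_one, T.t1, T.s1, T.hs]
    rw [hst1]
    have h2 : T.s e * T.t e * (T.z2 * T.z3) = e * T.s (T.t e) := by
      field_simp at h1 ⊢
      linear_combination h1
    field_simp
    linear_combination h2

end TD

end helper53.ED
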