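import Mathlib
import Pool.Agent.helper53.ED.NT

namespace helper53.ED

open Module

/-- The value group. -/
abbrev GG := ℤ ×ₗ ℤ

/-- the parity class -/
def par (a : GG) : VV := (((ofLex a).1 : ZMod 2), ((ofLex a).2 : ZMod 2))

@[simp] theorem par_zero : par 0 = 0 := by simp [par]

@[simp] theorem par_add (a b : GG) : par (a + b) = par a + par b := by
  simp [par]

theorem par_dbl (a : GG) : par (a + a) = 0 := by
  rw [par_add]
  generalize par a = g
  revert g
  decide

theorem two_eq (F R : Type*) [Field F] [CharP F 2] [Ring R] [Algebra F R] : (2 : R) = 0 := by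
  have : algebraMap F R 2 = 0 := by
    rw [show (2 : F) = 0 from CharP.cast_eq_zero F 2, map_zero]
  rwa [map_ofNat] at this

theorem add_self_eq (F : Type*) {R : Type*} [Field F] [CharP F 2] [Ring R] [Algebra F R] (x : R) :
    x + x = 0 := by
  rw [← two_mul, two_eq F R, zero_mul]

/-- A valued division algebra with residue data in `E`. -/
structure VD (F E K D : Type*) [Field F] [Field E] [Algebra F E] [Field K] [DivisionRing D]
    [Algebra F K] [Algebra K D] [Algebra F D] [IsScalarTower F K D] where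
  T : TD F E
  Λ : D →+ (GG → E)
  ex : ∀ x, x ≠ 0 → ∃ l, Λ x l ≠ 0 ∧ ∀ m, m < l → Λ x m = 0
  mul1 : ∀ x y l m, (∀ n, n < l → Λ x n = 0) → (∀ n, n < m → Λ y n = 0) →
    ∀ n, n < l + m → Λ (x * y) n = 0
  mul2 : ∀ x y l m, (∀ n, n < l → Λ x n = 0) → (∀ n, n < m → Λ y n = 0) →
    Λ (x * y) (l + m) = Λ x l * T.ac (par l) (Λ y m) * T.kap (par l) (par m)
  Kinv : ∀ (c : K) l g, T.ac g (Λ (algebraMap K D c) l) = Λ (algebraMap K D c) l
  Kpar : ∀ (c : K) l, par l ≠ 0 → Λ (algebraMap K D c) l = 0
  Ff : ∀ f : F, Λ (algebraMap F D f) = Pi.single 0 (algebraMap F E f)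
  corr : ∀ x : D, ∃ c : K, ∀ l, par l = 0 →
    ∑ g, T.ac g (T.theta * Λ (x + algebraMap K D c) l) = 0

namespace VD

variable {F E K D : Type*} [Field F] [Field E] [Algebra F E] [Field K] [DivisionRing D]
    [Algebra F K] [Algebra K D] [Algebra F D] [IsScalarTower F K D] (v : VD F E K D)

/-- `l` is the order of `x` -/
def IsLT (x : D) (l : GG) : Prop := v.Λ x l ≠ 0 ∧ ∀ m, m < l → v.Λ x m = 0

/-- `x` is integral -/
def Int (x : D) : Prop := ∀ m, m < 0 → v.Λ x m = 0

variable {v}

theorem IsLT.uniq {x : D} {l m : GG} (h : v.IsLT x l) (h' : v.IsLT x m) : l = m := by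
  rcases lt_trichotomy l m with hl | hl | hl
  · exact absurd (h'.2 l hl) h.1
  · exact hl
  · exact absurd (h.2 m hl) h'.1

theorem IsLT.ne {x : D} {l : GG} (h : v.IsLT x l) : x ≠ 0 := by
  rintro rfl
  exact h.1 (by simp)

theorem IsLT.mul {x y : D} {l m : GG} (hx : v.IsLT x l) (hy : v.IsLT y m) :
    v.IsLT (x * y) (l + m) := by
  refine ⟨?_, v.mul1 x y l m hx.2 hy.2⟩
  rw [v.mul2 x y l m hx.2 hy.2]
  refine mul_ne_zero (mul_ne_zero hx.1 ?_) (v.T.kap_ne _ _)
  simpa using hy.1

theorem Int.mul {x y : D} (hx : v.Int x) (hy : v.Int y) : v.Int (x * y) := by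
  intro m hm
  exact v.mul1 x y 0 0 hx hy m (by simpa using hm)

theorem Int.mul_val {x y : D} (hx : v.Int x) (hy : v.Int y) :
    v.Λ (x * y) 0 = v.Λ x 0 * v.Λ y 0 := by
  have := v.mul2 x y 0 0 hx hy
  simpa using this

theorem Int.add {x y : D} (hx : v.Int x) (hy : v.Int y) : v.Int (x + y) := by
  intro m hm
  rw [map_add, Pi.add_apply, hx m hm, hy m hm, add_zero]

variable (v) in
theorem Int.algF (f : F) : v.Int (algebraMap F D f) := by
  intro m hm
  rw [v.Ff, Pi.single_eq_of_ne hm.ne]

variable (v) in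
theorem algF_val (f : F) : v.Λ (algebraMap F D f) 0 = algebraMap F E f := by
  rw [v.Ff, Pi.single_eq_same]

variable (v) in
theorem Int.one : v.Int (1 : D) := by
  have := Int.algF v 1
  rwa [map_one] at this

variable (v) in
theorem one_val : v.Λ (1 : D) 0 = 1 := by
  have := v.algF_val 1
  rwa [map_one (algebraMap F D), map_one (algebraMap F E)] at this

variable [CharP F 2]

include F in
/-- The core obstruction. -/
theorem core {y : D} (hy : ∀ l, par l = 0 → ∑ g, v.T.ac g (v.T.theta * v.Λ y l) = 0)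
    {l : GG} (hl : v.IsLT y l)
    (h : ∀ g, v.T.ac g (v.Λ y l * v.T.ac (par l) (v.Λ y l) * v.T.kap (par l) (par l)) =
      v.Λ y l * v.T.ac (par l) (v.Λ y l) * v.T.kap (par l) (par l)) : False := by
  by_cases hp : par l = 0
  · rw [hp] at h
    simp only [TD.ac0, TD.kap_0l, mul_one, map_mul] at h
    have h2 : ∀ g, v.T.ac g (v.Λ y l) = v.Λ y l := by
      intro g
      have h3 := h g
      have h4 : (v.T.ac g (v.Λ y l) + v.Λ y l) * (v.T.ac g (v.Λ y l) + v.Λ y l) = 0 := by
        have h2 := two_eq F E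
        linear_combination h3 + (v.Λ y l * v.Λ y l + v.T.ac g (v.Λ y l) * v.Λ y l) * h2
      have h5 := mul_self_eq_zero.mp h4
      have h2 := two_eq F E
      linear_combination h5 - v.Λ y l * h2
    have h3 := hy l hp
    rw [v.T.tr_theta_mul h2] at h3
    exact hl.1 h3
  · exact v.T.nt hp hl.1 h

variable (v) in
include v in
/-- `x² ∈ K` implies `x ∈ K`. -/
theorem sq_mem {x : D} {c : K} (h : x * x = algebraMap K D c) :
    ∃ c' : K, x = algebraMap K D c' := by
  obtain ⟨c0, hc0⟩ := v.corr x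
  by_cases hy : x + algebraMap K D c0 = 0
  · exact ⟨-c0, by rw [map_neg]; exact eq_neg_of_add_eq_zero_left hy⟩
  exfalso
  obtain ⟨l, hl⟩ := v.ex _ hy
  refine core hc0 hl ?_
  have h1 : (x + algebraMap K D c0) * (x + algebraMap K D c0) = algebraMap K D (c + c0 * c0) := by
    have e1 : (x + algebraMap K D c0) * (x + algebraMap K D c0) =
        x * x + algebraMap K D c0 * algebraMap K D c0 +
        (x * algebraMap K D c0 + algebraMap K D c0 * x) := by noncomm_ring
    rw [e1, ← Algebra.commutes c0 x, add_self_eq F, add_zero, h, map_add, map_mul]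
  intro g
  rw [← v.mul2 _ _ l l hl.2 hl.2, h1]
  exact v.Kinv _ _ g

variable (v) in
/-- Artin–Schreier elements can be made integral. -/
theorem as_int {x : D} {c : K} (h : x * x + x = algebraMap K D c) :
    ∃ c' : K, v.Int (x + algebraMap K D c') := by
  obtain ⟨c0, hc0⟩ := v.corr x
  refine ⟨c0, ?_⟩
  by_cases hy : x + algebraMap K D c0 = 0
  · rw [hy]; intro m _; simp
  obtain ⟨l, hl⟩ := v.ex _ hy
  by_cases hl0 : l < 0
  swap
  · intro m hm
    exact hl.2 m (lt_of_lt_of_le hm (not_lt.mp hl0))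
  exfalso
  refine core hc0 hl ?_
  have h1 : (x + algebraMap K D c0) * (x + algebraMap K D c0) =
      algebraMap K D (c + c0 * c0 + c0) - (x + algebraMap K D c0) := by
    have e1 : (x + algebraMap K D c0) * (x + algebraMap K D c0) =
        (x * x + x) + algebraMap K D c0 * algebraMap K D c0 +
        (x * algebraMap K D c0 + algebraMap K D c0 * x) - x := by noncomm_ring
    rw [e1, ← Algebra.commutes c0 x, add_self_eq F, add_zero, h, map_add, map_add, map_mul]
    abel
  intro g
  rw [← v.mul2 _ _ l l hl.2 hl.2, h1, map_sub, Pi.sub_apply,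
    hl.2 (l + l) (by simpa using hl0), sub_zero]
  exact v.Kinv _ _ g

omit [CharP F 2] in
/-- The action on residues. -/
theorem act_res {w y : D} {l : GG} (hw : v.IsLT w l) {c : K} (hy : v.Int (y + algebraMap K D c))
    {a : F} (h : w * y = (y + algebraMap F D a) * w) :
    v.T.ac (par l) (v.Λ (y + algebraMap K D c) 0) =
      v.Λ (y + algebraMap K D c) 0 + algebraMap F E a := by
  have h1 : w * (y + algebraMap K D c) = (y + algebraMap K D c + algebraMap F D a) * w := by
    rw [mul_add, h, ← Algebra.commutes c w]; noncomm_ring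
  have h2 := v.mul2 _ _ l 0 hw.2 hy
  have h3 := v.mul2 _ _ 0 l (hy.add (Int.algF v a)) hw.2
  rw [h1, add_zero] at h2
  rw [zero_add, h2] at h3
  rw [map_add v.Λ (y + algebraMap K D c) (algebraMap F D a), Pi.add_apply, v.algF_val] at h3
  simp only [par_zero, TD.kap_0l, TD.kap_0r, mul_one, TD.ac0] at h3
  have := hw.1
  rw [mul_comm] at h3
  exact mul_right_cancel₀ this h3

end VD

end helper53.ED
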