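import Mathlib
import Pool.Agent.helper53.ED.VD

namespace helper53.ED

open Module Polynomial

section ring

variable {R : Type*} [Ring R] (h2 : (2 : R) = 0)

include h2 in
theorem as1 {β x b : R} (hb : β * β + β = b) (hc : b * x = x * b) :
    (β * x + x * β) * β = (β + 1) * (β * x + x * β) := by
  subst hb
  have h : (β * x + x * β) * β - (β + 1) * (β * x + x * β) =
      (x * (β * β + β) - (β * β + β) * x) - 2 * (x * β) := by
    noncomm_ring
  rw [h2, zero_mul, hc, sub_self, sub_zero] at h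
  exact sub_eq_zero.mp h

omit h2 in
theorem as2 {β x b : R} (hb : β * β + β = b) (hc : b * x = x * b) :
    (β * x + x * β + x) * β = β * (β * x + x * β + x) := by
  subst hb
  have h : (β * x + x * β + x) * β - β * (β * x + x * β + x) =
      (x * (β * β + β) - (β * β + β) * x) := by
    noncomm_ring
  rw [hc, sub_self] at h
  exact sub_eq_zero.mp h

include h2 in
theorem add_one_add_one (β : R) : β + 1 + 1 = β := by
  rw [add_assoc, one_add_one_eq_two, h2, add_zero]

include h2 in
theorem as3 {β w y : R} (hw : w * β = (β + 1) * w) (hy : y * β = (β + 1) * y) :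
    w * y * β = β * (w * y) := by
  have e : w * (β + 1) = β * w := by
    rw [mul_add, hw, mul_one, add_mul, one_mul, add_assoc, ← two_mul, h2, zero_mul, add_zero]
  rw [mul_assoc, hy, ← mul_assoc, e, mul_assoc]

include h2 in
theorem as4 {β w : R} (hw : w * β = (β + 1) * w) : w * w * β = β * (w * w) :=
  as3 h2 hw hw

end ring

/-- Reduced characteristic polynomials in degree four. -/
structure RC (F K D : Type*) [Field F] [Field K] [DivisionRing D]
    [Algebra F K] [Algebra K D] where
  tr : D →ₗ[K] K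
  tr_comm : ∀ x y, tr (x * y) = tr (y * x)
  cp : D → K[X]
  monic : ∀ d, (cp d).Monic
  deg : ∀ d, (cp d).natDegree = 4
  aeval_cp : ∀ d, aeval d (cp d) = 0
  cp3 : ∀ d, (cp d).coeff 3 = tr d
  cp1 : ∀ d, d ≠ 0 → tr d⁻¹ = 0 → (cp d).coeff 1 = 0
  alg : ∀ (L : IntermediateField F K) (d : D), IsIntegral L d → ∀ i, IsIntegral L ((cp d).coeff i)

section

variable {F E K D : Type*} [Field F] [Field E] [Algebra F E] [Field K] [DivisionRing D]
    [Algebra F K] [Algebra K D] [Algebra F D] [IsScalarTower F K D] (v : VD F E K D)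
    (r : RC F K D) [CharP F 2]

/-- A pair of commuting Artin–Schreier elements with symbols. -/
structure ASP (F K : Type*) {D : Type*} [Field F] [Field K] [DivisionRing D] [Algebra F K]
    [Algebra K D] (α β u w : D) : Prop where
  comm : α * β = β * α
  ha : ∃ a : K, α * α + α = algebraMap K D a
  hb : ∃ b : K, β * β + β = algebraMap K D b
  hu : u ≠ 0
  hw : w ≠ 0
  ua : u * α = (α + 1) * u
  ub : u * β = β * u
  wa : w * α = α * w
  wb : w * β = (β + 1) * w

variable {L : IntermediateField F K} (hL : ∀ x : K, IsIntegral L x → x ∈ L)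

include v r hL in
theorem quad {d : D} (hdint : IsIntegral L d) (hd : ∀ c : K, d ≠ algebraMap K D c)
    (h1 : r.tr d = 0) (h2 : r.tr d⁻¹ = 0) :
    ∃ s : K, s ∈ L ∧ s ≠ 0 ∧
      (∃ b : K, (s • (d * d)) * (s • (d * d)) + s • (d * d) = algebraMap K D b) ∧
      ∀ c : K, s • (d * d) ≠ algebraMap K D c := by
  have hd0 : d ≠ 0 := fun h => hd 0 (by rw [h, map_zero])
  have e3 := r.cp3 d
  rw [h1] at e3
  have e1 := r.cp1 d hd0 h2
  have e4 : (r.cp d).coeff 4 = 1 := by
    have := r.monic d
    rw [Polynomial.Monic, Polynomial.leadingCoeff, r.deg] at this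
    exact this
  have h := r.aeval_cp d
  rw [Polynomial.aeval_eq_sum_range, r.deg] at h
  simp only [Finset.sum_range_succ, Finset.range_zero, Finset.sum_empty, e1, e3, e4, zero_smul,
    zero_add, add_zero, pow_zero, one_smul] at h
  set c2 := (r.cp d).coeff 2 with hc2
  set c0 := (r.cp d).coeff 0 with hc0
  have hsq : ∀ c : K, d * d ≠ algebraMap K D c := fun c hc => by
    obtain ⟨c', hc'⟩ := v.sq_mem hc
    exact hd c' hc'
  have hne : c2 ≠ 0 := by
    intro h0
    rw [h0, zero_smul, add_zero] at h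
    have h5 : (d * d) * (d * d) = algebraMap K D (-c0) := by
      rw [map_neg, Algebra.algebraMap_eq_smul_one, ← eq_neg_of_add_eq_zero_right h]
      noncomm_ring
    obtain ⟨c', hc'⟩ := v.sq_mem h5
    exact hsq c' hc'
  have hc2L : c2 ∈ L := hL _ (r.alg L d hdint 2)
  refine ⟨c2⁻¹, L.inv_mem hc2L, inv_ne_zero hne, ⟨-(c2⁻¹ * c2⁻¹ * c0), ?_⟩, ?_⟩
  · have h6 : d ^ 4 = - (c0 • (1 : D) + c2 • d ^ 2) := eq_neg_of_add_eq_zero_right h
    have h7 : (c2⁻¹ • (d * d)) * (c2⁻¹ • (d * d)) = (c2⁻¹ * c2⁻¹) • d ^ 4 := by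
      rw [smul_mul_smul_comm]
      congr 1
      noncomm_ring
    rw [h7, h6, smul_neg, smul_add, smul_smul, smul_smul, mul_assoc c2⁻¹ c2⁻¹ c2,
      inv_mul_cancel₀ hne, mul_one, map_neg, Algebra.algebraMap_eq_smul_one, pow_two]
    abel
  · intro c hc
    apply hsq (c2 * c)
    rw [map_mul, ← hc, ← Algebra.smul_def, smul_smul, mul_inv_cancel₀ hne, one_smul]


/-- The trace on the form. -/
noncomputable def tr0 {D0 : Subalgebra L D} (hD0 : ∀ x : D0, IsIntegral L (x : D)) :
    D0 →ₗ[L] L where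
  toFun x := ⟨r.tr x, by
    rw [← r.cp3]
    exact hL _ (r.alg L _ (hD0 x) 3)⟩
  map_add' x y := Subtype.ext (by simp)
  map_smul' c x := Subtype.ext (by
    show r.tr ((c • x : D0) : D) = (c : K) * r.tr x
    have : ((c • x : D0) : D) = (c : K) • (x : D) := rfl
    rw [this, map_smul, smul_eq_mul])

include hL r in
omit [Algebra F D] [IsScalarTower F K D] [CharP F 2] in
/-- First half of Albert's argument. -/
theorem albert1 {D0 : Subalgebra L D} (h16 : finrank L D0 = 16) :
    ∃ d ∈ D0, (∀ c : K, d ≠ algebraMap K D c) ∧ r.tr d = 0 ∧ r.tr d⁻¹ = 0 := by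
  classical
  have : FiniteDimensional L D0 := FiniteDimensional.of_finrank_pos (by omega)
  have hint : ∀ x : D0, IsIntegral L (x : D) := fun x =>
    (isIntegral_algHom_iff D0.val Subtype.val_injective).mpr (IsIntegral.of_finite L x)
  -- elements of K in D0 are in L
  have hKL : ∀ (c : K), algebraMap K D c ∈ D0 → c ∈ L := by
    intro c hc
    apply hL
    have := hint ⟨_, hc⟩
    have h2 : IsIntegral L (algebraMap K D c) := this
    rwa [isIntegral_algebraMap_iff (algebraMap K D).injective] at h2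
  have hinv : ∀ x ∈ D0, x⁻¹ ∈ D0 := fun x hx => (hint ⟨x, hx⟩).inv_mem hx
  obtain ⟨a0, ha0⟩ : ∃ a0 : D0, ∀ c : L, a0 ≠ algebraMap L D0 c := by
    by_contra hcon
    push Not at hcon
    have : (⊥ : Subalgebra L D0) = ⊤ := by
      rw [eq_top_iff]
      intro x _
      obtain ⟨c, hc⟩ := hcon x
      rw [hc]
      exact Subalgebra.algebraMap_mem _ _
    have h3 := Subalgebra.bot_eq_top_iff_finrank_eq_one.mp this
    omega
  -- monic quartic over L killing a0
  obtain ⟨q, hq4, hqm, hqa⟩ : ∃ q : L[X], q.natDegree = 4 ∧ q.Monic ∧ aeval (a0 : D) q = 0 := by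
    have hl : r.cp (a0 : D) ∈ Polynomial.lifts (algebraMap L K) := by
      rw [Polynomial.lifts_iff_coeff_lifts]
      intro n
      exact ⟨⟨_, hL _ (r.alg L _ (hint a0) n)⟩, rfl⟩
    obtain ⟨q, hq1, hq2, hq3⟩ := Polynomial.lifts_and_natDegree_eq_and_monic hl (r.monic _)
    refine ⟨q, by rw [hq2, r.deg], hq3, ?_⟩
    have := r.aeval_cp (a0 : D)
    rwa [← hq1, Polynomial.aeval_map_algebraMap] at this
  have hqa0 : aeval a0 q = 0 := by
    have : ((aeval a0 q : D0) : D) = 0 := by
      have := Polynomial.aeval_algHom_apply D0.val a0 q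
      rw [← hqa]
      exact this.symm
    exact Subtype.ext this
  have hN := Submodule.span_range_natDegree_eq_adjoin hqm hqa0
  rw [hq4] at hN
  set N := Algebra.adjoin L {a0} with hNdef
  have hNdim : finrank L (Subalgebra.toSubmodule N) ≤ 4 := by
    rw [← hN]
    refine (finrank_span_finset_le_card _).trans ?_
    exact le_trans (@Finset.card_image_le _ _ _ _ (_)) (by simp)
  let T0 := tr0 r hL hint
  let φ : D0 →ₗ[L] (Fin 4 → L) :=
    LinearMap.pi (fun i => T0.comp (LinearMap.mulLeft L (a0 ^ (i : ℕ))))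
  obtain ⟨b, hb1, hb2⟩ : ∃ b : D0, φ b = 0 ∧ b ∉ N := by
    by_contra hcon
    push Not at hcon
    have hle : LinearMap.ker φ ≤ Subalgebra.toSubmodule N := fun x hx => hcon x hx
    have h3 := Submodule.finrank_mono hle
    have h4 := LinearMap.finrank_range_add_finrank_ker φ
    have h5 : finrank L (LinearMap.range φ) ≤ 4 := by
      refine (Submodule.finrank_le _).trans ?_
      simp
    omega
  have hbN : ∀ n ∈ N, r.tr ((n : D) * b) = 0 := by
    intro n hn
    have hn' : n ∈ Subalgebra.toSubmodule N := hn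
    rw [← hN] at hn'
    induction hn' using Submodule.span_induction with
    | mem x hx =>
      simp only [Finset.coe_image, Set.mem_image, Finset.coe_range, Set.mem_Iio] at hx
      obtain ⟨i, hi, rfl⟩ := hx
      have := congrFun hb1 ⟨i, hi⟩
      have h5 : T0 (a0 ^ i * b) = 0 := this
      have h6 := congrArg Subtype.val h5
      exact h6
    | zero => simp
    | add x y hx hy h1 h2 =>
      have hx' : x ∈ N := by
        show x ∈ Subalgebra.toSubmodule N
        rw [← hN]; exact hx
      have hy' : y ∈ N := by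
        show y ∈ Subalgebra.toSubmodule N
        rw [← hN]; exact hy
      have : (((x + y : D0) : D)) * b = x * b + y * b := by
        rw [Subalgebra.coe_add, add_mul]
      rw [this, map_add, h1 hx', h2 hy', add_zero]
    | smul c x hx h1 =>
      have hx' : x ∈ N := by
        show x ∈ Subalgebra.toSubmodule N
        rw [← hN]; exact hx
      have : (((c • x : D0) : D)) * b = (c : K) • ((x : D) * b) := by
        have : ((c • x : D0) : D) = (c : K) • (x : D) := rfl
        rw [this, smul_mul_assoc]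
      rw [this, map_smul, h1 hx', smul_zero]
  have hb0 : (b : D) ≠ 0 := by
    intro h
    apply hb2
    have : b = 0 := Subtype.ext h
    rw [this]; exact N.zero_mem
  -- choose a
  obtain ⟨a, haN, ha0', htr⟩ : ∃ a ∈ N, a ≠ 0 ∧ r.tr ((a : D) * (b : D)⁻¹) = 0 := by
    let b' : D0 := ⟨(b : D)⁻¹, hinv _ b.2⟩
    by_cases h1 : r.tr ((b : D)⁻¹) = 0
    · refine ⟨1, N.one_mem, one_ne_zero, ?_⟩
      rw [Subalgebra.coe_one, one_mul, h1]
    · refine ⟨T0 b' • a0 - T0 (a0 * b') • 1, ?_, ?_, ?_⟩
      · exact N.sub_mem (N.smul_mem (Algebra.self_mem_adjoin_singleton L a0) _)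
          (N.smul_mem N.one_mem _)
      · intro h
        have hT : T0 b' ≠ 0 := by
          intro h0
          exact h1 (congrArg Subtype.val h0)
        apply ha0 ((T0 b')⁻¹ * T0 (a0 * b'))
        rw [sub_eq_zero] at h
        rw [Algebra.algebraMap_eq_smul_one, mul_smul, ← h, smul_smul, inv_mul_cancel₀ hT, one_smul]
      · have e1 : ((T0 b' • a0 - T0 (a0 * b') • (1 : D0) : D0) : D) =
            r.tr (b : D)⁻¹ • (a0 : D) - r.tr ((a0 : D) * (b : D)⁻¹) • (1 : D) := rfl
        rw [e1, sub_mul, smul_mul_assoc, smul_mul_assoc, one_mul, map_sub, map_smul, map_smul,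
          smul_eq_mul, smul_eq_mul, mul_comm, sub_self]
  have haD : (a : D) ≠ 0 := fun h => ha0' (Subtype.ext h)
  have hainv : ∃ a' ∈ N, (a' : D) = (a : D)⁻¹ := by
    let N' : Subalgebra L D := N.map D0.val
    have h1 : (a : D) ∈ N' := ⟨a, haN, rfl⟩
    obtain ⟨a', ha', e⟩ := (hint a).inv_mem h1
    exact ⟨a', ha', e⟩
  obtain ⟨a', ha'N, ha'e⟩ := hainv
  refine ⟨(a : D) * (b : D)⁻¹, D0.mul_mem a.2 (hinv _ b.2), ?_, htr, ?_⟩
  · intro c hc
    have hcL : c ∈ L := by
      apply hKL
      rw [← hc]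
      exact D0.mul_mem a.2 (hinv _ b.2)
    have hc0 : c ≠ 0 := by
      rintro rfl
      rw [map_zero] at hc
      exact (mul_ne_zero haD (inv_ne_zero hb0)) hc
    apply hb2
    have e1 : (a : D) = algebraMap K D c * b := by
      rw [← hc, mul_assoc, inv_mul_cancel₀ hb0, mul_one]
    have e2 : b = (⟨c, hcL⟩ : L)⁻¹ • a := by
      apply Subtype.ext
      have : (((⟨c, hcL⟩ : L)⁻¹ • a : D0) : D) = c⁻¹ • (a : D) := rfl
      rw [this, e1, ← Algebra.smul_def, smul_smul, inv_mul_cancel₀ hc0, one_smul]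
    rw [e2]
    exact N.smul_mem haN _
  · rw [mul_inv_rev, inv_inv, r.tr_comm, ← ha'e]
    exact hbN a' ha'N

include v r hL in
/-- Existence of a pair of Artin–Schreier elements over `L`. -/
theorem albert2 [Algebra.IsCentral K D] {D0 : Subalgebra L D} (h16 : finrank L D0 = 16)
    (hspan : Submodule.span K (D0 : Set D) = ⊤) :
    ∃ α ∈ D0, ∃ β ∈ D0, ∃ u ∈ D0, ∃ w ∈ D0, ASP F K α β u w := by
  have : FiniteDimensional L D0 := FiniteDimensional.of_finrank_pos (by omega)
  have h2D := two_eq F D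
  have hint : ∀ x ∈ D0, IsIntegral L x := fun x hx =>
    (isIntegral_algHom_iff D0.val Subtype.val_injective).mpr
      (IsIntegral.of_finite L (⟨x, hx⟩ : D0))
  have hinv : ∀ x ∈ D0, x⁻¹ ∈ D0 := fun x hx => (hint x hx).inv_mem hx
  -- elements commuting with D0 are in K
  have hcen : ∀ y : D, (∀ x ∈ D0, x * y = y * x) → ∃ c : K, y = algebraMap K D c := by
    intro y hy
    have h1 : ∀ x : D, x * y = y * x := by
      intro x
      have hx : x ∈ Submodule.span K (D0 : Set D) := by rw [hspan]; trivial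
      induction hx using Submodule.span_induction with
      | mem x hx => exact hy x hx
      | zero => simp
      | add a b _ _ h1 h2 => rw [add_mul, mul_add, h1, h2]
      | smul c a _ h1 => rw [smul_mul_assoc, h1, mul_smul_comm]
    have h2 : y ∈ Subalgebra.center K D := by
      rw [Subalgebra.mem_center_iff]
      exact h1
    rw [Algebra.IsCentral.center_eq_bot] at h2
    obtain ⟨c, hc⟩ := h2
    exact ⟨c, hc.symm⟩
  -- smul by elements of L
  have hsmul : ∀ s ∈ L, ∀ x ∈ D0, s • x ∈ D0 := fun s hs x hx => D0.smul_mem hx ⟨s, hs⟩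
  obtain ⟨d, hd, hdK, htr1, htr2⟩ := albert1 r hL h16
  obtain ⟨s, hsL, hs0, ⟨b, hb⟩, hβK⟩ := quad v r hL (hint d hd) hdK htr1 htr2
  set β := s • (d * d) with hβ
  have hβ0 : β ∈ D0 := hsmul s hsL _ (D0.mul_mem hd hd)
  have hbc : ∀ x : D, algebraMap K D b * x = x * algebraMap K D b := fun x => Algebra.commutes b x
  obtain ⟨x, hx, hxβ⟩ : ∃ x ∈ D0, x * β ≠ β * x := by
    by_contra hcon
    push Not at hcon
    obtain ⟨c, hc⟩ := hcen β hcon
    exact hβK c hc
  set w := β * x + x * β with hw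
  have hw0 : w ∈ D0 := D0.add_mem (D0.mul_mem hβ0 hx) (D0.mul_mem hx hβ0)
  have hwne : w ≠ 0 := by
    intro h
    apply hxβ
    have h3 : x * β + x * β = 0 := add_self_eq F _
    have h4 := h.trans h3.symm
    exact (add_right_cancel h4).symm
  have hwβ : w * β = (β + 1) * w := as1 h2D hb (hbc x)
  have h2K : (2 : K) = 0 := two_eq F K
  have hwtr : r.tr w = 0 := by
    rw [hw, map_add, r.tr_comm, ← two_mul, h2K, zero_mul]
  have hwinv : r.tr w⁻¹ = 0 := by
    have e1 : β * w⁻¹ + w⁻¹ * β = w⁻¹ := by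
      have e2 : β * w⁻¹ = w⁻¹ * (β + 1) := by
        have : w * (β * w⁻¹) = w * (w⁻¹ * (β + 1)) := by
          rw [← mul_assoc, hwβ, mul_assoc, mul_inv_cancel₀ hwne, ← mul_assoc,
            mul_inv_cancel₀ hwne, one_mul, mul_one]
        exact mul_left_cancel₀ hwne this
      rw [e2, mul_add, mul_one, add_right_comm, add_self_eq F, zero_add]
    rw [← e1, map_add, r.tr_comm, ← two_mul, h2K, zero_mul]
  have hwK : ∀ c : K, w ≠ algebraMap K D c := by
    intro c hc
    have h3 := hwβ
    rw [hc, Algebra.commutes, add_mul, one_mul, left_eq_add] at h3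
    exact hwne (hc.trans h3)
  obtain ⟨s', hs'L, hs'0, ⟨a, ha⟩, hαK⟩ := quad v r hL (hint w hw0) hwK hwtr hwinv
  set α := s' • (w * w) with hα
  have hα0 : α ∈ D0 := hsmul s' hs'L _ (D0.mul_mem hw0 hw0)
  have hac : ∀ x : D, algebraMap K D a * x = x * algebraMap K D a := fun x => Algebra.commutes a x
  have hcomm : α * β = β * α := by
    rw [hα, smul_mul_assoc, as4 h2D hwβ, mul_smul_comm]
  have hwα : w * α = α * w := by
    rw [hα, mul_smul_comm, smul_mul_assoc, mul_assoc]
  obtain ⟨c, hc, hcβ, hcα⟩ : ∃ c ∈ D0, c * β = β * c ∧ c * α ≠ α * c := by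
    by_contra hcon
    push Not at hcon
    obtain ⟨e, he⟩ := hcen α (by
      intro y hy
      have h3 : (β * y + y * β + y) * α = α * (β * y + y * β + y) :=
        hcon _ (D0.add_mem (D0.add_mem (D0.mul_mem hβ0 hy) (D0.mul_mem hy hβ0)) hy)
          (as2 hb (hbc y))
      have h4 : (β * y + y * β) * β = (β + 1) * (β * y + y * β) := as1 h2D hb (hbc y)
      have h5 : w * (β * y + y * β) * α = α * (w * (β * y + y * β)) :=
        hcon _ (D0.mul_mem hw0 (D0.add_mem (D0.mul_mem hβ0 hy) (D0.mul_mem hy hβ0)))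
          (as3 h2D hwβ h4)
      have h6 : (β * y + y * β) * α = α * (β * y + y * β) := by
        rw [← mul_assoc α, ← hwα, mul_assoc, mul_assoc] at h5
        exact mul_left_cancel₀ hwne h5
      have h7 : (β * y + y * β + y) = (β * y + y * β) + y := rfl
      rw [add_mul, mul_add, h6] at h3
      exact add_left_cancel h3)
    exact hαK e he
  refine ⟨α, hα0, β, hβ0, α * c + c * α, D0.add_mem (D0.mul_mem hα0 hc) (D0.mul_mem hc hα0),
    w, hw0, ⟨hcomm, ⟨a, ha⟩, ⟨b, hb⟩, ?_, hwne, as1 h2D ha (hac c), ?_, hwα, hwβ⟩⟩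
  · intro h
    apply hcα
    have h3 : c * α + c * α = 0 := add_self_eq F _
    exact (add_right_cancel (h.trans h3.symm)).symm
  · rw [add_mul, mul_add, mul_assoc, hcβ, mul_assoc, hcomm, ← mul_assoc, ← mul_assoc, hcomm, hcβ]
    simp only [mul_assoc]

end

end helper53.ED
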