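import Mathlib
import Pool.Agent.helper53.ED.Albert

namespace helper53.ED

open Module Polynomial

theorem VV_self (g : VV) : g + g = 0 := by revert g; decide

/-- Data of a crossed product by the four-group. -/
structure CP (F H : Type*) [Field F] [Field H] [Algebra F H] where
  a : VV → H →ₐ[F] H
  a0 : ∀ x, a 0 x = x
  aadd : ∀ g h x, a (g + h) x = a g (a h x)
  c : VV → VV → H
  coc : ∀ g h l, c g h * c (g + h) l = a g (c h l) * c g (h + l)
  c0l : ∀ g, c 0 g = 1
  c0r : ∀ g, c g 0 = 1
  cne : ∀ g h, c g h ≠ 0
  faith : ∀ g, g ≠ 0 → ∃ x, a g x ≠ x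

namespace CP

variable {F H : Type*} [Field F] [Field H] [Algebra F H] (P : CP F H)

/-- The fixed field. -/
def K : IntermediateField F H where
  carrier := {x | ∀ g, P.a g x = x}
  mul_mem' := fun hx hy g => by rw [map_mul, hx g, hy g]
  add_mem' := fun hx hy g => by rw [map_add, hx g, hy g]
  algebraMap_mem' := fun r g => AlgHom.commutes _ r
  inv_mem' := fun x hx g => by rw [map_inv₀, hx g]

theorem mem_K {x : H} : x ∈ P.K ↔ ∀ g, P.a g x = x := Iff.rfl

/-- The crossed product. -/
def D : Subalgebra P.K (Matrix VV VV H) where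
  carrier := {M | ∀ g k, M g k = P.a g (M 0 (g + k)) * P.c g (g + k)}
  mul_mem' := by
    intro M N hM hN g k
    rw [Matrix.mul_apply, Matrix.mul_apply, map_sum, Finset.sum_mul]
    refine Fintype.sum_equiv (Equiv.addLeft g) _ _ (fun h => ?_)
    have hl : g + (g + h) = h := by rw [← add_assoc, VV_self, zero_add]
    have e : g + h + (g + k) = h + k := by
      calc g + h + (g + k) = (g + g) + (h + k) := by abel
        _ = h + k := by rw [VV_self, zero_add]
    have e2 : g + h + (h + k) = g + k := by
      calc g + h + (h + k) = (h + h) + (g + k) := by abel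
        _ = g + k := by rw [VV_self, zero_add]
    show M g h * N h k = P.a g (M 0 (g + h) * N (g + h) (g + k)) * P.c g (g + k)
    rw [hM g h, hN h k, hN (g + h) (g + k), map_mul, map_mul, e, ← P.aadd, ← add_assoc, VV_self,
      zero_add]
    have h3 := P.coc g (g + h) (h + k)
    rw [hl, e2] at h3
    linear_combination (P.a g (M 0 (g + h)) * P.a h (N 0 (h + k))) * h3
  add_mem' := by
    intro M N hM hN g k
    rw [Matrix.add_apply, Matrix.add_apply, hM g k, hN g k, map_add, add_mul]
  algebraMap_mem' := by
    intro r g k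
    rw [Matrix.algebraMap_matrix_apply, Matrix.algebraMap_matrix_apply]
    by_cases h : g = k
    · subst h
      have e : (0 : VV) = g + g := (VV_self g).symm
      rw [if_pos rfl, if_pos e, ← e, P.c0r, mul_one]
      exact (r.2 g).symm
    · have e : ¬ (0 : VV) = g + k := by
        intro h0
        apply h
        calc g = g + (g + k) := by rw [← h0, add_zero]
          _ = k := by rw [← add_assoc, VV_self, zero_add]
      rw [if_neg h, if_neg e, map_zero, zero_mul]

theorem mem_D {M : Matrix VV VV H} : M ∈ P.D ↔ ∀ g k, M g k = P.a g (M 0 (g + k)) * P.c g (g + k) :=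
  Iff.rfl

/-- matrix from a row -/
def ofRow (f : VV → H) : P.D := ⟨fun g k => P.a g (f (g + k)) * P.c g (g + k), by
  intro g k
  simp only [zero_add, P.a0, P.c0l, mul_one]⟩

@[simp] theorem ofRow_row (f : VV → H) (k : VV) : (P.ofRow f : Matrix VV VV H) 0 k = f k := by
  simp [ofRow, P.a0, P.c0l]

theorem ext_row {M N : P.D} (h : ∀ k, (M : Matrix VV VV H) 0 k = (N : Matrix VV VV H) 0 k) :
    M = N := by
  apply Subtype.ext
  ext g k
  rw [M.2 g k, N.2 g k, h]

/-- The first row determines the element. -/
def rowEquiv : P.D ≃ₗ[P.K] (VV → H) where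
  toFun M := (M : Matrix VV VV H) 0
  invFun f := P.ofRow f
  left_inv M := P.ext_row (fun k => by simp)
  right_inv f := by funext k; simp
  map_add' _ _ := rfl
  map_smul' _ _ := rfl

theorem mul_row (M N : P.D) (k : VV) : ((M * N : P.D) : Matrix VV VV H) 0 k =
    ∑ g, (M : Matrix VV VV H) 0 g * (P.a g ((N : Matrix VV VV H) 0 (g + k)) * P.c g (g + k)) := by
  show ((M : Matrix VV VV H) * (N : Matrix VV VV H)) 0 k = _
  rw [Matrix.mul_apply]
  refine Finset.sum_congr rfl (fun g _ => ?_)
  rw [N.2 g k]

theorem algebraMap_row (c : P.K) (k : VV) :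
    ((algebraMap P.K P.D c : P.D) : Matrix VV VV H) 0 k = if k = 0 then (c : H) else 0 := by
  show (algebraMap P.K (Matrix VV VV H) c) 0 k = _
  rw [Matrix.algebraMap_matrix_apply]
  by_cases h : k = 0
  · subst h; simp
  · rw [if_neg h, if_neg (fun h' => h h'.symm)]

/-- The group action. -/
@[reducible] def act : MulSemiringAction (Multiplicative VV) H where
  smul g x := P.a g.toAdd x
  one_smul x := P.a0 x
  mul_smul g h x := P.aadd g.toAdd h.toAdd x
  smul_zero _ := map_zero _
  smul_add _ := map_add _
  smul_one _ := map_one _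
  smul_mul _ := map_mul _

theorem finrank_K : finrank P.K H = 4 := by
  let _ := P.act
  have hf : FaithfulSMul (Multiplicative VV) H := by
    constructor
    intro g h hgh
    by_contra hne
    have h1 : g.toAdd + h.toAdd ≠ 0 := by
      intro h0
      apply hne
      have : g.toAdd = h.toAdd := by
        calc g.toAdd = g.toAdd + (h.toAdd + h.toAdd) := by rw [VV_self, add_zero]
          _ = h.toAdd := by rw [← add_assoc, h0, zero_add]
      exact this
    obtain ⟨x, hx⟩ := P.faith _ h1
    apply hx
    have h2 : P.a g.toAdd (P.a h.toAdd x) = P.a h.toAdd (P.a h.toAdd x) := hgh (P.a h.toAdd x)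
    rw [← P.aadd, ← P.aadd, VV_self, P.a0] at h2
    exact h2
  have h4 := FixedPoints.finrank_eq_card (Multiplicative VV) H
  have hc : Fintype.card (Multiplicative VV) = 4 := by
    rw [Fintype.card_multiplicative]
    rfl
  rw [hc] at h4
  rw [← h4]
  let i : P.K ≃+* FixedPoints.subfield (Multiplicative VV) H :=
    { toFun := fun x => ⟨x.1, fun g => x.2 g.toAdd⟩
      invFun := fun x => ⟨x.1, fun g => x.2 (Multiplicative.ofAdd g)⟩
      left_inv := fun x => rfl
      right_inv := fun x => rfl
      map_mul' := fun _ _ => rfl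
      map_add' := fun _ _ => rfl }
  exact Algebra.finrank_eq_of_equiv_equiv i (RingEquiv.refl H) (by ext x; rfl)

instance : FiniteDimensional P.K H := FiniteDimensional.of_finrank_pos (by rw [P.finrank_K]; omega)

theorem finrank_D : finrank P.K P.D = 16 := by
  rw [P.rowEquiv.finrank_eq, Module.finrank_pi_fintype]
  simp [P.finrank_K]

instance : FiniteDimensional P.K P.D := FiniteDimensional.of_finrank_pos (by
  rw [P.finrank_D]; omega)

theorem central {M : P.D} (h : ∀ N : P.D, N * M = M * N) : ∃ c : P.K, M = algebraMap P.K P.D c := by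
  have h1 : ∀ k, k ≠ 0 → (M : Matrix VV VV H) 0 k = 0 := by
    intro k hk
    obtain ⟨x, hx⟩ := P.faith k hk
    have h2 := h (P.ofRow (Pi.single 0 x))
    have h3 := congrArg (fun N : P.D => (N : Matrix VV VV H) 0 k) h2
    simp only [mul_row, ofRow_row] at h3
    rw [Finset.sum_eq_single 0, Finset.sum_eq_single k] at h3
    · rw [VV_self, Pi.single_eq_same, P.c0r, P.a0, P.c0l, mul_one, mul_one, zero_add] at h3
      have h4 : (P.a k x - x) * (M : Matrix VV VV H) 0 k = 0 := by linear_combination -h3
      exact (mul_eq_zero.mp h4).resolve_left (sub_ne_zero.mpr hx)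
    · intro b _ hb
      have : b + k ≠ 0 := by
        intro h0
        apply hb
        calc b = b + (k + k) := by rw [VV_self, add_zero]
          _ = k := by rw [← add_assoc, h0, zero_add]
      rw [Pi.single_eq_of_ne this, map_zero, zero_mul, mul_zero]
    · intro h; exact absurd (Finset.mem_univ _) h
    · intro b _ hb
      rw [Pi.single_eq_of_ne hb, zero_mul]
    · intro h; exact absurd (Finset.mem_univ _) h
  have h2 : ∀ g, P.a g ((M : Matrix VV VV H) 0 0) = (M : Matrix VV VV H) 0 0 := by
    intro g
    have h2 := h (P.ofRow (Pi.single g 1))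
    have h3 := congrArg (fun N : P.D => (N : Matrix VV VV H) 0 g) h2
    simp only [mul_row, ofRow_row] at h3
    rw [Finset.sum_eq_single g, Finset.sum_eq_single 0] at h3
    · rw [zero_add, Pi.single_eq_same, VV_self, P.c0r, P.c0l, map_one, mul_one, mul_one,
        one_mul, mul_one] at h3
      exact h3
    · intro b _ hb
      rw [h1 b hb, zero_mul]
    · intro h; exact absurd (Finset.mem_univ _) h
    · intro b _ hb
      rw [Pi.single_eq_of_ne hb, zero_mul]
    · intro h; exact absurd (Finset.mem_univ _) h
  refine ⟨⟨_, h2⟩, ?_⟩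
  apply P.ext_row
  intro k
  rw [algebraMap_row]
  by_cases hk : k = 0
  · subst hk; simp
  · rw [if_neg hk, h1 k hk]

end CP

end helper53.ED
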