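import Mathlib
import Pool.Agent.helper53.ED.Cross

namespace helper53.ED

open Module Polynomial

/-- Coefficients of the characteristic polynomial of a matrix integral over a subfield. -/
theorem charpoly_integral {L H : Type*} [Field L] [Field H] [Algebra L H] {n : Type*} [Fintype n]
    [DecidableEq n] [Nonempty n] (M : Matrix n n H) (hM : IsIntegral L M) (i : ℕ) :
    IsIntegral L (M.charpoly.coeff i) := by
  obtain ⟨f, hf, hfM⟩ := hM
  let Ω := AlgebraicClosure H
  let S : Subalgebra L Ω := integralClosure L Ω
  have hfM' : aeval M (f.map (algebraMap L H)) = 0 := by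
    rw [aeval_map_algebraMap]
    exact hfM
  let M' : Matrix n n Ω := M.map (algebraMap H Ω)
  have hcp : M.charpoly.map (algebraMap H Ω) = M'.charpoly := (Matrix.charpoly_map M _).symm
  have hfM2 : aeval M' (f.map (algebraMap L Ω)) = 0 := by
    have h1 : (algebraMap H Ω).mapMatrix (aeval M (f.map (algebraMap L H))) = 0 := by
      rw [hfM', map_zero]
    have h2 : (algebraMap H Ω).mapMatrix (aeval M (f.map (algebraMap L H))) =
        aeval M' ((f.map (algebraMap L H)).map (algebraMap H Ω)) := by
      refine Eq.trans ?_ (aeval_map_algebraMap Ω M' (f.map (algebraMap L H))).symm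
      exact (Polynomial.aeval_algHom_apply ((Algebra.ofId H Ω).mapMatrix (m := n)) M
        (f.map (algebraMap L H))).symm
    rw [h2, Polynomial.map_map, ← IsScalarTower.algebraMap_eq] at h1
    exact h1
  have hroot : ∀ r ∈ M'.charpoly.roots, r ∈ S := by
    intro r hr
    have h1 : IsRoot M'.charpoly r := (mem_roots'.mp hr).2
    have h2 : Module.End.HasEigenvalue (Matrix.toLin' M') r := by
      rw [Module.End.hasEigenvalue_iff_isRoot_charpoly, Matrix.charpoly_toLin']
      exact h1
    obtain ⟨w, hw⟩ := h2.exists_hasEigenvector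
    have h3 := Module.End.aeval_apply_of_hasEigenvector (p := f.map (algebraMap L Ω)) hw
    have h4 : aeval (Matrix.toLin' M') (f.map (algebraMap L Ω)) = 0 := by
      have := Polynomial.aeval_algHom_apply (Matrix.toLinAlgEquiv' (R := Ω) (n := n)).toAlgHom M'
        (f.map (algebraMap L Ω))
      rw [hfM2, map_zero] at this
      exact this
    rw [h4, LinearMap.zero_apply] at h3
    have h5 := (smul_eq_zero.mp h3.symm).resolve_right hw.2
    refine ⟨f, hf, ?_⟩
    rw [Polynomial.eval_map_algebraMap, aeval_def] at h5
    exact h5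
  have hprod : M'.charpoly = (M'.charpoly.roots.map (fun r => X - C r)).prod := by
    have := (IsAlgClosed.splits M'.charpoly).eq_prod_roots
    rw [(Matrix.charpoly_monic M').leadingCoeff, C_1, one_mul] at this
    exact this
  have hlift : M'.charpoly ∈ Polynomial.lifts (algebraMap S Ω) := by
    rw [hprod]
    apply Subsemiring.multiset_prod_mem
    intro p hp
    obtain ⟨r, hr, rfl⟩ := Multiset.mem_map.mp hp
    refine ⟨X - C (⟨r, hroot r hr⟩ : S), ?_⟩
    simp
  rw [Polynomial.lifts_iff_coeff_lifts] at hlift
  obtain ⟨y, hy⟩ := hlift i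
  rw [← hcp, coeff_map] at hy
  have h6 : IsIntegral L (algebraMap H Ω (M.charpoly.coeff i)) := by
    rw [← hy]
    exact y.2
  exact (isIntegral_algebraMap_iff (algebraMap H Ω).injective).mp h6

namespace CP

variable {F H : Type*} [Field F] [Field H] [Algebra F H] (P : CP F H)

theorem charpoly_act (M : P.D) (h : VV) :
    (M : Matrix VV VV H).charpoly.map (P.a h : H →+* H) = (M : Matrix VV VV H).charpoly := by
  rw [← Matrix.charpoly_map]
  set U : (Matrix VV VV H)ˣ :=
    { val := Matrix.diagonal (P.c h)
      inv := Matrix.diagonal (fun k => (P.c h k)⁻¹)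
      val_inv := by
        rw [Matrix.diagonal_mul_diagonal, ← Matrix.diagonal_one]
        congr 1
        funext k
        exact mul_inv_cancel₀ (P.cne h k)
      inv_val := by
        rw [Matrix.diagonal_mul_diagonal, ← Matrix.diagonal_one]
        congr 1
        funext k
        exact inv_mul_cancel₀ (P.cne h k) } with hU
  have key : (M : Matrix VV VV H).map (P.a h : H →+* H) =
      U.val * (Matrix.reindex (Equiv.addLeft h) (Equiv.addLeft h) (M : Matrix VV VV H)) *
        (U⁻¹).val := by
    ext g k
    have e1 : (U⁻¹).val = Matrix.diagonal (fun k => (P.c h k)⁻¹) := rfl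
    have e2 : U.val = Matrix.diagonal (P.c h) := rfl
    have e3 : ∀ g : VV, (Equiv.addLeft h).symm g = h + g := by
      intro g
      rw [Equiv.symm_apply_eq]
      show g = h + (h + g)
      rw [← add_assoc, VV_self, zero_add]
    rw [e1, e2, Matrix.mul_diagonal, Matrix.diagonal_mul, Matrix.reindex_apply,
      Matrix.submatrix_apply, e3, e3, Matrix.map_apply, M.2 g k, M.2 (h + g) (h + k)]
    have e4 : h + g + (h + k) = g + k := by
      calc h + g + (h + k) = (h + h) + (g + k) := by abel
        _ = g + k := by rw [VV_self, zero_add]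
    have e5 : g + (g + k) = k := by rw [← add_assoc, VV_self, zero_add]
    have h3 := P.coc h g (g + k)
    rw [e5] at h3
    have h4 := P.cne h k
    rw [e4]
    show P.a h (P.a g ((M : Matrix VV VV H) 0 (g + k)) * P.c g (g + k)) = _
    rw [map_mul, ← P.aadd]
    field_simp
    linear_combination -(P.a (h + g) ((M : Matrix VV VV H) 0 (g + k))) * h3
  rw [key, Matrix.coe_units_inv, Matrix.charpoly_units_conj, Matrix.charpoly_reindex]

theorem charpoly_lifts (M : P.D) :
    ∃ q : P.K[X], q.map (algebraMap P.K H) = (M : Matrix VV VV H).charpoly := by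
  have : (M : Matrix VV VV H).charpoly ∈ Polynomial.lifts (algebraMap P.K H) := by
    rw [Polynomial.lifts_iff_coeff_lifts]
    intro n
    refine ⟨⟨_, fun g => ?_⟩, rfl⟩
    have h1 := congrArg (fun p => Polynomial.coeff p n) (P.charpoly_act M g)
    simp only [coeff_map] at h1
    exact h1
  exact this

/-- reduced characteristic polynomial -/
noncomputable def cp (M : P.D) : P.K[X] := (P.charpoly_lifts M).choose

theorem cp_map (M : P.D) :
    (P.cp M).map (algebraMap P.K H) = (M : Matrix VV VV H).charpoly :=
  (P.charpoly_lifts M).choose_spec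

theorem cp_monic (M : P.D) : (P.cp M).Monic := by
  have h := Matrix.charpoly_monic (M : Matrix VV VV H)
  rw [← P.cp_map M] at h
  exact Polynomial.monic_of_injective (algebraMap P.K H).injective h

theorem cp_deg (M : P.D) : (P.cp M).natDegree = 4 := by
  have h := Matrix.charpoly_natDegree_eq_dim (M : Matrix VV VV H)
  rw [← P.cp_map M, Polynomial.natDegree_map] at h
  rw [h]
  rfl

theorem cp_aeval (M : P.D) : aeval M (P.cp M) = 0 := by
  apply Subtype.ext
  have h1 := Matrix.aeval_self_charpoly (M : Matrix VV VV H)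
  rw [← P.cp_map M, aeval_map_algebraMap] at h1
  have h2 := Polynomial.aeval_algHom_apply P.D.val M (P.cp M)
  rw [ZeroMemClass.coe_zero, ← h1]
  exact h2.symm

theorem cp_coeff (M : P.D) (i : ℕ) :
    algebraMap P.K H ((P.cp M).coeff i) = (M : Matrix VV VV H).charpoly.coeff i := by
  rw [← coeff_map, P.cp_map]

/-- minus the reduced trace -/
noncomputable def tr : P.D →ₗ[P.K] P.K where
  toFun M := (P.cp M).coeff 3
  map_add' M N := by
    apply (algebraMap P.K H).injective
    have e : ∀ M : Matrix VV VV H, M.charpoly.coeff 3 = -M.trace := by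
      intro M
      rw [Matrix.trace_eq_neg_charpoly_coeff]
      simp
    rw [map_add, cp_coeff, cp_coeff, cp_coeff, e, e, e, Subalgebra.coe_add, Matrix.trace_add]
    ring
  map_smul' c M := by
    apply (algebraMap P.K H).injective
    have e : ∀ M : Matrix VV VV H, M.charpoly.coeff 3 = -M.trace := by
      intro M
      rw [Matrix.trace_eq_neg_charpoly_coeff]
      simp
    have e2 : ((c • M : P.D) : Matrix VV VV H) = (c : H) • (M : Matrix VV VV H) := rfl
    rw [RingHom.id_apply, smul_eq_mul, map_mul, cp_coeff, cp_coeff, e, e, e2, Matrix.trace_smul,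
      smul_eq_mul]
    have : algebraMap P.K H c = (c : H) := rfl
    rw [this]; ring

theorem tr_comm (M N : P.D) : P.tr (M * N) = P.tr (N * M) := by
  apply (algebraMap P.K H).injective
  have e : ∀ M : Matrix VV VV H, M.charpoly.coeff 3 = -M.trace := by
      intro M
      rw [Matrix.trace_eq_neg_charpoly_coeff]
      simp
  show algebraMap P.K H ((P.cp (M * N)).coeff 3) = algebraMap P.K H ((P.cp (N * M)).coeff 3)
  rw [cp_coeff, cp_coeff, e, e, Subalgebra.coe_mul, Subalgebra.coe_mul, Matrix.trace_mul_comm]

theorem cp1 {M N : P.D} (hMN : M * N = 1) (h : P.tr N = 0) : (P.cp M).coeff 1 = 0 := by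
  apply (algebraMap P.K H).injective
  have h1 : algebraMap P.K H ((P.cp N).coeff 3) = 0 := by
    have : (P.cp N).coeff 3 = 0 := h
    rw [this, map_zero]
  rw [cp_coeff] at h1
  rw [cp_coeff, map_zero]
  have h2 : (M : Matrix VV VV H) * (N : Matrix VV VV H) = 1 := congrArg Subtype.val hMN
  have h3 : (M : Matrix VV VV H)⁻¹ = (N : Matrix VV VV H) := Matrix.inv_eq_right_inv h2
  have hu : IsUnit (M : Matrix VV VV H) := IsUnit.of_mul_eq_one _ h2
  have h4 := Matrix.charpoly_inv (M : Matrix VV VV H) hu
  rw [h3] at h4
  have hdet : (M : Matrix VV VV H).det ≠ 0 := by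
    intro h0
    have := congrArg Matrix.det h2
    rw [Matrix.det_mul, h0, zero_mul, Matrix.det_one] at this
    exact zero_ne_one this
  rw [h4, ← Matrix.reverse_charpoly] at h1
  have e5 : ((-1 : H[X]) ^ Fintype.card VV * C (Ring.inverse (M : Matrix VV VV H).det)) =
      C ((-1) ^ Fintype.card VV * (M : Matrix VV VV H).det⁻¹) := by
    rw [Ring.inverse_eq_inv', map_mul, map_pow, map_neg, C_1]
  rw [e5, coeff_C_mul, Polynomial.coeff_reverse, Matrix.charpoly_natDegree_eq_dim] at h1
  have h6 := (mul_eq_zero.mp h1).resolve_left (mul_ne_zero (pow_ne_zero _ (by simp))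
    (inv_ne_zero hdet))
  have h7 : Polynomial.revAt (Fintype.card VV) 3 = 1 := by
    rw [Polynomial.revAt_le (by decide)]
    rfl
  rw [h7] at h6
  exact h6

theorem cp_alg (L : IntermediateField F P.K) (M : P.D) (hM : IsIntegral L M) (i : ℕ) :
    IsIntegral L ((P.cp M).coeff i) := by
  have h1 : IsIntegral L (M : Matrix VV VV H) :=
    hM.map (P.D.val.restrictScalars L)
  have h2 := charpoly_integral (L := L) (M : Matrix VV VV H) h1 i
  rw [← cp_coeff] at h2
  exact (isIntegral_algebraMap_iff (algebraMap P.K H).injective).mp h2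

end CP

end helper53.ED
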