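import Mathlib
import Pool.Agent.helper53.ED.CrossRC

namespace helper53.ED

open Module Polynomial

/-- offset of a class -/
def dl (g : VV) : GG := toLex ((g.1.val : ℤ), (g.2.val : ℤ))

/-- cocycle exponent -/
def om (g h : VV) : GG := toLex ((g.1.val * h.1.val : ℤ), (g.2.val * h.2.val : ℤ))

/-- half of an index -/
def hf (l : GG) : GG := toLex ((ofLex l).1 / 2, (ofLex l).2 / 2)

theorem GG_ext {a b : GG} (h1 : (ofLex a).1 = (ofLex b).1) (h2 : (ofLex a).2 = (ofLex b).2) :
    a = b := by
  have : ofLex a = ofLex b := Prod.ext h1 h2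
  exact ofLex_inj.mp this

theorem val_cast (n : ℤ) : (((n : ZMod 2)).val : ℤ) = n % 2 := by
  rw [ZMod.val_intCast]
  rfl

theorem hf_par (l : GG) : hf l + hf l + dl (par l) = l := by
  apply GG_ext
  · show (ofLex l).1 / 2 + (ofLex l).1 / 2 + ((((ofLex l).1 : ZMod 2)).val : ℤ) = (ofLex l).1
    rw [val_cast]; omega
  · show (ofLex l).2 / 2 + (ofLex l).2 / 2 + ((((ofLex l).2 : ZMod 2)).val : ℤ) = (ofLex l).2
    rw [val_cast]; omega

theorem par_dl (a : GG) (g : VV) : par (a + a + dl g) = g := by
  rw [par_add, par_dbl, zero_add]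
  revert g
  decide

theorem hf_dl (a : GG) (g : VV) : hf (a + a + dl g) = a := by
  have h := hf_par (a + a + dl g)
  rw [par_dl] at h
  have h1 := congrArg (fun x : GG => (ofLex x).1) h
  have h2 := congrArg (fun x : GG => (ofLex x).2) h
  apply GG_ext
  · have e1 : (ofLex (hf (a + a + dl g))).1 + (ofLex (hf (a + a + dl g))).1 + (g.1.val : ℤ) =
      (ofLex a).1 + (ofLex a).1 + (g.1.val : ℤ) := h1
    omega
  · have e1 : (ofLex (hf (a + a + dl g))).2 + (ofLex (hf (a + a + dl g))).2 + (g.2.val : ℤ) =
      (ofLex a).2 + (ofLex a).2 + (g.2.val : ℤ) := h2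
    omega

theorem dl_add : ∀ g h : VV, dl g + dl h = om g h + om g h + dl (g + h) := by decide

theorem om_coc : ∀ g h l : VV, om g h + om (g + h) l = om h l + om g (h + l) := by decide

theorem om_0l : ∀ g : VV, om 0 g = 0 := by decide
theorem om_0r : ∀ g : VV, om g 0 = 0 := by decide

variable {F E : Type*} [Field F] [Field E] [Algebra F E] (T : TD F E)

/-- The field of Hahn series. -/
abbrev HH (E : Type*) [Field E] := HahnSeries GG E

/-- coefficientwise action -/
noncomputable def hA (g : VV) : HH E →ₐ[F] HH E where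
  toFun x := x.map (T.ac g)
  map_one' := by
    ext a
    simp only [HahnSeries.map_coeff, HahnSeries.coeff_one]
    split_ifs <;> simp
  map_mul' x y := HahnSeries.map_mul ((T.ac g : E →+* E) : E →ₙ+* E)
  map_zero' := by ext; simp
  map_add' x y := by ext; simp
  commutes' f := by
    ext a
    simp only [HahnSeries.map_coeff, HahnSeries.algebraMap_apply, HahnSeries.C_apply,
      HahnSeries.coeff_single]
    split_ifs <;> simp

@[simp] theorem hA_coeff (g : VV) (x : HH E) (a : GG) :
    (hA T g x).coeff a = T.ac g (x.coeff a) := by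
  simp [hA]

theorem TD.faithful {g : VV} (hg : g ≠ 0) : T.ac g T.z1 ≠ T.z1 := by
  have hinj := T.li.injective
  have h1 : mo T.z1 T.z2 T.z3 (1, 0, 0) = T.z1 := by simp [mo]
  have h2 : mo T.z1 T.z2 T.z3 (0, 1, 0) = T.z2 := by simp [mo]
  have h3 : mo T.z1 T.z2 T.z3 (0, 0, 1) = T.z3 := by simp [mo]
  have h4 : mo T.z1 T.z2 T.z3 (-1, -1, -1) = T.z1⁻¹ * T.z2⁻¹ * T.z3⁻¹ := by simp [mo]
  revert g
  suffices H : ∀ g : VV, g ≠ 0 → T.ac g T.z1 ≠ T.z1 from fun {g} => H g
  refine VV_cases ?_ ?_ ?_ ?_
  · intro h; exact absurd rfl h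
  · intro _ h
    rw [TD.ac10, T.s1, ← h2] at h
    have := hinj (h.trans h1.symm)
    simp at this
  · intro _ h
    rw [TD.ac01, T.t1, ← h3] at h
    have := hinj (h.trans h1.symm)
    simp at this
  · intro _ h
    rw [TD.ac11, T.t1, T.s3, ← h4] at h
    have := hinj (h.trans h1.symm)
    simp at this

/-- The crossed product data over the Hahn series field. -/
noncomputable def hcp : CP F (HH E) where
  a := hA T
  a0 x := by ext a; simp
  aadd g h x := by ext a; simp [T.ac_add]
  c g h := HahnSeries.single (om g h) (T.kap g h)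
  coc g h l := by
    have e : hA T g (HahnSeries.single (om h l) (T.kap h l)) =
        HahnSeries.single (om h l) (T.ac g (T.kap h l)) := by
      ext a
      rw [hA_coeff, HahnSeries.coeff_single, HahnSeries.coeff_single]
      split_ifs <;> simp
    rw [e, HahnSeries.single_mul_single, HahnSeries.single_mul_single, T.kap_coc, om_coc]
  c0l g := by rw [om_0l, T.kap_0l]; rfl
  c0r g := by rw [om_0r, T.kap_0r]; rfl
  cne g h := by
    rw [ne_eq, HahnSeries.single_eq_zero_iff]
    exact T.kap_ne g h
  faith g hg := ⟨HahnSeries.C T.z1, fun h => T.faithful hg (by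
    have := congrArg (fun x : HH E => x.coeff 0) h
    simpa using this)⟩

theorem coeff_mul_zero {x y : HH E} {c : GG}
    (h : ∀ a b, a + b = c → x.coeff a = 0 ∨ y.coeff b = 0) : (x * y).coeff c = 0 := by
  rw [HahnSeries.coeff_mul]
  apply Finset.sum_eq_zero
  intro p hp
  rw [Finset.mem_antidiagonal] at hp
  rcases h _ _ hp.2.2 with h1 | h1 <;> rw [h1] <;> simp

theorem coeff_mul_single' {x y : HH E} {a b : GG}
    (h : ∀ a' b', a' + b' = a + b → a' ≠ a → x.coeff a' = 0 ∨ y.coeff b' = 0) :
    (x * y).coeff (a + b) = x.coeff a * y.coeff b := by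
  rw [HahnSeries.coeff_mul]
  rw [Finset.sum_eq_single (a, b)]
  · intro p hp hne
    rw [Finset.mem_antidiagonal] at hp
    have : p.1 ≠ a := by
      intro h1
      apply hne
      have h2 := hp.2.2
      rw [h1] at h2
      exact Prod.ext h1 (add_left_cancel h2)
    rcases h _ _ hp.2.2 this with h1 | h1 <;> rw [h1] <;> simp
  · intro hp
    rw [Finset.mem_antidiagonal] at hp
    by_contra hne
    apply hp
    refine ⟨?_, ?_, rfl⟩
    · intro h1; apply hne
      show x.coeff a * y.coeff b = 0
      rw [h1, zero_mul]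
    · intro h1; apply hne
      show x.coeff a * y.coeff b = 0
      rw [h1, mul_zero]

/-- The doubled coefficient function. -/
noncomputable def Lam : (hcp T).D →+ (GG → E) where
  toFun M l := ((M : Matrix VV VV (HH E)) 0 (par l)).coeff (hf l)
  map_zero' := by
    funext l
    simp
  map_add' M N := by
    funext l
    simp

theorem Lam_apply (M : (hcp T).D) (l : GG) :
    Lam T M l = ((M : Matrix VV VV (HH E)) 0 (par l)).coeff (hf l) := rfl

theorem Lam_dl (M : (hcp T).D) (a : GG) (g : VV) :
    Lam T M (a + a + dl g) = ((M : Matrix VV VV (HH E)) 0 g).coeff a := by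
  rw [Lam_apply, par_dl, hf_dl]

theorem dbl_le {a b : GG} (g : VV) (h : a ≤ b) : a + a + dl g ≤ b + b + dl g := by
  gcongr

theorem Lam_ex (M : (hcp T).D) (hM : M ≠ 0) : ∃ l, Lam T M l ≠ 0 ∧ ∀ m, m < l → Lam T M m = 0 := by
  classical
  have hne : (Finset.univ.filter (fun k : VV => (M : Matrix VV VV (HH E)) 0 k ≠ 0)).Nonempty := by
    rw [Finset.filter_nonempty_iff]
    by_contra hcon
    push Not at hcon
    apply hM
    apply CP.ext_row
    intro k
    rw [hcon k (Finset.mem_univ _)]
    simp
  obtain ⟨k, hk, hmin⟩ := Finset.exists_min_image _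
    (fun k : VV => ((M : Matrix VV VV (HH E)) 0 k).order + ((M : Matrix VV VV (HH E)) 0 k).order
      + dl k) hne
  rw [Finset.mem_filter] at hk
  refine ⟨((M : Matrix VV VV (HH E)) 0 k).order + ((M : Matrix VV VV (HH E)) 0 k).order + dl k,
    ?_, ?_⟩
  · rw [Lam_dl]
    exact HahnSeries.coeff_order_eq_zero.not.mpr hk.2
  · intro m hm
    by_contra hne2
    rw [Lam_apply] at hne2
    have h1 : (M : Matrix VV VV (HH E)) 0 (par m) ≠ 0 := by
      intro h0; apply hne2; rw [h0]; simp
    have h2 := hmin (par m) (by rw [Finset.mem_filter]; exact ⟨Finset.mem_univ _, h1⟩)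
    have h3 := HahnSeries.order_le_of_coeff_ne_zero hne2
    have h4 := dbl_le (par m) h3
    rw [hf_par] at h4
    exact absurd (hm.trans_le (h2.trans h4)) (lt_irrefl _)

theorem idx_add {a b : GG} {g k : VV} {n : GG} (hk : par n = k) (h : a + b + om g (g + k) = hf n) :
    (a + a + dl g) + (b + b + dl (g + k)) = n := by
  have h1 := dl_add g (g + k)
  have h2 : g + (g + k) = k := by rw [← add_assoc, VV_self, zero_add]
  rw [h2] at h1
  have h3 := hf_par n
  rw [hk, ← h] at h3
  rw [← h3]
  calc (a + a + dl g) + (b + b + dl (g + k)) = (a + a + b + b) + (dl g + dl (g + k)) := by abel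
    _ = _ := by rw [h1]; abel

theorem Lam_mul (M N : (hcp T).D) (n : GG) : Lam T (M * N) n =
    ∑ g, ((M : Matrix VV VV (HH E)) 0 g *
      hA T g ((N : Matrix VV VV (HH E)) 0 (g + par n))).coeff (hf n - om g (g + par n)) *
      T.kap g (g + par n) := by
  rw [Lam_apply, CP.mul_row, HahnSeries.coeff_sum]
  refine Finset.sum_congr rfl (fun g _ => ?_)
  rw [← mul_assoc]
  show ((M : Matrix VV VV (HH E)) 0 g * hA T g ((N : Matrix VV VV (HH E)) 0 (g + par n)) *
    HahnSeries.single (om g (g + par n)) (T.kap g (g + par n))).coeff (hf n) = _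
  rw [HahnSeries.coeff_mul_single]

theorem Lam_mul1 (M N : (hcp T).D) (l m : GG) (hM : ∀ n, n < l → Lam T M n = 0)
    (hN : ∀ n, n < m → Lam T N n = 0) (n : GG) (hn : n < l + m) : Lam T (M * N) n = 0 := by
  rw [Lam_mul]
  apply Finset.sum_eq_zero
  intro g _
  rw [coeff_mul_zero, zero_mul]
  intro a b hab
  have h1 := idx_add (a := a) (b := b) (g := g) rfl (by rw [hab]; abel)
  rcases lt_or_ge (a + a + dl g) l with h2 | h2
  · left
    rw [← Lam_dl]
    exact hM _ h2
  · right
    rw [hA_coeff, ← Lam_dl, hN, map_zero]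
    by_contra hcon
    rw [not_lt] at hcon
    have := add_le_add h2 hcon
    rw [h1] at this
    exact absurd (lt_of_lt_of_le hn this) (lt_irrefl _)

theorem Lam_mul2 (M N : (hcp T).D) (l m : GG) (hM : ∀ n, n < l → Lam T M n = 0)
    (hN : ∀ n, n < m → Lam T N n = 0) : Lam T (M * N) (l + m) =
      Lam T M l * T.ac (par l) (Lam T N m) * T.kap (par l) (par m) := by
  rw [Lam_mul, Finset.sum_eq_single (par l)]
  · have e1 : par l + par (l + m) = par m := by
      rw [par_add, ← add_assoc, VV_self, zero_add]
    have e2 : hf (l + m) - om (par l) (par m) = hf l + hf m := by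
      have h1 : l + m = (hf l + hf m + om (par l) (par m)) + (hf l + hf m + om (par l) (par m)) +
          dl (par l + par m) := by
        conv_lhs => rw [← hf_par l, ← hf_par m]
        have h2 := dl_add (par l) (par m)
        calc hf l + hf l + dl (par l) + (hf m + hf m + dl (par m)) =
            (hf l + hf l + hf m + hf m) + (dl (par l) + dl (par m)) := by abel
          _ = _ := by rw [h2]; abel
      rw [h1, hf_dl]; abel
    rw [e1, e2, coeff_mul_single', hA_coeff]
    · rfl
    · intro a b hab hne
      have h1 := idx_add (a := a) (b := b) (g := par l) (n := l + m) rfl (by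
        rw [hab, e1, ← e2]; abel)
      rw [e1] at h1
      rcases lt_trichotomy (a + a + dl (par l)) l with h2 | h2 | h2
      · left; rw [← Lam_dl]; exact hM _ h2
      · exfalso
        apply hne
        have := congrArg hf h2
        rwa [hf_dl] at this
      · right
        rw [hA_coeff, ← Lam_dl, hN, map_zero]
        by_contra hcon
        rw [not_lt] at hcon
        have := add_lt_add_of_lt_of_le h2 hcon
        rw [h1] at this
        exact absurd this (lt_irrefl _)
  · intro g _ hg
    rw [coeff_mul_zero, zero_mul]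
    intro a b hab
    have h1 := idx_add (a := a) (b := b) (g := g) rfl (by rw [hab]; abel)
    rcases lt_trichotomy (a + a + dl g) l with h2 | h2 | h2
    · left; rw [← Lam_dl]; exact hM _ h2
    · exfalso
      apply hg
      have := congrArg par h2
      rwa [par_dl] at this
    · right
      rw [hA_coeff, ← Lam_dl, hN, map_zero]
      by_contra hcon
      rw [not_lt] at hcon
      have := add_lt_add_of_lt_of_le h2 hcon
      rw [h1] at this
      exact absurd this (lt_irrefl _)
  · intro h; exact absurd (Finset.mem_univ _) h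

instance : NoZeroDivisors (hcp T).D where
  eq_zero_or_eq_zero_of_mul_eq_zero := by
    intro M N h
    by_contra hcon
    push Not at hcon
    obtain ⟨l, hl1, hl2⟩ := Lam_ex T M hcon.1
    obtain ⟨m, hm1, hm2⟩ := Lam_ex T N hcon.2
    have h1 := Lam_mul2 T M N l m hl2 hm2
    rw [h, map_zero, Pi.zero_apply] at h1
    have h2 : T.ac (par l) (Lam T N m) ≠ 0 := by simpa using hm1
    exact (mul_ne_zero (mul_ne_zero hl1 h2) (T.kap_ne _ _)) h1.symm

instance : IsDomain (hcp T).D := NoZeroDivisors.to_isDomain _

/-- the division ring structure -/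
noncomputable instance instDR : DivisionRing (hcp T).D :=
  divisionRingOfFiniteDimensional (hcp T).K (hcp T).D

theorem Lam_K (c : (hcp T).K) (l : GG) : Lam T (algebraMap (hcp T).K (hcp T).D c) l =
    if par l = 0 then (c : HH E).coeff (hf l) else 0 := by
  rw [Lam_apply, CP.algebraMap_row]
  split_ifs <;> simp

theorem hf_zero : hf 0 = 0 := by decide

/-- the valued division algebra -/
noncomputable def vd : VD F E (hcp T).K (hcp T).D where
  T := T
  Λ := Lam T
  ex := Lam_ex T
  mul1 := Lam_mul1 T
  mul2 := Lam_mul2 T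
  Kinv c l g := by
    rw [Lam_K]
    split_ifs
    · have h := c.2 g
      have h2 := congrArg (fun x : HH E => x.coeff (hf l)) h
      rw [← hA_coeff]
      exact h2
    · simp
  Kpar c l h := by rw [Lam_K, if_neg h]
  Ff f := by
    funext l
    rw [IsScalarTower.algebraMap_apply F (hcp T).K (hcp T).D, Lam_K]
    have e : ((algebraMap F (hcp T).K f : (hcp T).K) : HH E) =
        HahnSeries.single 0 (algebraMap F E f) := by
      show algebraMap F (HH E) f = _
      rw [HahnSeries.algebraMap_apply]
      rfl
    rw [e]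
    by_cases hl : l = 0
    · subst hl
      rw [if_pos par_zero, hf_zero, Pi.single_eq_same, HahnSeries.coeff_single_same]
    · rw [Pi.single_eq_of_ne hl]
      split_ifs with h
      · rw [HahnSeries.coeff_single_of_ne]
        intro h2
        apply hl
        have h3 := hf_par l
        rw [h, h2] at h3
        rw [← h3]
        rfl
      · rfl
  corr M := by
    have hc : ∀ g, hA T g (-∑ h, hA T h (HahnSeries.C T.theta * (M : Matrix VV VV (HH E)) 0 0)) =
        -∑ h, hA T h (HahnSeries.C T.theta * (M : Matrix VV VV (HH E)) 0 0) := by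
      intro g
      rw [map_neg, map_sum]
      congr 1
      have : ∀ h x, hA T g (hA T h x) = hA T (g + h) x := fun h x => ((hcp T).aadd g h x).symm
      simp_rw [this]
      exact Fintype.sum_equiv (Equiv.addLeft g) _ _ (fun h => rfl)
    refine ⟨⟨_, hc⟩, ?_⟩
    intro l hl
    rw [map_add, Pi.add_apply, Lam_K, if_pos hl, Lam_apply, hl]
    rw [HahnSeries.coeff_neg, HahnSeries.coeff_sum]
    simp only [hA_coeff, HahnSeries.C_apply, HahnSeries.coeff_single_zero_mul]
    set e := ((M : Matrix VV VV (HH E)) 0 0).coeff (hf l) with he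
    set S := ∑ h, T.ac h (T.theta * e) with hS
    have hSf : ∀ g, T.ac g (-S) = -S := fun g => by rw [map_neg, hS, T.ac_sum]
    show ∑ g, T.ac g (T.theta * (e + -S)) = 0
    have : ∀ g, T.ac g (T.theta * (e + -S)) = T.ac g (T.theta * e) + T.ac g (T.theta * (-S)) := by
      intro g
      rw [mul_add, map_add]
    simp_rw [this]
    rw [Finset.sum_add_distrib, T.tr_theta_mul hSf, ← hS, add_neg_cancel]

/-- the reduced characteristic polynomial structure -/
noncomputable def rc : RC F (hcp T).K (hcp T).D where
  tr := (hcp T).tr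
  tr_comm := (hcp T).tr_comm
  cp := (hcp T).cp
  monic := (hcp T).cp_monic
  deg := (hcp T).cp_deg
  aeval_cp := (hcp T).cp_aeval
  cp3 _ := rfl
  cp1 _ hd h := (hcp T).cp1 (mul_inv_cancel₀ hd) h
  alg := (hcp T).cp_alg

instance : Algebra.IsCentral (hcp T).K (hcp T).D where
  out := by
    intro x hx
    obtain ⟨c, hc⟩ := (hcp T).central (fun N => (Subalgebra.mem_center_iff.mp hx) N)
    rw [hc]
    exact Subalgebra.algebraMap_mem _ _

end helper53.ED
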