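import Mathlib
import Pool.Agent.helper53.ED.Albert

namespace helper53.ED

open Module Polynomial

universe w

section indep

variable {F E K D : Type*} [Field F] [Field E] [Algebra F E] [Field K] [DivisionRing D]
    [Algebra F K] [Algebra K D] [Algebra F D] [IsScalarTower F K D] {v : VD F E K D}
    {A : Type*} [CommRing A] [Algebra F A] (ι : A →ₐ[F] D)

theorem VD.IsLT.one : v.IsLT (1 : D) 0 := ⟨by rw [v.one_val]; exact one_ne_zero, VD.Int.one v⟩

theorem VD.IsLT.pow {x : D} {l : GG} (h : v.IsLT x l) (n : ℕ) : v.IsLT (x ^ n) (n • l) := by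
  induction n with
  | zero => rw [pow_zero, zero_smul]; exact VD.IsLT.one
  | succ n ih => rw [pow_succ, succ_nsmul]; exact ih.mul h

theorem int_aeval {zs : Fin 3 → A} (hz : ∀ i, v.Int (ι (zs i))) (q : MvPolynomial (Fin 3) F) :
    v.Int (ι (MvPolynomial.aeval zs q)) ∧ v.Λ (ι (MvPolynomial.aeval zs q)) 0 =
      MvPolynomial.aeval (fun i => v.Λ (ι (zs i)) 0) q := by
  induction q using MvPolynomial.induction_on with
  | C f =>
    simp only [MvPolynomial.algHom_C, AlgHom.commutes]
    exact ⟨VD.Int.algF v f, v.algF_val f⟩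
  | add p q hp hq =>
    rw [map_add, map_add, map_add, map_add, Pi.add_apply]
    exact ⟨hp.1.add hq.1, by rw [hp.2, hq.2]⟩
  | mul_X p i hp =>
    rw [map_mul (MvPolynomial.aeval zs), map_mul ι,
      map_mul (MvPolynomial.aeval fun i => v.Λ (ι (zs i)) 0), MvPolynomial.aeval_X,
      MvPolynomial.aeval_X]
    exact ⟨hp.1.mul (hz i), by rw [hp.1.mul_val (hz i), hp.2]⟩

/-- Algebraic independence from values. -/
theorem indep5 {zs : Fin 3 → A} (hz : ∀ i, v.Int (ι (zs i)))
    (hres : AlgebraicIndependent F (fun i => v.Λ (ι (zs i)) 0)) {a b : A} {la lb : GG}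
    (ha : v.IsLT (ι a) la) (hb : v.IsLT (ι b) lb)
    (hl : ∀ m n m' n' : ℕ, m • la + n • lb = m' • la + n' • lb → m = m' ∧ n = n') :
    AlgebraicIndependent F (Sum.elim ![a, b] zs) := by
  rw [AlgebraicIndependent.sumElim_iff]
  constructor
  · rw [algebraicIndependent_iff]
    intro p hp
    have h1 := (int_aeval ι hz p).2
    rw [hp, map_zero, map_zero, Pi.zero_apply] at h1
    exact hres.eq_zero_of_aeval_eq_zero _ h1.symm
  · rw [algebraicIndependent_iff]
    intro p hp
    by_contra hne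
    have hB : ∀ c : Algebra.adjoin F (Set.range zs), c ≠ 0 → v.IsLT (ι (c : A)) 0 := by
      intro c hc
      have h1 : (c : A) ∈ (MvPolynomial.aeval (R := F) zs).range := by
        rw [← Algebra.adjoin_range_eq_range_aeval]
        exact c.2
      obtain ⟨q, hq⟩ := h1
      have hq' : MvPolynomial.aeval zs q = (c : A) := hq
      have h2 := int_aeval ι hz q
      rw [← hq']
      refine ⟨?_, h2.1⟩
      rw [h2.2]
      intro h3
      have h4 := hres.eq_zero_of_aeval_eq_zero _ h3
      apply hc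
      apply Subtype.ext
      rw [← hq', h4, map_zero]
      rfl
    rw [MvPolynomial.aeval_def, MvPolynomial.eval₂_eq'] at hp
    have hp2 := congrArg (fun x => ι x) hp
    simp only [map_zero, map_sum, map_mul, map_pow, Fin.prod_univ_two,
      Matrix.cons_val_zero, Matrix.cons_val_one] at hp2
    have hsup : p.support.Nonempty := by
      rw [Finset.nonempty_iff_ne_empty]
      intro h; exact hne (MvPolynomial.support_eq_empty.mp h)
    obtain ⟨m, hm, hmin⟩ := Finset.exists_min_image p.support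
      (fun d : Fin 2 →₀ ℕ => d 0 • la + d 1 • lb) hsup
    have hterm : ∀ d ∈ p.support, v.IsLT (ι ((algebraMap (Algebra.adjoin F (Set.range zs)) A)
        (MvPolynomial.coeff d p)) * (ι a ^ d 0 * ι b ^ d 1)) (d 0 • la + d 1 • lb) := by
      intro d hd
      have h1 := hB (MvPolynomial.coeff d p) (MvPolynomial.mem_support_iff.mp hd)
      have h2 := h1.mul ((ha.pow (d 0)).mul (hb.pow (d 1)))
      rw [zero_add] at h2
      exact h2
    have h5 := congrArg (fun x => v.Λ x (m 0 • la + m 1 • lb)) hp2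
    simp only [map_sum, Finset.sum_apply, map_zero, Pi.zero_apply] at h5
    rw [Finset.sum_eq_single m] at h5
    · exact (hterm m hm).1 h5
    · intro d hd hdm
      apply (hterm d hd).2
      refine lt_of_le_of_ne (hmin d hd) ?_
      intro he
      apply hdm
      have := hl _ _ _ _ he
      ext i
      fin_cases i
      · exact this.1.symm
      · exact this.2.symm
    · intro h; exact absurd hm h

/-- first coordinate -/
def pr1 : GG →+ ℤ where
  toFun x := (ofLex x).1
  map_zero' := rfl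
  map_add' _ _ := rfl

/-- second coordinate -/
def pr2 : GG →+ ℤ where
  toFun x := (ofLex x).2
  map_zero' := rfl
  map_add' _ _ := rfl

theorem par_indep {l1 l2 : GG} (h1 : par l1 = (1, 0)) (h2 : par l2 = (0, 1)) (m n m' n' : ℕ)
    (h : m • (l1 + l1) + n • (l2 + l2) = m' • (l1 + l1) + n' • (l2 + l2)) : m = m' ∧ n = n' := by
  have e1 := congrArg pr1 h
  have e2 := congrArg pr2 h
  rw [map_add, map_add, map_nsmul, map_nsmul, map_nsmul, map_nsmul, map_add, map_add] at e1 e2
  rw [nsmul_eq_mul, nsmul_eq_mul, nsmul_eq_mul, nsmul_eq_mul] at e1 e2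
  simp only [par, Prod.mk.injEq] at h1 h2
  obtain ⟨h11, h12⟩ := h1
  obtain ⟨h21, h22⟩ := h2
  change ((pr1 l1 : ℤ) : ZMod 2) = 1 at h11
  change ((pr2 l1 : ℤ) : ZMod 2) = 0 at h12
  change ((pr1 l2 : ℤ) : ZMod 2) = 0 at h21
  change ((pr2 l2 : ℤ) : ZMod 2) = 1 at h22
  set a := pr1 l1
  set b := pr2 l1
  set c := pr1 l2
  set d := pr2 l2
  have hdet : a * d - b * c ≠ 0 := by
    intro h0
    have h3 := congrArg (fun x : ℤ => (x : ZMod 2)) h0
    simp only [Int.cast_sub, Int.cast_mul, h11, h12, h21, h22, Int.cast_zero] at h3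
    revert h3
    decide
  have e3 : ((m : ℤ) - m') * a + ((n : ℤ) - n') * c = 0 := by linarith
  have e4 : ((m : ℤ) - m') * b + ((n : ℤ) - n') * d = 0 := by linarith
  have e5 : ((m : ℤ) - m') * (a * d - b * c) = 0 := by linear_combination d * e3 - c * e4
  have e6 : ((n : ℤ) - n') * (a * d - b * c) = 0 := by linear_combination a * e4 - b * e3
  have e7 := (mul_eq_zero.mp e5).resolve_right hdet
  have e8 := (mul_eq_zero.mp e6).resolve_right hdet
  constructor <;> omega

end indep

section res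

variable {F E K D : Type*} [Field F] [Field E] [Algebra F E] [Field K] [DivisionRing D]
    [Algebra F K] [Algebra K D] [Algebra F D] [IsScalarTower F K D] {v : VD F E K D}

theorem conj_res {x z : D} {l : GG} (hx : v.IsLT x l) (hz : v.IsLT z 0) :
    v.IsLT (x * z * x⁻¹) 0 ∧ v.Λ (x * z * x⁻¹) 0 = v.T.ac (par l) (v.Λ z 0) := by
  have hx0 := hx.ne
  have hz0 := hz.ne
  have hne : x * z * x⁻¹ ≠ 0 := mul_ne_zero (mul_ne_zero hx0 hz0) (inv_ne_zero hx0)
  obtain ⟨m, hm⟩ := v.ex _ hne
  have hm : v.IsLT (x * z * x⁻¹) m := hm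
  have e1 : x * z * x⁻¹ * x = x * z := by rw [mul_assoc, inv_mul_cancel₀ hx0, mul_one]
  have h1 := hm.mul hx
  rw [e1] at h1
  have h2 := hx.mul hz
  have h3 := h1.uniq h2
  have hm0 : m = 0 := by
    rw [add_comm] at h3
    exact add_left_cancel h3
  subst hm0
  refine ⟨hm, ?_⟩
  have h4 := v.mul2 _ _ 0 l hm.2 hx.2
  have h5 := v.mul2 _ _ l 0 hx.2 hz.2
  rw [e1, zero_add] at h4
  rw [add_zero, h4] at h5
  simp only [par_zero, TD.ac0, TD.kap_0l, TD.kap_0r, mul_one] at h5
  rw [mul_comm] at h5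
  exact mul_left_cancel₀ hx.1 h5

theorem comm_res {x y : D} {l m : GG} (hx : v.IsLT x l) (hy : v.IsLT y m)
    (hl : par l = (1, 0)) (hm : par m = (0, 1)) :
    v.IsLT (x * y * x⁻¹ * y⁻¹) 0 ∧ v.Λ (x * y * x⁻¹ * y⁻¹) 0 =
      v.T.zz (v.Λ x l) (v.Λ y m) := by
  have hx0 := hx.ne
  have hy0 := hy.ne
  have hne : x * y * x⁻¹ * y⁻¹ ≠ 0 :=
    mul_ne_zero (mul_ne_zero (mul_ne_zero hx0 hy0) (inv_ne_zero hx0)) (inv_ne_zero hy0)
  obtain ⟨k, hk⟩ := v.ex _ hne
  have hk : v.IsLT (x * y * x⁻¹ * y⁻¹) k := hk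
  have e1 : x * y * x⁻¹ * y⁻¹ * (y * x) = x * y := by
    rw [mul_assoc, ← mul_assoc y⁻¹, inv_mul_cancel₀ hy0, one_mul, mul_assoc,
      inv_mul_cancel₀ hx0, mul_one]
  have h1 := hk.mul (hy.mul hx)
  rw [e1] at h1
  have h2 := hx.mul hy
  have h3 := h1.uniq h2
  have hk0 : k = 0 := by
    rw [add_comm l m] at h3
    exact add_eq_right.mp h3
  subst hk0
  refine ⟨hk, ?_⟩
  have h4 := v.mul2 _ _ 0 (m + l) hk.2 (hy.mul hx).2
  have h5 := v.mul2 _ _ l m hx.2 hy.2
  have h6 := v.mul2 _ _ m l hy.2 hx.2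
  rw [e1, zero_add, h6, add_comm m l, h5, hl, hm] at h4
  simp only [par_zero, TD.ac0, TD.kap_0l, mul_one, TD.ac01, TD.ac10] at h4
  have e2 : (1 : ZMod 2) ≠ 0 := by decide
  have e3 : (0 : ZMod 2) ≠ 1 := by decide
  have k1 : v.T.kap (1, 0) (0, 1) = 1 := by simp [TD.kap, e3]
  have k2 : v.T.kap (0, 1) (1, 0) = v.T.z1⁻¹ := by simp [TD.kap, e3]
  rw [k1, k2] at h4
  have hz1 := v.T.h1
  have hy1 := hy.1
  have hx1 := hx.1
  have ht : v.T.t (v.Λ x l) ≠ 0 := by simpa using hx.1
  unfold TD.zz
  field_simp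
  field_simp at h4
  linear_combination -h4

end res

section conj

variable {F D : Type*} [Field F] [DivisionRing D] [Algebra F D]

/-- `x` conjugates `γ` to `γ + s`. -/
def Cj (γ x : D) (s : F) : Prop := x * γ = (γ + algebraMap F D s) * x

theorem Cj.mul {γ x y : D} {s t : F} (hx : Cj γ x s) (hy : Cj γ y t) : Cj γ (x * y) (s + t) := by
  unfold Cj at *
  rw [mul_assoc, hy, ← mul_assoc, mul_add, hx, ← Algebra.commutes t x, map_add]
  noncomm_ring

theorem Cj.inv {γ x : D} {s : F} (h0 : x ≠ 0) (hx : Cj γ x s) : Cj γ x⁻¹ (-s) := by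
  unfold Cj at *
  have h1 : x * (x⁻¹ * γ) = x * ((γ + algebraMap F D (-s)) * x⁻¹) := by
    rw [← mul_assoc, mul_inv_cancel₀ h0, one_mul, ← mul_assoc, mul_add, hx, map_neg, mul_neg,
      ← Algebra.commutes s x, add_mul γ, add_neg_cancel_right, mul_assoc, mul_inv_cancel₀ h0,
      mul_one]
  exact mul_left_cancel₀ h0 h1

theorem Cj_zero {γ x : D} : Cj γ x (0 : F) ↔ x * γ = γ * x := by
  simp [Cj]

theorem Cj.sq [CharP F 2] {γ x : D} {s : F} (hx : Cj γ x s) : Cj γ (x * x) (0 : F) := by
  have := hx.mul hx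
  rwa [CharTwo.add_self_eq_zero] at this

theorem Cj.comm {γ x y : D} {s t : F} (hx : Cj γ x s) (hy : Cj γ y t) (x0 : x ≠ 0) (y0 : y ≠ 0) :
    Cj γ (x * y * x⁻¹ * y⁻¹) (0 : F) := by
  have := ((hx.mul hy).mul (hx.inv x0)).mul (hy.inv y0)
  have e : s + t + -s + -t = 0 := by ring
  rwa [e] at this

theorem Cj.conj {γ x z : D} {s : F} (hx : Cj γ x s) (hz : Cj γ z (0 : F)) (x0 : x ≠ 0) :
    Cj γ (x * z * x⁻¹) (0 : F) := by
  have := (hx.mul hz).mul (hx.inv x0)
  have e : s + 0 + -s = 0 := by ring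
  rwa [e] at this

end conj

section cent

variable {F K D : Type*} [Field F] [Field K] [DivisionRing D]
    [Algebra F K] [Algebra K D] [CharP F 2]

/-- The centralizer of the pair is spanned by the products. -/
theorem cent_span (h16 : finrank K D = 16) {α β u w : D} (P : ASP F K α β u w) {c : D}
    (hcα : c * α = α * c) (hcβ : c * β = β * c) :
    c ∈ Submodule.span K (Set.range ![(1 : D), α, β, α * β]) := by
  have : FiniteDimensional K D := FiniteDimensional.of_finrank_pos (by omega)
  have h2K : (2 : K) = 0 := two_eq F K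
  have h2 : (2 : D) = 0 := by
    have : algebraMap K D 2 = 0 := by rw [h2K, map_zero]
    rwa [map_ofNat] at this
  have aa : ∀ x : D, x + x = 0 := fun x => by rw [← two_mul, h2, zero_mul]
  let C : Subalgebra K D := Subalgebra.centralizer K {α, β}
  have hC : ∀ x, x ∈ C ↔ (α * x = x * α ∧ β * x = x * β) := by
    intro x
    rw [Subalgebra.mem_centralizer_iff]
    simp
  -- injectivity of the big map
  let ψ : (Fin 4 → C) →ₗ[K] D :=
    { toFun := fun c => (c 0 : D) + c 1 * u + c 2 * w + c 3 * (u * w)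
      map_add' := by
        intro x y
        simp only [Pi.add_apply, Subalgebra.coe_add]
        noncomm_ring
      map_smul' := by
        intro k x
        simp only [Pi.smul_apply, Subalgebra.coe_smul, RingHom.id_apply, smul_add, smul_mul_assoc] }
  have adA : ∀ x y : D, α * x = x * α → α * (x * y) + x * y * α = x * (α * y + y * α) := by
    intro x y h
    rw [← mul_assoc, h]; noncomm_ring
  have adB : ∀ x y : D, β * x = x * β → β * (x * y) + x * y * β = x * (β * y + y * β) := by
    intro x y h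
    rw [← mul_assoc, h]; noncomm_ring
  have Au : α * u + u * α = u := by
    rw [P.ua, add_mul, one_mul, ← add_assoc, aa, zero_add]
  have Bu : β * u + u * β = 0 := by rw [P.ub, aa]
  have Aw : α * w + w * α = 0 := by rw [P.wa, aa]
  have Bw : β * w + w * β = w := by
    rw [P.wb, add_mul, one_mul, ← add_assoc, aa, zero_add]
  have Auw : α * (u * w) + u * w * α = u * w := by
    rw [mul_assoc u w, P.wa, ← mul_assoc u, P.ua]
    have : α * (u * w) + (α + 1) * u * w = (α * (u * w) + α * (u * w)) + u * w := by noncomm_ring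
    rw [this, aa, zero_add]
  have Buw : β * (u * w) + u * w * β = u * w := by
    rw [mul_assoc u w, P.wb, ← mul_assoc β, ← P.ub]
    have : u * β * w + u * ((β + 1) * w) = (u * β * w + u * β * w) + u * w := by noncomm_ring
    rw [this, aa, zero_add]
  have hψ : LinearMap.ker ψ = ⊥ := by
    rw [LinearMap.ker_eq_bot']
    intro m hm
    have hm0 : (m 0 : D) + m 1 * u + m 2 * w + m 3 * (u * w) = 0 := hm
    have a0 := (hC _).mp (m 0).2
    have a1 := (hC _).mp (m 1).2
    have a2 := (hC _).mp (m 2).2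
    have a3 := (hC _).mp (m 3).2
    have s1 : (m 1 : D) * u + m 3 * (u * w) = 0 := by
      have h : α * ((m 0 : D) + m 1 * u + m 2 * w + m 3 * (u * w)) +
          ((m 0 : D) + m 1 * u + m 2 * w + m 3 * (u * w)) * α = 0 := by rw [hm0]; simp
      have e : α * ((m 0 : D) + m 1 * u + m 2 * w + m 3 * (u * w)) +
          ((m 0 : D) + m 1 * u + m 2 * w + m 3 * (u * w)) * α =
          (α * m 0 + m 0 * α) + (α * (m 1 * u) + m 1 * u * α) + (α * (m 2 * w) + m 2 * w * α) +
          (α * (m 3 * (u * w)) + m 3 * (u * w) * α) := by noncomm_ring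
      rw [e, a0.1, aa, adA _ _ a1.1, adA _ _ a2.1, adA _ _ a3.1, Au, Aw, Auw, mul_zero, zero_add,
        add_zero] at h
      exact h
    have s2 : (m 3 : D) * (u * w) = 0 := by
      have h : β * ((m 1 : D) * u + m 3 * (u * w)) + ((m 1 : D) * u + m 3 * (u * w)) * β = 0 := by
        rw [s1]; simp
      have e : β * ((m 1 : D) * u + m 3 * (u * w)) + ((m 1 : D) * u + m 3 * (u * w)) * β =
          (β * (m 1 * u) + m 1 * u * β) + (β * (m 3 * (u * w)) + m 3 * (u * w) * β) := by
        noncomm_ring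
      rw [e, adB _ _ a1.2, adB _ _ a3.2, Bu, Buw, mul_zero, zero_add] at h
      exact h
    have m3 : (m 3 : D) = 0 := (mul_eq_zero.mp s2).resolve_right (mul_ne_zero P.hu P.hw)
    have m1 : (m 1 : D) = 0 := by
      rw [s2, add_zero] at s1
      exact (mul_eq_zero.mp s1).resolve_right P.hu
    rw [m3, m1, zero_mul, zero_mul, add_zero, add_zero] at hm0
    have s3 : (m 2 : D) * w = 0 := by
      have h : β * ((m 0 : D) + m 2 * w) + ((m 0 : D) + m 2 * w) * β = 0 := by
        rw [hm0]; simp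
      have e : β * ((m 0 : D) + m 2 * w) + ((m 0 : D) + m 2 * w) * β =
          (β * m 0 + m 0 * β) + (β * (m 2 * w) + m 2 * w * β) := by
        noncomm_ring
      rw [e, a0.2, aa, adB _ _ a2.2, Bw, zero_add] at h
      exact h
    have m2 : (m 2 : D) = 0 := (mul_eq_zero.mp s3).resolve_right P.hw
    have m0 : (m 0 : D) = 0 := by
      rw [m2, zero_mul, add_zero] at hm0
      exact hm0
    funext i
    fin_cases i
    · exact Subtype.ext m0
    · exact Subtype.ext m1
    · exact Subtype.ext m2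
    · exact Subtype.ext m3
  have hdimC : finrank K C ≤ 4 := by
    have h1 := LinearMap.finrank_le_finrank_of_injective (LinearMap.ker_eq_bot.mp hψ)
    rw [Module.finrank_pi_fintype] at h1
    simp only [Finset.sum_const, Finset.card_univ, Fintype.card_fin, smul_eq_mul] at h1
    omega
  have hli : LinearIndependent K ![(1 : D), α, β, α * β] := by
    rw [Fintype.linearIndependent_iff]
    intro g hg
    simp only [Fin.sum_univ_four, Matrix.cons_val_zero, Matrix.cons_val_one, Matrix.cons_val] at hg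
    have s1 : g 1 • (1 : D) + g 3 • β = 0 := by
      have h : u * (g 0 • 1 + g 1 • α + g 2 • β + g 3 • (α * β)) +
        (g 0 • 1 + g 1 • α + g 2 • β + g 3 • (α * β)) * u = 0 := by rw [hg]; simp
      have e : u * (g 0 • 1 + g 1 • α + g 2 • β + g 3 • (α * β)) +
        (g 0 • 1 + g 1 • α + g 2 • β + g 3 • (α * β)) * u =
          g 0 • (u + u) + g 1 • (α * u + u * α) + g 2 • (β * u + u * β) +
            g 3 • (u * (α * β) + α * β * u) := by
        simp only [mul_add, add_mul, mul_smul_comm, smul_mul_assoc, smul_add, mul_one, one_mul]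
        abel
      have e2 : u * (α * β) + α * β * u = β * u := by
        rw [← mul_assoc, P.ua, mul_assoc α β u, ← P.ub]
        have : (α + 1) * u * β + α * (u * β) = (α * (u * β) + α * (u * β)) + u * β := by
          noncomm_ring
        rw [this, aa, zero_add]
      rw [e, aa, Au, Bu, e2, smul_zero, smul_zero, zero_add, add_zero] at h
      have h3 : (g 1 • (1 : D) + g 3 • β) * u = 0 := by
        rw [add_mul, smul_mul_assoc, smul_mul_assoc, one_mul]
        exact h
      exact (mul_eq_zero.mp h3).resolve_right P.hu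
    have s2 : g 3 = 0 := by
      have h : w * (g 1 • (1 : D) + g 3 • β) + (g 1 • (1 : D) + g 3 • β) * w = 0 := by
        rw [s1]; simp
      have e : w * (g 1 • (1 : D) + g 3 • β) + (g 1 • (1 : D) + g 3 • β) * w =
          g 1 • (w + w) + g 3 • (β * w + w * β) := by
        simp only [mul_add, add_mul, mul_smul_comm, smul_mul_assoc, smul_add, mul_one, one_mul]
        abel
      rw [e, aa, Bw, smul_zero, zero_add] at h
      exact (smul_eq_zero.mp h).resolve_right P.hw
    have s3 : g 1 = 0 := by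
      rw [s2, zero_smul, add_zero] at s1
      exact (smul_eq_zero.mp s1).resolve_right one_ne_zero
    rw [s2, s3, zero_smul, zero_smul, add_zero, add_zero] at hg
    have s4 : g 2 = 0 := by
      have h : w * (g 0 • (1 : D) + g 2 • β) + (g 0 • (1 : D) + g 2 • β) * w = 0 := by
        rw [hg]; simp
      have e : w * (g 0 • (1 : D) + g 2 • β) + (g 0 • (1 : D) + g 2 • β) * w =
          g 0 • (w + w) + g 2 • (β * w + w * β) := by
        simp only [mul_add, add_mul, mul_smul_comm, smul_mul_assoc, smul_add, mul_one, one_mul]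
        abel
      rw [e, aa, Bw, smul_zero, zero_add] at h
      exact (smul_eq_zero.mp h).resolve_right P.hw
    have s5 : g 0 = 0 := by
      rw [s4, zero_smul, add_zero] at hg
      exact (smul_eq_zero.mp hg).resolve_right one_ne_zero
    intro i
    fin_cases i
    · exact s5
    · exact s3
    · exact s4
    · exact s2
  have hS : Submodule.span K (Set.range ![(1 : D), α, β, α * β]) = Subalgebra.toSubmodule C := by
    apply Submodule.eq_of_le_of_finrank_le
    · rw [Submodule.span_le]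
      rintro _ ⟨i, rfl⟩
      rw [SetLike.mem_coe, Subalgebra.mem_toSubmodule, hC]
      fin_cases i
      · simp
      · simp [P.comm]
      · simp [P.comm]
      · show α * (α * β) = α * β * α ∧ β * (α * β) = α * β * β
        exact ⟨by rw [mul_assoc α β α, ← P.comm], by rw [← mul_assoc, ← P.comm]⟩
    · rw [finrank_span_eq_card hli]
      simpa using hdimC
  rw [hS, Subalgebra.mem_toSubmodule, hC]
  exact ⟨hcα.symm, hcβ.symm⟩

/-- The centralizer of the pair is commutative. -/
theorem cent_comm (h16 : finrank K D = 16) {α β u w : D} (P : ASP F K α β u w) {c d : D}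
    (hcα : c * α = α * c) (hcβ : c * β = β * c) (hdα : d * α = α * d) (hdβ : d * β = β * d) :
    c * d = d * c := by
  have hcS := cent_span h16 P hcα hcβ
  clear hcα hcβ
  induction hcS using Submodule.span_induction with
  | mem x hx =>
    obtain ⟨i, rfl⟩ := hx
    fin_cases i
    · simp
    · exact hdα.symm
    · exact hdβ.symm
    · show α * β * d = d * (α * β)
      rw [mul_assoc, ← hdβ, ← mul_assoc, ← hdα, mul_assoc]
  | zero => simp
  | add x y _ _ h1 h2 => rw [add_mul, mul_add, h1, h2]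
  | smul k x _ h1 => rw [smul_mul_assoc, h1, mul_smul_comm]

end cent

section main

open scoped IsMulCommutative

variable {F E K D : Type*} [Field F] [Field E] [Algebra F E] [Field K] [DivisionRing D]
    [Algebra F K] [Algebra K D] [Algebra F D] [IsScalarTower F K D]

theorem trdeg_lower {L : Type*} [Field L] [Algebra F L] {A : Type*} [CommRing A] [IsDomain A]
    [Algebra F A] [Algebra L A] [IsScalarTower F L A] [Algebra.IsAlgebraic L A]
    {x : Fin 2 ⊕ Fin 3 → A} (hx : AlgebraicIndependent F x) : 5 ≤ Algebra.trdeg F L := by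
  have h1 := lift_trdeg_add_eq F L A
  rw [trdeg_eq_zero (R := L) (A := A), Cardinal.lift_zero, add_zero] at h1
  have h2 := hx.lift_cardinalMk_le_trdeg
  rw [Cardinal.mk_sum, Cardinal.mk_fin, Cardinal.mk_fin] at h2
  have h3 : (5 : Cardinal) ≤ Cardinal.lift (Algebra.trdeg F A) := by
    refine le_trans ?_ h2
    simp only [Nat.cast_ofNat, Cardinal.lift_ofNat, Cardinal.lift_add]
    norm_num
  rw [Cardinal.ofNat_le_lift_iff] at h3
  rw [← Cardinal.ofNat_le_lift_iff, h1, Cardinal.ofNat_le_lift_iff]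
  exact h3

variable (v : VD F E K D) (r : RC F K D) [CharP F 2] {L : IntermediateField F K}

theorem VV_sel : ∀ g h : VV, g ≠ 0 → h ≠ 0 → g ≠ h →
    (g = (1, 0) ∨ h = (1, 0) ∨ g + h = (1, 0)) ∧ (g = (0, 1) ∨ h = (0, 1) ∨ g + h = (0, 1)) := by
  decide

include v r in
theorem lower (hL : ∀ x : K, IsIntegral L x → x ∈ L) [Algebra.IsCentral K D]
    (h16K : finrank K D = 16) {D0 : Subalgebra L D} (h16 : finrank L D0 = 16)
    (hspan : Submodule.span K (D0 : Set D) = ⊤) : 5 ≤ Algebra.trdeg F L := by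
  have : FiniteDimensional L D0 := FiniteDimensional.of_finrank_pos (by omega)
  have hint : ∀ x ∈ D0, IsIntegral L x := fun x hx =>
    (isIntegral_algHom_iff D0.val Subtype.val_injective).mpr
      (IsIntegral.of_finite L (⟨x, hx⟩ : D0))
  have hinv : ∀ x ∈ D0, x⁻¹ ∈ D0 := fun x hx => (hint x hx).inv_mem hx
  obtain ⟨α, hα0, β, hβ0, u, hu0, w, hw0, P⟩ := albert2 v r hL h16 hspan
  -- characters
  obtain ⟨ca, hca⟩ := v.as_int P.ha.choose_spec
  obtain ⟨cb, hcb⟩ := v.as_int P.hb.choose_spec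
  obtain ⟨lu, hlu⟩ := v.ex u P.hu
  obtain ⟨lw, hlw⟩ := v.ex w P.hw
  have hlu : v.IsLT u lu := hlu
  have hlw : v.IsLT w lw := hlw
  have ua : Cj α u (1 : F) := by unfold Cj; rw [map_one]; exact P.ua
  have ub : Cj β u (0 : F) := Cj_zero.mpr P.ub
  have wa : Cj α w (0 : F) := Cj_zero.mpr P.wa
  have wb : Cj β w (1 : F) := by unfold Cj; rw [map_one]; exact P.wb
  have r1 := VD.act_res hlu hca ua
  have r2 := VD.act_res hlu hcb ub
  have r3 := VD.act_res hlw hca wa
  have r4 := VD.act_res hlw hcb wb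
  rw [map_one] at r1 r4
  rw [map_zero, add_zero] at r2 r3
  have g1 : par lu ≠ 0 := by
    intro h; rw [h, TD.ac0] at r1
    exact one_ne_zero (left_eq_add.mp r1)
  have g2 : par lw ≠ 0 := by
    intro h; rw [h, TD.ac0] at r4
    exact one_ne_zero (left_eq_add.mp r4)
  have g3 : par lu ≠ par lw := by
    intro h; rw [h, r3] at r1
    exact one_ne_zero (left_eq_add.mp r1)
  obtain ⟨k1, k2⟩ := VV_sel _ _ g1 g2 g3
  have hluw := hlu.mul hlw
  have uwa := ua.mul wa
  have uwb := ub.mul wb
  have huw0 := D0.mul_mem hu0 hw0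
  obtain ⟨x, hx0, s, s', l, hxα, hxβ, hxl, hpl⟩ : ∃ x ∈ D0, ∃ (s s' : F) (l : GG),
      Cj α x s ∧ Cj β x s' ∧ v.IsLT x l ∧ par l = (1, 0) := by
    rcases k1 with h | h | h
    · exact ⟨u, hu0, _, _, lu, ua, ub, hlu, h⟩
    · exact ⟨w, hw0, _, _, lw, wa, wb, hlw, h⟩
    · exact ⟨_, huw0, _, _, _, uwa, uwb, hluw, by rw [par_add, h]⟩
  obtain ⟨y, hy0, t, t', m, hyα, hyβ, hym, hpm⟩ : ∃ y ∈ D0, ∃ (s s' : F) (l : GG),
      Cj α y s ∧ Cj β y s' ∧ v.IsLT y l ∧ par l = (0, 1) := by
    rcases k2 with h | h | h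
    · exact ⟨u, hu0, _, _, lu, ua, ub, hlu, h⟩
    · exact ⟨w, hw0, _, _, lw, wa, wb, hlw, h⟩
    · exact ⟨_, huw0, _, _, _, uwa, uwb, hluw, by rw [par_add, h]⟩
  have x0 := hxl.ne
  have y0 := hym.ne
  set z := x * y * x⁻¹ * y⁻¹ with hz
  have hz0 : z ∈ D0 := D0.mul_mem (D0.mul_mem (D0.mul_mem hx0 hy0) (hinv x hx0)) (hinv y hy0)
  obtain ⟨z1, z2⟩ := comm_res hxl hym hpl hpm
  obtain ⟨zx1, zx2⟩ := conj_res hxl z1
  obtain ⟨zy1, zy2⟩ := conj_res hym z1
  rw [hpl, z2] at zx2
  rw [hpm, z2] at zy2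
  have zα : Cj α z (0 : F) := hxα.comm hyα x0 y0
  have zβ : Cj β z (0 : F) := hxβ.comm hyβ x0 y0
  let e : Fin 2 ⊕ Fin 3 → D := Sum.elim ![x * x, y * y] ![z, x * z * x⁻¹, y * z * y⁻¹]
  have he0 : ∀ i, e i ∈ D0 := by
    rintro (i | i) <;> fin_cases i
    · exact D0.mul_mem hx0 hx0
    · exact D0.mul_mem hy0 hy0
    · exact hz0
    · exact D0.mul_mem (D0.mul_mem hx0 hz0) (hinv x hx0)
    · exact D0.mul_mem (D0.mul_mem hy0 hz0) (hinv y hy0)
  have heα : ∀ i, Cj α (e i) (0 : F) := by
    rintro (i | i) <;> fin_cases i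
    · exact hxα.sq
    · exact hyα.sq
    · exact zα
    · exact hxα.conj zα x0
    · exact hyα.conj zα y0
  have heβ : ∀ i, Cj β (e i) (0 : F) := by
    rintro (i | i) <;> fin_cases i
    · exact hxβ.sq
    · exact hyβ.sq
    · exact zβ
    · exact hxβ.conj zβ x0
    · exact hyβ.conj zβ y0
  have hcomm : ∀ a ∈ Set.range e, ∀ b ∈ Set.range e, a * b = b * a := by
    rintro _ ⟨i, rfl⟩ _ ⟨j, rfl⟩
    exact cent_comm h16K P (Cj_zero.mp (heα i)) (Cj_zero.mp (heβ i)) (Cj_zero.mp (heα j))
      (Cj_zero.mp (heβ j))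
  have := Algebra.isMulCommutative_adjoin L hcomm
  have hle : Algebra.adjoin L (Set.range e) ≤ D0 := by
    apply Algebra.adjoin_le
    rintro _ ⟨i, rfl⟩
    exact he0 i
  have : IsScalarTower F L D := IsScalarTower.of_algebraMap_eq (fun f => by
    rw [IsScalarTower.algebraMap_apply F K D]; rfl)
  have hfin : FiniteDimensional L (Algebra.adjoin L (Set.range e)) :=
    FiniteDimensional.of_injective (Subalgebra.inclusion hle).toLinearMap
      (Subalgebra.inclusion_injective hle)
  let e' : Fin 2 ⊕ Fin 3 → Algebra.adjoin L (Set.range e) := fun i =>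
    ⟨e i, Algebra.subset_adjoin ⟨i, rfl⟩⟩
  have hdom : IsDomain (Algebra.adjoin L (Set.range e)) := inferInstance
  have hind : AlgebraicIndependent F e' := by
    have := indep5 (v := v) (A := Algebra.adjoin L (Set.range e))
      ((Algebra.adjoin L (Set.range e)).val.restrictScalars F)
      (zs := fun i => e' (Sum.inr i)) (a := e' (Sum.inl 0)) (b := e' (Sum.inl 1))
      (la := l + l) (lb := m + m)
      (by
        intro i
        fin_cases i
        · exact z1.2
        · exact zx1.2
        · exact zy1.2)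
      (by
        have := v.T.claimB _ _ hxl.1 hym.1
        convert this using 1
        funext i
        fin_cases i
        · exact z2
        · exact zx2.trans (by simp)
        · exact zy2.trans (by simp))
      (hxl.mul hxl) (hym.mul hym) (par_indep hpl hpm)
    convert this using 1
    funext i
    rcases i with i | i <;> fin_cases i <;> rfl
  exact trdeg_lower hind

end main

end helper53.ED
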