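import Mathlib
import Pool.Agent.helper53.ED.ClaimB

namespace helper53.ED

/-- exponents of Laurent monomials -/
abbrev Z3 := ℤ × ℤ × ℤ

def sZ : Z3 ≃+ Z3 where
  toFun p := (p.2.1 - p.2.2, p.1 - p.2.2, -p.2.2)
  invFun p := (p.2.1 - p.2.2, p.1 - p.2.2, -p.2.2)
  left_inv p := by ext <;> simp
  right_inv p := by ext <;> simp
  map_add' p q := by ext <;> simp <;> ring

def tZ : Z3 ≃+ Z3 where
  toFun p := (p.2.2 - p.2.1, -p.2.1, p.1 - p.2.1)
  invFun p := (p.2.2 - p.2.1, -p.2.1, p.1 - p.2.1)
  left_inv p := by ext <;> simp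
  right_inv p := by ext <;> simp
  map_add' p q := by ext <;> simp <;> ring

theorem sZ_sZ (p : Z3) : sZ (sZ p) = p := sZ.left_inv p
theorem tZ_tZ (p : Z3) : tZ (tZ p) = p := tZ.left_inv p
theorem sZ_tZ (p : Z3) : sZ (tZ p) = tZ (sZ p) := by
  ext <;> (simp [sZ, tZ]; try ring)

variable (F : Type*) [Field F]

/-- Laurent polynomials -/
abbrev GR := AddMonoidAlgebra F Z3

/-- The generic field. -/
abbrev EE := FractionRing (GR F)

noncomputable def sE : EE F ≃ₐ[F] EE F :=
  IsFractionRing.algEquivOfAlgEquiv (A := GR F) (B := GR F) (AddMonoidAlgebra.domCongr F F sZ)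

noncomputable def tE : EE F ≃ₐ[F] EE F :=
  IsFractionRing.algEquivOfAlgEquiv (A := GR F) (B := GR F) (AddMonoidAlgebra.domCongr F F tZ)

noncomputable def mon (p : Z3) : EE F := algebraMap (GR F) (EE F) (AddMonoidAlgebra.single p 1)

theorem mon_add (p q : Z3) : mon F (p + q) = mon F p * mon F q := by
  simp only [mon]
  rw [← map_mul, AddMonoidAlgebra.single_mul_single, one_mul]

theorem mon_zero : mon F 0 = 1 := by
  simp only [mon]
  rw [← AddMonoidAlgebra.one_def, map_one]

theorem mon_ne (p : Z3) : mon F p ≠ 0 := by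
  intro h
  have := mon_add F p (-p)
  rw [add_neg_cancel, mon_zero, h, zero_mul] at this
  exact one_ne_zero this

theorem mon_zsmul (p : Z3) (n : ℤ) : mon F (n • p) = mon F p ^ n := by
  induction n using Int.induction_on with
  | zero => simp [mon_zero]
  | succ n ih =>
    rw [add_smul, one_smul, mon_add, ih, zpow_add₀ (mon_ne F p), zpow_one]
  | pred n ih =>
    have h1 : mon F (((-(n : ℤ)) - 1) • p) * mon F p = mon F ((-(n : ℤ)) • p) := by
      rw [← mon_add]
      congr 1
      rw [sub_smul, one_smul]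
      abel
    rw [ih] at h1
    rw [zpow_sub₀ (mon_ne F p), zpow_one, ← h1]
    field_simp [mon_ne F p]

theorem mon_eq (p : Z3) : mon F p = mo (mon F (1, 0, 0)) (mon F (0, 1, 0)) (mon F (0, 0, 1)) p := by
  simp only [mo]
  rw [← mon_zsmul, ← mon_zsmul, ← mon_zsmul, ← mon_add, ← mon_add]
  congr 1
  ext <;> simp

theorem sE_mon (p : Z3) : sE F (mon F p) = mon F (sZ p) := by
  simp only [sE, mon]
  rw [IsFractionRing.algEquivOfAlgEquiv_algebraMap, AddMonoidAlgebra.domCongr_single]

theorem tE_mon (p : Z3) : tE F (mon F p) = mon F (tZ p) := by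
  simp only [tE, mon]
  rw [IsFractionRing.algEquivOfAlgEquiv_algebraMap, AddMonoidAlgebra.domCongr_single]

/-- Two automorphisms of the fraction field agreeing on monomials are equal. -/
theorem hom_ext (f g : EE F →ₐ[F] EE F) (h : ∀ p, f (mon F p) = g (mon F p)) (x : EE F) :
    f x = g x := by
  have h1 : ∀ a : GR F, f (algebraMap (GR F) (EE F) a) = g (algebraMap (GR F) (EE F) a) := by
    intro a
    have : (f.comp (IsScalarTower.toAlgHom F (GR F) (EE F))) =
        (g.comp (IsScalarTower.toAlgHom F (GR F) (EE F))) := by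
      apply AddMonoidAlgebra.algHom_ext
      · intro p
        exact h p
      · exact Subsingleton.elim _ _
    exact congrArg (fun φ => φ a) this
  obtain ⟨a, b, hb, rfl⟩ := IsFractionRing.div_surjective (GR F) x
  rw [map_div₀, map_div₀, h1, h1]

theorem sE_sE (x : EE F) : sE F (sE F x) = x :=
  hom_ext F (((sE F).trans (sE F) : EE F ≃ₐ[F] EE F) : EE F →ₐ[F] EE F) (AlgHom.id F _)
    (fun p => by
      show sE F (sE F (mon F p)) = mon F p
      rw [sE_mon, sE_mon, sZ_sZ]) x

theorem tE_tE (x : EE F) : tE F (tE F x) = x :=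
  hom_ext F (((tE F).trans (tE F) : EE F ≃ₐ[F] EE F) : EE F →ₐ[F] EE F) (AlgHom.id F _)
    (fun p => by
      show tE F (tE F (mon F p)) = mon F p
      rw [tE_mon, tE_mon, tZ_tZ]) x

theorem sE_tE (x : EE F) : sE F (tE F x) = tE F (sE F x) :=
  hom_ext F (((tE F).trans (sE F) : EE F ≃ₐ[F] EE F) : EE F →ₐ[F] EE F)
    (((sE F).trans (tE F) : EE F ≃ₐ[F] EE F) : EE F →ₐ[F] EE F)
    (fun p => by
      show sE F (tE F (mon F p)) = tE F (sE F (mon F p))
      rw [tE_mon, sE_mon, sE_mon, tE_mon, sZ_tZ]) x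

theorem mem_span_mon (a : GR F) : algebraMap (GR F) (EE F) a ∈
    Submodule.span F (Set.range (mo (mon F (1, 0, 0)) (mon F (0, 1, 0)) (mon F (0, 0, 1)))) := by
  induction a using AddMonoidAlgebra.induction_linear with
  | zero => simp
  | add x y hx hy => rw [map_add]; exact Submodule.add_mem _ hx hy
  | single p c =>
    have : AddMonoidAlgebra.single p c = c • (AddMonoidAlgebra.single p 1 : GR F) := by
      simp
    rw [this]
    have h2 : algebraMap (GR F) (EE F) (c • (AddMonoidAlgebra.single p 1 : GR F)) =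
        c • mon F p := by
      rw [mon]
      exact map_smul (IsScalarTower.toAlgHom F (GR F) (EE F)) c _
    rw [h2]
    exact Submodule.smul_mem _ _ (Submodule.subset_span ⟨p, (mon_eq F p).symm⟩)

/-- The generic datum. -/
noncomputable def GD : TD F (EE F) where
  s := sE F
  t := tE F
  hs := sE_sE F
  ht := tE_tE F
  hst := sE_tE F
  z1 := mon F (1, 0, 0)
  z2 := mon F (0, 1, 0)
  z3 := mon F (0, 0, 1)
  h1 := mon_ne F _
  h2 := mon_ne F _
  h3 := mon_ne F _
  s1 := by rw [sE_mon]; simp [sZ]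
  t1 := by rw [tE_mon]; simp [tZ]
  s3 := by
    rw [sE_mon, ← zpow_neg_one, ← zpow_neg_one, ← zpow_neg_one, ← mon_zsmul, ← mon_zsmul,
      ← mon_zsmul, ← mon_add, ← mon_add]
    congr 1
  li := by
    have h : mo (mon F (1, 0, 0)) (mon F (0, 1, 0)) (mon F (0, 0, 1)) = mon F := by
      funext p; rw [mon_eq F p]
    rw [h]
    have h1 : LinearIndependent F (fun p : Z3 => (AddMonoidAlgebra.single p 1 : GR F)) := by
      have := (AddMonoidAlgebra.basis Z3 F).linearIndependent
      have e : (fun p : Z3 => (AddMonoidAlgebra.single p 1 : GR F)) =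
          ⇑(AddMonoidAlgebra.basis Z3 F) := by
        funext p
        exact (AddMonoidAlgebra.basis_apply F p).symm
      rw [e]
      exact this
    exact h1.map' (IsScalarTower.toAlgHom F (GR F) (EE F)).toLinearMap (by
      rw [LinearMap.ker_eq_bot]
      exact IsFractionRing.injective (GR F) (EE F))
  gen := by
    intro x
    obtain ⟨a, b, hb, rfl⟩ := IsFractionRing.div_surjective (GR F) x
    have hb0 : algebraMap (GR F) (EE F) b ≠ 0 := by
      intro h
      rw [map_eq_zero_iff _ (IsFractionRing.injective (GR F) (EE F))] at h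
      exact nonZeroDivisors.ne_zero hb h
    exact ⟨_, mem_span_mon F a, _, mem_span_mon F b, hb0, div_mul_cancel₀ _ hb0⟩

end helper53.ED
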