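import Mathlib
import Pool.Agent.helper53.ED.Defs
import Pool.Agent.helper53.ED.Final
import Pool.Agent.helper53.ED.CrossH
import Pool.Agent.helper53.ED.Gen

namespace helper53.ED

open scoped TensorProduct Pointwise
open Module

universe u

section descent

variable {F E K D : Type u} [Field F] [Field E] [Algebra F E] [Field K] [DivisionRing D]
    [Algebra F K] [Algebra K D] [Algebra F D] [IsScalarTower F K D]
    (v : VD F E K D) (r : RC F K D) [CharP F 2]

include v r in
theorem lower2 [Algebra.IsCentral K D] (h16K : finrank K D = 16) (L : IntermediateField F K)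
    (A₀ : Type u) [Ring A₀] [Algebra L A₀] (h16 : finrank L A₀ = 16) (e : K ⊗[L] A₀ ≃ₐ[K] D) :
    5 ≤ Algebra.trdeg F L := by
  have hfin : FiniteDimensional L A₀ := FiniteDimensional.of_finrank_pos (by omega)
  let b := Module.finBasisOfFinrankEq L A₀ h16
  let B : Basis (Fin 16) K D := (Algebra.TensorProduct.basis K b).map e.toLinearEquiv
  let M : IntermediateField L K := algebraicClosure L K
  let L' : IntermediateField F K := M.restrictScalars F
  have hLL' : ∀ x : L, (x : K) ∈ L' := fun x => M.algebraMap_mem x
  have hι : ∀ a : A₀, e (1 ⊗ₜ a) ∈ Submodule.span L' (Set.range B) := by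
    intro a
    rw [← b.sum_repr a, TensorProduct.tmul_sum, map_sum]
    refine Submodule.sum_mem _ (fun i _ => ?_)
    have h1 : e ((1 : K) ⊗ₜ[L] (b.repr a i • b i)) = (⟨_, hLL' (b.repr a i)⟩ : L') • B i := by
      have h2 : (1 : K) ⊗ₜ[L] (b.repr a i • b i) =
          ((b.repr a i : L) : K) • ((1 : K) ⊗ₜ[L] b i) := by
        rw [← TensorProduct.smul_tmul, TensorProduct.smul_tmul']
        rfl
      rw [h2, map_smul]
      have h3 : B i = e ((1 : K) ⊗ₜ[L] b i) := by
        simp [B]
      rw [h3]
      rfl
    rw [h1]
    exact Submodule.smul_mem _ _ (Submodule.subset_span ⟨i, rfl⟩)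
  have hBi : ∀ i, B i = e ((1 : K) ⊗ₜ[L] b i) := by
    intro i
    simp [B]
  let D0 : Subalgebra L' D := (Submodule.span L' (Set.range B)).toSubalgebra
    (by
      have := hι 1
      rwa [show ((1 : K) ⊗ₜ[L] (1 : A₀)) = 1 from rfl, map_one] at this)
    (by
      intro x y hx hy
      have h1 : x * y ∈ Submodule.span L' (Set.range B) * Submodule.span L' (Set.range B) :=
        Submodule.mul_mem_mul hx hy
      rw [Submodule.span_mul_span] at h1
      have h2 : Submodule.span L' (Set.range B * Set.range B) ≤
          Submodule.span L' (Set.range B) := by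
        rw [Submodule.span_le]
        rintro _ ⟨_, ⟨i, rfl⟩, _, ⟨j, rfl⟩, rfl⟩
        show B i * B j ∈ Submodule.span L' (Set.range B)
        rw [hBi, hBi, ← map_mul, Algebra.TensorProduct.tmul_mul_tmul, one_mul]
        exact hι _
      exact h2 h1)
  have hD0 : finrank L' D0 = 16 := by
    have hli : LinearIndependent L' B := by
      apply B.linearIndependent.restrict_scalars
      intro x y hxy
      apply Subtype.ext
      simpa [Algebra.smul_def] using hxy
    have := finrank_span_eq_card hli
    rw [Fintype.card_fin] at this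
    exact this
  have hspan : Submodule.span K (D0 : Set D) = ⊤ := by
    rw [eq_top_iff, ← B.span_eq, Submodule.span_le]
    rintro _ ⟨i, rfl⟩
    exact Submodule.subset_span (Submodule.subset_span ⟨i, rfl⟩ :
      B i ∈ Submodule.span L' (Set.range B))
  have hL : ∀ x : K, IsIntegral L' x → x ∈ L' := by
    intro x hx
    have h1 : IsIntegral M x := hx
    have h2 : x ∈ algebraicClosure M K := by
      rw [mem_algebraicClosure_iff]
      exact h1.isAlgebraic
    have h3 := algebraicClosure.algebraicClosure_eq_bot L K
    rw [show algebraicClosure M K = ⊥ from h3] at h2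
    obtain ⟨y, hy⟩ := h2
    rw [← hy]
    exact y.2
  have h5 := lower v r hL h16K hD0 hspan
  have h6 : Algebra.trdeg F L' = Algebra.trdeg F L := by
    have h7 := trdeg_add_eq F L (A := M)
    have h8 : Algebra.IsAlgebraic L M := algebraicClosure.isAlgebraic L K
    rw [trdeg_eq_zero (R := L) (A := M), add_zero] at h7
    rw [h7]
    rfl
  rw [h6] at h5
  exact h5

end descent

/-- The lower bound. -/
theorem lower_bound (F : Type u) [Field F] [CharP F 2] : 5 ≤ edPGL 4 F := by
  unfold edPGL
  refine le_iSup_of_le (hcp (GD F)).K ?_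
  refine le_iSup_of_le inferInstance ?_
  refine le_iSup_of_le inferInstance ?_
  refine le_iSup_of_le (hcp (GD F)).D ?_
  refine le_iSup_of_le inferInstance ?_
  refine le_iSup_of_le inferInstance ?_
  refine le_iSup_of_le ⟨inferInstance, inferInstance, (hcp (GD F)).finrank_D⟩ ?_
  unfold edAlg
  refine le_iInf (fun L => le_iInf (fun hL => ?_))
  obtain ⟨A₀, _, _, hA, ⟨e⟩⟩ := hL
  have := lower2 (vd (GD F)) (rc (GD F)) (hcp (GD F)).finrank_D L A₀ hA.finrank e
  rw [← Cardinal.ofNat_le_toENat] at this
  exact this

end helper53.ED
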