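import Mathlib

namespace helper53.ED

open Module
open scoped TensorProduct

section bc

variable {K K' D : Type*} [Field K] [Field K'] [Algebra K K'] [DivisionRing D] [Algebra K D]
  {ι : Type*} [DecidableEq ι] (b : Basis ι K K')

/-- coordinates -/
noncomputable def Ph : K' ⊗[K] D ≃ₗ[K] (ι →₀ D) := TensorProduct.equivFinsuppOfBasisLeft b

theorem Ph_mul_left (d : D) (x : K' ⊗[K] D) (i : ι) :
    Ph b (((1 : K') ⊗ₜ[K] d) * x) i = d * Ph b x i := by
  induction x using TensorProduct.induction_on with
  | zero => simp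
  | tmul a e =>
    rw [Algebra.TensorProduct.tmul_mul_tmul, one_mul, Ph,
      TensorProduct.equivFinsuppOfBasisLeft_apply_tmul_apply,
      TensorProduct.equivFinsuppOfBasisLeft_apply_tmul_apply, mul_smul_comm]
  | add x y hx hy => rw [mul_add, map_add, map_add, Finsupp.add_apply, Finsupp.add_apply, hx, hy,
      mul_add]

theorem Ph_mul_right (d : D) (x : K' ⊗[K] D) (i : ι) :
    Ph b (x * ((1 : K') ⊗ₜ[K] d)) i = Ph b x i * d := by
  induction x using TensorProduct.induction_on with
  | zero => simp
  | tmul a e =>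
    rw [Algebra.TensorProduct.tmul_mul_tmul, mul_one, Ph,
      TensorProduct.equivFinsuppOfBasisLeft_apply_tmul_apply,
      TensorProduct.equivFinsuppOfBasisLeft_apply_tmul_apply, smul_mul_assoc]
  | add x y hx hy => rw [add_mul, map_add, map_add, Finsupp.add_apply, Finsupp.add_apply, hx, hy,
      add_mul]

theorem Ph_central [Algebra.IsCentral K D] {x : K' ⊗[K] D}
    (h : ∀ (d : D) i, d * Ph b x i = Ph b x i * d) : ∃ a : K', x = a ⊗ₜ 1 := by
  have h1 : ∀ i, ∃ c : K, Ph b x i = algebraMap K D c := by
    intro i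
    have h2 : Ph b x i ∈ Subalgebra.center K D := by
      rw [Subalgebra.mem_center_iff]
      intro d; exact h d i
    rw [Algebra.IsCentral.center_eq_bot] at h2
    obtain ⟨c, hc⟩ := h2
    exact ⟨c, hc.symm⟩
  choose c hc using h1
  refine ⟨(Ph b x).sum (fun i _ => c i • b i), ?_⟩
  have h3 : x = (Ph b).symm (Ph b x) := ((Ph b).symm_apply_apply x).symm
  conv_lhs => rw [h3]
  rw [Ph, TensorProduct.equivFinsuppOfBasisLeft_symm_apply, Finsupp.sum, Finsupp.sum,
    TensorProduct.sum_tmul]
  refine Finset.sum_congr rfl (fun i _ => ?_)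
  have h4 := hc i
  rw [Ph] at h4
  rw [h4, Algebra.algebraMap_eq_smul_one, TensorProduct.tmul_smul, TensorProduct.smul_tmul']

variable (K K' D) in
theorem central_bc [Algebra.IsCentral K D] : Algebra.IsCentral K' (K' ⊗[K] D) where
  out := by
    intro x hx
    classical
    let b := Module.Free.chooseBasis K K'
    rw [Subalgebra.mem_center_iff] at hx
    obtain ⟨a, ha⟩ := Ph_central b (x := x) (by
      intro d i
      rw [← Ph_mul_left, hx, Ph_mul_right])
    rw [ha]
    exact ⟨a, rfl⟩

variable (K K' D) in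
theorem simple_bc [Algebra.IsCentral K D] : IsSimpleRing (K' ⊗[K] D) := by
  classical
  let b := Module.Free.chooseBasis K K'
  apply IsSimpleRing.of_eq_bot_or_eq_top
  intro I
  by_cases hI : I = ⊥
  · left; exact hI
  right
  obtain ⟨x0, hx0, hx0ne⟩ : ∃ x ∈ I, x ≠ 0 := by
    by_contra hcon
    push Not at hcon
    apply hI
    rw [eq_bot_iff]
    intro x hx
    rw [TwoSidedIdeal.mem_bot]
    exact hcon x hx
  let S : Set ℕ := {n | ∃ x ∈ I, x ≠ 0 ∧ (Ph b x).support.card = n}
  have hS : S.Nonempty := ⟨_, x0, hx0, hx0ne, rfl⟩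
  obtain ⟨x, hx, hxne, hxc⟩ := Nat.sInf_mem hS
  have hPne : Ph b x ≠ 0 := by
    intro h
    exact hxne ((Ph b).map_eq_zero_iff.mp h)
  obtain ⟨i0, hi0⟩ := Finsupp.support_nonempty_iff.mpr hPne
  have hd0 : Ph b x i0 ≠ 0 := Finsupp.mem_support_iff.mp hi0
  set x' := x * ((1 : K') ⊗ₜ[K] (Ph b x i0)⁻¹) with hx'
  have hx'I : x' ∈ I := I.mul_mem_right _ _ hx
  have hx'i : ∀ i, Ph b x' i = Ph b x i * (Ph b x i0)⁻¹ := fun i => Ph_mul_right b _ _ _
  have hx'0 : Ph b x' i0 = 1 := by rw [hx'i, mul_inv_cancel₀ hd0]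
  have key : ∀ d : D, ∀ i, d * Ph b x' i = Ph b x' i * d := by
    intro d
    set y := ((1 : K') ⊗ₜ[K] d) * x' - x' * ((1 : K') ⊗ₜ[K] d) with hy
    have hyI : y ∈ I := I.sub_mem (I.mul_mem_left _ _ hx'I) (I.mul_mem_right _ _ hx'I)
    have hyi : ∀ i, Ph b y i = d * Ph b x' i - Ph b x' i * d := by
      intro i
      rw [hy, map_sub, Finsupp.sub_apply, Ph_mul_left b d x' i, Ph_mul_right b d x' i]
    by_cases hy0 : y = 0
    · intro i
      have := hyi i
      rw [hy0, map_zero, Finsupp.zero_apply] at this
      exact (sub_eq_zero.mp this.symm)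
    · exfalso
      have h1 : (Ph b y).support.card < (Ph b x).support.card := by
        apply Finset.card_lt_card
        rw [Finset.ssubset_iff_of_subset]
        · refine ⟨i0, hi0, ?_⟩
          rw [Finsupp.notMem_support_iff, hyi, hx'0, mul_one, one_mul, sub_self]
        · intro i hi
          rw [Finsupp.mem_support_iff] at hi ⊢
          intro h0
          apply hi
          rw [hyi, hx'i, h0, zero_mul, mul_zero, zero_mul, sub_self]
      have h2 : sInf S ≤ (Ph b y).support.card := Nat.sInf_le ⟨y, hyI, hy0, rfl⟩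
      omega
  obtain ⟨a, ha⟩ := Ph_central b key
  have hane : a ≠ 0 := by
    rintro rfl
    rw [TensorProduct.zero_tmul] at ha
    rw [ha, map_zero, Finsupp.zero_apply] at hx'0
    exact zero_ne_one hx'0
  have h1 : (1 : K' ⊗[K] D) ∈ I := by
    have := I.mul_mem_left (a⁻¹ ⊗ₜ 1) _ hx'I
    rwa [ha, Algebra.TensorProduct.tmul_mul_tmul, inv_mul_cancel₀ hane, one_mul] at this
  rw [eq_top_iff]
  intro z _
  have := I.mul_mem_left z _ h1
  rwa [mul_one] at this

end bc

section sep

variable (K D : Type*) [Field K] [DivisionRing D] [Algebra K D]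

/-- Over a separably closed field a central division algebra of finite dimension is trivial. -/
theorem sep_trivial [IsSepClosed K] [Algebra.IsCentral K D] [FiniteDimensional K D] :
    Function.Bijective (algebraMap K D) := by
  refine ⟨(algebraMap K D).injective, ?_⟩
  by_contra hcon
  have h1 : (⊥ : Subalgebra K D) ≠ ⊤ := by
    intro h
    apply hcon
    intro x
    have : x ∈ (⊥ : Subalgebra K D) := by rw [h]; trivial
    exact this
  obtain ⟨x, hx, hsep⟩ := JacobsonNoether.exists_separable_and_not_isCentral' h1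
  apply hx
  have hint : IsIntegral K x := IsIntegral.of_finite K x
  have hirr : Irreducible (minpoly K x) := minpoly.irreducible hint
  have hdeg := IsSepClosed.degree_eq_one_of_irreducible K hirr hsep
  have h2 := minpoly.aeval K x
  rw [Polynomial.eq_X_add_C_of_degree_eq_one hdeg, (minpoly.monic hint).leadingCoeff] at h2
  simp only [map_one, one_mul, map_add, Polynomial.aeval_X, Polynomial.aeval_C] at h2
  exact ⟨-(minpoly K x).coeff 0, by
    show algebraMap K D _ = x
    rw [map_neg]; exact (eq_neg_of_add_eq_zero_left h2).symm⟩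

end sep

section split

/-- A matrix algebra is central only if the coefficient algebra is. -/
theorem central_of_matrix {K D : Type*} [Field K] [Ring D] [Algebra K D] {n : ℕ} [NeZero n]
    (h : Algebra.IsCentral K (Matrix (Fin n) (Fin n) D)) : Algebra.IsCentral K D where
  out := by
    intro x hx
    rw [Subalgebra.mem_center_iff] at hx
    have h1 : Matrix.scalar (Fin n) x ∈ Subalgebra.center K (Matrix (Fin n) (Fin n) D) := by
      rw [Subalgebra.mem_center_iff]
      intro M
      ext i j
      simp only [Matrix.scalar_apply, Matrix.mul_diagonal, Matrix.diagonal_mul]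
      exact hx _
    rw [h.center_eq_bot] at h1
    obtain ⟨c, hc⟩ := h1
    refine ⟨c, ?_⟩
    have := congrFun (congrFun hc 0) 0
    rw [Matrix.scalar_apply, Matrix.diagonal_apply_eq] at this
    rw [← this]
    show algebraMap K D c = (algebraMap K (Matrix (Fin n) (Fin n) D) c) 0 0
    rw [Matrix.algebraMap_matrix_apply, if_pos rfl]

universe u

variable (K D : Type u) [Field K] [DivisionRing D] [Algebra K D]

/-- Splitting over the separable closure. -/
theorem split16 (K' : Type u) [Field K'] [Algebra K K'] [IsSepClosed K'] [Algebra.IsCentral K D]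
    (h16 : finrank K D = 16) :
    Nonempty (K' ⊗[K] D ≃ₐ[K'] Matrix (Fin 4) (Fin 4) K') := by
  have hfin : FiniteDimensional K D := FiniteDimensional.of_finrank_pos (by omega)
  have hs := simple_bc K K' D
  have hc := central_bc K K' D
  have hart : IsArtinianRing (K' ⊗[K] D) := IsArtinianRing.of_finite K' _
  obtain ⟨n, hn, D', _, _, _, ⟨e⟩⟩ :=
    IsSimpleRing.exists_algEquiv_matrix_divisionRing_finite K' (K' ⊗[K] D)
  have hcM : Algebra.IsCentral K' (Matrix (Fin n) (Fin n) D') := Algebra.IsCentral.of_algEquiv _ _ _ e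
  have hcD : Algebra.IsCentral K' D' := central_of_matrix hcM
  have hb := sep_trivial K' D'
  let e2 : K' ≃ₐ[K'] D' := AlgEquiv.ofBijective (Algebra.ofId K' D') hb
  let e3 : K' ⊗[K] D ≃ₐ[K'] Matrix (Fin n) (Fin n) K' := e.trans e2.symm.mapMatrix
  have h1 := e3.toLinearEquiv.finrank_eq
  rw [Module.finrank_baseChange, h16, Module.finrank_matrix] at h1
  simp only [Fintype.card_fin, finrank_self, mul_one] at h1
  have h4 : n = 4 := by
    have : n ≤ 4 := by
      by_contra hcon
      have : 5 ≤ n := by omega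
      nlinarith
    interval_cases n <;> omega
  subst h4
  exact ⟨e3⟩

end split

end helper53.ED
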