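import Mathlib
import Pool.Agent.helper53.ED.BC
import Pool.Agent.helper53.ED.CrossRC

namespace helper53.ED

open Module Polynomial
open scoped TensorProduct

section inner

variable {H : Type*} [Field H] {n : Type*} [Fintype n] [DecidableEq n]

theorem charpoly_aut (f : Matrix n n H ≃ₐ[H] Matrix n n H) (M : Matrix n n H) :
    (f M).charpoly = M.charpoly := by
  let g : End H (n → H) ≃ₐ[H] End H (n → H) :=
    (Matrix.toLinAlgEquiv' (R := H) (n := n)).symm.trans (f.trans Matrix.toLinAlgEquiv')
  obtain ⟨T, hT⟩ := AlgEquiv.eq_linearEquivConjAlgEquiv g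
  have h1 : g (Matrix.toLin' M) = Matrix.toLin' (f M) := by
    show Matrix.toLinAlgEquiv' (f (Matrix.toLinAlgEquiv'.symm (Matrix.toLinAlgEquiv' M))) = _
    rw [AlgEquiv.symm_apply_apply]
    rfl
  have h2 : g (Matrix.toLin' M) = T.conj (Matrix.toLin' M) := by
    rw [hT]; rfl
  rw [← Matrix.charpoly_toLin' (f M), ← h1, h2, LinearEquiv.charpoly_conj, Matrix.charpoly_toLin']

end inner

section descent

variable {K D : Type*} [Field K] [Ring D] [Algebra K D] {H : Type*} [Field H] [Algebra K H]
  (e : H ⊗[K] D ≃ₐ[H] Matrix (Fin 4) (Fin 4) H)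

/-- the representation -/
noncomputable def rho : D →ₐ[K] Matrix (Fin 4) (Fin 4) H :=
  ((e : H ⊗[K] D →ₐ[H] Matrix (Fin 4) (Fin 4) H).restrictScalars K).comp
    Algebra.TensorProduct.includeRight

theorem rho_apply (d : D) : rho e d = e (1 ⊗ₜ d) := rfl

theorem charpoly_gal (g : H ≃ₐ[K] H) (d : D) :
    (rho e d).charpoly.map (g : H →+* H) = (rho e d).charpoly := by
  rw [← Matrix.charpoly_map]
  let R2 : H ⊗[K] D ≃+* H ⊗[K] D :=
    (Algebra.TensorProduct.congr g.symm (AlgEquiv.refl : D ≃ₐ[K] D)).toRingEquiv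
  let R4 : Matrix (Fin 4) (Fin 4) H ≃+* Matrix (Fin 4) (Fin 4) H := g.toRingEquiv.mapMatrix
  let f0 : Matrix (Fin 4) (Fin 4) H ≃+* Matrix (Fin 4) (Fin 4) H :=
    (e.symm.toRingEquiv.trans R2).trans (e.toRingEquiv.trans R4)
  have hf0 : ∀ c : H, f0 (algebraMap H _ c) = algebraMap H _ c := by
    intro c
    have h1 : e.symm (algebraMap H _ c) = algebraMap H _ c := e.symm.commutes c
    have h2 : R2 (algebraMap H _ c) = algebraMap H (H ⊗[K] D) (g.symm c) := by
      show (Algebra.TensorProduct.congr g.symm (AlgEquiv.refl : D ≃ₐ[K] D)) (c ⊗ₜ 1) = _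
      simp
    have h3 : e (algebraMap H _ (g.symm c)) = algebraMap H _ (g.symm c) := e.commutes _
    show R4 (e (R2 (e.symm (algebraMap H _ c)))) = _
    rw [h1, h2, h3]
    ext i j
    show g ((algebraMap H (Matrix (Fin 4) (Fin 4) H) (g.symm c)) i j) = _
    rw [Matrix.algebraMap_matrix_apply, Matrix.algebraMap_matrix_apply]
    split_ifs <;> simp
  let f : Matrix (Fin 4) (Fin 4) H ≃ₐ[H] Matrix (Fin 4) (Fin 4) H := AlgEquiv.ofRingEquiv hf0
  have h4 : f (rho e d) = (rho e d).map (g : H →+* H) := by
    show R4 (e (R2 (e.symm (e (1 ⊗ₜ d))))) = _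
    rw [AlgEquiv.symm_apply_apply]
    have : R2 (1 ⊗ₜ d) = 1 ⊗ₜ d := by
      show (Algebra.TensorProduct.congr g.symm (AlgEquiv.refl : D ≃ₐ[K] D)) (1 ⊗ₜ d) = _
      simp
    rw [this]
    rfl
  rw [← h4, charpoly_aut]

theorem charpoly_coeff_mem [IsGalois K H] (d : D) (i : ℕ) :
    ∃ c : K, algebraMap K H c = (rho e d).charpoly.coeff i := by
  have h1 : (rho e d).charpoly.coeff i ∈ (⊥ : IntermediateField K H) := by
    rw [InfiniteGalois.mem_bot_iff_fixed]
    intro g
    have h2 := congrArg (fun p => Polynomial.coeff p i) (charpoly_gal e g d)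
    simp only [coeff_map] at h2
    exact h2
  exact IntermediateField.mem_bot.mp h1

end descent

section rc

variable {F K D : Type*} [Field F] [Field K] [Algebra F K] [DivisionRing D] [Algebra K D]
  {H : Type*} [Field H] [Algebra K H] (ρ : D →ₐ[K] Matrix (Fin 4) (Fin 4) H)
  (hρ : ∀ d i, ∃ c : K, algebraMap K H c = (ρ d).charpoly.coeff i)

include hρ in
theorem ex_cp (d : D) : ∃ q : K[X], q.map (algebraMap K H) = (ρ d).charpoly := by
  have : (ρ d).charpoly ∈ Polynomial.lifts (algebraMap K H) := by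
    rw [Polynomial.lifts_iff_coeff_lifts]
    intro n
    exact hρ d n
  exact this

/-- reduced characteristic polynomial -/
noncomputable def gcp (d : D) : K[X] := (ex_cp ρ hρ d).choose

theorem gcp_map (d : D) : (gcp ρ hρ d).map (algebraMap K H) = (ρ d).charpoly :=
  (ex_cp ρ hρ d).choose_spec

theorem gcp_coeff (d : D) (i : ℕ) :
    algebraMap K H ((gcp ρ hρ d).coeff i) = (ρ d).charpoly.coeff i := by
  rw [← coeff_map, gcp_map]

theorem coeff3 (M : Matrix (Fin 4) (Fin 4) H) : M.charpoly.coeff 3 = -M.trace := by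
  rw [Matrix.trace_eq_neg_charpoly_coeff]
  simp

/-- Reduced characteristic polynomials from a splitting. -/
noncomputable def rcOf : RC F K D where
  tr :=
    { toFun := fun d => (gcp ρ hρ d).coeff 3
      map_add' := by
        intro x y
        apply (algebraMap K H).injective
        rw [map_add, gcp_coeff, gcp_coeff, gcp_coeff, coeff3, coeff3, coeff3, map_add,
          Matrix.trace_add]
        ring
      map_smul' := by
        intro c x
        apply (algebraMap K H).injective
        rw [RingHom.id_apply, smul_eq_mul, map_mul, gcp_coeff, gcp_coeff, coeff3, coeff3, map_smul,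
          Matrix.trace_smul, Algebra.smul_def]
        ring }
  tr_comm := by
    intro x y
    apply (algebraMap K H).injective
    show algebraMap K H ((gcp ρ hρ (x * y)).coeff 3) = algebraMap K H ((gcp ρ hρ (y * x)).coeff 3)
    rw [gcp_coeff, gcp_coeff, coeff3, coeff3, map_mul, map_mul, Matrix.trace_mul_comm]
  cp := gcp ρ hρ
  monic := by
    intro d
    have h := Matrix.charpoly_monic (ρ d)
    rw [← gcp_map ρ hρ d] at h
    exact Polynomial.monic_of_injective (algebraMap K H).injective h
  deg := by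
    intro d
    have h := Matrix.charpoly_natDegree_eq_dim (ρ d)
    rw [← gcp_map ρ hρ d, Polynomial.natDegree_map] at h
    rw [h]
    rfl
  aeval_cp := by
    intro d
    apply ρ.toRingHom.injective
    have h1 := Matrix.aeval_self_charpoly (ρ d)
    rw [← gcp_map ρ hρ d, aeval_map_algebraMap] at h1
    have h2 := Polynomial.aeval_algHom_apply ρ d (gcp ρ hρ d)
    show ρ _ = ρ 0
    rw [← h2, h1, map_zero]
  cp3 := fun _ => rfl
  cp1 := by
    intro d hd h
    apply (algebraMap K H).injective
    have h1 : algebraMap K H ((gcp ρ hρ d⁻¹).coeff 3) = 0 := by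
      have : (gcp ρ hρ d⁻¹).coeff 3 = 0 := h
      rw [this, map_zero]
    rw [gcp_coeff] at h1
    rw [gcp_coeff, map_zero]
    have h2 : ρ d * ρ d⁻¹ = 1 := by rw [← map_mul, mul_inv_cancel₀ hd, map_one]
    have h3 : (ρ d)⁻¹ = ρ d⁻¹ := Matrix.inv_eq_right_inv h2
    have hu : IsUnit (ρ d) := IsUnit.of_mul_eq_one _ h2
    have h4 := Matrix.charpoly_inv (ρ d) hu
    rw [h3] at h4
    have hdet : (ρ d).det ≠ 0 := by
      intro h0
      have := congrArg Matrix.det h2
      rw [Matrix.det_mul, h0, zero_mul, Matrix.det_one] at this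
      exact zero_ne_one this
    rw [h4, ← Matrix.reverse_charpoly] at h1
    have e5 : ((-1 : H[X]) ^ Fintype.card (Fin 4) * C (Ring.inverse (ρ d).det)) =
        C ((-1) ^ Fintype.card (Fin 4) * (ρ d).det⁻¹) := by
      rw [Ring.inverse_eq_inv', map_mul, map_pow, map_neg, C_1]
    rw [e5, coeff_C_mul, Polynomial.coeff_reverse, Matrix.charpoly_natDegree_eq_dim] at h1
    have h6 := (mul_eq_zero.mp h1).resolve_left (mul_ne_zero (pow_ne_zero _ (by simp))
      (inv_ne_zero hdet))
    have h7 : Polynomial.revAt (Fintype.card (Fin 4)) 3 = 1 := by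
      rw [Polynomial.revAt_le (by decide)]
      rfl
    rw [h7] at h6
    exact h6
  alg := by
    intro L d hd i
    have h1 : IsIntegral L (ρ d) := hd.map (ρ.restrictScalars L)
    have h2 := charpoly_integral (L := L) (ρ d) h1 i
    rw [← gcp_coeff ρ hρ] at h2
    exact (isIntegral_algebraMap_iff (algebraMap K H).injective).mp h2

end rc

universe u

/-- Every central division algebra of dimension 16 has reduced characteristic polynomials. -/
theorem exists_rc (F K D : Type u) [Field F] [Field K] [Algebra F K] [DivisionRing D] [Algebra K D]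
    [Algebra.IsCentral K D] (h16 : finrank K D = 16) : Nonempty (RC F K D) := by
  obtain ⟨e⟩ := split16 K D (SeparableClosure K) h16
  exact ⟨rcOf (rho e) (charpoly_coeff_mem e)⟩

end helper53.ED
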