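import Mathlib
import Pool.Agent.helper53.ED.SepRC

namespace helper53.ED

open Module Polynomial

section

variable {K D : Type*} [Field K] [DivisionRing D] [Algebra K D] [CharP K 2] (r : RC K K D)

omit [CharP K 2] in
theorem rc_rel (d : D) : d * d * (d * d) + (r.cp d).coeff 3 • (d * d * d) +
    (r.cp d).coeff 2 • (d * d) + (r.cp d).coeff 1 • d + (r.cp d).coeff 0 • (1 : D) = 0 := by
  have e4 : (r.cp d).coeff 4 = 1 := by
    have := r.monic d
    rw [Polynomial.Monic, Polynomial.leadingCoeff, r.deg] at this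
    exact this
  have h := r.aeval_cp d
  rw [Polynomial.aeval_eq_sum_range, r.deg] at h
  simp only [Finset.sum_range_succ, Finset.range_zero, Finset.sum_empty, e4,
    zero_add, pow_zero, one_smul, pow_one] at h
  have e : d * d * (d * d) = d ^ 4 := by noncomm_ring
  have e2 : d * d * d = d ^ 3 := by noncomm_ring
  have e3 : d * d = d ^ 2 := by noncomm_ring
  rw [e, e2, e3, ← h]
  abel

omit [CharP K 2] in
theorem mem_K_of_comm [Algebra.IsCentral K D] {y : D} (h : ∀ x : D, x * y = y * x) :
    ∃ c : K, y = algebraMap K D c := by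
  have h2 : y ∈ Subalgebra.center K D := by
    rw [Subalgebra.mem_center_iff]
    exact h
  rw [Algebra.IsCentral.center_eq_bot] at h2
  obtain ⟨c, hc⟩ := h2
  exact ⟨c, hc.symm⟩

omit [CharP K 2] in
/-- Scaling a quadratic relation to Artin–Schreier form. -/
theorem as_scale {m : D} {c1 c0 : K} (hc : c1 ≠ 0) (h : m * m + c1 • m + c0 • (1 : D) = 0) :
    ∃ b : K, (c1⁻¹ • m) * (c1⁻¹ • m) + c1⁻¹ • m = algebraMap K D b := by
  refine ⟨-(c1⁻¹ * c1⁻¹ * c0), ?_⟩
  have h1 : m * m = -(c1 • m + c0 • (1 : D)) := by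
    rw [add_assoc] at h
    exact eq_neg_of_add_eq_zero_left h
  rw [smul_mul_smul_comm, h1, smul_neg, smul_add, smul_smul, smul_smul, mul_assoc c1⁻¹ c1⁻¹ c1,
    inv_mul_cancel₀ hc, mul_one, map_neg, Algebra.algebraMap_eq_smul_one]
  abel

include r in
/-- Existence of an Artin–Schreier element. -/
theorem gen_step1 [Algebra.IsCentral K D] (h16 : finrank K D = 16) :
    ∃ α : D, (∀ c : K, α ≠ algebraMap K D c) ∧ ∃ a : K, α * α + α = algebraMap K D a := by
  have h2 : (2 : D) = 0 := two_eq K D
  have aa : ∀ x : D, x + x = 0 := fun x => add_self_eq K x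
  obtain ⟨d, hdK, htr, htr'⟩ : ∃ d : D, (∀ c : K, d ≠ algebraMap K D c) ∧ r.tr d = 0 ∧
      r.tr d⁻¹ = 0 := by
    have hL : ∀ x : K, IsIntegral (⊤ : IntermediateField K K) x → x ∈ (⊤ : IntermediateField K K) :=
      fun _ _ => trivial
    have h16' : finrank (⊤ : IntermediateField K K) (⊤ : Subalgebra (⊤ : IntermediateField K K) D)
        = 16 := by
      rw [← h16]
      exact Algebra.finrank_eq_of_equiv_equiv
        (IntermediateField.topEquiv (F := K) (E := K)).toRingEquiv
        (Subalgebra.topEquiv (R := (⊤ : IntermediateField K K)) (A := D)).toRingEquiv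
        (by ext x; rfl)
    obtain ⟨d, _, h⟩ := albert1 r hL h16'
    exact ⟨d, h⟩
  have hd0 : d ≠ 0 := fun h => hdK 0 (by rw [h, map_zero])
  have e3 := r.cp3 d
  rw [htr] at e3
  have e1 := r.cp1 d hd0 htr'
  have hrel := rc_rel r d
  rw [e3, e1, zero_smul, zero_smul, add_zero, add_zero] at hrel
  by_cases hA : (r.cp d).coeff 2 ≠ 0 ∧ ∀ c : K, d * d ≠ algebraMap K D c
  · refine ⟨((r.cp d).coeff 2)⁻¹ • (d * d), ?_, as_scale hA.1 hrel⟩
    intro c hc
    apply hA.2 ((r.cp d).coeff 2 * c)
    rw [map_mul, ← hc, ← Algebra.smul_def, smul_smul, mul_inv_cancel₀ hA.1, one_smul]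
  obtain ⟨e, heK, k, hk⟩ : ∃ e : D, (∀ c : K, e ≠ algebraMap K D c) ∧ ∃ k : K,
      e * e = algebraMap K D k := by
    by_cases hB : ∃ c : K, d * d = algebraMap K D c
    · obtain ⟨c, hc⟩ := hB
      exact ⟨d, hdK, c, hc⟩
    · push Not at hB
      have hc2 : (r.cp d).coeff 2 = 0 := by
        by_contra hne
        exact hA ⟨hne, hB⟩
      refine ⟨d * d, hB, -(r.cp d).coeff 0, ?_⟩
      rw [hc2, zero_smul, add_zero] at hrel
      rw [map_neg, Algebra.algebraMap_eq_smul_one]
      exact eq_neg_of_add_eq_zero_left hrel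
  have hkc : ∀ x : D, x * (e * e) = (e * e) * x := fun x => by
    rw [hk]; exact (Algebra.commutes k x).symm
  have he0 : e ≠ 0 := fun h => heK 0 (by rw [h, map_zero])
  obtain ⟨x, hx⟩ : ∃ x : D, x * e ≠ e * x := by
    by_contra hcon
    push Not at hcon
    obtain ⟨c, hc⟩ := mem_K_of_comm (K := K) hcon
    exact heK c hc
  set c := e * x + x * e with hc
  have hc0 : c ≠ 0 := by
    intro h
    apply hx
    have h4 := h.trans (aa (x * e)).symm
    exact (add_right_cancel h4).symm
  have hce : c * e = e * c := by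
    rw [hc, add_mul, mul_add, mul_assoc x e e, hkc x]
    noncomm_ring
  have hce' : c⁻¹ * e = e * c⁻¹ := by
    have : c * (c⁻¹ * e) = c * (e * c⁻¹) := by
      rw [← mul_assoc, mul_inv_cancel₀ hc0, one_mul, ← mul_assoc, hce, mul_assoc,
        mul_inv_cancel₀ hc0, mul_one]
    exact mul_left_cancel₀ hc0 this
  set y := x * (c⁻¹ * e) with hy
  have hey : e * y = (y + 1) * e := by
    have h5 : e * y + y * e = e := by
      have : e * y + y * e = c * c⁻¹ * e := by
        rw [hy, hc]
        have : x * (c⁻¹ * e) * e = x * e * (c⁻¹ * e) := by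
          rw [hce']; simp only [mul_assoc]; rw [hce']
        rw [← hc, this]
        rw [hc]; noncomm_ring
      rw [this, mul_inv_cancel₀ hc0, one_mul]
    rw [add_mul, one_mul]
    have h6 : e * y + y * e + y * e = e + y * e := by rw [h5]
    rw [add_assoc, aa, add_zero] at h6
    rw [h6]; abel
  have hyK : ∀ c : K, y ≠ algebraMap K D c := by
    intro c' hc'
    rw [hc', ← Algebra.commutes, add_mul, one_mul, left_eq_add] at hey
    exact he0 hey
  -- quartic relation
  have R := rc_rel r y
  set c3 := (r.cp y).coeff 3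
  set c2 := (r.cp y).coeff 2
  set c1 := (r.cp y).coeff 1
  set c0 := (r.cp y).coeff 0
  have R' : (y + 1) * (y + 1) * ((y + 1) * (y + 1)) + c3 • ((y + 1) * (y + 1) * (y + 1)) +
      c2 • ((y + 1) * (y + 1)) + c1 • (y + 1) + c0 • (1 : D) = 0 := by
    have e2 : e * (y * y) = (y + 1) * (y + 1) * e := by
      rw [← mul_assoc, hey, mul_assoc, hey, mul_assoc]
    have e3 : e * (y * y * y) = (y + 1) * (y + 1) * (y + 1) * e := by
      rw [← mul_assoc, e2, mul_assoc, hey, mul_assoc, mul_assoc]
      noncomm_ring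
    have e4 : e * (y * y * (y * y)) = (y + 1) * (y + 1) * ((y + 1) * (y + 1)) * e := by
      rw [← mul_assoc, e2, mul_assoc, e2, mul_assoc]
      noncomm_ring
    have h5 : ((y + 1) * (y + 1) * ((y + 1) * (y + 1)) + c3 • ((y + 1) * (y + 1) * (y + 1)) +
      c2 • ((y + 1) * (y + 1)) + c1 • (y + 1) + c0 • (1 : D)) * e = 0 := by
      have h6 : e * (y * y * (y * y) + c3 • (y * y * y) + c2 • (y * y) + c1 • y + c0 • (1 : D)) =
          0 := by rw [R, mul_zero]
      rw [← h6]
      simp only [add_mul _ _ e, mul_add e, mul_smul_comm, smul_mul_assoc, e2, e3, e4, hey, one_mul,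
        mul_one]
    exact (mul_eq_zero.mp h5).resolve_right he0
  have S : (1 : D) + c3 • (y * y + y + 1) + c2 • (1 : D) + c1 • (1 : D) = 0 := by
    have h7 : ((y + 1) * (y + 1) * ((y + 1) * (y + 1)) + c3 • ((y + 1) * (y + 1) * (y + 1)) +
      c2 • ((y + 1) * (y + 1)) + c1 • (y + 1) + c0 • (1 : D)) -
      (y * y * (y * y) + c3 • (y * y * y) + c2 • (y * y) + c1 • y + c0 • (1 : D)) = 0 := by
      rw [R, R', sub_zero]
    have i4 : (y + 1) * (y + 1) * ((y + 1) * (y + 1)) = y * y * (y * y) + 1 := by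
      have : (y + 1) * (y + 1) * ((y + 1) * (y + 1)) = y * y * (y * y) + 1 +
          2 * (2 * (y * y * y) + 3 * (y * y) + 2 * y) := by noncomm_ring
      rw [this, h2, zero_mul, add_zero]
    have i3 : (y + 1) * (y + 1) * (y + 1) = y * y * y + (y * y + y + 1) := by
      have : (y + 1) * (y + 1) * (y + 1) = y * y * y + (y * y + y + 1) + 2 * (y * y + y) := by
        noncomm_ring
      rw [this, h2, zero_mul, add_zero]
    have i2 : (y + 1) * (y + 1) = y * y + 1 := by
      have : (y + 1) * (y + 1) = y * y + 1 + 2 * y := by noncomm_ring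
      rw [this, h2, zero_mul, add_zero]
    rw [i4, i3, i2] at h7
    rw [← h7]
    simp only [smul_add]
    abel
  by_cases hc3 : c3 = 0
  swap
  · refine ⟨y, hyK, -(c3⁻¹ * (1 + c3 + c2 + c1)), ?_⟩
    have h8 : c3 • (y * y + y) = -((1 + c3 + c2 + c1) • (1 : D)) := by
      rw [smul_add] at S
      apply eq_neg_of_add_eq_zero_left
      rw [← S]
      simp only [add_smul, one_smul]
      abel
    have h9 : y * y + y = c3⁻¹ • (c3 • (y * y + y)) := by
      rw [smul_smul, inv_mul_cancel₀ hc3, one_smul]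
    rw [h9, h8, smul_neg, smul_smul, map_neg, Algebra.algebraMap_eq_smul_one]
  rw [hc3, zero_smul, add_zero] at S R
  have hc1 : c1 = -(1 + c2) := by
    have h10 : (1 + c2 + c1) • (1 : D) = 0 := by
      rw [← S]; simp only [add_smul, one_smul]
    have h11 := (smul_eq_zero.mp h10).resolve_right one_ne_zero
    exact eq_neg_of_add_eq_zero_right h11
  have hneg : ∀ z : K, -z = z := fun z => by
    have : z + z = 0 := add_self_eq K z
    exact neg_eq_of_add_eq_zero_left this
  rw [hneg] at hc1
  set m := y * y + y with hm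
  have hmrel : m * m + c1 • m + c0 • (1 : D) = 0 := by
    have i5 : m * m = y * y * (y * y) + y * y := by
      have : m * m = y * y * (y * y) + y * y + 2 * (y * y * y) := by rw [hm]; noncomm_ring
      rw [this, h2, zero_mul, add_zero]
    rw [i5, hm, ← R]
    have i6 : c2 • (y * y) = y * y + c1 • (y * y) := by
      rw [hc1, add_smul, one_smul, ← add_assoc, aa, zero_add]
    rw [i6, smul_add]
    abel
  by_cases hmK : ∃ c : K, m = algebraMap K D c
  · exact ⟨y, hyK, hmK⟩
  push Not at hmK
  by_cases hc10 : c1 = 0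
  · refine ⟨y * y, ?_, -c0, ?_⟩
    · intro k' hk'
      have h12 : e * (y * y) = (y + 1) * (y + 1) * e := by
        rw [← mul_assoc, hey, mul_assoc, hey, mul_assoc]
      have i2 : (y + 1) * (y + 1) = y * y + 1 := by
        have : (y + 1) * (y + 1) = y * y + 1 + 2 * y := by noncomm_ring
        rw [this, h2, zero_mul, add_zero]
      rw [i2, hk', ← Algebra.commutes, add_mul, one_mul, left_eq_add] at h12
      exact he0 h12
    · rw [hc10, zero_smul, add_zero] at hmrel
      have i5 : m * m = y * y * (y * y) + y * y := by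
        have : m * m = y * y * (y * y) + y * y + 2 * (y * y * y) := by rw [hm]; noncomm_ring
        rw [this, h2, zero_mul, add_zero]
      rw [← i5, map_neg, Algebra.algebraMap_eq_smul_one]
      exact eq_neg_of_add_eq_zero_left hmrel
  · refine ⟨c1⁻¹ • m, ?_, as_scale hc10 hmrel⟩
    intro c hc
    apply hmK (c1 * c)
    rw [map_mul, ← hc, ← Algebra.smul_def, smul_smul, mul_inv_cancel₀ hc10, one_smul]

omit [CharP K 2] in
/-- Vandermonde extraction of the linear coefficient. -/
theorem vdm3 {V : Type*} [AddCommGroup V] [Module K V] (W : Submodule K V) [Infinite K]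
    {X1 X2 X3 : V} (h : ∀ l : K, l • X1 + (l * l) • X2 + (l * l * l) • X3 ∈ W) : X1 ∈ W := by
  -- choose three distinct nonzero scalars
  have hinf : ∀ s : Finset K, ∃ x, x ∉ s := fun s => Infinite.exists_notMem_finset s
  classical
  obtain ⟨p, hp⟩ := hinf {0}
  obtain ⟨q, hq⟩ := hinf {0, p}
  obtain ⟨t, ht⟩ := hinf {0, p, q}
  simp only [Finset.mem_singleton, Finset.mem_insert, not_or] at hp hq ht
  have P := h p
  have Q := h q
  have T := h t
  -- divide by the scalar
  have P1 : X1 + p • X2 + (p * p) • X3 ∈ W := by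
    have := W.smul_mem p⁻¹ P
    rw [smul_add, smul_add, smul_smul, smul_smul, smul_smul, inv_mul_cancel₀ hp, one_smul,
      ← mul_assoc, inv_mul_cancel₀ hp, one_mul, mul_assoc p p p, ← mul_assoc, inv_mul_cancel₀ hp,
      one_mul] at this
    exact this
  have Q1 : X1 + q • X2 + (q * q) • X3 ∈ W := by
    have := W.smul_mem q⁻¹ Q
    rw [smul_add, smul_add, smul_smul, smul_smul, smul_smul, inv_mul_cancel₀ hq.1, one_smul,
      ← mul_assoc, inv_mul_cancel₀ hq.1, one_mul, mul_assoc q q q, ← mul_assoc,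
      inv_mul_cancel₀ hq.1, one_mul] at this
    exact this
  have T1 : X1 + t • X2 + (t * t) • X3 ∈ W := by
    have := W.smul_mem t⁻¹ T
    rw [smul_add, smul_add, smul_smul, smul_smul, smul_smul, inv_mul_cancel₀ ht.1, one_smul,
      ← mul_assoc, inv_mul_cancel₀ ht.1, one_mul, mul_assoc t t t, ← mul_assoc,
      inv_mul_cancel₀ ht.1, one_mul] at this
    exact this
  have hqp : q - p ≠ 0 := sub_ne_zero.mpr hq.2
  have htp : t - p ≠ 0 := sub_ne_zero.mpr ht.2.1
  have htq : t - q ≠ 0 := sub_ne_zero.mpr ht.2.2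
  have Q2 : X2 + (q + p) • X3 ∈ W := by
    have := W.smul_mem (q - p)⁻¹ (W.sub_mem Q1 P1)
    have e : (q - p)⁻¹ • (X1 + q • X2 + (q * q) • X3 - (X1 + p • X2 + (p * p) • X3)) =
        X2 + (q + p) • X3 := by
      have : (X1 + q • X2 + (q * q) • X3 - (X1 + p • X2 + (p * p) • X3)) =
          (q - p) • (X2 + (q + p) • X3) := by
        module
      rw [this, smul_smul, inv_mul_cancel₀ hqp, one_smul]
    rwa [e] at this
  have T2 : X2 + (t + p) • X3 ∈ W := by
    have := W.smul_mem (t - p)⁻¹ (W.sub_mem T1 P1)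
    have e : (t - p)⁻¹ • (X1 + t • X2 + (t * t) • X3 - (X1 + p • X2 + (p * p) • X3)) =
        X2 + (t + p) • X3 := by
      have : (X1 + t • X2 + (t * t) • X3 - (X1 + p • X2 + (p * p) • X3)) =
          (t - p) • (X2 + (t + p) • X3) := by
        module
      rw [this, smul_smul, inv_mul_cancel₀ htp, one_smul]
    rwa [e] at this
  have X3W : X3 ∈ W := by
    have := W.smul_mem (t - q)⁻¹ (W.sub_mem T2 Q2)
    have e : (t - q)⁻¹ • (X2 + (t + p) • X3 - (X2 + (q + p) • X3)) = X3 := by
      have : (X2 + (t + p) • X3 - (X2 + (q + p) • X3)) = (t - q) • X3 := by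
        module
      rw [this, smul_smul, inv_mul_cancel₀ htq, one_smul]
    rwa [e] at this
  have X2W : X2 ∈ W := by
    have := W.sub_mem Q2 (W.smul_mem (q + p) X3W)
    rwa [add_sub_cancel_right] at this
  have := W.sub_mem (W.sub_mem P1 (W.smul_mem (p * p) X3W)) (W.smul_mem p X2W)
  rwa [add_sub_cancel_right, add_sub_cancel_right] at this

section dec
omit [CharP K 2]

/-- Decomposition with respect to an Artin–Schreier element. -/
theorem as_dec (h2 : (2 : D) = 0) {α a w : D} (ha : α * α + α = a) (hac : ∀ x, a * x = x * a)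
    (hw : w * α = (α + 1) * w) (hw0 : w ≠ 0) (x : D) :
    ∃ p q : D, p * α = α * p ∧ q * α = α * q ∧ x = p + q * w := by
  have aa : ∀ x : D, x + x = 0 := fun x => by rw [← two_mul, h2, zero_mul]
  have h3 := as1 h2 ha (hac x)
  have e : w * (α + 1) = α * w := by
    rw [mul_add, hw, mul_one, add_mul, one_mul, add_assoc, aa, add_zero]
  have h4 : w⁻¹ * α = (α + 1) * w⁻¹ := by
    have : w * (w⁻¹ * α) = w * ((α + 1) * w⁻¹) := by
      rw [← mul_assoc, mul_inv_cancel₀ hw0, one_mul, ← mul_assoc, e, mul_assoc,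
        mul_inv_cancel₀ hw0, mul_one]
    exact mul_left_cancel₀ hw0 this
  refine ⟨α * x + x * α + x, (α * x + x * α) * w⁻¹, as2 ha (hac x), as3 h2 h3 h4, ?_⟩
  rw [mul_assoc, inv_mul_cancel₀ hw0, mul_one]
  have : α * x + x * α + x + (α * x + x * α) = x + 2 * (α * x + x * α) := by noncomm_ring
  rw [this, h2, zero_mul, add_zero]

/-- the product of a centralizing element with a skew element is skew -/
theorem skew_mul {α q v : D} (hq : q * α = α * q) (hv : v * α = (α + 1) * v) :
    q * v * α = (α + 1) * (q * v) := by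
  have e : q * (α + 1) = (α + 1) * q := by rw [mul_add, hq, mul_one, add_mul, one_mul]
  rw [mul_assoc, hv, ← mul_assoc, e, mul_assoc]

theorem inv_comm {h x : D} (hh0 : h ≠ 0) (hx : h * x = x * h) : h⁻¹ * x = x * h⁻¹ := by
  have : h * (h⁻¹ * x) = h * (x * h⁻¹) := by
    rw [← mul_assoc, mul_inv_cancel₀ hh0, one_mul, ← mul_assoc, hx, mul_assoc,
      mul_inv_cancel₀ hh0, mul_one]
  exact mul_left_cancel₀ hh0 this

end dec

/-- Existence of a good skew element. -/
theorem gen_step2 [Algebra.IsCentral K D] (h16 : finrank K D = 16) {α : D}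
    (hα : ∀ c : K, α ≠ algebraMap K D c) (ha : ∃ a : K, α * α + α = algebraMap K D a) :
    ∃ w : D, w ≠ 0 ∧ w * α = (α + 1) * w ∧ ∀ c : K, w * w * (w * w) ≠ algebraMap K D c := by
  have hfin : FiniteDimensional K D := FiniteDimensional.of_finrank_pos (by omega)
  have h2 : (2 : D) = 0 := two_eq K D
  have aa : ∀ x : D, x + x = 0 := fun x => add_self_eq K x
  obtain ⟨a, ha⟩ := ha
  have hac : ∀ x, algebraMap K D a * x = x * algebraMap K D a := fun x => Algebra.commutes a x
  obtain ⟨x0, hx0⟩ : ∃ x : D, x * α ≠ α * x := by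
    by_contra hcon
    push Not at hcon
    obtain ⟨c, hc⟩ := mem_K_of_comm (K := K) hcon
    exact hα c hc
  have hinf : Infinite K := by
    by_contra hcon
    rw [not_infinite_iff_finite] at hcon
    have hfD : Finite D := Module.finite_of_finite K
    exact hx0 ((littleWedderburn D).mul_comm x0 α)
  let W : Submodule K D := LinearMap.range (Algebra.linearMap K D)
  have hW : ∀ x, x ∈ W ↔ ∃ c : K, x = algebraMap K D c := by
    intro x
    constructor
    · rintro ⟨c, hc⟩; exact ⟨c, hc.symm⟩
    · rintro ⟨c, hc⟩; exact ⟨c, hc.symm⟩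
  by_contra hcon
  push Not at hcon
  have hcon' : ∀ w : D, w * α = (α + 1) * w → w * w * (w * w) ∈ W := by
    intro w hw
    by_cases hw0 : w = 0
    · rw [hw0]; simp
    · rw [hW]; exact hcon w hw0 hw
  obtain ⟨w, hw0, hwα⟩ : ∃ w : D, w ≠ 0 ∧ w * α = (α + 1) * w := by
    refine ⟨α * x0 + x0 * α, ?_, as1 h2 ha (hac x0)⟩
    intro h
    apply hx0
    have h4 := h.trans (aa (x0 * α)).symm
    exact (add_right_cancel h4).symm
  -- all squares are in K
  have hsq : ∀ v : D, v ≠ 0 → v * α = (α + 1) * v → v * v ∈ W := by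
    intro v hv0 hv
    rw [hW]
    by_contra hcon2
    push Not at hcon2
    set e := v * v with he
    have heα : e * α = α * e := as4 h2 hv
    have hev : e * v = v * e := by rw [he, mul_assoc]
    have hee : e * e ∈ W := hcon' v hv
    obtain ⟨k, he2⟩ := (hW _).mp hee
    have hkc : ∀ x : D, x * (e * e) = (e * e) * x := fun x => by
      rw [he2]; exact (Algebra.commutes k x).symm
    have he0 : e ≠ 0 := fun h => hcon2 0 (by rw [h, map_zero])
    -- e does not commute with the centralizer
    obtain ⟨c0, hc0α, hc0e⟩ : ∃ c0 : D, c0 * α = α * c0 ∧ c0 * e ≠ e * c0 := by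
      by_contra hcon3
      push Not at hcon3
      obtain ⟨c, hc⟩ := mem_K_of_comm (K := K) (y := e) (by
        intro x
        obtain ⟨p, q, hp, hq, rfl⟩ := as_dec h2 ha hac hv hv0 x
        rw [add_mul, mul_add, hcon3 p hp, mul_assoc q v e, ← hev, ← mul_assoc q e v, hcon3 q hq,
          mul_assoc e q v])
      exact hcon2 c hc
    set h := e * c0 + c0 * e with hh
    have hh0 : h ≠ 0 := by
      intro h0
      apply hc0e
      have h4 := h0.trans (aa (c0 * e)).symm
      exact (add_right_cancel h4).symm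
    have hhe : h * e = e * h := by
      rw [hh, add_mul, mul_add, mul_assoc c0 e e, hkc c0]
      noncomm_ring
    have hhα : h * α = α * h := by
      rw [hh, add_mul, mul_add, mul_assoc, hc0α, ← mul_assoc, heα, mul_assoc c0 e α, heα,
        ← mul_assoc c0, hc0α]
      simp only [mul_assoc]
    set c := c0 * (h⁻¹ * α) with hc
    have hcα : c * α = α * c := by
      rw [hc, mul_assoc, mul_assoc, ← mul_assoc h⁻¹, inv_comm hh0 hhα, mul_assoc α,
        inv_comm hh0 hhα, ← mul_assoc, hc0α]
      simp only [mul_assoc]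
    have hec : e * c + c * e = α := by
      have h5 : h⁻¹ * α * e = e * (h⁻¹ * α) := by
        rw [mul_assoc, ← heα, ← mul_assoc, inv_comm hh0 hhe, mul_assoc]
      rw [hc, mul_assoc c0, h5, ← mul_assoc, ← mul_assoc c0 e, ← add_mul, ← hh, ← mul_assoc,
        mul_inv_cancel₀ hh0, one_mul]
    -- conjugate
    set f := v * c * v⁻¹ with hf
    have hfv : v * c = f * v := by rw [hf, mul_assoc, inv_mul_cancel₀ hv0, mul_one]
    have hev' : v⁻¹ * e = e * v⁻¹ := inv_comm hv0 hev.symm
    have hef : e * f + f * e = α + 1 := by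
      have : e * f + f * e = v * (e * c + c * e) * v⁻¹ := by
        rw [hf, mul_add, add_mul, ← mul_assoc e, ← mul_assoc e, hev, mul_assoc (v * c), hev']
        simp only [mul_assoc]
      rw [this, hec, hv, mul_assoc, mul_inv_cancel₀ hv0, mul_one]
    set B := (c + f) * e with hB
    set C := c * f * e with hC
    have hsqC : c * v * (c * v) = C := by
      rw [hC, he]
      calc c * v * (c * v) = c * (v * c) * v := by noncomm_ring
        _ = c * f * (v * v) := by rw [hfv]; noncomm_ring
    have hlam : ∀ l : K, ((1 + l • c) * v) * ((1 + l • c) * v) = e + l • B + (l * l) • C := by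
      intro l
      have h1 : v * (1 + l • c) = (1 + l • f) * v := by
        rw [mul_add, mul_one, mul_smul_comm, hfv, add_mul, one_mul, smul_mul_assoc]
      calc ((1 + l • c) * v) * ((1 + l • c) * v) = (1 + l • c) * (v * (1 + l • c)) * v := by
            noncomm_ring
        _ = (1 + l • c) * (1 + l • f) * e := by rw [h1, he]; noncomm_ring
        _ = e + l • B + (l * l) • C := by
            rw [hB, hC]
            simp only [mul_add, add_mul, mul_smul_comm, smul_mul_assoc, smul_smul, smul_add,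
              mul_one, one_mul]
            abel
    have hX1 : e * B + B * e ∈ W := by
      apply vdm3 (K := K) W (X2 := B * B + (e * C + C * e)) (X3 := B * C + C * B)
      intro l
      have h1 : (1 + l • c) * v * α = (α + 1) * ((1 + l • c) * v) := by
        apply skew_mul _ hv
        rw [add_mul, mul_add, one_mul, mul_one, smul_mul_assoc, mul_smul_comm, hcα]
      have h3 := hcon' _ h1
      rw [hlam] at h3
      have h4 : C * C ∈ W := by
        rw [← hsqC]
        exact hcon' _ (skew_mul hcα hv)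
      have h5 := W.sub_mem (W.sub_mem h3 hee) (W.smul_mem (l * l * l * l) h4)
      have e6 : (e + l • B + (l * l) • C) * (e + l • B + (l * l) • C) - e * e -
          (l * l * l * l) • (C * C) =
          l • (e * B + B * e) + (l * l) • (B * B + (e * C + C * e)) +
            (l * l * l) • (B * C + C * B) := by
        simp only [mul_add, add_mul, mul_smul_comm, smul_mul_assoc, smul_smul, smul_add]
        module
      rwa [e6] at h5
    have hX1' : e * B + B * e = e := by
      have : e * B + B * e = ((e * c + c * e) + (e * f + f * e)) * e := by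
        rw [hB]; noncomm_ring
      rw [this, hec, hef, ← add_assoc, aa, zero_add, one_mul]
    rw [hX1'] at hX1
    obtain ⟨c', hc'⟩ := (hW _).mp hX1
    exact hcon2 c' hc'
  have hsq' : ∀ v : D, v * α = (α + 1) * v → v * v ∈ W := by
    intro v hv
    by_cases hv0 : v = 0
    · rw [hv0]; simp
    · exact hsq v hv0 hv
  obtain ⟨k, hk⟩ := (hW _).mp (hsq w hw0 hwα)
  have hk0 : k ≠ 0 := by
    rintro rfl
    rw [map_zero] at hk
    exact mul_ne_zero hw0 hw0 hk
  have hcf : ∀ c : D, c * α = α * c → c * (w * c * w⁻¹) ∈ W := by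
    intro c hc
    have h1 := hsq' _ (skew_mul hc hwα)
    have h3 : c * w * (c * w) = k • (c * (w * c * w⁻¹)) := by
      have : c * w * (c * w) = c * (w * c * w⁻¹) * (w * w) := by
        calc c * w * (c * w) = c * (w * c * (w⁻¹ * w)) * w := by
              rw [inv_mul_cancel₀ hw0]; noncomm_ring
          _ = _ := by noncomm_ring
      rw [this, hk, ← Algebra.commutes, Algebra.smul_def]
    rw [h3] at h1
    have := W.smul_mem k⁻¹ h1
    rwa [smul_smul, inv_mul_cancel₀ hk0, one_smul] at this
  have h1W : (1 : D) ∈ W := (hW _).mpr ⟨1, by rw [map_one]⟩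
  have hcf2 : ∀ c : D, c * α = α * c → c + w * c * w⁻¹ ∈ W := by
    intro c hc
    have h3 := hcf (c + 1) (by rw [add_mul, mul_add, hc, one_mul, mul_one])
    have h4 : (c + 1) * (w * (c + 1) * w⁻¹) = c * (w * c * w⁻¹) + (c + w * c * w⁻¹) + 1 := by
      rw [mul_add w, mul_one, add_mul _ _ w⁻¹, mul_inv_cancel₀ hw0]
      noncomm_ring
    rw [h4] at h3
    have := W.sub_mem (W.sub_mem h3 h1W) (hcf c hc)
    have e : c * (w * c * w⁻¹) + (c + w * c * w⁻¹) + 1 - 1 - c * (w * c * w⁻¹) =
        c + w * c * w⁻¹ := by abel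
    rwa [e] at this
  have hf2 : ∀ c : D, c * α = α * c → ∃ s t : K, w * c * w⁻¹ = s • α + algebraMap K D t := by
    intro c hc
    obtain ⟨s, hs⟩ := (hW _).mp (hcf2 c hc)
    obtain ⟨t, ht⟩ := (hW _).mp (hcf2 (α * c) (by rw [mul_assoc, hc, ← mul_assoc]))
    refine ⟨s, t, ?_⟩
    have h3 : α * c + w * (α * c) * w⁻¹ = α * (c + w * c * w⁻¹) + w * c * w⁻¹ := by
      rw [← mul_assoc w, hwα]
      noncomm_ring
    rw [h3, hs, ← Algebra.commutes, ← Algebra.smul_def] at ht
    have h5 : s • α + (s • α + w * c * w⁻¹) = s • α + algebraMap K D t := by rw [ht]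
    rw [← add_assoc, aa, zero_add] at h5
    exact h5
  have hQ : ∀ c : D, c * α = α * c → ∃ s t : K, c = s • α + algebraMap K D t := by
    intro c hc
    have e : w * (α + 1) = α * w := by
      rw [mul_add, hwα, mul_one, add_mul, one_mul, add_assoc, aa, add_zero]
    have h4 : w⁻¹ * α = (α + 1) * w⁻¹ := by
      have : w * (w⁻¹ * α) = w * ((α + 1) * w⁻¹) := by
        rw [← mul_assoc, mul_inv_cancel₀ hw0, one_mul, ← mul_assoc, e, mul_assoc,
          mul_inv_cancel₀ hw0, mul_one]
      exact mul_left_cancel₀ hw0 this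
    have h5 : w⁻¹ * c * w * α = α * (w⁻¹ * c * w) := by
      rw [mul_assoc, hwα, ← mul_assoc, mul_assoc w⁻¹ c, mul_add, hc, mul_one]
      have : w⁻¹ * (α * c + c) = w⁻¹ * α * c + w⁻¹ * c := by noncomm_ring
      rw [this, h4]
      have : (α + 1) * w⁻¹ * c + w⁻¹ * c = α * w⁻¹ * c + (w⁻¹ * c + w⁻¹ * c) := by noncomm_ring
      rw [this, aa, add_zero]
      simp only [mul_assoc]
    obtain ⟨s, t, hst⟩ := hf2 _ h5
    refine ⟨s, t, ?_⟩
    rw [← hst]
    rw [← mul_assoc, ← mul_assoc, mul_inv_cancel₀ hw0, one_mul, mul_assoc, mul_inv_cancel₀ hw0,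
      mul_one]
  have htop : (⊤ : Submodule K D) ≤ Submodule.span K (Set.range ![(1 : D), α, w, α * w]) := by
    intro x _
    obtain ⟨p, q, hp, hq, rfl⟩ := as_dec h2 ha hac hwα hw0 x
    obtain ⟨s, t, hst⟩ := hQ p hp
    obtain ⟨s', t', hst'⟩ := hQ q hq
    have m0 : (1 : D) ∈ Submodule.span K (Set.range ![(1 : D), α, w, α * w]) :=
      Submodule.subset_span ⟨0, rfl⟩
    have m1 : α ∈ Submodule.span K (Set.range ![(1 : D), α, w, α * w]) :=
      Submodule.subset_span ⟨1, rfl⟩
    have m2 : w ∈ Submodule.span K (Set.range ![(1 : D), α, w, α * w]) :=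
      Submodule.subset_span ⟨2, rfl⟩
    have m3 : α * w ∈ Submodule.span K (Set.range ![(1 : D), α, w, α * w]) :=
      Submodule.subset_span ⟨3, rfl⟩
    rw [hst, hst', Algebra.algebraMap_eq_smul_one, Algebra.algebraMap_eq_smul_one, add_mul,
      smul_mul_assoc, smul_mul_assoc, one_mul]
    exact Submodule.add_mem _ (Submodule.add_mem _ (Submodule.smul_mem _ _ m1)
      (Submodule.smul_mem _ _ m0)) (Submodule.add_mem _ (Submodule.smul_mem _ _ m3)
      (Submodule.smul_mem _ _ m2))
  have h5 : finrank K D ≤ 4 := by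
    rw [← finrank_top K D, ← eq_top_iff.mpr htop]
    exact (finrank_range_le_card _).trans (by simp)
  omega

include r in
/-- Albert's theorem in characteristic two. -/
theorem gen_albert [Algebra.IsCentral K D] (h16 : finrank K D = 16) :
    ∃ α β u w : D, ASP K K α β u w := by
  have h2 : (2 : D) = 0 := two_eq K D
  have h2K : (2 : K) = 0 := two_eq K K
  have aa : ∀ x : D, x + x = 0 := fun x => add_self_eq K x
  obtain ⟨α, hα, a, ha⟩ := gen_step1 r h16
  obtain ⟨w, hw0, hwα, hw4⟩ := gen_step2 h16 hα ⟨a, ha⟩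
  have hac : ∀ x, algebraMap K D a * x = x * algebraMap K D a := fun x => Algebra.commutes a x
  have htr : ∀ w : D, w * α = (α + 1) * w → r.tr w = 0 := by
    intro w hw
    have e1 : α * w + w * α = w := by
      rw [hw, add_mul, one_mul, ← add_assoc, aa, zero_add]
    rw [← e1, map_add, r.tr_comm, ← two_mul, h2K, zero_mul]
  have hinv : w⁻¹ * α = (α + 1) * w⁻¹ := by
    have e : w * (α + 1) = α * w := by
      rw [mul_add, hwα, mul_one, add_mul, one_mul, add_assoc, aa, add_zero]
    have : w * (w⁻¹ * α) = w * ((α + 1) * w⁻¹) := by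
      rw [← mul_assoc, mul_inv_cancel₀ hw0, one_mul, ← mul_assoc, e, mul_assoc,
        mul_inv_cancel₀ hw0, mul_one]
    exact mul_left_cancel₀ hw0 this
  have e3 := r.cp3 w
  rw [htr w hwα] at e3
  have e1 := r.cp1 w hw0 (htr _ hinv)
  have hrel := rc_rel r w
  rw [e3, e1, zero_smul, zero_smul, add_zero, add_zero] at hrel
  have hc2 : (r.cp w).coeff 2 ≠ 0 := by
    intro h
    rw [h, zero_smul, add_zero] at hrel
    apply hw4 (-(r.cp w).coeff 0)
    rw [map_neg, Algebra.algebraMap_eq_smul_one]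
    exact eq_neg_of_add_eq_zero_left hrel
  obtain ⟨b, hb⟩ := as_scale hc2 hrel
  set β := ((r.cp w).coeff 2)⁻¹ • (w * w) with hβ
  have hβK : ∀ c : K, β ≠ algebraMap K D c := by
    intro c hc
    apply hw4 ((r.cp w).coeff 2 * c * ((r.cp w).coeff 2 * c))
    have : w * w = algebraMap K D ((r.cp w).coeff 2 * c) := by
      rw [map_mul, ← hc, hβ, ← Algebra.smul_def, smul_smul, mul_inv_cancel₀ hc2, one_smul]
    rw [this, ← map_mul]
  have hbc : ∀ x, algebraMap K D b * x = x * algebraMap K D b := fun x => Algebra.commutes b x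
  have hβα : β * α = α * β := by
    rw [hβ, smul_mul_assoc, as4 h2 hwα, mul_smul_comm]
  have hwβ : w * β = β * w := by
    rw [hβ, mul_smul_comm, smul_mul_assoc, mul_assoc]
  obtain ⟨c, hcα, hcβ⟩ : ∃ c : D, c * α = α * c ∧ c * β ≠ β * c := by
    by_contra hcon
    push Not at hcon
    obtain ⟨e, he⟩ := mem_K_of_comm (K := K) (y := β) (by
      intro x
      obtain ⟨p, q, hp, hq, rfl⟩ := as_dec h2 ha hac hwα hw0 x
      rw [add_mul, mul_add, hcon p hp, mul_assoc q w β, hwβ, ← mul_assoc, hcon q hq, mul_assoc])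
    exact hβK e he
  refine ⟨α, β, w, β * c + c * β, ⟨hβα.symm, ⟨a, ha⟩, ⟨b, hb⟩, hw0, ?_, hwα, hwβ, ?_,
    as1 h2 hb (hbc c)⟩⟩
  · intro h
    apply hcβ
    have h3 : c * β + c * β = 0 := aa _
    exact (add_right_cancel (h.trans h3.symm)).symm
  · rw [add_mul, mul_add, mul_assoc, hcα, mul_assoc, hβα, ← mul_assoc, ← mul_assoc, hβα, hcα]
    simp only [mul_assoc]

end

end helper53.ED
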