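import Mathlib
import Pool.Agent.helper53.ED.Defs
import Pool.Agent.helper53.ED.BC

namespace helper53.ED

open Module
open scoped TensorProduct

universe u

section

variable {F K : Type u} [Field F] [Field K] [Algebra F K] {L : IntermediateField F K}

/-- A spanning form of the right dimension is a descent. -/
theorem iso_of_span {A A₀ : Type u} [Ring A] [Algebra K A] [Ring A₀] [Algebra L A₀]
    (φ : A₀ →ₐ[L] A) (hspan : Submodule.span K (Set.range φ) = ⊤) [FiniteDimensional L A₀]
    (hdim : finrank L A₀ ≤ finrank K A) [FiniteDimensional K A] :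
    Nonempty (K ⊗[L] A₀ ≃ₐ[K] A) ∧ finrank L A₀ = finrank K A := by
  let f : K ⊗[L] A₀ →ₐ[K] A := Algebra.TensorProduct.lift (Algebra.ofId K A) φ
    (fun c a => Algebra.commutes c (φ a))
  have hf : ∀ a, f (1 ⊗ₜ a) = φ a := by
    intro a
    simp [f]
  have hsurj : Function.Surjective f := by
    have h1 : (⊤ : Submodule K A) ≤ LinearMap.range f.toLinearMap := by
      rw [← hspan, Submodule.span_le]
      rintro _ ⟨a, rfl⟩
      exact ⟨1 ⊗ₜ a, hf a⟩
    intro a
    obtain ⟨x, hx⟩ := h1 (show a ∈ ⊤ from trivial)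
    exact ⟨x, hx⟩
  have h2 : finrank K (K ⊗[L] A₀) = finrank L A₀ := Module.finrank_baseChange
  have h4 : finrank K A ≤ finrank K (K ⊗[L] A₀) := by
    exact LinearMap.finrank_le_finrank_of_surjective (f := f.toLinearMap) hsurj
  have h5 : finrank K (K ⊗[L] A₀) = finrank K A := by omega
  have hinj : Function.Injective f :=
    (LinearMap.injective_iff_surjective_of_finrank_eq_finrank (f := f.toLinearMap) h5).mpr hsurj
  exact ⟨⟨AlgEquiv.ofBijective f ⟨hinj, hsurj⟩⟩, by omega⟩

/-- Descent of division algebras. -/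
theorem def_div {n : ℕ} {D : Type u} [DivisionRing D] [Algebra K D] (hD : IsCSA n K D)
    (hn : n ≠ 0) (B : Subalgebra L D) (hspan : Submodule.span K (B : Set D) = ⊤)
    [FiniteDimensional L B] (hB : finrank L B ≤ n ^ 2) : DefinedOver n L D := by
  have hfin : FiniteDimensional K D := FiniteDimensional.of_finrank_pos (by
    rw [hD.finrank]; positivity)
  have hspan' : Submodule.span K (Set.range B.val) = ⊤ := by
    rw [← hspan]
    congr 1
    exact Subtype.range_coe
  obtain ⟨⟨e⟩, hdim⟩ := iso_of_span B.val hspan' (by rw [hD.finrank]; exact hB)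
  refine ⟨B, inferInstance, inferInstance, ⟨⟨?_⟩, ?_, by rw [hdim, hD.finrank]⟩, ⟨e⟩⟩
  · -- central
    intro x hx
    rw [Subalgebra.mem_center_iff] at hx
    have h1 : ∀ y : D, y * (x : D) = x * y := by
      intro y
      have hy : y ∈ Submodule.span K (B : Set D) := by rw [hspan]; trivial
      induction hy using Submodule.span_induction with
      | mem y hy => exact congrArg Subtype.val (hx ⟨y, hy⟩)
      | zero => simp
      | add a b _ _ h1 h2 => rw [add_mul, mul_add, h1, h2]
      | smul c a _ h1 => rw [smul_mul_assoc, h1, mul_smul_comm]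
    have h2 : (x : D) ∈ Subalgebra.center K D := by
      rw [Subalgebra.mem_center_iff]; exact h1
    have hc := hD.central
    rw [hc.center_eq_bot] at h2
    obtain ⟨c, hc⟩ := h2
    have hc : algebraMap K D c = x := hc
    -- coordinates
    let b := Module.Free.chooseBasis L B
    let b' : Basis _ K (K ⊗[L] B) := Algebra.TensorProduct.basis K b
    obtain ⟨⟨e'⟩, _⟩ := iso_of_span B.val hspan' (by rw [hD.finrank]; exact hB)
    have hinj : (c : K) ⊗ₜ[L] (1 : B) = (1 : K) ⊗ₜ[L] x := by
      let f : K ⊗[L] B →ₐ[K] D := Algebra.TensorProduct.lift (Algebra.ofId K D) B.val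
        (fun c a => Algebra.commutes c (a : D))
      have hf : Function.Injective f := by
        have hsurj : Function.Surjective f := by
          have h1 : (⊤ : Submodule K D) ≤ LinearMap.range f.toLinearMap := by
            rw [← hspan', Submodule.span_le]
            rintro _ ⟨a, rfl⟩
            exact ⟨1 ⊗ₜ a, by simp [f]⟩
          intro a
          obtain ⟨x, hx⟩ := h1 (show a ∈ ⊤ from trivial)
          exact ⟨x, hx⟩
        have h2 : finrank K (K ⊗[L] B) = finrank L B := Module.finrank_baseChange
        exact (LinearMap.injective_iff_surjective_of_finrank_eq_finrank (f := f.toLinearMap)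
          (by rw [h2, hdim])).mpr hsurj
      apply hf
      simp only [f, Algebra.TensorProduct.lift_tmul, map_one, mul_one, one_mul]
      exact hc
    have h1ne : b.repr 1 ≠ 0 := by
      intro h
      have := b.repr.map_eq_zero_iff.mp h
      exact one_ne_zero this
    obtain ⟨i, hi⟩ := Finsupp.ne_iff.mp h1ne
    rw [Finsupp.zero_apply] at hi
    have h3 := congrArg (fun t => b'.repr t i) hinj
    simp only [b', Algebra.TensorProduct.basis_repr_tmul, Finsupp.smul_apply,
      Finsupp.mapRange_apply, smul_eq_mul, one_mul] at h3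
    have hi' : ((b.repr 1 i : L) : K) ≠ 0 := by
      intro h0; apply hi; exact Subtype.ext h0
    have h4 : c = ((b.repr x i : L) : K) * ((b.repr 1 i : L) : K)⁻¹ := by
      rw [eq_mul_inv_iff_mul_eq₀ hi']
      exact h3
    have hcL : c ∈ L := by
      rw [h4]
      exact L.mul_mem (b.repr x i).2 (L.inv_mem (b.repr 1 i).2)
    refine ⟨⟨c, hcL⟩, ?_⟩
    apply Subtype.ext
    exact hc
  · exact (divisionRingOfFiniteDimensional L B).isSimpleRing

/-- Descent passes to matrix algebras. -/
theorem def_matrix {m n : ℕ} [NeZero n] {D : Type u} [Ring D] [Algebra K D]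
    [FiniteDimensional K D] (h : DefinedOver m L D) (hd : finrank K D = m ^ 2) (hm : m ≠ 0) :
    DefinedOver (n * m) L (Matrix (Fin n) (Fin n) D) := by
  obtain ⟨D₀, _, _, hD, ⟨e⟩⟩ := h
  have hfin : FiniteDimensional L D₀ := FiniteDimensional.of_finrank_pos (by
    rw [hD.finrank]; positivity)
  have := hD.central
  have := hD.simple
  let φ : D₀ →ₐ[L] D :=
    ((e : K ⊗[L] D₀ →ₐ[K] D).restrictScalars L).comp Algebra.TensorProduct.includeRight
  have hφ : ∀ a, φ a = e (1 ⊗ₜ a) := fun a => rfl
  have hspan : ∀ x : D, x ∈ Submodule.span K (Set.range φ) := by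
    intro x
    obtain ⟨t, rfl⟩ := e.surjective x
    induction t using TensorProduct.induction_on with
    | zero => simp
    | tmul c a =>
      have : e (c ⊗ₜ a) = c • φ a := by
        rw [hφ, ← map_smul, TensorProduct.smul_tmul', smul_eq_mul, mul_one]
      rw [this]
      exact Submodule.smul_mem _ _ (Submodule.subset_span ⟨a, rfl⟩)
    | add x y hx hy => rw [map_add]; exact Submodule.add_mem _ hx hy
  let Φ : Matrix (Fin n) (Fin n) D₀ →ₐ[L] Matrix (Fin n) (Fin n) D := φ.mapMatrix
  have hspan2 : Submodule.span K (Set.range Φ) = ⊤ := by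
    rw [eq_top_iff]
    intro M _
    rw [Matrix.matrix_eq_sum_single M]
    refine Submodule.sum_mem _ (fun i _ => Submodule.sum_mem _ (fun j _ => ?_))
    have hx := hspan (M i j)
    generalize M i j = x at hx
    induction hx using Submodule.span_induction with
    | mem y hy =>
      obtain ⟨a, rfl⟩ := hy
      refine Submodule.subset_span ⟨Matrix.single i j a, ?_⟩
      show (Matrix.single i j a).map φ = _
      rw [Matrix.map_single]
    | zero => simp
    | add x y _ _ h1 h2 => rw [Matrix.single_add]; exact Submodule.add_mem _ h1 h2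
    | smul c a _ h1 =>
      rw [← Matrix.smul_single]; exact Submodule.smul_mem _ _ h1
  have hd1 : finrank L (Matrix (Fin n) (Fin n) D₀) = (n * m) ^ 2 := by
    rw [Module.finrank_matrix, hD.finrank]
    simp; ring
  have hd2 : finrank K (Matrix (Fin n) (Fin n) D) = (n * m) ^ 2 := by
    rw [Module.finrank_matrix, hd]
    simp; ring
  obtain ⟨⟨e2⟩, _⟩ := iso_of_span Φ hspan2 (by rw [hd1, hd2])
  exact ⟨_, inferInstance, inferInstance, ⟨inferInstance, inferInstance, hd1⟩, ⟨e2⟩⟩

theorem def_congr {n : ℕ} {A A' : Type u} [Ring A] [Algebra K A] [Ring A'] [Algebra K A']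
    (h : DefinedOver n L A) (e : A ≃ₐ[K] A') : DefinedOver n L A' := by
  obtain ⟨A₀, i1, i2, h1, ⟨e1⟩⟩ := h
  exact ⟨A₀, i1, i2, h1, ⟨e1.trans e⟩⟩

end

/-- Transcendence degree of a finitely generated field. -/
theorem trdeg_adjoin_le {F E : Type u} [Field F] [Field E] [Algebra F E] {n : ℕ} (x : Fin n → E) :
    Algebra.trdeg F (IntermediateField.adjoin F (Set.range x)) ≤ n := by
  let E1 := IntermediateField.adjoin F (Set.range x)
  let y : Fin n → E1 := fun i => ⟨x i, IntermediateField.subset_adjoin F _ ⟨i, rfl⟩⟩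
  have h1 : Algebra.IsAlgebraic (Algebra.adjoin F (Set.range y)) E1 := by
    constructor
    rintro ⟨z, hz⟩
    induction hz using IntermediateField.adjoin_induction with
    | mem w hw =>
      obtain ⟨i, rfl⟩ := hw
      exact isAlgebraic_algebraMap (⟨y i, Algebra.subset_adjoin ⟨i, rfl⟩⟩ :
        Algebra.adjoin F (Set.range y))
    | algebraMap c =>
      exact isAlgebraic_algebraMap (algebraMap F (Algebra.adjoin F (Set.range y)) c)
    | add a b ha hb h1 h2 => exact h1.add h2
    | inv a ha h1 => exact h1.inv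
    | mul a b ha hb h1 h2 => exact h1.mul h2
  have h2 := Algebra.IsAlgebraic.trdeg_le_cardinalMk F (Set.range y)
  refine h2.trans ?_
  have h3 := Cardinal.mk_range_le_lift (f := y)
  simpa using h3

end helper53.ED
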