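import Mathlib
import Pool.Agent.helper53.ED.Desc

namespace helper53.ED

open Module
open scoped TensorProduct

universe u

section

variable {F K E D : Type u} [Field F] [Field K] [Field E] [Algebra F K] [Algebra K E]
  [Algebra F E] [IsScalarTower F K E] [DivisionRing D] [Algebra K D]

/-- Elements of the intermediate field, as elements of the big field. -/
def comapK (E1 : IntermediateField F E) : IntermediateField F K :=
  E1.comap (IsScalarTower.toAlgHom F K E)

theorem mem_comapK (E1 : IntermediateField F E) (c : K) :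
    c ∈ comapK (K := K) E1 ↔ algebraMap K E c ∈ E1 := Iff.rfl

theorem trdeg_comapK (E1 : IntermediateField F E) :
    Algebra.trdeg F (comapK (K := K) E1) ≤ Algebra.trdeg F E1 := by
  let f : comapK (K := K) E1 →ₐ[F] E1 :=
    { toFun := fun c => ⟨algebraMap K E c, c.2⟩
      map_one' := by ext; simp
      map_zero' := by ext; simp
      map_mul' := fun _ _ => by ext; simp
      map_add' := fun _ _ => by ext; simp
      commutes' := fun r => by
        apply Subtype.ext
        show algebraMap K E (algebraMap F K r) = algebraMap F E r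
        rw [← IsScalarTower.algebraMap_apply] }
  exact trdeg_le_of_injective f f.toRingHom.injective

/-- The crossed product presentation gives a form over a field of small transcendence degree. -/
theorem crossed_def (hD : IsCSA 4 K D) (ι : E →ₐ[K] D) (σ τ : E ≃ₐ[K] E) (u w : D) (U W z : E)
    (hu0 : u ≠ 0) (hw0 : w ≠ 0)
    (hu : u * u = ι U) (hw : w * w = ι W) (huw : u * w = ι z * (w * u))
    (uσ : ∀ x, u * ι x = ι (σ x) * u) (wτ : ∀ x, w * ι x = ι (τ x) * w)
    (hE : ∀ x : E, ∃ a b c d : K, x = algebraMap K E a + algebraMap K E b * U +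
      (algebraMap K E c + algebraMap K E d * U) * W)
    (hDs : ∀ x : D, ∃ e0 e1 e2 e3 : E, x = ι e0 + ι e1 * u + ι e2 * w + ι e3 * (u * w))
    (hτU : τ U ≠ U) (hσW : σ W ≠ W) :
    ∃ L : IntermediateField F K, DefinedOver 4 L D ∧ Algebra.trdeg F L ≤ 5 := by
  have hinj : Function.Injective ι := ι.toRingHom.injective
  have cu : ∀ {a b : E}, ι a * u = ι b * u → a = b := fun h => hinj (mul_right_cancel₀ hu0 h)
  have cw : ∀ {a b : E}, ι a * w = ι b * w → a = b := fun h => hinj (mul_right_cancel₀ hw0 h)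
  have hU0 : U ≠ 0 := by
    rintro rfl
    rw [map_zero] at hu
    exact mul_ne_zero hu0 hu0 hu
  have hW0 : W ≠ 0 := by
    rintro rfl
    rw [map_zero] at hw
    exact mul_ne_zero hw0 hw0 hw
  have hz0 : z ≠ 0 := by
    rintro rfl
    rw [map_zero, zero_mul] at huw
    exact mul_ne_zero hu0 hw0 huw
  have hσU : σ U = U := by
    apply cu
    rw [← uσ, ← hu, mul_assoc]
  have hτW : τ W = W := by
    apply cw
    rw [← wτ, ← hw, mul_assoc]
  have hσσ : ∀ x, σ (σ x) = x := by
    intro x
    have h : ι (σ (σ x)) * ι U = ι x * ι U := by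
      rw [← hu]
      calc ι (σ (σ x)) * (u * u) = ι (σ (σ x)) * u * u := by rw [mul_assoc]
        _ = u * (u * ι x) := by rw [← uσ, uσ x, ← mul_assoc]
        _ = ι U * ι x := by rw [← mul_assoc, hu]
        _ = ι x * (u * u) := by rw [hu, ← map_mul, ← map_mul, mul_comm]
    have := hinj ((map_mul ι _ _).trans (h.trans (map_mul ι _ _).symm))
    exact mul_right_cancel₀ hU0 this
  have hττ : ∀ x, τ (τ x) = x := by
    intro x
    have h : ι (τ (τ x)) * ι W = ι x * ι W := by
      rw [← hw]
      calc ι (τ (τ x)) * (w * w) = ι (τ (τ x)) * w * w := by rw [mul_assoc]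
        _ = w * (w * ι x) := by rw [← wτ, wτ x, ← mul_assoc]
        _ = ι W * ι x := by rw [← mul_assoc, hw]
        _ = ι x * (w * w) := by rw [hw, ← map_mul, ← map_mul, mul_comm]
    have := hinj ((map_mul ι _ _).trans (h.trans (map_mul ι _ _).symm))
    exact mul_right_cancel₀ hW0 this
  have hστ : ∀ x, σ (τ x) = τ (σ x) := by
    intro x
    have h1 : u * w * ι x = ι (σ (τ x)) * (u * w) := by
      rw [mul_assoc, wτ, ← mul_assoc, uσ, mul_assoc]
    have h2 : u * w * ι x = ι (τ (σ x)) * (u * w) := by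
      rw [huw, mul_assoc, mul_assoc w u, uσ, ← mul_assoc w, wτ, ← mul_assoc, ← mul_assoc (ι z),
        ← map_mul, mul_comm z, map_mul]
      simp only [mul_assoc]
    have h3 := h1.symm.trans h2
    exact hinj (mul_right_cancel₀ (mul_ne_zero hu0 hw0) h3)
  have hwu : w * u = ι z⁻¹ * (u * w) := by
    rw [huw, ← mul_assoc, ← map_mul, inv_mul_cancel₀ hz0, map_one, one_mul]
  -- the two relations
  have rel1 : τ U = z⁻¹ * (σ z)⁻¹ * U := by
    apply cw
    rw [← wτ, ← hu]
    have h1 : w * (u * u) = ι (z⁻¹ * σ z⁻¹) * (u * u) * w := by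
      calc w * (u * u) = (w * u) * u := by rw [mul_assoc]
        _ = ι z⁻¹ * u * (w * u) := by rw [hwu]; simp only [mul_assoc]; rw [hwu]
        _ = ι z⁻¹ * (u * ι z⁻¹) * u * w := by rw [hwu]; simp only [mul_assoc]
        _ = ι z⁻¹ * ι (σ z⁻¹) * (u * u) * w := by rw [uσ]; simp only [mul_assoc]
        _ = _ := by rw [map_mul]
    rw [h1, hu, ← map_mul, map_inv₀ σ]
  have rel2 : σ W = z * τ z * W := by
    apply cu
    rw [← uσ, ← hw]
    have h1 : u * (w * w) = ι (z * τ z) * (w * w) * u := by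
      calc u * (w * w) = (u * w) * w := by rw [mul_assoc]
        _ = ι z * w * (u * w) := by rw [huw]; simp only [mul_assoc]; rw [huw]
        _ = ι z * (w * ι z) * w * u := by rw [huw]; simp only [mul_assoc]
        _ = ι z * ι (τ z) * (w * w) * u := by rw [wτ]; simp only [mul_assoc]
        _ = _ := by rw [map_mul]
    rw [h1, hw, ← map_mul]
  have hσz0 : σ z ≠ 0 := by simpa using hz0
  have hτz0 : τ z ≠ 0 := by simpa using hz0
  have hτU0 : τ U ≠ 0 := by simpa using hU0
  have hσz : σ z = U * (τ U)⁻¹ * z⁻¹ := by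
    rw [rel1]; field_simp
  have hτz : τ z = σ W * z⁻¹ * W⁻¹ := by
    rw [rel2]; field_simp
  -- the small field
  let gens : Fin 5 → E := ![U, τ U, W, σ W, z]
  let E1 : IntermediateField F E := IntermediateField.adjoin F (Set.range gens)
  have gU : U ∈ E1 := IntermediateField.subset_adjoin F _ ⟨0, rfl⟩
  have gτU : τ U ∈ E1 := IntermediateField.subset_adjoin F _ ⟨1, rfl⟩
  have gW : W ∈ E1 := IntermediateField.subset_adjoin F _ ⟨2, rfl⟩
  have gσW : σ W ∈ E1 := IntermediateField.subset_adjoin F _ ⟨3, rfl⟩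
  have gz : z ∈ E1 := IntermediateField.subset_adjoin F _ ⟨4, rfl⟩
  have stab : ∀ (ρ : E ≃ₐ[K] E), (∀ i, ρ (gens i) ∈ E1) → ∀ x ∈ E1, ρ x ∈ E1 := by
    intro ρ hρ x hx
    induction hx using IntermediateField.adjoin_induction with
    | mem w hw =>
      obtain ⟨i, rfl⟩ := hw
      exact hρ i
    | algebraMap c =>
      rw [IsScalarTower.algebraMap_apply F K E, AlgEquiv.commutes,
        ← IsScalarTower.algebraMap_apply F K E]
      exact E1.algebraMap_mem c
    | add a b ha hb h1 h2 => rw [map_add]; exact E1.add_mem h1 h2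
    | inv a ha h1 => rw [map_inv₀]; exact E1.inv_mem h1
    | mul a b ha hb h1 h2 => rw [map_mul]; exact E1.mul_mem h1 h2
  have sσ : ∀ x ∈ E1, σ x ∈ E1 := by
    apply stab
    intro i
    fin_cases i
    · show σ U ∈ E1; rw [hσU]; exact gU
    · show σ (τ U) ∈ E1; rw [hστ, hσU]; exact gτU
    · exact gσW
    · show σ (σ W) ∈ E1; rw [hσσ]; exact gW
    · show σ z ∈ E1
      rw [hσz]; exact E1.mul_mem (E1.mul_mem gU (E1.inv_mem gτU)) (E1.inv_mem gz)
  have sτ : ∀ x ∈ E1, τ x ∈ E1 := by
    apply stab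
    intro i
    fin_cases i
    · exact gτU
    · show τ (τ U) ∈ E1; rw [hττ]; exact gU
    · show τ W ∈ E1; rw [hτW]; exact gW
    · show τ (σ W) ∈ E1; rw [← hστ, hτW]; exact gσW
    · show τ z ∈ E1
      rw [hτz]; exact E1.mul_mem (E1.mul_mem gσW (E1.inv_mem gz)) (E1.inv_mem gW)
  let L : IntermediateField F K := comapK E1
  have hL : ∀ c : K, algebraMap K E c ∈ E1 → c ∈ L := fun c h => h
  -- coordinates of elements of E1
  have hE1 : ∀ x ∈ E1, ∃ a b c d : L, x = algebraMap K E a + algebraMap K E b * U +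
      (algebraMap K E c + algebraMap K E d * U) * W := by
    intro x hx
    obtain ⟨a, b, c, d, hxe⟩ := hE x
    have hy : algebraMap K E c + algebraMap K E d * U ∈ E1 := by
      have h1 : x - σ x = (algebraMap K E c + algebraMap K E d * U) * (W - σ W) := by
        rw [hxe]
        simp only [map_add, map_mul, AlgEquiv.commutes, hσU]
        ring
      have h2 : W - σ W ≠ 0 := sub_ne_zero.mpr (Ne.symm hσW)
      have h3 : algebraMap K E c + algebraMap K E d * U = (x - σ x) * (W - σ W)⁻¹ := by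
        rw [h1, mul_assoc, mul_inv_cancel₀ h2, mul_one]
      rw [h3]
      exact E1.mul_mem (E1.sub_mem hx (sσ x hx)) (E1.inv_mem (E1.sub_mem gW gσW))
    have hlin : ∀ p q : K, algebraMap K E p + algebraMap K E q * U ∈ E1 →
        p ∈ L ∧ q ∈ L := by
      intro p q hpq
      have h2 : U - τ U ≠ 0 := sub_ne_zero.mpr (Ne.symm hτU)
      have hq : q ∈ L := by
        apply hL
        have h1 : (algebraMap K E p + algebraMap K E q * U) -
            τ (algebraMap K E p + algebraMap K E q * U) = algebraMap K E q * (U - τ U) := by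
          simp only [map_add, map_mul, AlgEquiv.commutes]
          ring
        have h3 : algebraMap K E q = ((algebraMap K E p + algebraMap K E q * U) -
            τ (algebraMap K E p + algebraMap K E q * U)) * (U - τ U)⁻¹ := by
          rw [h1, mul_assoc, mul_inv_cancel₀ h2, mul_one]
        rw [h3]
        exact E1.mul_mem (E1.sub_mem hpq (sτ _ hpq)) (E1.inv_mem (E1.sub_mem gU gτU))
      refine ⟨?_, hq⟩
      apply hL
      have h4 : algebraMap K E p = (algebraMap K E p + algebraMap K E q * U) -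
        algebraMap K E q * U := by ring
      rw [h4]
      exact E1.sub_mem hpq (E1.mul_mem hq gU)
    have hab : algebraMap K E a + algebraMap K E b * U ∈ E1 := by
      have h4 : algebraMap K E a + algebraMap K E b * U =
          x - (algebraMap K E c + algebraMap K E d * U) * W := by rw [hxe]; ring
      rw [h4]
      exact E1.sub_mem hx (E1.mul_mem hy gW)
    obtain ⟨hc, hd⟩ := hlin c d hy
    obtain ⟨ha, hb⟩ := hlin a b hab
    exact ⟨⟨a, ha⟩, ⟨b, hb⟩, ⟨c, hc⟩, ⟨d, hd⟩, hxe⟩
  -- the subalgebra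
  let P : D → Prop := fun x => ∃ e0 ∈ E1, ∃ e1 ∈ E1, ∃ e2 ∈ E1, ∃ e3 ∈ E1,
    x = ι e0 + ι e1 * u + ι e2 * w + ι e3 * (u * w)
  have Padd : ∀ x y, P x → P y → P (x + y) := by
    rintro _ _ ⟨a0, ha0, a1, ha1, a2, ha2, a3, ha3, rfl⟩ ⟨b0, hb0, b1, hb1, b2, hb2, b3, hb3, rfl⟩
    refine ⟨a0 + b0, E1.add_mem ha0 hb0, a1 + b1, E1.add_mem ha1 hb1, a2 + b2, E1.add_mem ha2 hb2,
      a3 + b3, E1.add_mem ha3 hb3, ?_⟩
    simp only [map_add, add_mul]
    abel
  have Pe : ∀ e ∈ E1, ∀ x, P x → P (ι e * x) := by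
    rintro e he _ ⟨a0, ha0, a1, ha1, a2, ha2, a3, ha3, rfl⟩
    refine ⟨e * a0, E1.mul_mem he ha0, e * a1, E1.mul_mem he ha1, e * a2, E1.mul_mem he ha2,
      e * a3, E1.mul_mem he ha3, ?_⟩
    simp only [map_mul, mul_add, mul_assoc]
  have Pu : ∀ x, P x → P (u * x) := by
    rintro _ ⟨a0, ha0, a1, ha1, a2, ha2, a3, ha3, rfl⟩
    refine ⟨σ a1 * U, E1.mul_mem (sσ _ ha1) gU, σ a0, sσ _ ha0, σ a3 * U,
      E1.mul_mem (sσ _ ha3) gU, σ a2, sσ _ ha2, ?_⟩
    have t1 : u * (ι a1 * u) = ι (σ a1 * U) := by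
      rw [← mul_assoc, uσ, mul_assoc, hu, ← map_mul]
    have t2 : u * (ι a2 * w) = ι (σ a2) * (u * w) := by
      rw [← mul_assoc, uσ, mul_assoc]
    have t3 : u * (ι a3 * (u * w)) = ι (σ a3 * U) * w := by
      rw [← mul_assoc, uσ, mul_assoc, ← mul_assoc u u w, hu, ← mul_assoc, ← map_mul]
    rw [mul_add, mul_add, mul_add, t1, t2, t3, uσ]
    abel
  have Pw : ∀ x, P x → P (w * x) := by
    rintro _ ⟨a0, ha0, a1, ha1, a2, ha2, a3, ha3, rfl⟩
    refine ⟨τ a2 * W, E1.mul_mem (sτ _ ha2) gW, τ a3 * z⁻¹ * σ W,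
      E1.mul_mem (E1.mul_mem (sτ _ ha3) (E1.inv_mem gz)) gσW, τ a0, sτ _ ha0, τ a1 * z⁻¹,
      E1.mul_mem (sτ _ ha1) (E1.inv_mem gz), ?_⟩
    have t1 : w * (ι a1 * u) = ι (τ a1 * z⁻¹) * (u * w) := by
      rw [← mul_assoc, wτ, mul_assoc, hwu, ← mul_assoc, ← map_mul]
    have t2 : w * (ι a2 * w) = ι (τ a2 * W) := by
      rw [← mul_assoc, wτ, mul_assoc, hw, ← map_mul]
    have t3 : w * (ι a3 * (u * w)) = ι (τ a3 * z⁻¹ * σ W) * u := by
      rw [← mul_assoc, wτ, mul_assoc, ← mul_assoc w u w, hwu, mul_assoc, mul_assoc u w w, hw, uσ,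
        ← mul_assoc, ← mul_assoc, ← map_mul, ← map_mul]
    rw [mul_add, mul_add, mul_add, t1, t2, t3, wτ]
    abel
  have Pmul : ∀ x y, P x → P y → P (x * y) := by
    rintro _ y ⟨a0, ha0, a1, ha1, a2, ha2, a3, ha3, rfl⟩ hy
    have e : (ι a0 + ι a1 * u + ι a2 * w + ι a3 * (u * w)) * y =
        ι a0 * y + ι a1 * (u * y) + ι a2 * (w * y) + ι a3 * (u * (w * y)) := by noncomm_ring
    rw [e]
    exact Padd _ _ (Padd _ _ (Padd _ _ (Pe _ ha0 _ hy) (Pe _ ha1 _ (Pu _ hy)))
      (Pe _ ha2 _ (Pw _ hy))) (Pe _ ha3 _ (Pu _ (Pw _ hy)))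
  let B : Subalgebra L D :=
    { carrier := {x | P x}
      mul_mem' := fun {a b} ha hb => Pmul a b ha hb
      add_mem' := fun {a b} ha hb => Padd a b ha hb
      algebraMap_mem' := fun r => by
        refine ⟨algebraMap K E r, r.2, 0, E1.zero_mem, 0, E1.zero_mem, 0, E1.zero_mem, ?_⟩
        rw [map_zero, zero_mul, zero_mul, zero_mul, add_zero, add_zero, add_zero, AlgHom.commutes]
        rfl }
  -- spanning family
  let fam : Fin 4 × Fin 4 → D := fun p => ι (![1, U, W, U * W] p.1) * (![1, u, w, u * w] p.2)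
  have hfam : ∀ e ∈ E1, ∀ j, ι e * (![1, u, w, u * w] j) ∈ Submodule.span L (Set.range fam) := by
    intro e he j
    obtain ⟨a, b, c, d, rfl⟩ := hE1 e he
    have h1 : ι (algebraMap K E a + algebraMap K E b * U +
        (algebraMap K E c + algebraMap K E d * U) * W) * (![1, u, w, u * w] j) =
        a • fam (0, j) + b • fam (1, j) + (c • fam (2, j) + d • fam (3, j)) := by
      have hs : ∀ (c : L) (x : D), c • x = algebraMap K D c * x := by
        intro c x
        rw [← Algebra.smul_def]; rfl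
      simp only [hs, fam, map_add, map_mul, AlgHom.commutes, Matrix.cons_val_zero,
        Matrix.cons_val_one, Matrix.cons_val, map_one, one_mul]
      noncomm_ring
    rw [h1]
    exact Submodule.add_mem _ (Submodule.add_mem _
      (Submodule.smul_mem _ _ (Submodule.subset_span ⟨_, rfl⟩))
      (Submodule.smul_mem _ _ (Submodule.subset_span ⟨_, rfl⟩)))
      (Submodule.add_mem _ (Submodule.smul_mem _ _ (Submodule.subset_span ⟨_, rfl⟩))
      (Submodule.smul_mem _ _ (Submodule.subset_span ⟨_, rfl⟩)))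
  have hBspan : Subalgebra.toSubmodule B ≤ Submodule.span L (Set.range fam) := by
    rintro _ ⟨a0, ha0, a1, ha1, a2, ha2, a3, ha3, rfl⟩
    have s0 := hfam a0 ha0 0
    have s1 := hfam a1 ha1 1
    have s2 := hfam a2 ha2 2
    have s3 := hfam a3 ha3 3
    simp only [Matrix.cons_val_zero, Matrix.cons_val_one, Matrix.cons_val, mul_one] at s0 s1 s2 s3
    exact Submodule.add_mem _ (Submodule.add_mem _ (Submodule.add_mem _ s0 s1) s2) s3
  have hfd : FiniteDimensional L (Submodule.span L (Set.range fam)) :=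
    FiniteDimensional.span_of_finite L (Set.finite_range fam)
  have hBfd : FiniteDimensional L B := Submodule.finiteDimensional_of_le hBspan
  have hB16 : finrank L B ≤ 4 ^ 2 := by
    have h1 : finrank L (Subalgebra.toSubmodule B) ≤ finrank L (Submodule.span L (Set.range fam)) :=
      Submodule.finrank_mono hBspan
    have h2 := finrank_range_le_card (R := L) fam
    have h3 : Fintype.card (Fin 4 × Fin 4) = 4 ^ 2 := by simp
    rw [h3] at h2
    exact h1.trans h2
  have hspan : Submodule.span K (B : Set D) = ⊤ := by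
    rw [eq_top_iff]
    intro x _
    obtain ⟨e0, e1, e2, e3, rfl⟩ := hDs x
    have hB1 : ∀ (g : E) (hg : g ∈ E1) (j : Fin 4), ι g * (![1, u, w, u * w] j) ∈ B := by
      intro g hg j
      have P1 : P 1 := ⟨1, E1.one_mem, 0, E1.zero_mem, 0, E1.zero_mem, 0, E1.zero_mem, by simp⟩
      have h1 : P (![1, u, w, u * w] j) := by
        fin_cases j
        · exact P1
        · have := Pu _ P1; rwa [mul_one] at this
        · have := Pw _ P1; rwa [mul_one] at this
        · have := Pu _ (Pw _ P1); rwa [mul_one] at this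
      exact Pe g hg _ h1
    have key : ∀ (e : E) (j : Fin 4), ι e * (![1, u, w, u * w] j) ∈
        Submodule.span K (B : Set D) := by
      intro e j
      obtain ⟨a, b, c, d, rfl⟩ := hE e
      have h1 : ι (algebraMap K E a + algebraMap K E b * U +
        (algebraMap K E c + algebraMap K E d * U) * W) * (![1, u, w, u * w] j) =
        a • (ι 1 * (![1, u, w, u * w] j)) + b • (ι U * (![1, u, w, u * w] j)) +
          (c • (ι W * (![1, u, w, u * w] j)) + d • (ι (U * W) * (![1, u, w, u * w] j))) := by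
        simp only [Algebra.smul_def, map_add, map_mul, AlgHom.commutes, map_one, one_mul]
        noncomm_ring
      rw [h1]
      exact Submodule.add_mem _ (Submodule.add_mem _
        (Submodule.smul_mem _ _ (Submodule.subset_span (hB1 _ E1.one_mem j)))
        (Submodule.smul_mem _ _ (Submodule.subset_span (hB1 _ gU j))))
        (Submodule.add_mem _ (Submodule.smul_mem _ _ (Submodule.subset_span (hB1 _ gW j)))
        (Submodule.smul_mem _ _ (Submodule.subset_span (hB1 _ (E1.mul_mem gU gW) j))))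
    have s0 := key e0 0
    have s1 := key e1 1
    have s2 := key e2 2
    have s3 := key e3 3
    simp only [Matrix.cons_val_zero, Matrix.cons_val_one, Matrix.cons_val, mul_one] at s0 s1 s2 s3
    exact Submodule.add_mem _ (Submodule.add_mem _ (Submodule.add_mem _ s0 s1) s2) s3
  refine ⟨L, def_div hD (by norm_num) B hspan hB16, ?_⟩
  exact (trdeg_comapK E1).trans (by simpa using trdeg_adjoin_le (F := F) gens)

end

end helper53.ED
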