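import Mathlib
import Pool.Agent.helper53.ED.UB4
import Pool.Agent.helper53.ED.GenAlbert
import Pool.Agent.helper53.ED.Final

namespace helper53.ED

open Module
open scoped TensorProduct IsMulCommutative

universe u

section

variable {K D : Type u} [Field K] [DivisionRing D] [Algebra K D] [CharP K 2]

omit [CharP K 2] in
theorem ASP.alphaK {α β u w : D} (P : ASP K K α β u w) (c : K) : α ≠ algebraMap K D c := by
  intro h
  have h1 := P.ua
  rw [h, ← Algebra.commutes, add_mul, one_mul, left_eq_add] at h1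
  exact P.hu h1

omit [CharP K 2] in
theorem ASP.betaK {α β u w : D} (P : ASP K K α β u w) (c : K) : β ≠ algebraMap K D c := by
  intro h
  have h1 := P.wb
  rw [h, ← Algebra.commutes, add_mul, one_mul, left_eq_add] at h1
  exact P.hw h1

omit [CharP K 2] in
/-- square of an Artin–Schreier element is not in K -/
theorem as_sq_notK {β : D} {b : K} (hb : β * β + β = algebraMap K D b)
    (hβ : ∀ c : K, β ≠ algebraMap K D c) (c : K) : β * β ≠ algebraMap K D c := by
  intro h
  apply hβ (b - c)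
  rw [map_sub, ← hb, ← h]
  abel

omit [CharP K 2] in
/-- One can arrange that the squares are not in `K`. -/
theorem asp_improve {α β u w : D} (P : ASP K K α β u w) :
    ∃ u' w' : D, ASP K K α β u' w' ∧ (∀ c : K, u' * u' ≠ algebraMap K D c) ∧
      ∀ c : K, w' * w' ≠ algebraMap K D c := by
  obtain ⟨a, ha⟩ := P.ha
  obtain ⟨b, hb⟩ := P.hb
  have hα0 : α ≠ 0 := fun h => P.alphaK 0 (by rw [h, map_zero])
  have hβ0 : β ≠ 0 := fun h => P.betaK 0 (by rw [h, map_zero])
  -- first fix u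
  obtain ⟨u', hu'0, hu'a, hu'b, hu'K⟩ : ∃ u' : D, u' ≠ 0 ∧ u' * α = (α + 1) * u' ∧
      u' * β = β * u' ∧ ∀ c : K, u' * u' ≠ algebraMap K D c := by
    by_cases h : ∃ c : K, u * u = algebraMap K D c
    · obtain ⟨k, hk⟩ := h
      refine ⟨β * u, mul_ne_zero hβ0 P.hu, skew_mul P.comm.symm P.ua, ?_, ?_⟩
      · rw [mul_assoc, P.ub]
      · intro c hc
        have hk0 : k ≠ 0 := by
          rintro rfl
          rw [map_zero] at hk
          exact mul_ne_zero P.hu P.hu hk
        have h1 : β * u * (β * u) = k • (β * β) := by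
          calc β * u * (β * u) = β * (u * β) * u := by noncomm_ring
            _ = β * β * (u * u) := by rw [P.ub]; noncomm_ring
            _ = _ := by rw [hk, ← Algebra.commutes, Algebra.smul_def]
        rw [h1] at hc
        apply as_sq_notK hb P.betaK (k⁻¹ * c)
        rw [map_mul, ← hc, ← Algebra.smul_def, smul_smul, inv_mul_cancel₀ hk0, one_smul]
    · push Not at h
      exact ⟨u, P.hu, P.ua, P.ub, h⟩
  obtain ⟨w', hw'0, hw'a, hw'b, hw'K⟩ : ∃ w' : D, w' ≠ 0 ∧ w' * α = α * w' ∧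
      w' * β = (β + 1) * w' ∧ ∀ c : K, w' * w' ≠ algebraMap K D c := by
    by_cases h : ∃ c : K, w * w = algebraMap K D c
    · obtain ⟨k, hk⟩ := h
      refine ⟨α * w, mul_ne_zero hα0 P.hw, ?_, skew_mul P.comm P.wb, ?_⟩
      · rw [mul_assoc, P.wa]
      · intro c hc
        have hk0 : k ≠ 0 := by
          rintro rfl
          rw [map_zero] at hk
          exact mul_ne_zero P.hw P.hw hk
        have h1 : α * w * (α * w) = k • (α * α) := by
          calc α * w * (α * w) = α * (w * α) * w := by noncomm_ring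
            _ = α * α * (w * w) := by rw [P.wa]; noncomm_ring
            _ = _ := by rw [hk, ← Algebra.commutes, Algebra.smul_def]
        rw [h1] at hc
        apply as_sq_notK ha P.alphaK (k⁻¹ * c)
        rw [map_mul, ← hc, ← Algebra.smul_def, smul_smul, inv_mul_cancel₀ hk0, one_smul]
    · push Not at h
      exact ⟨w, P.hw, P.wa, P.wb, h⟩
  exact ⟨u', w', ⟨P.comm, P.ha, P.hb, hu'0, hw'0, hu'a, hu'b, hw'a, hw'b⟩, hu'K, hw'K⟩

omit [Algebra K D] [CharP K 2] [Field K] in
theorem as_dec_comm (h2 : (2 : D) = 0) {α a w x γ : D} (ha : α * α + α = a)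
    (hac : ∀ x, a * x = x * a) (hw : w * α = (α + 1) * w) (hw0 : w ≠ 0) (hγα : γ * α = α * γ)
    (hγw : γ * w = w * γ) (hγx : γ * x = x * γ) :
    ∃ p q : D, p * α = α * p ∧ q * α = α * q ∧ p * γ = γ * p ∧ q * γ = γ * q ∧ x = p + q * w := by
  have aa : ∀ x : D, x + x = 0 := fun x => by rw [← two_mul, h2, zero_mul]
  have h3 := as1 h2 ha (hac x)
  have e : w * (α + 1) = α * w := by
    rw [mul_add, hw, mul_one, add_mul, one_mul, add_assoc, aa, add_zero]
  have h4 : w⁻¹ * α = (α + 1) * w⁻¹ := by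
    have : w * (w⁻¹ * α) = w * ((α + 1) * w⁻¹) := by
      rw [← mul_assoc, mul_inv_cancel₀ hw0, one_mul, ← mul_assoc, e, mul_assoc,
        mul_inv_cancel₀ hw0, mul_one]
    exact mul_left_cancel₀ hw0 this
  have c1 : Commute γ α := hγα
  have c2 : Commute γ w := hγw
  have c3 : Commute γ x := hγx
  have c4 : Commute γ (α * x + x * α) := (c1.mul_right c3).add_right (c3.mul_right c1)
  refine ⟨α * x + x * α + x, (α * x + x * α) * w⁻¹, as2 ha (hac x), as3 h2 h3 h4,
    (c4.add_right c3).symm, (c4.mul_right c2.inv_right₀).symm, ?_⟩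
  rw [mul_assoc, inv_mul_cancel₀ hw0, mul_one]
  have : α * x + x * α + x + (α * x + x * α) = x + 2 * (α * x + x * α) := by noncomm_ring
  rw [this, h2, zero_mul, add_zero]

omit [CharP K 2] in
/-- Conjugation on a subalgebra. -/
def conjHom (C : Subalgebra K D) {x : D} (x0 : x ≠ 0) (hx : ∀ c ∈ C, x * c * x⁻¹ ∈ C) :
    C →ₐ[K] C where
  toFun c := ⟨x * c * x⁻¹, hx c c.2⟩
  map_one' := by
    apply Subtype.ext
    show x * ((1 : C) : D) * x⁻¹ = ((1 : C) : D)
    rw [Subalgebra.coe_one, mul_one, mul_inv_cancel₀ x0]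
  map_mul' a b := by
    apply Subtype.ext
    show x * ((a * b : C) : D) * x⁻¹ = (x * a * x⁻¹) * (x * b * x⁻¹)
    rw [Subalgebra.coe_mul]
    calc x * ((a : D) * b) * x⁻¹ = x * a * (x⁻¹ * x) * b * x⁻¹ := by
          rw [inv_mul_cancel₀ x0]; noncomm_ring
      _ = _ := by noncomm_ring
  map_zero' := by
    apply Subtype.ext
    show x * ((0 : C) : D) * x⁻¹ = ((0 : C) : D)
    rw [Subalgebra.coe_zero, mul_zero, zero_mul]
  map_add' a b := by
    apply Subtype.ext
    show x * ((a + b : C) : D) * x⁻¹ = (x * a * x⁻¹) + (x * b * x⁻¹)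
    rw [Subalgebra.coe_add]
    noncomm_ring
  commutes' r := by
    apply Subtype.ext
    show x * (algebraMap K D r) * x⁻¹ = algebraMap K D r
    rw [← Algebra.commutes, mul_assoc, mul_inv_cancel₀ x0, mul_one]

/-- A degree four algebra with a pair of symbols is defined over a small field. -/
theorem asp_def {F : Type u} [Field F] [Algebra F K] (hD : IsCSA 4 K D) {α β u w : D}
    (P : ASP K K α β u w) (hUK : ∀ c : K, u * u ≠ algebraMap K D c)
    (hWK : ∀ c : K, w * w ≠ algebraMap K D c) :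
    ∃ L : IntermediateField F K, DefinedOver 4 L D ∧ Algebra.trdeg F L ≤ 5 := by
  have h16 : finrank K D = 16 := by rw [hD.finrank]; norm_num
  have hfin : FiniteDimensional K D := FiniteDimensional.of_finrank_pos (by omega)
  have h2 : (2 : D) = 0 := two_eq K D
  have aa : ∀ x : D, x + x = 0 := fun x => add_self_eq K x
  obtain ⟨a0, ha⟩ := P.ha
  obtain ⟨b0, hb⟩ := P.hb
  have hac : ∀ x, algebraMap K D a0 * x = x * algebraMap K D a0 := fun x => Algebra.commutes a0 x
  have hbc : ∀ x, algebraMap K D b0 * x = x * algebraMap K D b0 := fun x => Algebra.commutes b0 x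
  let C : Subalgebra K D := Subalgebra.centralizer K {α, β}
  have hC : ∀ x, x ∈ C ↔ (x * α = α * x ∧ x * β = β * x) := by
    intro x
    rw [Subalgebra.mem_centralizer_iff]
    simp only [Set.mem_insert_iff, Set.mem_singleton_iff, forall_eq_or_imp, forall_eq]
    rw [eq_comm, @eq_comm _ (β * x)]
  have hCj : ∀ x, x ∈ C ↔ (Cj α x (0 : K) ∧ Cj β x (0 : K)) := by
    intro x
    rw [hC, Cj_zero, Cj_zero]
  have ua : Cj α u (1 : K) := by unfold Cj; rw [map_one]; exact P.ua
  have ub : Cj β u (0 : K) := Cj_zero.mpr P.ub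
  have wa : Cj α w (0 : K) := Cj_zero.mpr P.wa
  have wb : Cj β w (1 : K) := by unfold Cj; rw [map_one]; exact P.wb
  have hmc : IsMulCommutative C := ⟨⟨fun x y => Subtype.ext
    (cent_comm h16 P ((hC _).mp x.2).1 ((hC _).mp x.2).2 ((hC _).mp y.2).1 ((hC _).mp y.2).2)⟩⟩
  let fC : Field C := fieldOfFiniteDimensional K C
  let aC : Algebra F C := ((algebraMap K C).comp (algebraMap F K)).toAlgebra
  have tC : IsScalarTower F K C := IsScalarTower.of_algebraMap_eq (fun _ => rfl)
  have hu' : ∀ c ∈ C, u * c * u⁻¹ ∈ C := by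
    intro c hc
    rw [hCj] at hc ⊢
    exact ⟨ua.conj hc.1 P.hu, ub.conj hc.2 P.hu⟩
  have hw' : ∀ c ∈ C, w * c * w⁻¹ ∈ C := by
    intro c hc
    rw [hCj] at hc ⊢
    exact ⟨wa.conj hc.1 P.hw, wb.conj hc.2 P.hw⟩
  let σ : C ≃ₐ[K] C := AlgEquiv.ofBijective (conjHom C P.hu hu') (AlgHom.bijective _)
  let τ : C ≃ₐ[K] C := AlgEquiv.ofBijective (conjHom C P.hw hw') (AlgHom.bijective _)
  have hαC : α ∈ C := (hC _).mpr ⟨rfl, P.comm⟩
  have hβC : β ∈ C := (hC _).mpr ⟨P.comm.symm, rfl⟩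
  have hUC : u * u ∈ C := (hCj _).mpr ⟨ua.sq, ub.sq⟩
  have hWC : w * w ∈ C := (hCj _).mpr ⟨wa.sq, wb.sq⟩
  have hzC : u * w * u⁻¹ * w⁻¹ ∈ C := (hCj _).mpr ⟨ua.comm wa P.hu P.hw, ub.comm wb P.hu P.hw⟩
  -- coordinates in the centralizer
  have hco : ∀ x ∈ C, ∃ p q r s : K, x = p • (1 : D) + q • α + r • β + s • (α * β) := by
    intro x hx
    have h1 := cent_span h16 P ((hC _).mp hx).1 ((hC _).mp hx).2
    rw [Submodule.mem_span_range_iff_exists_fun] at h1
    obtain ⟨c, hc⟩ := h1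
    refine ⟨c 0, c 1, c 2, c 3, ?_⟩
    rw [← hc]
    simp [Fin.sum_univ_four]
  have cα : u * α = α * u + u := by rw [P.ua, add_mul, one_mul]
  have cβ : w * β = β * w + w := by rw [P.wb, add_mul, one_mul]
  obtain ⟨p1, q1, hUf⟩ : ∃ p q : K, u * u = p • (1 : D) + q • β := by
    obtain ⟨p, q, r, s, hx⟩ := hco _ hUC
    have h3 : q • (1 : D) + s • β = 0 := by
      have h4 : (q • (1 : D) + s • β) * u = u * (u * u) - u * u * u := by
        rw [hx]
        simp only [mul_add, add_mul, mul_smul_comm, smul_mul_assoc, mul_one, one_mul]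
        rw [← mul_assoc u α β, cα, add_mul, mul_assoc α u β, P.ub]
        simp only [smul_add, mul_assoc]
        abel
      rw [mul_assoc u u u, sub_self] at h4
      exact (mul_eq_zero.mp h4).resolve_right P.hu
    have hs : s = 0 := by
      by_contra hs
      apply P.betaK (-(s⁻¹ * q))
      have h5 : β = s⁻¹ • (s • β) := by rw [smul_smul, inv_mul_cancel₀ hs, one_smul]
      rw [h5, eq_neg_of_add_eq_zero_right h3, smul_neg, smul_smul, map_neg,
        Algebra.algebraMap_eq_smul_one]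
    have hq : q = 0 := by
      rw [hs, zero_smul, add_zero] at h3
      exact (smul_eq_zero.mp h3).resolve_right one_ne_zero
    refine ⟨p, r, ?_⟩
    rw [hx, hs, hq]; simp
  obtain ⟨p2, q2, hWf⟩ : ∃ p q : K, w * w = p • (1 : D) + q • α := by
    obtain ⟨p, q, r, s, hx⟩ := hco _ hWC
    have h3 : r • (1 : D) + s • α = 0 := by
      have h4 : (r • (1 : D) + s • α) * w = w * (w * w) - w * w * w := by
        rw [hx]
        simp only [mul_add, add_mul, mul_smul_comm, smul_mul_assoc, mul_one, one_mul]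
        rw [← mul_assoc w α β, P.wa, mul_assoc α w β, cβ]
        simp only [smul_add, mul_assoc, mul_add]
        abel
      rw [mul_assoc w w w, sub_self] at h4
      exact (mul_eq_zero.mp h4).resolve_right P.hw
    have hs : s = 0 := by
      by_contra hs
      apply P.alphaK (-(s⁻¹ * r))
      have h5 : α = s⁻¹ • (s • α) := by rw [smul_smul, inv_mul_cancel₀ hs, one_smul]
      rw [h5, eq_neg_of_add_eq_zero_right h3, smul_neg, smul_smul, map_neg,
        Algebra.algebraMap_eq_smul_one]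
    have hq : r = 0 := by
      rw [hs, zero_smul, add_zero] at h3
      exact (smul_eq_zero.mp h3).resolve_right one_ne_zero
    refine ⟨p, q, ?_⟩
    rw [hx, hs, hq]; simp
  have hq1 : q1 ≠ 0 := by
    rintro rfl
    apply hUK p1
    rw [hUf, zero_smul, add_zero, Algebra.algebraMap_eq_smul_one]
  have hq2 : q2 ≠ 0 := by
    rintro rfl
    apply hWK p2
    rw [hWf, zero_smul, add_zero, Algebra.algebraMap_eq_smul_one]
  let αC : C := ⟨α, hαC⟩
  let βC : C := ⟨β, hβC⟩
  let Uc : C := ⟨u * u, hUC⟩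
  let Wc : C := ⟨w * w, hWC⟩
  let zc : C := ⟨u * w * u⁻¹ * w⁻¹, hzC⟩
  have eβ : βC = algebraMap K C (-(q1⁻¹ * p1)) + algebraMap K C q1⁻¹ * Uc := by
    apply Subtype.ext
    show β = algebraMap K D (-(q1⁻¹ * p1)) + algebraMap K D q1⁻¹ * (u * u)
    rw [hUf, ← Algebra.smul_def, smul_add, smul_smul, smul_smul, inv_mul_cancel₀ hq1, one_smul,
      map_neg, Algebra.algebraMap_eq_smul_one]
    abel
  have eα : αC = algebraMap K C (-(q2⁻¹ * p2)) + algebraMap K C q2⁻¹ * Wc := by
    apply Subtype.ext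
    show α = algebraMap K D (-(q2⁻¹ * p2)) + algebraMap K D q2⁻¹ * (w * w)
    rw [hWf, ← Algebra.smul_def, smul_add, smul_smul, smul_smul, inv_mul_cancel₀ hq2, one_smul,
      map_neg, Algebra.algebraMap_eq_smul_one]
    abel
  refine crossed_def (F := F) (K := K) (E := C) hD C.val σ τ u w Uc Wc zc P.hu P.hw rfl rfl ?_ ?_ ?_ ?_ ?_
    ?_ ?_
  · show u * w = u * w * u⁻¹ * w⁻¹ * (w * u)
    rw [← mul_assoc, mul_assoc (u * w * u⁻¹), inv_mul_cancel₀ P.hw, mul_one, mul_assoc (u * w),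
      inv_mul_cancel₀ P.hu, mul_one]
  · intro x
    show u * (x : D) = u * x * u⁻¹ * u
    rw [mul_assoc (u * (x : D)), inv_mul_cancel₀ P.hu, mul_one]
  · intro x
    show w * (x : D) = w * x * w⁻¹ * w
    rw [mul_assoc (w * (x : D)), inv_mul_cancel₀ P.hw, mul_one]
  · intro x
    obtain ⟨x0, x1, x2, x3, hx⟩ := hco x x.2
    have hx' : x = algebraMap K C x0 + algebraMap K C x1 * αC + algebraMap K C x2 * βC +
        algebraMap K C x3 * (αC * βC) := by
      apply Subtype.ext
      rw [hx]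
      show _ = algebraMap K D x0 + algebraMap K D x1 * α + algebraMap K D x2 * β +
        algebraMap K D x3 * (α * β)
      simp only [Algebra.smul_def, mul_one]
    refine ⟨x0 + x1 * (-(q2⁻¹ * p2)) + x2 * (-(q1⁻¹ * p1)) +
      x3 * ((-(q2⁻¹ * p2)) * (-(q1⁻¹ * p1))), x2 * q1⁻¹ + x3 * ((-(q2⁻¹ * p2)) * q1⁻¹),
      x1 * q2⁻¹ + x3 * (q2⁻¹ * (-(q1⁻¹ * p1))), x3 * (q2⁻¹ * q1⁻¹), ?_⟩
    rw [hx', eα, eβ]
    simp only [map_add, map_mul]
    ring
  · intro x
    obtain ⟨p, q, hp, hq, hx⟩ := as_dec h2 ha hac P.ua P.hu x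
    obtain ⟨p0, p1', h01, h02, h03, h04, h05⟩ := as_dec_comm h2 hb hbc P.wb P.hw P.comm P.wa.symm
      hp.symm
    obtain ⟨q0, q1', k01, k02, k03, k04, k05⟩ := as_dec_comm h2 hb hbc P.wb P.hw P.comm P.wa.symm
      hq.symm
    have hz'C : w * u * w⁻¹ * u⁻¹ ∈ C :=
      (hCj _).mpr ⟨wa.comm ua P.hw P.hu, wb.comm ub P.hw P.hu⟩
    refine ⟨⟨p0, (hC _).mpr ⟨h03, h01⟩⟩, ⟨q0, (hC _).mpr ⟨k03, k01⟩⟩,
      ⟨p1', (hC _).mpr ⟨h04, h02⟩⟩, ⟨q1' * (w * u * w⁻¹ * u⁻¹),
        C.mul_mem ((hC _).mpr ⟨k04, k02⟩) hz'C⟩, ?_⟩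
    show x = p0 + q0 * u + p1' * w + q1' * (w * u * w⁻¹ * u⁻¹) * (u * w)
    have e : q1' * (w * u * w⁻¹ * u⁻¹) * (u * w) = q1' * (w * u) := by
      calc q1' * (w * u * w⁻¹ * u⁻¹) * (u * w) = q1' * (w * u) * w⁻¹ * (u⁻¹ * u) * w := by
            noncomm_ring
        _ = q1' * (w * u) * (w⁻¹ * w) := by rw [inv_mul_cancel₀ P.hu]; noncomm_ring
        _ = _ := by rw [inv_mul_cancel₀ P.hw, mul_one]
    rw [e, hx, h05, k05]
    noncomm_ring
  · intro h
    have h1 : w * (u * u) * w⁻¹ = u * u := congrArg Subtype.val h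
    have h3 : w * (u * u) = u * u * w := by
      rw [← h1]
      rw [mul_assoc (w * (u * u)), inv_mul_cancel₀ P.hw, mul_one, h1]
    rw [hUf] at h3
    simp only [mul_add, add_mul, mul_smul_comm, smul_mul_assoc, mul_one, one_mul, cβ,
      smul_add] at h3
    have h4 : q1 • w = 0 := by
      have := sub_eq_zero.mpr h3
      rw [← this]; abel
    rcases smul_eq_zero.mp h4 with h5 | h5
    · exact hq1 h5
    · exact P.hw h5
  · intro h
    have h1 : u * (w * w) * u⁻¹ = w * w := congrArg Subtype.val h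
    have h3 : u * (w * w) = w * w * u := by
      rw [← h1]
      rw [mul_assoc (u * (w * w)), inv_mul_cancel₀ P.hu, mul_one, h1]
    rw [hWf] at h3
    simp only [mul_add, add_mul, mul_smul_comm, smul_mul_assoc, mul_one, one_mul, cα,
      smul_add] at h3
    have h4 : q2 • u = 0 := by
      have := sub_eq_zero.mpr h3
      rw [← this]; abel
    rcases smul_eq_zero.mp h4 with h5 | h5
    · exact hq2 h5
    · exact P.hu h5

end

/-- Division algebras of degree four in characteristic two. -/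
theorem div4_def {F K D : Type u} [Field F] [Field K] [Algebra F K] [CharP K 2] [DivisionRing D]
    [Algebra K D] (hD : IsCSA 4 K D) :
    ∃ L : IntermediateField F K, DefinedOver 4 L D ∧ Algebra.trdeg F L ≤ 5 := by
  have hc := hD.central
  have h16 : finrank K D = 16 := by rw [hD.finrank]; norm_num
  obtain ⟨r⟩ := exists_rc K K D h16
  obtain ⟨α, β, u, w, P⟩ := gen_albert r h16
  obtain ⟨u', w', P', hU, hW⟩ := asp_improve P
  exact asp_def hD P' hU hW

end helper53.ED
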