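import Mathlib
import Pool.Agent.helper53.ED.UB4b

namespace helper53.ED

open Module
open scoped TensorProduct

universe u

section quat

variable {K H : Type u} [Field K] [DivisionRing H] [Algebra K H]

theorem q_li {x y : H} (hx : ∀ c : K, x ≠ algebraMap K H c) (hxy : x * y ≠ y * x) :
    LinearIndependent K ![(1 : H), x, y, x * y] := by
  rw [Fintype.linearIndependent_iff]
  intro g hg
  simp only [Fin.sum_univ_four, Matrix.cons_val_zero, Matrix.cons_val_one, Matrix.cons_val] at hg
  have hlin : ∀ a b : K, a • (1 : H) + b • x = 0 → a = 0 ∧ b = 0 := by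
    intro a b h
    have hb : b = 0 := by
      by_contra hb
      apply hx (-(b⁻¹ * a))
      have h5 : x = b⁻¹ • (b • x) := by rw [smul_smul, inv_mul_cancel₀ hb, one_smul]
      rw [h5, eq_neg_of_add_eq_zero_right h, smul_neg, smul_smul, map_neg,
        Algebra.algebraMap_eq_smul_one]
    refine ⟨?_, hb⟩
    rw [hb, zero_smul, add_zero] at h
    exact (smul_eq_zero.mp h).resolve_right one_ne_zero
  have h1 : (g 0 • (1 : H) + g 1 • x) + (g 2 • (1 : H) + g 3 • x) * y = 0 := by
    rw [add_mul, smul_mul_assoc, smul_mul_assoc, one_mul, ← hg]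
    abel
  have h2 : g 2 • (1 : H) + g 3 • x = 0 := by
    by_contra hne
    apply hxy
    set p := g 2 • (1 : H) + g 3 • x with hp
    set q := g 0 • (1 : H) + g 1 • x with hq
    have cp : Commute x p := by
      rw [hp]
      exact ((Commute.one_right x).smul_right _).add_right ((Commute.refl x).smul_right _)
    have cq : Commute x q := by
      rw [hq]
      exact ((Commute.one_right x).smul_right _).add_right ((Commute.refl x).smul_right _)
    have hy : y = p⁻¹ * (-q) := by
      have h3 : p * y = -q := eq_neg_of_add_eq_zero_right h1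
      rw [← h3, ← mul_assoc, inv_mul_cancel₀ hne, one_mul]
    rw [hy]
    exact (cp.inv_right₀.mul_right cq.neg_right)
  obtain ⟨h20, h30⟩ := hlin _ _ h2
  rw [h2, zero_mul, add_zero] at h1
  obtain ⟨h00, h10⟩ := hlin _ _ h1
  intro i
  fin_cases i <;> assumption

theorem q_span (h4 : finrank K H = 4) {x y : H} (hx : ∀ c : K, x ≠ algebraMap K H c)
    (hxy : x * y ≠ y * x) (z : H) :
    ∃ a b c d : K, z = a • (1 : H) + b • x + c • y + d • (x * y) := by
  have : FiniteDimensional K H := FiniteDimensional.of_finrank_pos (by omega)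
  have h1 := (q_li hx hxy).span_eq_top_of_card_eq_finrank (by simp [h4])
  have h2 : z ∈ Submodule.span K (Set.range ![(1 : H), x, y, x * y]) := by rw [h1]; trivial
  rw [Submodule.mem_span_range_iff_exists_fun] at h2
  obtain ⟨c, hc⟩ := h2
  refine ⟨c 0, c 1, c 2, c 3, ?_⟩
  rw [← hc]
  simp [Fin.sum_univ_four]

theorem q_quad (h4 : finrank K H = 4) [Algebra.IsCentral K H] {x : H}
    (hx : ∀ c : K, x ≠ algebraMap K H c) : ∃ a b : K, x * x = a • (1 : H) + b • x := by
  obtain ⟨y, hy⟩ : ∃ y : H, y * x ≠ x * y := by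
    by_contra hcon
    push Not at hcon
    obtain ⟨c, hc⟩ := mem_K_of_comm (K := K) hcon
    exact hx c hc
  obtain ⟨a, b, c, d, h⟩ := q_span h4 hx hy.symm (x * x)
  refine ⟨a, b, ?_⟩
  have h1 : (c • (1 : H) + d • x) * (x * y - y * x) = x * (x * x) - x * x * x := by
    rw [h]
    simp only [mul_add, add_mul, mul_sub, mul_smul_comm, smul_mul_assoc, mul_one, one_mul,
      mul_assoc, smul_sub]
    abel
  rw [mul_assoc x x x, sub_self] at h1
  have h2 := (mul_eq_zero.mp h1).resolve_right (sub_ne_zero.mpr hy.symm)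
  rw [h]
  have h3 : c • y + d • (x * y) = (c • (1 : H) + d • x) * y := by
    rw [add_mul, smul_mul_assoc, smul_mul_assoc, one_mul]
  rw [add_assoc, h3, h2, zero_mul, add_zero]

variable [CharP K 2]

theorem q_as (h4 : finrank K H = 4) [Algebra.IsCentral K H] :
    ∃ α : H, (∀ c : K, α ≠ algebraMap K H c) ∧ ∃ a : K, α * α + α = algebraMap K H a := by
  have h2 : (2 : H) = 0 := two_eq K H
  have aa : ∀ x : H, x + x = 0 := fun x => add_self_eq K x
  have hneg : ∀ x : H, -x = x := fun x => neg_eq_of_add_eq_zero_left (aa x)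
  have key : ∀ x : H, (∀ c : K, x ≠ algebraMap K H c) → ∀ a b : K, b ≠ 0 →
      x * x = a • (1 : H) + b • x →
      ∃ α : H, (∀ c : K, α ≠ algebraMap K H c) ∧ ∃ a : K, α * α + α = algebraMap K H a := by
    intro x hx a b hb hab
    refine ⟨b⁻¹ • x, ?_, ?_⟩
    · intro c hc
      apply hx (b * c)
      rw [map_mul, ← hc, ← Algebra.smul_def, smul_smul, mul_inv_cancel₀ hb, one_smul]
    · apply as_scale (c0 := a) hb
      rw [hab]
      have : a • (1 : H) + b • x + b • x + a • (1 : H) =
        (a • (1 : H) + a • (1 : H)) + (b • x + b • x) := by abel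
      rw [this, aa, aa, add_zero]
  obtain ⟨x, hx⟩ : ∃ x : H, ∀ c : K, x ≠ algebraMap K H c := by
    by_contra hcon
    push Not at hcon
    have : (⊥ : Subalgebra K H) = ⊤ := by
      rw [eq_top_iff]
      intro x _
      obtain ⟨c, hc⟩ := hcon x
      rw [hc]; exact Subalgebra.algebraMap_mem _ _
    have h3 := Subalgebra.bot_eq_top_iff_finrank_eq_one.mp this
    omega
  obtain ⟨a, b, hab⟩ := q_quad h4 hx
  by_cases hb : b = 0
  swap
  · exact key x hx a b hb hab
  rw [hb, zero_smul, add_zero] at hab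
  -- x is inseparable
  obtain ⟨y0, hy0⟩ : ∃ y : H, y * x ≠ x * y := by
    by_contra hcon
    push Not at hcon
    obtain ⟨c, hc⟩ := mem_K_of_comm (K := K) hcon
    exact hx c hc
  have hx0 : x ≠ 0 := fun h => hx 0 (by rw [h, map_zero])
  have hkc : ∀ y : H, y * (x * x) = (x * x) * y := fun y => by
    rw [hab, mul_smul_comm, smul_mul_assoc, mul_one, one_mul]
  set c := x * y0 + y0 * x with hc
  have hc0 : c ≠ 0 := by
    intro h
    apply hy0
    have h4 := h.trans (aa (y0 * x)).symm
    exact (add_right_cancel h4).symm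
  have hce : c * x = x * c := by
    rw [hc, add_mul, mul_add, mul_assoc y0 x x, hkc y0]
    noncomm_ring
  have hce' : c⁻¹ * x = x * c⁻¹ := inv_comm hc0 hce
  set y := y0 * (c⁻¹ * x) with hy
  have hey : x * y = (y + 1) * x := by
    have h5 : x * y + y * x = x := by
      have : x * y + y * x = c * c⁻¹ * x := by
        rw [hy, hc]
        have : y0 * (c⁻¹ * x) * x = y0 * x * (c⁻¹ * x) := by
          rw [hce']; simp only [mul_assoc]; rw [hce']
        rw [← hc, this]
        rw [hc]; noncomm_ring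
      rw [this, mul_inv_cancel₀ hc0, one_mul]
    rw [add_mul, one_mul]
    have h6 : x * y + y * x + y * x = x + y * x := by rw [h5]
    rw [add_assoc, aa, add_zero] at h6
    rw [h6]; abel
  have hyK : ∀ c : K, y ≠ algebraMap K H c := by
    intro c' hc'
    rw [hc', ← Algebra.commutes, add_mul, one_mul, left_eq_add] at hey
    exact hx0 hey
  obtain ⟨a', b', hab'⟩ := q_quad h4 hyK
  apply key y hyK a' b' ?_ hab'
  rintro rfl
  rw [zero_smul, add_zero] at hab'
  have h12 : x * (y * y) = (y + 1) * (y + 1) * x := by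
    rw [← mul_assoc, hey, mul_assoc, hey, mul_assoc]
  have i2 : (y + 1) * (y + 1) = y * y + 1 := by
    have : (y + 1) * (y + 1) = y * y + 1 + 2 * y := by noncomm_ring
    rw [this, h2, zero_mul, add_zero]
  rw [i2, hab', add_mul, mul_smul_comm, smul_mul_assoc, mul_one, one_mul, left_eq_add] at h12
  exact hx0 h12

/-- Quaternion division algebras. -/
theorem div2_def {F : Type u} [Field F] [Algebra F K] (hD : IsCSA 2 K H) :
    ∃ L : IntermediateField F K, DefinedOver 2 L H ∧ Algebra.trdeg F L ≤ 5 := by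
  have h4 : finrank K H = 4 := by rw [hD.finrank]; norm_num
  have hcen := hD.central
  have h2 : (2 : H) = 0 := two_eq K H
  have aa : ∀ x : H, x + x = 0 := fun x => add_self_eq K x
  obtain ⟨α, hα, a, ha⟩ := q_as h4
  have hac : ∀ x, algebraMap K H a * x = x * algebraMap K H a := fun x => Algebra.commutes a x
  obtain ⟨x0, hx0⟩ : ∃ x : H, x * α ≠ α * x := by
    by_contra hcon
    push Not at hcon
    obtain ⟨c, hc⟩ := mem_K_of_comm (K := K) hcon
    exact hα c hc
  obtain ⟨w, hw0, hwα⟩ : ∃ w : H, w ≠ 0 ∧ w * α = (α + 1) * w := by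
    refine ⟨α * x0 + x0 * α, ?_, as1 h2 ha (hac x0)⟩
    intro h
    apply hx0
    have h4 := h.trans (aa (x0 * α)).symm
    exact (add_right_cancel h4).symm
  have hwα' : w * α = α * w + w := by rw [hwα, add_mul, one_mul]
  have hne : α * w ≠ w * α := by
    rw [hwα']
    intro h
    exact hw0 (left_eq_add.mp h)
  obtain ⟨b, hb⟩ : ∃ b : K, w * w = algebraMap K H b := by
    apply mem_K_of_comm
    intro x
    obtain ⟨p, q, r, s, rfl⟩ := q_span h4 hα hne x
    have c1 : Commute α (w * w) := (as4 h2 hwα).symm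
    have c2 : Commute w (w * w) := (Commute.refl w).mul_right (Commute.refl w)
    exact ((((Commute.one_left _).smul_left _).add_left (c1.smul_left _)).add_left
      (c2.smul_left _)).add_left ((c1.mul_left c2).smul_left _)
  have hb' : w * w = b • (1 : H) := by rw [hb, Algebra.algebraMap_eq_smul_one]
  have ha' : α * α = a • (1 : H) + α := by
    have h5 : α * α + α + α = algebraMap K H a + α := by rw [ha]
    rw [add_assoc, aa, add_zero] at h5
    rw [h5, Algebra.algebraMap_eq_smul_one]
  let gens : Fin 2 → K := ![a, b]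
  let L : IntermediateField F K := IntermediateField.adjoin F (Set.range gens)
  have ga : a ∈ L := IntermediateField.subset_adjoin F _ ⟨0, rfl⟩
  have gb : b ∈ L := IntermediateField.subset_adjoin F _ ⟨1, rfl⟩
  let P : H → Prop := fun x => ∃ p ∈ L, ∃ q ∈ L, ∃ r ∈ L, ∃ s ∈ L,
    x = p • (1 : H) + q • α + r • w + s • (α * w)
  have Padd : ∀ x y, P x → P y → P (x + y) := by
    rintro _ _ ⟨a0, ha0, a1, ha1, a2, ha2, a3, ha3, rfl⟩ ⟨b0, hb0, b1, hb1, b2, hb2, b3, hb3, rfl⟩
    refine ⟨a0 + b0, L.add_mem ha0 hb0, a1 + b1, L.add_mem ha1 hb1, a2 + b2, L.add_mem ha2 hb2,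
      a3 + b3, L.add_mem ha3 hb3, ?_⟩
    simp only [add_smul]
    abel
  have Pe : ∀ e ∈ L, ∀ x, P x → P (e • x) := by
    rintro e he _ ⟨a0, ha0, a1, ha1, a2, ha2, a3, ha3, rfl⟩
    refine ⟨e * a0, L.mul_mem he ha0, e * a1, L.mul_mem he ha1, e * a2, L.mul_mem he ha2,
      e * a3, L.mul_mem he ha3, ?_⟩
    simp only [smul_add, smul_smul]
  have Pα : ∀ x, P x → P (α * x) := by
    rintro _ ⟨p, hp, q, hq, r, hr, s, hs, rfl⟩
    refine ⟨q * a, L.mul_mem hq ga, p + q, L.add_mem hp hq, s * a, L.mul_mem hs ga, r + s,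
      L.add_mem hr hs, ?_⟩
    have e : α * (α * w) = a • w + α * w := by
      rw [← mul_assoc, ha', add_mul, smul_mul_assoc, one_mul]
    simp only [mul_add, mul_smul_comm, mul_one, ha', e, smul_add, smul_smul, add_smul]
    abel
  have Pw : ∀ x, P x → P (w * x) := by
    rintro _ ⟨p, hp, q, hq, r, hr, s, hs, rfl⟩
    refine ⟨r * b + s * b, L.add_mem (L.mul_mem hr gb) (L.mul_mem hs gb), s * b, L.mul_mem hs gb,
      p + q, L.add_mem hp hq, q, hq, ?_⟩
    have e : w * (α * w) = b • (1 : H) + b • α := by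
      rw [← mul_assoc, hwα', add_mul, mul_assoc, hb', mul_smul_comm, mul_one]
      abel
    simp only [mul_add, mul_smul_comm, mul_one, hwα', hb', e, smul_add, smul_smul, add_smul]
    abel
  have Pmul : ∀ x y, P x → P y → P (x * y) := by
    rintro _ y ⟨a0, ha0, a1, ha1, a2, ha2, a3, ha3, rfl⟩ hy
    have e : (a0 • (1 : H) + a1 • α + a2 • w + a3 • (α * w)) * y =
        a0 • y + a1 • (α * y) + a2 • (w * y) + a3 • (α * (w * y)) := by
      simp only [add_mul, smul_mul_assoc, one_mul, mul_assoc]
    rw [e]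
    exact Padd _ _ (Padd _ _ (Padd _ _ (Pe _ ha0 _ hy) (Pe _ ha1 _ (Pα _ hy)))
      (Pe _ ha2 _ (Pw _ hy))) (Pe _ ha3 _ (Pα _ (Pw _ hy)))
  have P1 : P 1 := ⟨1, L.one_mem, 0, L.zero_mem, 0, L.zero_mem, 0, L.zero_mem, by simp⟩
  let B : Subalgebra L H :=
    { carrier := {x | P x}
      mul_mem' := fun {a b} ha hb => Pmul a b ha hb
      add_mem' := fun {a b} ha hb => Padd a b ha hb
      algebraMap_mem' := fun r => by
        have := Pe r r.2 1 P1
        rw [← Algebra.algebraMap_eq_smul_one] at this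
        exact this }
  let fam : Fin 4 → H := ![1, α, w, α * w]
  have hBspan : Subalgebra.toSubmodule B ≤ Submodule.span L (Set.range fam) := by
    rintro _ ⟨a0, ha0, a1, ha1, a2, ha2, a3, ha3, rfl⟩
    have key : ∀ (c : K) (hc : c ∈ L) (i : Fin 4), c • fam i ∈ Submodule.span L (Set.range fam) :=
      fun c hc i => Submodule.smul_mem _ (⟨c, hc⟩ : L) (Submodule.subset_span ⟨i, rfl⟩)
    exact Submodule.add_mem _ (Submodule.add_mem _ (Submodule.add_mem _ (key _ ha0 0)
      (key _ ha1 1)) (key _ ha2 2)) (key _ ha3 3)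
  have hfd : FiniteDimensional L (Submodule.span L (Set.range fam)) :=
    FiniteDimensional.span_of_finite L (Set.finite_range fam)
  have hBfd : FiniteDimensional L B := Submodule.finiteDimensional_of_le hBspan
  have hB4 : finrank L B ≤ 2 ^ 2 := by
    have h1 : finrank L (Subalgebra.toSubmodule B) ≤ finrank L (Submodule.span L (Set.range fam)) :=
      Submodule.finrank_mono hBspan
    have h2 := finrank_range_le_card (R := L) fam
    have h3 : Fintype.card (Fin 4) = 2 ^ 2 := by simp
    rw [h3] at h2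
    exact h1.trans h2
  have hspan : Submodule.span K (B : Set H) = ⊤ := by
    rw [eq_top_iff]
    intro x _
    obtain ⟨p, q, r, s, rfl⟩ := q_span h4 hα hne x
    have m0 : (1 : H) ∈ B := P1
    have m1 : α ∈ B := by have := Pα _ P1; rwa [mul_one] at this
    have m2 : w ∈ B := by have := Pw _ P1; rwa [mul_one] at this
    have m3 : α * w ∈ B := Pα _ m2
    exact Submodule.add_mem _ (Submodule.add_mem _ (Submodule.add_mem _
      (Submodule.smul_mem _ _ (Submodule.subset_span m0))
      (Submodule.smul_mem _ _ (Submodule.subset_span m1)))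
      (Submodule.smul_mem _ _ (Submodule.subset_span m2)))
      (Submodule.smul_mem _ _ (Submodule.subset_span m3))
  refine ⟨L, def_div hD (by norm_num) B hspan hB4, ?_⟩
  refine (trdeg_adjoin_le (F := F) gens).trans ?_
  norm_num

end quat

/-- Trivial division algebras. -/
theorem div1_def {F K D : Type u} [Field F] [Field K] [Algebra F K] [DivisionRing D]
    [Algebra K D] (hD : IsCSA 1 K D) :
    ∃ L : IntermediateField F K, DefinedOver 1 L D ∧ Algebra.trdeg F L ≤ 5 := by
  have h1 : finrank K D = 1 := by rw [hD.finrank]; norm_num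
  refine ⟨⊥, def_div hD one_ne_zero ⊥ ?_ ?_, ?_⟩
  · rw [eq_top_iff]
    intro x _
    have := (finrank_eq_one_iff_of_nonzero' (1 : D) one_ne_zero).mp h1 x
    obtain ⟨c, hc⟩ := this
    rw [← hc]
    exact Submodule.smul_mem _ _ (Submodule.subset_span (Subalgebra.one_mem _))
  · rw [Subalgebra.finrank_bot]; norm_num
  · have : Algebra.trdeg F (⊥ : IntermediateField F K) = 0 := trdeg_eq_zero
    rw [this]
    simp

/-- The upper bound. -/
theorem csa4_def {F K A : Type u} [Field F] [Field K] [Algebra F K] [CharP K 2] [Ring A]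
    [Algebra K A] (hA : IsCSA 4 K A) :
    ∃ L : IntermediateField F K, DefinedOver 4 L A ∧ Algebra.trdeg F L ≤ 5 := by
  have h16 : finrank K A = 16 := by rw [hA.finrank]; norm_num
  have hfin : FiniteDimensional K A := FiniteDimensional.of_finrank_pos (by omega)
  have := hA.simple
  have := hA.central
  have hart : IsArtinianRing A := IsArtinianRing.of_finite K A
  obtain ⟨n, hn, D, _, _, _, ⟨e⟩⟩ :=
    IsSimpleRing.exists_algEquiv_matrix_divisionRing_finite K A
  have hcM : Algebra.IsCentral K (Matrix (Fin n) (Fin n) D) := Algebra.IsCentral.of_algEquiv _ _ _ e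
  have hcD : Algebra.IsCentral K D := central_of_matrix hcM
  have h1 := e.toLinearEquiv.finrank_eq
  rw [h16, Module.finrank_matrix] at h1
  simp only [Fintype.card_fin] at h1
  have hn4 : n ≤ 4 := by
    by_contra hcon
    have h5 : 5 ≤ n := by omega
    have : 0 < finrank K D := finrank_pos
    have h25 : 25 ≤ n * n := by nlinarith
    nlinarith
  have hn0 : n ≠ 0 := NeZero.ne n
  have hcase : (n = 1 ∧ finrank K D = 16) ∨ (n = 2 ∧ finrank K D = 4) ∨
      (n = 4 ∧ finrank K D = 1) := by
    interval_cases n <;> omega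
  rcases hcase with ⟨rfl, hd⟩ | ⟨rfl, hd⟩ | ⟨rfl, hd⟩
  · obtain ⟨L, hL, ht⟩ := div4_def (F := F) (K := K) (D := D)
      ⟨hcD, inferInstance, by rw [hd]; norm_num⟩
    refine ⟨L, def_congr ?_ e.symm, ht⟩
    have := def_matrix (n := 1) hL (by rw [hd]; norm_num) (by norm_num)
    rwa [one_mul] at this
  · obtain ⟨L, hL, ht⟩ := div2_def (F := F) (K := K) (H := D)
      ⟨hcD, inferInstance, by rw [hd]; norm_num⟩
    refine ⟨L, def_congr ?_ e.symm, ht⟩
    exact def_matrix (n := 2) hL (by rw [hd]; norm_num) (by norm_num)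
  · obtain ⟨L, hL, ht⟩ := div1_def (F := F) (K := K) (D := D)
      ⟨hcD, inferInstance, by rw [hd]; norm_num⟩
    refine ⟨L, def_congr ?_ e.symm, ht⟩
    have := def_matrix (n := 4) hL (by rw [hd]; norm_num) (by norm_num)
    rwa [mul_one] at this

/-- The upper bound for the essential dimension. -/
theorem upper_bound (F : Type u) [Field F] [CharP F 2] : edPGL 4 F ≤ 5 := by
  unfold edPGL
  refine iSup_le fun K => iSup_le fun iK => iSup_le fun aK => iSup_le fun A => iSup_le fun iA =>
    iSup_le fun aA => iSup_le fun hA => ?_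
  have : CharP K 2 := charP_of_injective_algebraMap (algebraMap F K).injective 2
  obtain ⟨L, hL, ht⟩ := csa4_def (F := F) hA
  unfold edAlg
  refine (iInf₂_le L hL).trans ?_
  rw [Cardinal.toENat_le_ofNat]
  exact ht

end helper53.ED
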